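import Mathlib

set_option autoImplicit false

/-!
# Powers of a rational number with bounded denominators
-/

namespace Pool.Agent.R643

theorem exists_common_denom (S : Set ℚ) (hS : S.Finite) :
    ∃ M : ℤ, M ≠ 0 ∧ ∀ q ∈ S, ∃ c : ℤ, q * M = c := by
  induction S, hS using Set.Finite.induction_on with
  | empty => exact ⟨1, one_ne_zero, by simp⟩
  | @insert q S _ _ ih =>
    obtain ⟨M, hM, h⟩ := ih
    refine ⟨M * q.den, mul_ne_zero hM (by exact_mod_cast q.den_ne_zero), ?_⟩
    rintro x (rfl | hx)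
    · refine ⟨M * x.num, ?_⟩
      have := Rat.mul_den_eq_num x
      push_cast
      calc x * (M * x.den) = M * (x * x.den) := by ring
        _ = M * x.num := by rw [this]
    · obtain ⟨c, hc⟩ := h x hx
      refine ⟨c * q.den, ?_⟩
      push_cast
      rw [← mul_assoc, hc]

theorem den_dvd {q : ℚ} {M a : ℤ} (h : q * M = a) : (q.den : ℤ) ∣ M := by
  have h1 : q.num * M = a * q.den := by
    have h2 := Rat.mul_den_eq_num q
    have h3 : (q.num : ℚ) * M = a * q.den := by
      rw [← h2, ← h]; ring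
    exact_mod_cast h3
  have h2 : (q.den : ℤ) ∣ q.num * M := ⟨a, by rw [h1, mul_comm]⟩
  have h3 : IsCoprime (q.den : ℤ) q.num := by
    rw [Int.isCoprime_iff_gcd_eq_one, Int.gcd_comm]
    have := q.reduced
    unfold Nat.Coprime at this
    simpa [Int.gcd] using this
  exact h3.dvd_of_dvd_mul_left h2

theorem pow_bound {r : ℚ} (hr : 2 ≤ r.den) {M : ℤ} (hM : M ≠ 0) {n : ℕ} {a : ℤ}
    (h : r ^ n * M = a) : n ≤ M.natAbs := by
  have h1 := den_dvd h
  rw [Rat.den_pow] at h1
  have h2 : r.den ^ n ∣ M.natAbs := by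
    have := Int.natAbs_dvd_natAbs.2 h1
    simpa using this
  have h3 : r.den ^ n ≤ M.natAbs := Nat.le_of_dvd (Int.natAbs_pos.2 hM) h2
  have h4 : 2 ^ n ≤ r.den ^ n := Nat.pow_le_pow_left hr n
  have h5 : n < 2 ^ n := Nat.lt_two_pow_self
  omega

/-- powers of `r` with bounded denominators form a finite set -/
theorem finite_pow {r : ℚ} (hr : r = -1 ∨ (2 ≤ r.den ∧ 2 ≤ (r⁻¹).den)) {M : ℤ} (hM : M ≠ 0) :
    {q : ℚ | (∃ l : ℤ, q = r ^ l) ∧ ∃ a : ℤ, q * M = a}.Finite := by
  rcases hr with rfl | ⟨h1, h2⟩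
  · refine Set.Finite.subset (Set.toFinite {1, -1}) ?_
    rintro q ⟨⟨l, rfl⟩, -⟩
    rcases Int.even_or_odd l with hl | hl
    · left; exact hl.neg_one_zpow
    · right; exact hl.neg_one_zpow
  · refine Set.Finite.subset (((Set.finite_Icc (-(M.natAbs : ℤ)) M.natAbs)).image
      (fun l : ℤ => r ^ l)) ?_
    rintro q ⟨⟨l, rfl⟩, a, ha⟩
    refine ⟨l, ?_, rfl⟩
    obtain ⟨n, rfl | rfl⟩ := l.eq_nat_or_neg
    · rw [zpow_natCast] at ha
      have := pow_bound h1 hM ha
      constructor <;> omega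
    · rw [zpow_neg, zpow_natCast, ← inv_pow] at ha
      have := pow_bound h2 hM ha
      constructor <;> omega

end Pool.Agent.R643
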