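import Mathlib

set_option autoImplicit false

/-!
# Free actions on trees: overlaps of axes and roots

A group with a free action (without inversions) on a tree over an ordered abelian group in which
every element is an `N`-th power, for some `N ≥ 5`, is commutative.

The distance takes values in an ordered commutative ring `K`; the tree is described by the
four point condition and the existence of medians.
-/

namespace Pool.Agent.R643

universe u v w

/-- A `K`-valued metric with the four point condition and medians. -/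
structure ZH {K : Type u} [CommRing K] [LinearOrder K] {X : Type v} (d : X → X → K) : Prop where
  self : ∀ x, d x x = 0
  eq_of : ∀ x y, d x y = 0 → x = y
  symm : ∀ x y, d x y = d y x
  tri : ∀ x y z, d x z ≤ d x y + d y z
  fp : ∀ a b c e, d a b + d c e ≤ max (d a c + d b e) (d a e + d b c)
  med : ∀ x y z, ∃ m, d x y = d x m + d m y ∧ d x z = d x m + d m z ∧ d y z = d y m + d m z

namespace ZH

variable {K : Type u} [CommRing K] [LinearOrder K] [IsStrictOrderedRing K] {X : Type v}
  {d : X → X → K} (h : ZH d)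

include h

theorem nn (x y : X) : 0 ≤ d x y := by
  have h1 := h.tri x y x
  rw [h.self, h.symm y x] at h1
  linarith

theorem pos {x y : X} (hxy : x ≠ y) : 0 < d x y :=
  lt_of_le_of_ne (h.nn x y) (fun h0 => hxy (h.eq_of x y h0.symm))

theorem lin {x y p q : X} (hp : d x p + d p y = d x y) (hq : d x q + d q y = d x y)
    (hle : d x p ≤ d x q) : d p q = d x q - d x p := by
  have h1 := h.fp p q x y
  have h2 := h.tri x p q
  have e1 := h.symm p x
  have e2 := h.symm q x
  have h3 := h.nn p q
  rcases le_max_iff.1 h1 with h1 | h1 <;> linarith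

theorem uniq {x y p q : X} (hp : d x p + d p y = d x y) (hq : d x q + d q y = d x y)
    (he : d x p = d x q) : p = q := by
  apply h.eq_of
  rw [h.lin hp hq he.le, he, sub_self]

theorem cat {x y z w : X} (h1 : d x z = d x y + d y z) (h2 : d y w = d y z + d z w)
    (h3 : 0 < d y z) : d x w = d x z + d z w := by
  have h4 := h.fp x z y w
  have h5 := h.tri x z w
  have e1 := h.symm z y
  rcases le_max_iff.1 h4 with h4 | h4
  · linarith
  · linarith

end ZH

/-- A free action without inversions by isometries. -/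
structure FreeAct {K : Type u} [CommRing K] [LinearOrder K] {X : Type v} (d : X → X → K)
    (G : Type w) [Group G] [MulAction G X] : Prop where
  zh : ZH d
  iso : ∀ (g : G) (x y : X), d (g • x) (g • y) = d x y
  free : ∀ g : G, g ≠ 1 → ∀ x : X, g • g • x ≠ x

namespace FreeAct

variable {K : Type u} [CommRing K] [LinearOrder K] [IsStrictOrderedRing K] {X : Type v}
  {d : X → X → K} {G : Type w} [Group G] [MulAction G X] (A : FreeAct d G)

include A

theorem inv_right (g : G) (x y : X) : d x (g⁻¹ • y) = d (g • x) y := by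
  have := A.iso g x (g⁻¹ • y)
  rw [smul_inv_smul] at this
  exact this.symm

theorem inv_left (g : G) (x y : X) : d (g⁻¹ • x) y = d x (g • y) := by
  have := A.iso g (g⁻¹ • x) y
  rw [smul_inv_smul] at this
  exact this.symm

theorem eq_of_smul {g k : G} {x : X} (hx : g • x = k • x) : g = k := by
  by_contra hne
  have h1 : k⁻¹ * g ≠ 1 := by
    intro h1
    exact hne (inv_mul_eq_one.1 h1).symm
  apply A.free _ h1 x
  have h2 : (k⁻¹ * g) • x = x := by rw [mul_smul, hx, inv_smul_smul]
  rw [h2, h2]

/-- elements other than `1` are hyperbolic -/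
theorem hyp {g : G} (hg : g ≠ 1) (x : X) : d x (g • x) < d x (g • g • x) := by
  have h := A.zh
  by_contra hcon
  push Not at hcon
  obtain ⟨m, h1, h2, h3⟩ := h.med (g • x) x (g • g • x)
  have e1 : d (g • x) x = d x (g • x) := h.symm _ _
  have e2 : d (g • x) (g • g • x) = d x (g • x) := A.iso g _ _
  have e3 : d m x = d x m := h.symm _ _
  have e4 : d (g • x) m = d m (g • x) := h.symm _ _
  have e5 : d m (g • g • x) = d (g • g • x) m := h.symm _ _
  -- the points `u = g⁻¹ m` and `v = g m`
  have u1 : d (g • x) (g⁻¹ • m) = d (g • g • x) m := A.inv_right g _ _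
  have u2 : d (g⁻¹ • m) x = d m (g • x) := A.inv_left g _ _
  have v1 : d (g • x) (g • m) = d x m := A.iso g _ _
  have v2 : d (g • m) (g • g • x) = d m (g • x) := A.iso g _ _
  have w1 : d (g⁻¹ • m) m = d (g • x) m - d (g • x) (g⁻¹ • m) :=
    h.lin (y := x) (by linarith) (by linarith) (by linarith)
  have w2 : d (g • m) m = d (g • x) m - d (g • x) (g • m) :=
    h.lin (y := g • g • x) (by linarith) (by linarith) (by linarith)
  have huv : g⁻¹ • m = g • m :=
    h.uniq (x := g • x) (y := m) (by linarith) (by linarith) (by linarith)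
  apply A.free g hg m
  rw [← huv, smul_inv_smul]

theorem hyp_pos {g : G} (hg : g ≠ 1) (x : X) : 0 < d x (g • x) := by
  apply A.zh.pos
  intro h
  apply A.free g hg x
  rw [← h, ← h]

/-- distances along the orbit of a point -/
theorem orbit {g : G} (hg : g ≠ 1) (x : X) (k : ℕ) :
    d x (g ^ (k + 1) • x) = d x (g • x) + k * (d x (g • g • x) - d x (g • x)) := by
  have h := A.zh
  have hl := A.hyp hg x
  induction k using Nat.strong_induction_on with
  | _ k ih =>
    match k, ih with
    | 0, _ => simp
    | 1, _ =>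
      have : g ^ (1 + 1) • x = g • g • x := by rw [pow_succ, pow_one, mul_smul]
      rw [this]; push_cast; ring
    | k + 2, ih =>
      have i1 := ih (k + 1) (by omega)
      have i0 := ih k (by omega)
      have p0 : d (g • x) (g ^ (k + 1 + 1) • x) = d x (g ^ (k + 1) • x) := by
        rw [pow_succ' g (k + 1), mul_smul]; exact A.iso g _ _
      have p1 : d (g • x) (g ^ (k + 2 + 1) • x) = d x (g ^ (k + 1 + 1) • x) := by
        rw [pow_succ' g (k + 2), mul_smul]; exact A.iso g _ _
      have p2 : d (g ^ (k + 1 + 1) • x) (g ^ (k + 2 + 1) • x) = d x (g • x) := by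
        rw [show g ^ (k + 2 + 1) • x = g ^ (k + 1 + 1) • g • x by
          rw [← mul_smul, ← pow_succ]]
        exact A.iso _ _ _
      have s1 := h.symm (g ^ (k + 1 + 1) • x) (g • x)
      have s2 := h.symm (g ^ (k + 2 + 1) • x) (g • x)
      have s3 := h.symm (g ^ (k + 2 + 1) • x) (g ^ (k + 1 + 1) • x)
      have f1 := h.fp x (g ^ (k + 1 + 1) • x) (g • x) (g ^ (k + 2 + 1) • x)
      have f2 := h.fp x (g ^ (k + 2 + 1) • x) (g • x) (g ^ (k + 1 + 1) • x)
      have hk : (0 : K) ≤ k := Nat.cast_nonneg k
      have hkl : (0 : K) ≤ k * (d x (g • g • x) - d x (g • x)) :=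
        mul_nonneg hk (by linarith)
      have i1' : d x (g ^ (k + 1 + 1) • x) = d x (g • x) +
          (k * (d x (g • g • x) - d x (g • x)) + (d x (g • g • x) - d x (g • x))) := by
        rw [i1]; push_cast; ring
      have goal' : d x (g ^ (k + 2 + 1) • x) = d x (g • x) +
          (k * (d x (g • g • x) - d x (g • x)) + 2 * (d x (g • g • x) - d x (g • x))) := by
        rcases le_max_iff.1 f1 with f1 | f1 <;> rcases le_max_iff.1 f2 with f2 | f2 <;>
          linarith
      rw [goal']; push_cast; ring

/-- distances along the axis -/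
theorem orbit_axis {g : G} (hg : g ≠ 1) {x : X} (hx : d x (g • g • x) = 2 * d x (g • x)) (k : ℕ) :
    d x (g ^ k • x) = k * d x (g • x) := by
  cases k with
  | zero => simp [A.zh.self]
  | succ k => rw [A.orbit hg x k, hx]; push_cast; ring

theorem root_axis {g c : G} {n : ℕ} (hn : 1 ≤ n) (hgc : g ^ n = c) (hc : c ≠ 1) {x : X}
    (hx : d x (c • c • x) = 2 * d x (c • x)) :
    g ≠ 1 ∧ d x (g • g • x) = 2 * d x (g • x) ∧ d x (c • x) = n * d x (g • x) := by
  have hg : g ≠ 1 := by
    rintro rfl
    exact hc (by rw [← hgc, one_pow])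
  have h1 : d x (g • g • x) = 2 * d x (g • x) := by
    obtain ⟨m, rfl⟩ : ∃ m, n = m + 1 := ⟨n - 1, by omega⟩
    have h2 := A.orbit hg x m
    have h3 := A.orbit hg x (2 * m + 1)
    have h4 : g ^ (2 * m + 1 + 1) • x = c • c • x := by
      rw [← mul_smul, ← hgc, ← pow_add]; congr 2; ring
    rw [h4] at h3
    rw [hgc] at h2
    rw [hx, h2] at h3
    push_cast at h3
    linarith
  refine ⟨hg, h1, ?_⟩
  rw [← hgc]
  exact A.orbit_axis hg h1 n

theorem axis_inv {g : G} {x : X} (hx : d x (g • g • x) = 2 * d x (g • x)) :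
    d x (g⁻¹ • g⁻¹ • x) = 2 * d x (g⁻¹ • x) := by
  rw [A.inv_right, A.inv_right, A.inv_right, A.zh.symm (g • g • x), A.zh.symm (g • x), hx]

/-- projection to the axis -/
theorem proj {g : G} (hg : g ≠ 1) (x : X) : ∃ p, d p (g • g • p) = 2 * d p (g • p) ∧
    d x (g • p) = d x p + d p (g • p) ∧ d x (g⁻¹ • p) = d x p + d p (g⁻¹ • p) ∧
    ∀ y, d y (g • g • y) = 2 * d y (g • y) → d x y = d x p + d p y := by
  have h := A.zh
  have hl := A.hyp hg x
  obtain ⟨p, h1, h2, h3⟩ := h.med x (g • x) (g⁻¹ • x)
  have e1 : d x (g⁻¹ • x) = d x (g • x) := by rw [A.inv_right, h.symm]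
  have e2 : d (g • x) (g⁻¹ • x) = d x (g • g • x) := by rw [A.inv_right, h.symm]
  have e3 : d (g • x) p = d p (g • x) := h.symm _ _
  have g1 : d (g • p) (g • x) = d p x := A.iso _ _ _
  have g2 : d x (g • p) = d p (g⁻¹ • x) := by
    rw [A.inv_right g p x, h.symm]
  have e4 : d p x = d x p := h.symm _ _
  have l1 : d p (g • p) = d x (g • p) - d x p :=
    h.lin (y := g • x) (by linarith) (by linarith) (by linarith)
  have i1 : d (g⁻¹ • p) p = d p (g • p) := A.inv_left _ _ _
  have i2 : d (g⁻¹ • p) (g⁻¹ • x) = d p x := A.iso _ _ _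
  have i3 : d (g⁻¹ • p) (g • p) = d p (g • g • p) := A.inv_left _ _ _
  have t1 := h.tri (g⁻¹ • x) (g⁻¹ • p) (g • x)
  have t2 := h.tri (g⁻¹ • p) (g • p) (g • x)
  have t3 := h.tri (g⁻¹ • p) p (g • p)
  have e5 := h.symm (g⁻¹ • x) (g⁻¹ • p)
  have e6 := h.symm (g⁻¹ • x) (g • x)
  have ax : d p (g • g • p) = 2 * d p (g • p) := by linarith
  have q1 : d x (g • p) = d x p + d p (g • p) := by linarith
  have q2 : d x (g⁻¹ • p) = d x p + d p (g⁻¹ • p) := by
    have e7 : d x (g⁻¹ • p) = d p (g • x) := by rw [A.inv_right, h.symm]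
    have e8 : d p (g⁻¹ • p) = d p (g • p) := by rw [A.inv_right, h.symm]
    linarith
  refine ⟨p, ax, q1, q2, ?_⟩
  intro y hy
  have ha : 0 < d p (g • p) := A.hyp_pos hg p
  obtain ⟨m, m1, m2, m3⟩ := h.med p x y
  by_cases hm : p = m
  · subst hm
    rw [m3]
  · exfalso
    have hpm := h.pos hm
    -- `y, p, g p` and `y, p, g⁻¹ p` are in this order
    have key : ∀ k : X, d x k = d x p + d p k → d y k = d y p + d p k := by
      intro k hk
      have t := h.tri x m k
      have s1 := h.symm p x
      have s2 := h.symm m x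
      have t' := h.tri k p m
      have s3 := h.symm k p
      have s4 := h.symm k m
      have c1 : d k m = d k p + d p m := by linarith
      have c2 := h.cat c1 m2 hpm
      have s5 := h.symm y k
      have s6 := h.symm y p
      linarith
    have k1 := key _ q1
    have k2 := key _ q2
    have k1' : d p (g • p) = d p (g⁻¹ • p) := by rw [A.inv_right, h.symm]
    have k3 : d p (g • y) = d y p + d p (g • p) := by
      have : d y (g⁻¹ • p) = d p (g • y) := by rw [A.inv_right, h.symm]
      linarith
    have k4 : d (g • p) (g • y) = d y p := by rw [A.iso, h.symm]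
    have r1 : d y (g • y) = d y (g • p) + d (g • p) (g • y) :=
      h.cat (y := p) k1 (by linarith) ha
    -- the same for `g²`
    have b1 : d p (g • g • p) = d p (g • p) + d (g • p) (g • g • p) := by
      rw [A.iso, ax]; ring
    have b2 : d y (g • g • p) = d y (g • p) + d (g • p) (g • g • p) := h.cat k1 b1 ha
    have b3 : d (g⁻¹ • p) (g⁻¹ • g⁻¹ • p) = d p (g • p) := by
      rw [A.iso, A.inv_right, h.symm]
    have b4 : d p (g⁻¹ • g⁻¹ • p) = d p (g⁻¹ • p) + d (g⁻¹ • p) (g⁻¹ • g⁻¹ • p) := by
      rw [A.axis_inv ax, b3]; linarith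
    have b5 : d y (g⁻¹ • g⁻¹ • p) = d y (g⁻¹ • p) + d (g⁻¹ • p) (g⁻¹ • g⁻¹ • p) :=
      h.cat k2 b4 (by linarith)
    have b6 : d y (g⁻¹ • g⁻¹ • p) = d p (g • g • y) := by
      rw [A.inv_right, A.inv_right, h.symm]
    have b7 : d (g • g • p) (g • g • y) = d y p := by rw [A.iso, A.iso, h.symm]
    have b8 : d (g • p) (g • g • p) = d p (g • p) := A.iso _ _ _
    have r2 : d y (g • g • y) = d y (g • g • p) + d (g • g • p) (g • g • y) :=
      h.cat (y := p) (by linarith) (by linarith) (by linarith)
    have hpy : d p m ≤ d y p := by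
      have := h.nn m y
      have s := h.symm y p
      linarith
    linarith

end FreeAct

end Pool.Agent.R643
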