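import Mathlib

/-!
Continuous paths from dyadic data.
-/

open Set Filter Topology

namespace Pool.Agent.R643.CG

lemma floor_diff {a b : ℝ} (h : |a - b| ≤ 1) : ⌊b⌋₊ ≤ ⌊a⌋₊ + 1 := by
  have h1 : b ≤ a + 1 := by linarith [abs_le.1 h]
  rcases le_or_gt 0 a with ha | ha
  · have := Nat.floor_mono h1
    rwa [Nat.floor_add_one ha] at this
  · have h2 : b < ((0 + 1 : ℕ) : ℝ) := by push_cast; linarith
    have h3 : ⌊b⌋₊ < 0 + 1 := by
      rcases le_or_gt 0 b with hb | hb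
      · exact (Nat.floor_lt hb).2 h2
      · rw [Nat.floor_of_nonpos hb.le]; norm_num
    omega

theorem exists_path {M : Type*} [MetricSpace M] [CompleteSpace M] (g : ℕ → ℕ → M)
    (h1 : ∀ m j, dist (g m j) (g m (j + 1)) ≤ 1 / 2 ^ m) (h2 : ∀ m j, g (m + 1) (2 * j) = g m j) :
    ∃ E : ℝ → M, Continuous E ∧ (∀ s ≤ 0, E s = g 0 0) ∧ (∀ s, 1 ≤ s → E s = g 0 1) ∧
      ∀ s, E s ∈ closure (range fun p : ℕ × ℕ => g p.1 p.2) := by
  set b : ℕ → ℝ → M := fun m s => g m ⌊s * 2 ^ m⌋₊ with hb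
  have hstep : ∀ s m, dist (b m s) (b (m + 1) s) ≤ 1 / 2 / 2 ^ m := by
    intro s m
    have h3 : ⌊s * 2 ^ (m + 1)⌋₊ = 2 * ⌊s * 2 ^ m⌋₊ ∨ ⌊s * 2 ^ (m + 1)⌋₊ = 2 * ⌊s * 2 ^ m⌋₊ + 1 := by
      rcases le_or_gt 0 (s * 2 ^ m) with hs | hs
      · have e1 := Nat.floor_le hs
        have e2 := Nat.lt_floor_add_one (s * 2 ^ m)
        have e3 : s * 2 ^ (m + 1) = 2 * (s * 2 ^ m) := by rw [pow_succ]; ring
        have hs' : 0 ≤ s * 2 ^ (m + 1) := by rw [e3]; linarith
        have e4 : 2 * ⌊s * 2 ^ m⌋₊ ≤ ⌊s * 2 ^ (m + 1)⌋₊ := by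
          apply Nat.le_floor
          push_cast
          rw [e3]; linarith
        have e5 : ⌊s * 2 ^ (m + 1)⌋₊ < 2 * ⌊s * 2 ^ m⌋₊ + 2 := by
          rw [Nat.floor_lt hs']
          push_cast
          rw [e3]; linarith
        omega
      · left
        rw [Nat.floor_of_nonpos hs.le, Nat.floor_of_nonpos]
        rw [pow_succ, ← mul_assoc]; linarith
    have h4 : (1 : ℝ) / 2 / 2 ^ m = 1 / 2 ^ (m + 1) := by rw [pow_succ]; field_simp
    rw [h4]
    simp only [hb]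
    rcases h3 with h3 | h3
    · rw [h3, h2, dist_self]; positivity
    · rw [h3, ← h2 m]
      exact h1 _ _
  have hc : ∀ s, ∃ y, Tendsto (fun m => b m s) atTop (𝓝 y) := fun s =>
    cauchySeq_tendsto_of_complete (cauchySeq_of_le_geometric_two (hstep s))
  choose E0 hE0 using hc
  have hd : ∀ s m, dist (b m s) (E0 s) ≤ 1 / 2 ^ m := fun s m =>
    dist_le_of_le_geometric_two_of_tendsto (hstep s) (hE0 s) m
  have hcont : Continuous E0 := by
    rw [Metric.continuous_iff]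
    intro t ε hε
    obtain ⟨m, hm⟩ := exists_pow_lt_of_lt_one (show 0 < ε / 3 by linarith)
      (show (1 / 2 : ℝ) < 1 by norm_num)
    rw [one_div_pow] at hm
    refine ⟨1 / 2 ^ m, by positivity, fun s hs => ?_⟩
    rw [Real.dist_eq] at hs
    have h5 : |s * 2 ^ m - t * 2 ^ m| ≤ 1 := by
      rw [← sub_mul, abs_mul, abs_of_pos (by positivity : (0 : ℝ) < 2 ^ m)]
      have : |s - t| * 2 ^ m < 1 / 2 ^ m * 2 ^ m := by gcongr
      rw [one_div, inv_mul_cancel₀ (by positivity)] at this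
      exact this.le
    have h6 := floor_diff h5
    have h7 := floor_diff (a := t * 2 ^ m) (b := s * 2 ^ m) (by rwa [abs_sub_comm])
    have h8 : dist (b m s) (b m t) ≤ 1 / 2 ^ m := by
      simp only [hb]
      rcases lt_trichotomy ⌊s * 2 ^ m⌋₊ ⌊t * 2 ^ m⌋₊ with h | h | h
      · have : ⌊t * 2 ^ m⌋₊ = ⌊s * 2 ^ m⌋₊ + 1 := by omega
        rw [this]; exact h1 _ _
      · rw [h, dist_self]; positivity
      · have : ⌊s * 2 ^ m⌋₊ = ⌊t * 2 ^ m⌋₊ + 1 := by omega
        rw [this, dist_comm]; exact h1 _ _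
    have h9 := dist_triangle4 (E0 s) (b m s) (b m t) (E0 t)
    have h10 := hd s m
    rw [dist_comm] at h10
    have h11 := hd t m
    linarith
  have g0 : ∀ m, g m 0 = g 0 0 := by
    intro m
    induction m with
    | zero => rfl
    | succ m ih => rw [← ih, ← h2 m 0]
  have g1 : ∀ m, g m (2 ^ m) = g 0 1 := by
    intro m
    induction m with
    | zero => rfl
    | succ m ih => rw [← ih, ← h2 m, pow_succ, mul_comm]
  refine ⟨fun s => E0 (min s 1), hcont.comp (continuous_id.min continuous_const), ?_, ?_, ?_⟩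
  · intro s hs
    beta_reduce
    rw [min_eq_left (by linarith)]
    refine tendsto_nhds_unique (hE0 s) (tendsto_const_nhds.congr fun m => ?_)
    simp only [hb]
    rw [Nat.floor_of_nonpos (mul_nonpos_of_nonpos_of_nonneg hs (by positivity)), g0 m]
  · intro s hs
    simp only
    rw [min_eq_right hs]
    refine tendsto_nhds_unique (hE0 1) (tendsto_const_nhds.congr fun m => ?_)
    simp only [hb]
    have : ⌊(1 : ℝ) * 2 ^ m⌋₊ = 2 ^ m := by
      rw [one_mul]
      have : (2 : ℝ) ^ m = ((2 ^ m : ℕ) : ℝ) := by push_cast; rfl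
      rw [this, Nat.floor_natCast]
    rw [this, g1]
  · intro s
    exact mem_closure_of_tendsto (hE0 _) (Eventually.of_forall fun m => ⟨(m, _), rfl⟩)

end Pool.Agent.R643.CG
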