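import Mathlib

/-!
Ranks of matrices: sums, block diagonal doubling.
-/

set_option linter.unusedSectionVars false

open Matrix Module

namespace Pool.Agent.R643.CG

variable {K : Type*} [Field K] {m n : Type*} [Fintype m] [Fintype n] [DecidableEq m]
  [DecidableEq n]

lemma rank_add_le (x y : Matrix m m K) : (x + y).rank ≤ x.rank + y.rank := by
  unfold Matrix.rank
  have h : LinearMap.range (x + y).mulVecLin ≤
      LinearMap.range x.mulVecLin ⊔ LinearMap.range y.mulVecLin := by
    rintro _ ⟨v, rfl⟩
    rw [Matrix.mulVecLin_add, LinearMap.add_apply]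
    exact Submodule.add_mem_sup ⟨v, rfl⟩ ⟨v, rfl⟩
  exact (Submodule.finrank_mono h).trans (Submodule.finrank_add_le_finrank_add_finrank _ _)

lemma rank_neg (x : Matrix m m K) : (-x).rank = x.rank := by
  have : (-x).mulVecLin = -x.mulVecLin := by
    ext v : 1
    simp
  unfold Matrix.rank
  rw [this, LinearMap.range_neg]

lemma eq_zero_of_rank {x : Matrix m m K} (h : x.rank = 0) : x = 0 := by
  unfold Matrix.rank at h
  rw [Submodule.finrank_eq_zero, LinearMap.range_eq_bot] at h
  ext i j
  have := congrFun (congrArg (fun f => f (Pi.single j 1)) h) i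
  simpa using this

/-- A product of submodules is isomorphic to the product. -/
def prodEquiv {V W : Type*} [AddCommGroup V] [AddCommGroup W] [Module K V] [Module K W]
    (p : Submodule K V) (q : Submodule K W) : (p.prod q) ≃ₗ[K] p × q where
  toFun z := (⟨z.1.1, z.2.1⟩, ⟨z.1.2, z.2.2⟩)
  invFun z := ⟨(z.1.1, z.2.1), ⟨z.1.2, z.2.2⟩⟩
  map_add' _ _ := rfl
  map_smul' _ _ := rfl
  left_inv _ := rfl
  right_inv _ := rfl

lemma rank_fromBlocks_diag (x : Matrix m m K) (y : Matrix n n K) :
    (Matrix.fromBlocks x 0 0 y).rank = x.rank + y.rank := by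
  have h : (Matrix.fromBlocks x 0 0 y).mulVecLin =
      ((LinearEquiv.sumArrowLequivProdArrow m n K K).symm.toLinearMap ∘ₗ
        (x.mulVecLin.prodMap y.mulVecLin)) ∘ₗ
        (LinearEquiv.sumArrowLequivProdArrow m n K K).toLinearMap := by
    refine LinearMap.ext fun v => ?_
    have hv : v = Sum.elim (fun i => v (Sum.inl i)) (fun j => v (Sum.inr j)) := by
      ext i; rcases i with i | i <;> rfl
    rw [Matrix.mulVecLin_apply, hv, Matrix.fromBlocks_mulVec]
    ext i
    rcases i with i | i
    · simp only [Matrix.zero_mulVec, add_zero, Sum.elim_inl]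
      rfl
    · simp only [Matrix.zero_mulVec, zero_add, Sum.elim_inr]
      rfl
  unfold Matrix.rank
  rw [h, LinearMap.range_comp_of_range_eq_top _ (LinearEquiv.range _), LinearMap.range_comp,
    LinearMap.range_prodMap, LinearEquiv.finrank_map_eq, LinearEquiv.finrank_eq (prodEquiv _ _),
    Module.finrank_prod]

end Pool.Agent.R643.CG
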