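import Mathlib
import Pool.Agent.R643.CGRank

/-!
The union of the matrix rings `M_{2^n}(K)` as a ring of operators on functions on bit sequences.
-/

set_option linter.unusedSectionVars false

open Matrix Module

namespace Pool.Agent.R643.CG

/-- Bit sequences. -/
abbrev C := ℕ → Bool

/-- Bit strings of length `n`. -/
abbrev B (n : ℕ) := Fin n → Bool

/-- The first `n` bits. -/
def tk (n : ℕ) (c : C) : B n := fun i => c i

/-- Replace the first `n` bits. -/
def glue (n : ℕ) (y : B n) (c : C) : C := fun k => if h : k < n then y ⟨k, h⟩ else c k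

lemma tk_glue (n : ℕ) (y : B n) (c : C) : tk n (glue n y c) = y := by
  funext i
  simp [tk, glue]

lemma glue_glue (n : ℕ) (y z : B n) (c : C) : glue n y (glue n z c) = glue n y c := by
  funext k
  simp only [glue]
  split_ifs <;> rfl

lemma glue_tk (n : ℕ) (c : C) : glue n (tk n c) c = c := by
  funext k
  simp only [glue, tk]
  split_ifs <;> rfl

lemma glue_of_lt {n k : ℕ} (h : k < n) (y : B n) (c : C) : glue n y c k = y ⟨k, h⟩ := by
  rw [glue, dif_pos h]

lemma glue_of_ge {n k : ℕ} (h : n ≤ k) (y : B n) (c : C) : glue n y c k = c k := by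
  rw [glue, dif_neg (not_lt.2 h)]

variable {K : Type*} [Field K]

/-- The action of a matrix on functions. -/
def opL (n : ℕ) (x : Matrix (B n) (B n) K) : Module.End K (C → K) where
  toFun f := fun c => ∑ y, x (tk n c) y * f (glue n y c)
  map_add' f g := by
    funext c
    simp only [Pi.add_apply, mul_add, Finset.sum_add_distrib]
  map_smul' r f := by
    funext c
    simp only [Pi.smul_apply, smul_eq_mul, RingHom.id_apply, Finset.mul_sum]
    exact Finset.sum_congr rfl fun y _ => by ring

lemma opL_apply (n : ℕ) (x : Matrix (B n) (B n) K) (f : C → K) (c : C) :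
    opL n x f c = ∑ y, x (tk n c) y * f (glue n y c) := rfl

/-- The action of matrices is a ring homomorphism. -/
def op (n : ℕ) : Matrix (B n) (B n) K →+* Module.End K (C → K) where
  toFun := opL n
  map_one' := by
    refine LinearMap.ext fun f => funext fun c => ?_
    rw [opL_apply, Finset.sum_eq_single (tk n c)]
    · simp [glue_tk]
    · intro y _ hy
      rw [Matrix.one_apply_ne hy.symm, zero_mul]
    · simp
  map_zero' := by
    refine LinearMap.ext fun f => funext fun c => ?_
    rw [opL_apply]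
    simp
  map_add' x y := by
    refine LinearMap.ext fun f => funext fun c => ?_
    rw [LinearMap.add_apply, Pi.add_apply, opL_apply, opL_apply, opL_apply,
      ← Finset.sum_add_distrib]
    exact Finset.sum_congr rfl fun z _ => by rw [Matrix.add_apply, add_mul]
  map_mul' x y := by
    refine LinearMap.ext fun f => funext fun c => ?_
    rw [Module.End.mul_apply, opL_apply, opL_apply]
    simp only [opL_apply, tk_glue, glue_glue, Matrix.mul_apply, Finset.mul_sum, Finset.sum_mul]
    rw [Finset.sum_comm]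
    exact Finset.sum_congr rfl fun u _ => Finset.sum_congr rfl fun w _ => by ring

lemma op_apply (n : ℕ) (x : Matrix (B n) (B n) K) (f : C → K) (c : C) :
    op n x f c = ∑ y, x (tk n c) y * f (glue n y c) := rfl

/-- The zero sequence. -/
def c0 : C := fun _ => false

lemma op_injective (n : ℕ) : Function.Injective (op (K := K) n) := by
  classical
  intro x y h
  ext u v
  have key : ∀ x : Matrix (B n) (B n) K,
      op n x (fun c => if tk n c = v then 1 else 0) (glue n u c0) = x u v := by
    intro x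
    rw [op_apply, tk_glue, Finset.sum_eq_single v]
    · rw [tk_glue, if_pos rfl, mul_one]
    · intro w _ hw
      rw [tk_glue, if_neg hw, mul_zero]
    · simp
  rw [← key x, ← key y, h]

/-! ### Doubling -/

/-- Bit strings of length `n + 1`. -/
def sumE (n : ℕ) : B n ⊕ B n ≃ B (n + 1) where
  toFun := Sum.elim (fun u => Fin.snoc (α := fun _ => Bool) u false)
    (fun u => Fin.snoc (α := fun _ => Bool) u true)
  invFun u := if u (Fin.last n) then Sum.inr (Fin.init u) else Sum.inl (Fin.init u)
  left_inv u := by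
    rcases u with u | u
    · simp
    · simp
  right_inv u := by
    beta_reduce
    by_cases h : u (Fin.last n) = true
    · rw [if_pos h]
      simp only [Sum.elim_inr]
      rw [← h, Fin.snoc_init_self]
    · rw [if_neg h]
      simp only [Sum.elim_inl]
      rw [Bool.not_eq_true] at h
      rw [← h, Fin.snoc_init_self]

/-- The doubling of matrices. -/
def dbl {n : ℕ} (x : Matrix (B n) (B n) K) : Matrix (B (n + 1)) (B (n + 1)) K :=
  Matrix.reindex (sumE n) (sumE n) (Matrix.fromBlocks x 0 0 x)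

lemma rank_dbl {n : ℕ} (x : Matrix (B n) (B n) K) : (dbl x).rank = 2 * x.rank := by
  rw [dbl, Matrix.rank_reindex, rank_fromBlocks_diag, two_mul]

lemma tk_succ_inl {n : ℕ} {c : C} (h : c n = false) : tk (n + 1) c = sumE n (Sum.inl (tk n c)) := by
  funext i
  refine Fin.lastCases ?_ (fun i => ?_) i
  · simp [sumE, tk, h]
  · simp [sumE, tk]

lemma tk_succ_inr {n : ℕ} {c : C} (h : c n = true) : tk (n + 1) c = sumE n (Sum.inr (tk n c)) := by
  funext i
  refine Fin.lastCases ?_ (fun i => ?_) i
  · simp [sumE, tk, h]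
  · simp [sumE, tk]

lemma glue_succ_inl {n : ℕ} {c : C} (h : c n = false) (y : B n) :
    glue (n + 1) (sumE n (Sum.inl y)) c = glue n y c := by
  funext k
  rcases lt_trichotomy k n with hk | rfl | hk
  · rw [glue_of_lt (by omega : k < n + 1), glue_of_lt hk]
    exact Fin.snoc_castSucc (α := fun _ => Bool) false y ⟨k, hk⟩
  · rw [glue_of_lt (by omega : k < k + 1), glue_of_ge le_rfl, h]
    exact Fin.snoc_last (α := fun _ => Bool) false y
  · rw [glue_of_ge (by omega), glue_of_ge (by omega)]

lemma glue_succ_inr {n : ℕ} {c : C} (h : c n = true) (y : B n) :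
    glue (n + 1) (sumE n (Sum.inr y)) c = glue n y c := by
  funext k
  rcases lt_trichotomy k n with hk | rfl | hk
  · rw [glue_of_lt (by omega : k < n + 1), glue_of_lt hk]
    exact Fin.snoc_castSucc (α := fun _ => Bool) true y ⟨k, hk⟩
  · rw [glue_of_lt (by omega : k < k + 1), glue_of_ge le_rfl, h]
    exact Fin.snoc_last (α := fun _ => Bool) true y
  · rw [glue_of_ge (by omega), glue_of_ge (by omega)]

lemma op_dbl {n : ℕ} (x : Matrix (B n) (B n) K) : op (n + 1) (dbl x) = op n x := by
  refine LinearMap.ext fun f => funext fun c => ?_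
  rw [op_apply, op_apply, ← (sumE n).sum_comp, Fintype.sum_sum_type]
  rcases h : c n with _ | _
  · rw [tk_succ_inl h]
    simp only [dbl, Matrix.reindex_apply, Matrix.submatrix_apply, Equiv.symm_apply_apply,
      Matrix.fromBlocks_apply₁₁, Matrix.fromBlocks_apply₁₂, Matrix.zero_apply, zero_mul,
      Finset.sum_const_zero, add_zero, glue_succ_inl h]
  · rw [tk_succ_inr h]
    simp only [dbl, Matrix.reindex_apply, Matrix.submatrix_apply, Equiv.symm_apply_apply,
      Matrix.fromBlocks_apply₂₂, Matrix.fromBlocks_apply₂₁, Matrix.zero_apply, zero_mul,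
      Finset.sum_const_zero, zero_add, glue_succ_inr h]

lemma exists_lift {n m : ℕ} (h : n ≤ m) (x : Matrix (B n) (B n) K) :
    ∃ y : Matrix (B m) (B m) K, op m y = op n x ∧ (y.rank : ℝ) / 2 ^ m = x.rank / 2 ^ n := by
  induction m, h using Nat.le_induction with
  | base => exact ⟨x, rfl, rfl⟩
  | succ m h ih =>
    obtain ⟨y, hy, hr⟩ := ih
    refine ⟨dbl y, by rw [op_dbl, hy], ?_⟩
    rw [rank_dbl, ← hr, pow_succ]
    push_cast
    field_simp

/-! ### The union -/

/-- The union of the matrix rings. -/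
def R0 (K : Type*) [Field K] : Subring (Module.End K (C → K)) where
  carrier := {a | ∃ (n : ℕ) (x : Matrix (B n) (B n) K), op n x = a}
  mul_mem' := by
    rintro _ _ ⟨n, x, rfl⟩ ⟨m, y, rfl⟩
    obtain ⟨x', hx, -⟩ := exists_lift (le_max_left n m) x
    obtain ⟨y', hy, -⟩ := exists_lift (le_max_right n m) y
    exact ⟨_, x' * y', by rw [map_mul, hx, hy]⟩
  one_mem' := ⟨0, 1, map_one _⟩
  add_mem' := by
    rintro _ _ ⟨n, x, rfl⟩ ⟨m, y, rfl⟩
    obtain ⟨x', hx, -⟩ := exists_lift (le_max_left n m) x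
    obtain ⟨y', hy, -⟩ := exists_lift (le_max_right n m) y
    exact ⟨_, x' + y', by rw [map_add, hx, hy]⟩
  zero_mem' := ⟨0, 0, map_zero _⟩
  neg_mem' := by
    rintro _ ⟨n, x, rfl⟩
    exact ⟨n, -x, map_neg _ _⟩

lemma mem_R0 {a : Module.End K (C → K)} :
    a ∈ R0 K ↔ ∃ (n : ℕ) (x : Matrix (B n) (B n) K), op n x = a := Iff.rfl

lemma op_mem (n : ℕ) (x : Matrix (B n) (B n) K) : op n x ∈ R0 K := ⟨n, x, rfl⟩

/-- The inclusion of the matrix ring of level `n`. -/
def opR (n : ℕ) : Matrix (B n) (B n) K →+* R0 K := (op n).codRestrict (R0 K) (op_mem n)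

lemma opR_val (n : ℕ) (x : Matrix (B n) (B n) K) : (opR n x : Module.End K (C → K)) = op n x := rfl

lemma exists_opR (a : R0 K) : ∃ (n : ℕ) (x : Matrix (B n) (B n) K), opR n x = a := by
  obtain ⟨n, x, h⟩ := a.2
  exact ⟨n, x, Subtype.ext h⟩

lemma opR_injective (n : ℕ) : Function.Injective (opR (K := K) n) := fun x y h =>
  op_injective n (congrArg Subtype.val h)

lemma opR_dbl {n : ℕ} (x : Matrix (B n) (B n) K) : opR (n + 1) (dbl x) = opR n x :=
  Subtype.ext (op_dbl x)

lemma exists_liftR {n m : ℕ} (h : n ≤ m) (x : Matrix (B n) (B n) K) :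
    ∃ y : Matrix (B m) (B m) K, opR m y = opR n x ∧ (y.rank : ℝ) / 2 ^ m = x.rank / 2 ^ n := by
  obtain ⟨y, h1, h2⟩ := exists_lift h x
  exact ⟨y, Subtype.ext h1, h2⟩

/-- The normalized rank. -/
noncomputable def rk (a : R0 K) : ℝ :=
  ((exists_opR a).choose_spec.choose.rank : ℝ) / 2 ^ (exists_opR a).choose

lemma rank_eq_of_opR {n m : ℕ} {x : Matrix (B n) (B n) K} {y : Matrix (B m) (B m) K}
    (h : opR n x = opR m y) : (x.rank : ℝ) / 2 ^ n = y.rank / 2 ^ m := by
  obtain ⟨x', hx, rx⟩ := exists_liftR (le_max_left n m) x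
  obtain ⟨y', hy, ry⟩ := exists_liftR (le_max_right n m) y
  rw [← hx, ← hy] at h
  rw [← rx, ← ry, opR_injective _ h]

lemma rk_opR (n : ℕ) (x : Matrix (B n) (B n) K) : rk (opR n x) = x.rank / 2 ^ n :=
  rank_eq_of_opR (exists_opR (opR n x)).choose_spec.choose_spec

lemma exists_common (a b : R0 K) : ∃ (n : ℕ) (x y : Matrix (B n) (B n) K),
    opR n x = a ∧ opR n y = b := by
  obtain ⟨n, x, rfl⟩ := exists_opR a
  obtain ⟨m, y, rfl⟩ := exists_opR b
  obtain ⟨x', hx, -⟩ := exists_liftR (le_max_left n m) x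
  obtain ⟨y', hy, -⟩ := exists_liftR (le_max_right n m) y
  exact ⟨_, x', y', hx, hy⟩

lemma rk_nonneg (a : R0 K) : 0 ≤ rk a := by
  obtain ⟨n, x, rfl⟩ := exists_opR a
  rw [rk_opR]; positivity

lemma rk_zero : rk (0 : R0 K) = 0 := by
  rw [← map_zero (opR 0), rk_opR, Matrix.rank_zero]
  simp

lemma rk_neg (a : R0 K) : rk (-a) = rk a := by
  obtain ⟨n, x, rfl⟩ := exists_opR a
  rw [← map_neg, rk_opR, rk_opR, rank_neg]

lemma rk_add_le (a b : R0 K) : rk (a + b) ≤ rk a + rk b := by
  obtain ⟨n, x, y, rfl, rfl⟩ := exists_common a b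
  rw [← map_add, rk_opR, rk_opR, rk_opR, ← add_div]
  gcongr
  exact_mod_cast rank_add_le x y

lemma rk_mul_le_left (a b : R0 K) : rk (a * b) ≤ rk a := by
  obtain ⟨n, x, y, rfl, rfl⟩ := exists_common a b
  rw [← map_mul, rk_opR, rk_opR]
  gcongr
  exact_mod_cast Matrix.rank_mul_le_left x y

lemma rk_mul_le_right (a b : R0 K) : rk (a * b) ≤ rk b := by
  obtain ⟨n, x, y, rfl, rfl⟩ := exists_common a b
  rw [← map_mul, rk_opR, rk_opR]
  gcongr
  exact_mod_cast Matrix.rank_mul_le_right x y

lemma eq_zero_of_rk {a : R0 K} (h : rk a = 0) : a = 0 := by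
  obtain ⟨n, x, rfl⟩ := exists_opR a
  rw [rk_opR, div_eq_zero_iff] at h
  rcases h with h | h
  · have : x.rank = 0 := by exact_mod_cast h
    rw [eq_zero_of_rank this, map_zero]
  · exact absurd h (by positivity)

end Pool.Agent.R643.CG
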