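import Mathlib
import Pool.Agent.R643.CGOp

/-!
Permutation operators and diagonal operators.
-/

set_option linter.unusedSectionVars false

open Matrix Module

namespace Pool.Agent.R643.CG

variable {K : Type*} [Field K]

/-! ### Permutation operators -/

/-- Permutations which move finitely many positions. -/
def FS (σ : Equiv.Perm ℕ) : Prop := ∃ m, ∀ k, m ≤ k → σ k = k

lemma FS.one : FS 1 := ⟨0, fun _ _ => rfl⟩

lemma FS.inv {σ : Equiv.Perm ℕ} (h : FS σ) : FS σ⁻¹ := by
  obtain ⟨m, hm⟩ := h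
  exact ⟨m, fun k hk => by rw [Equiv.Perm.inv_eq_iff_eq, hm k hk]⟩

lemma FS.mul {σ τ : Equiv.Perm ℕ} (hσ : FS σ) (hτ : FS τ) : FS (σ * τ) := by
  obtain ⟨m, hm⟩ := hσ
  obtain ⟨n, hn⟩ := hτ
  refine ⟨max m n, fun k hk => ?_⟩
  rw [Equiv.Perm.mul_apply, hn k ((le_max_right _ _).trans hk), hm k ((le_max_left _ _).trans hk)]

lemma FS.swap (a b : ℕ) : FS (Equiv.swap a b) :=
  ⟨a + b + 1, fun k hk => Equiv.swap_apply_of_ne_of_ne (by omega) (by omega)⟩

/-- The permutation operator. -/
def P (σ : Equiv.Perm ℕ) : Module.End K (C → K) := LinearMap.funLeft K K (fun c : C => c ∘ σ)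

lemma P_apply (σ : Equiv.Perm ℕ) (f : C → K) (c : C) : P σ f c = f (c ∘ σ) := rfl

lemma P_mul (σ τ : Equiv.Perm ℕ) : (P (σ * τ) : Module.End K (C → K)) = P σ * P τ := rfl

lemma P_one : (P 1 : Module.End K (C → K)) = 1 := rfl

lemma lt_of_fix {σ : Equiv.Perm ℕ} {m : ℕ} (h : ∀ k, m ≤ k → σ k = k) {k : ℕ} (hk : k < m) :
    σ k < m := by
  by_contra h1
  rw [not_lt] at h1
  have h2 := σ.injective (h _ h1)
  omega

lemma ge_of_fix {σ : Equiv.Perm ℕ} {m : ℕ} (h : ∀ k, k < m → σ k = k) {k : ℕ} (hk : m ≤ k) :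
    m ≤ σ k := by
  by_contra h1
  rw [not_le] at h1
  have h2 := σ.injective (h _ h1)
  omega

lemma P_mem {σ : Equiv.Perm ℕ} (hσ : FS σ) : (P σ : Module.End K (C → K)) ∈ R0 K := by
  classical
  obtain ⟨m, hm⟩ := hσ
  refine ⟨m, Matrix.of fun u v => if v = tk m (glue m u c0 ∘ σ) then 1 else 0, ?_⟩
  refine LinearMap.ext fun f => funext fun c => ?_
  rw [op_apply, P_apply, Finset.sum_eq_single (tk m (glue m (tk m c) c0 ∘ σ))]
  · rw [Matrix.of_apply, if_pos rfl, one_mul]
    congr 1
    funext k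
    rcases lt_or_ge k m with hk | hk
    · rw [glue_of_lt hk, tk, Function.comp_apply, glue_of_lt (lt_of_fix hm hk)]
      rfl
    · rw [glue_of_ge hk, Function.comp_apply, hm k hk]
  · intro y _ hy
    rw [Matrix.of_apply, if_neg hy, zero_mul]
  · simp

/-- The permutation operator as a unit. -/
def Pu (σ : Equiv.Perm ℕ) (hσ : FS σ) : (R0 K)ˣ where
  val := ⟨P σ, P_mem hσ⟩
  inv := ⟨P σ⁻¹, P_mem hσ.inv⟩
  val_inv := Subtype.ext (by
    change P σ * P σ⁻¹ = (1 : Module.End K (C → K))
    rw [← P_mul, mul_inv_cancel, P_one])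
  inv_val := Subtype.ext (by
    change P σ⁻¹ * P σ = (1 : Module.End K (C → K))
    rw [← P_mul, inv_mul_cancel, P_one])

lemma P_commute {σ : Equiv.Perm ℕ} {n : ℕ} (h : ∀ k, k < n → σ k = k)
    (x : Matrix (B n) (B n) K) : P σ * op n x = op n x * P σ := by
  refine LinearMap.ext fun f => funext fun c => ?_
  rw [Module.End.mul_apply, Module.End.mul_apply, P_apply, op_apply, op_apply]
  refine Finset.sum_congr rfl fun y _ => ?_
  have h1 : tk n (c ∘ σ) = tk n c := by
    funext i
    simp only [tk, Function.comp_apply, h i i.2]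
  have h2 : glue n y (c ∘ σ) = glue n y c ∘ σ := by
    funext k
    rcases lt_or_ge k n with hk | hk
    · rw [glue_of_lt hk, Function.comp_apply, h k hk, glue_of_lt hk]
    · rw [glue_of_ge hk, Function.comp_apply, Function.comp_apply, glue_of_ge (ge_of_fix h hk)]
  rw [h1, h2, P_apply]

/-! ### Diagonal operators -/

/-- The multiplication operator. -/
def D (g : C → K) : Module.End K (C → K) := LinearMap.mulLeft K g

lemma D_apply (g f : C → K) (c : C) : D g f c = g c * f c := rfl

/-- Functions of the first `m` bits. -/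
def Dep (m : ℕ) (g : C → K) : Prop := ∀ c c' : C, (∀ k, k < m → c k = c' k) → g c = g c'

lemma Dep.glue {m : ℕ} {g : C → K} (h : Dep m g) (c : C) : g (glue m (tk m c) c0) = g c :=
  h _ _ fun k hk => by rw [glue_of_lt hk]; rfl

lemma op_diagonal {m : ℕ} {g : C → K} (h : Dep m g) :
    op m (Matrix.diagonal fun u => g (CG.glue m u c0)) = D g := by
  refine LinearMap.ext fun f => funext fun c => ?_
  rw [op_apply, D_apply, Finset.sum_eq_single (tk m c)]
  · rw [Matrix.diagonal_apply_eq, glue_tk, h.glue]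
  · intro y _ hy
    rw [Matrix.diagonal_apply_ne _ hy.symm, zero_mul]
  · simp

lemma D_mem {m : ℕ} {g : C → K} (h : Dep m g) : D g ∈ R0 K := ⟨m, _, op_diagonal h⟩

lemma P_D (σ : Equiv.Perm ℕ) (g : C → K) :
    P σ * D g = D (fun c => g (c ∘ σ)) * P σ := rfl

lemma D_commute {n : ℕ} {g : C → K} (h : ∀ c y, g (glue n y c) = g c) (x : Matrix (B n) (B n) K) :
    D g * op n x = op n x * D g := by
  refine LinearMap.ext fun f => funext fun c => ?_
  rw [Module.End.mul_apply, Module.End.mul_apply, D_apply, op_apply, op_apply, Finset.mul_sum]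
  refine Finset.sum_congr rfl fun y _ => ?_
  rw [D_apply, h]
  ring

/-! ### The binary numbers -/

/-- The number with the binary digits `c 0, …, c (m-1)` (most significant digit first). -/
def N : ℕ → C → ℕ
  | 0, _ => 0
  | m + 1, c => 2 * N m c + (c m).toNat

lemma N_congr {m : ℕ} {c c' : C} (h : ∀ k, k < m → c k = c' k) : N m c = N m c' := by
  induction m with
  | zero => rfl
  | succ m ih => rw [N, N, ih fun k hk => h k (by omega), h m (by omega)]

lemma N_inj {m : ℕ} {c c' : C} (h : N m c = N m c') : ∀ k, k < m → c k = c' k := by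
  induction m with
  | zero => intro k hk; omega
  | succ m ih =>
    rw [N, N] at h
    have h1 : (c m).toNat < 2 := Bool.toNat_lt _
    have h2 : (c' m).toNat < 2 := Bool.toNat_lt _
    have h3 : N m c = N m c' := by omega
    have h4 : (c m).toNat = (c' m).toNat := by omega
    intro k hk
    rcases Nat.lt_succ_iff_lt_or_eq.1 hk with hk | rfl
    · exact ih h3 k hk
    · revert h4
      cases c k <;> cases c' k <;> simp

lemma N_lt (m : ℕ) (c : C) : N m c < 2 ^ m := by
  induction m with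
  | zero => simp [N]
  | succ m ih =>
    have h1 : (c m).toNat < 2 := Bool.toNat_lt _
    rw [N, pow_succ]; omega

open Classical in
/-- The indicator of `N m < j`. -/
noncomputable def ind (m j : ℕ) (c : C) : K := if N m c < j then 1 else 0

open Classical in
/-- The indicator of `N m = j`. -/
noncomputable def pt (m j : ℕ) (c : C) : K := if N m c = j then 1 else 0

lemma dep_ind (m j : ℕ) : Dep m (ind (K := K) m j) := fun c c' h => by
  rw [ind, ind, N_congr h]

lemma dep_pt (m j : ℕ) : Dep m (pt (K := K) m j) := fun c c' h => by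
  rw [pt, pt, N_congr h]

lemma ind_succ (m j : ℕ) (c : C) : ind (K := K) (m + 1) (2 * j) c = ind m j c := by
  have h1 : (c m).toNat < 2 := Bool.toNat_lt _
  have : N (m + 1) c < 2 * j ↔ N m c < j := by rw [N]; omega
  simp only [ind, this]

lemma ind_add_pt (m j : ℕ) (c : C) : ind (K := K) m (j + 1) c = ind m j c + pt m j c := by
  simp only [ind, pt]
  rcases lt_trichotomy (N m c) j with h | h | h
  · rw [if_pos (by omega), if_pos h, if_neg (by omega), add_zero]
  · rw [if_pos (by omega), if_neg (by omega), if_pos h, zero_add]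
  · rw [if_neg (by omega), if_neg (by omega), if_neg (by omega), add_zero]

lemma ind_mul_ind (m j : ℕ) (c : C) : ind (K := K) m j c * ind m j c = ind m j c := by
  simp only [ind]
  split_ifs <;> simp

lemma rk_pt (m j : ℕ) : rk (⟨D (pt m j), D_mem (dep_pt m j)⟩ : R0 K) ≤ 1 / 2 ^ m := by
  classical
  have h1 : (⟨D (pt m j), D_mem (dep_pt m j)⟩ : R0 K) =
      opR m (Matrix.diagonal fun u => pt m j (CG.glue m u c0)) :=
    Subtype.ext (op_diagonal (dep_pt m j)).symm
  rw [h1, rk_opR, Matrix.rank_diagonal]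
  gcongr
  have : Subsingleton {u : B m // (pt m j (CG.glue m u c0) : K) ≠ 0} := by
    constructor
    rintro ⟨u, hu⟩ ⟨w, hw⟩
    have h2 : ∀ u : B m, (pt m j (CG.glue m u c0) : K) ≠ 0 → N m (CG.glue m u c0) = j := by
      intro u hu
      by_contra h
      exact hu (by rw [pt, if_neg h])
    have h3 := N_inj ((h2 u hu).trans (h2 w hw).symm)
    apply Subtype.ext
    funext i
    have := h3 i i.2
    rwa [glue_of_lt i.2, glue_of_lt i.2] at this
  have := Fintype.card_le_one_iff_subsingleton.2 this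
  exact_mod_cast this

/-! ### The sequence of flips -/

/-- Permutations which agree with `φ` on longer and longer initial segments. -/
def pe (φ : ℕ → ℕ) : ℕ → Equiv.Perm ℕ
  | 0 => 1
  | n + 1 => Equiv.swap (pe φ n n) (φ n) * pe φ n

lemma pe_eq {φ : ℕ → ℕ} (hφ : Function.Injective φ) (n : ℕ) : ∀ i, i < n → pe φ n i = φ i := by
  induction n with
  | zero => intro i hi; omega
  | succ n ih =>
    intro i hi
    rw [pe, Equiv.Perm.mul_apply]
    rcases Nat.lt_succ_iff_lt_or_eq.1 hi with hi | rfl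
    · rw [ih i hi, Equiv.swap_apply_of_ne_of_ne]
      · rw [← ih i hi]
        exact fun h => hi.ne ((pe φ n).injective h)
      · exact fun h => hi.ne (hφ h)
    · rw [Equiv.swap_apply_left]

lemma pe_FS (φ : ℕ → ℕ) (n : ℕ) : FS (pe φ n) := by
  induction n with
  | zero => exact FS.one
  | succ n ih => exact (FS.swap _ _).mul ih

/-- The number with the digits at the even positions. -/
noncomputable def ev (m j : ℕ) (c : C) : K := ind m j (fun i => c (2 * i))

lemma even_inj : Function.Injective (fun i : ℕ => 2 * i) := fun a b h => by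
  simp only at h; omega

lemma odd_inj : Function.Injective (fun i : ℕ => 2 * i + 1) := fun a b h => by
  simp only at h; omega

lemma dep_ev (m j : ℕ) : Dep (2 * m) (ev (K := K) m j) := fun c c' h => by
  refine dep_ind m j _ _ fun k hk => h _ (by omega)

/-- The idempotents in the even positions. -/
noncomputable def G (m j : ℕ) : R0 K := ⟨D (ev m j), D_mem (dep_ev m j)⟩

lemma G_zero (m : ℕ) : G (K := K) m 0 = 0 := by
  refine Subtype.ext (LinearMap.ext fun f => funext fun c => ?_)
  change ev m 0 c * f c = 0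
  rw [ev, ind, if_neg (by omega), zero_mul]

lemma G_top (m : ℕ) : G (K := K) m (2 ^ m) = 1 := by
  refine Subtype.ext (LinearMap.ext fun f => funext fun c => ?_)
  change ev m (2 ^ m) c * f c = f c
  rw [ev, ind, if_pos (N_lt _ _), one_mul]

lemma G_succ (m j : ℕ) : G (K := K) (m + 1) (2 * j) = G m j := by
  refine Subtype.ext (LinearMap.ext fun f => funext fun c => ?_)
  change ev (m + 1) (2 * j) c * f c = ev m j c * f c
  rw [ev, ev, ind_succ]

lemma G_idem (m j : ℕ) : G (K := K) m j * G m j = G m j := by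
  refine Subtype.ext (LinearMap.ext fun f => funext fun c => ?_)
  change ev m j c * (ev m j c * f c) = ev m j c * f c
  rw [← mul_assoc, ev, ind_mul_ind]

lemma rk_G (m j : ℕ) : rk (G (K := K) m (j + 1) - G m j) ≤ 1 / 2 ^ m := by
  have h : G (K := K) m (j + 1) - G m j =
      ((Pu (pe (fun i => 2 * i) m) (pe_FS _ _) : (R0 K)ˣ) : R0 K) *
        (⟨D (pt m j), D_mem (dep_pt m j)⟩ : R0 K) *
        (((Pu (pe (fun i => 2 * i) m) (pe_FS _ _))⁻¹ : (R0 K)ˣ) : R0 K) := by
    rw [eq_comm, Units.mul_inv_eq_iff_eq_mul]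
    refine Subtype.ext (LinearMap.ext fun f => funext fun c => ?_)
    change pt m j (c ∘ pe (fun i => 2 * i) m) * f (c ∘ pe (fun i => 2 * i) m) =
      ev m (j + 1) c * f (c ∘ pe (fun i => 2 * i) m) - ev m j c * f (c ∘ pe (fun i => 2 * i) m)
    have h1 : pt (K := K) m j (c ∘ pe (fun i => 2 * i) m) = pt m j (fun i => c (2 * i)) := by
      refine dep_pt m j _ _ fun k hk => ?_
      rw [Function.comp_apply, pe_eq even_inj m k hk]
    rw [h1, ev, ev, ind_add_pt]
    ring
  rw [h]
  exact (rk_mul_le_left _ _).trans ((rk_mul_le_right _ _).trans (rk_pt m j))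

/-- The idempotents in the even positions commute with the matrices in the odd positions. -/
lemma G_commute (n m j : ℕ) (x : Matrix (B n) (B n) K) :
    Commute (G m j) (((Pu (pe (fun i => 2 * i + 1) n) (pe_FS _ _) : (R0 K)ˣ) : R0 K) * opR n x *
      (((Pu (pe (fun i => 2 * i + 1) n) (pe_FS _ _))⁻¹ : (R0 K)ˣ) : R0 K)) := by
  set π := pe (fun i => 2 * i + 1) n with hπ
  have h1 : ∀ (c : C) (y : B n), ev (K := K) m j (glue n y c ∘ (π⁻¹ : Equiv.Perm ℕ)) =
      ev m j (c ∘ (π⁻¹ : Equiv.Perm ℕ)) := by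
    intro c y
    rw [ev, ev]
    refine dep_ind m j _ _ fun k _ => ?_
    simp only [Function.comp_apply]
    rw [glue_of_ge]
    by_contra h2
    rw [not_le] at h2
    have h3 := pe_eq odd_inj n _ h2
    rw [← hπ, ← Equiv.Perm.mul_apply, mul_inv_cancel, Equiv.Perm.one_apply] at h3
    omega
  have h2 := D_commute (g := fun c => ev m j (c ∘ (π⁻¹ : Equiv.Perm ℕ))) h1 x
  have h3 : (P π : Module.End K (C → K)) * D (fun c => ev m j (c ∘ (π⁻¹ : Equiv.Perm ℕ))) =
      D (ev m j) * P π := by
    rw [P_D]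
    congr 2
    funext c
    congr 1
    rw [Function.comp_assoc]
    have : (π : ℕ → ℕ) ∘ (π⁻¹ : Equiv.Perm ℕ) = id := by
      funext k; simp
    rw [this, Function.comp_id]
  have h4 : D (fun c => ev m j (c ∘ (π⁻¹ : Equiv.Perm ℕ))) * (P π⁻¹ : Module.End K (C → K)) =
      P π⁻¹ * D (ev m j) := by
    rw [P_D]
  rw [Commute, SemiconjBy]
  refine Subtype.ext ?_
  change D (ev m j) * (P π * op n x * P π⁻¹) = (P π * op n x * P π⁻¹) * D (ev m j)
  calc D (ev m j) * (P π * op n x * P π⁻¹) = (D (ev m j) * P π) * op n x * P π⁻¹ := by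
        simp only [mul_assoc]
    _ = P π * (D (fun c => ev m j (c ∘ (π⁻¹ : Equiv.Perm ℕ))) * op n x) * P π⁻¹ := by
        rw [← h3]; simp only [mul_assoc]
    _ = P π * op n x * (D (fun c => ev m j (c ∘ (π⁻¹ : Equiv.Perm ℕ))) * P π⁻¹) := by
        rw [h2]; simp only [mul_assoc]
    _ = _ := by rw [h4]; simp only [mul_assoc]

lemma om_commute (n : ℕ) (x : Matrix (B n) (B n) K) :
    Commute ((((Pu (pe (fun i => 2 * i + 1) n) (pe_FS _ _))⁻¹ *
      Pu (pe (fun i => 2 * i + 1) (n + 1)) (pe_FS _ _) : (R0 K)ˣ)) : R0 K) (opR n x) := by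
  rw [Commute, SemiconjBy]
  refine Subtype.ext ?_
  change P (pe (fun i => 2 * i + 1) n)⁻¹ * P (pe (fun i => 2 * i + 1) (n + 1)) * op n x =
    op n x * (P (pe (fun i => 2 * i + 1) n)⁻¹ * P (pe (fun i => 2 * i + 1) (n + 1)))
  rw [← P_mul, P_commute]
  intro k hk
  rw [Equiv.Perm.mul_apply, Equiv.Perm.inv_eq_iff_eq, pe_eq odd_inj _ k (by omega),
    pe_eq odd_inj _ k hk]

end Pool.Agent.R643.CG
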