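import Mathlib

/-!
Contractibility of the unit group of a metric ring from asymptotically inner flips.
-/

set_option linter.unusedSectionVars false

open Set Filter Topology unitInterval

namespace Pool.Agent.R643.CG

/-- Metrics for which translations are isometric and multiplications are contractions. -/
structure Contr (M : Type*) [Ring M] [MetricSpace M] : Prop where
  add : ∀ x y z : M, dist (x + z) (y + z) = dist x y
  mul_left : ∀ x y z : M, dist (z * x) (z * y) ≤ dist x y
  mul_right : ∀ x y z : M, dist (x * z) (y * z) ≤ dist x y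

variable {M : Type*} [Ring M] [MetricSpace M]

lemma Contr.dist_inv (h : Contr M) (u v : Mˣ) :
    dist ((u⁻¹ : Mˣ) : M) ((v⁻¹ : Mˣ) : M) ≤ dist (u : M) v := by
  have h1 : ((u⁻¹ : Mˣ) : M) = (u⁻¹ : Mˣ) * (v : M) * (v⁻¹ : Mˣ) := by
    rw [mul_assoc, Units.mul_inv, mul_one]
  have h2 : ((v⁻¹ : Mˣ) : M) = (u⁻¹ : Mˣ) * (u : M) * (v⁻¹ : Mˣ) := by
    rw [Units.inv_mul, one_mul]
  calc dist ((u⁻¹ : Mˣ) : M) ((v⁻¹ : Mˣ) : M)
      = dist ((u⁻¹ : Mˣ) * (v : M) * (v⁻¹ : Mˣ)) ((u⁻¹ : Mˣ) * (u : M) * (v⁻¹ : Mˣ)) := by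
        rw [← h1, ← h2]
    _ ≤ dist (v : M) u := (h.mul_right _ _ _).trans (h.mul_left _ _ _)
    _ = _ := dist_comm _ _

lemma Contr.isEmbedding_val (h : Contr M) : IsEmbedding (Units.val : Mˣ → M) := by
  refine Units.isEmbedding_val_mk' (f := Ring.inverse) ?_ (fun u => Ring.inverse_unit u)
  rw [Metric.continuousOn_iff]
  rintro x ⟨u, rfl⟩ ε hε
  refine ⟨ε, hε, ?_⟩
  rintro y ⟨v, rfl⟩ hy
  rw [Ring.inverse_unit, Ring.inverse_unit]
  exact (h.dist_inv v u).trans_lt hy

/-- Conjugation by a unit. -/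
def cj (v : Mˣ) (x : M) : M := v * x * ((v⁻¹ : Mˣ) : M)

lemma cj_one (x : M) : cj 1 x = x := by simp [cj]

lemma cj_mul (v w : Mˣ) (x : M) : cj (v * w) x = cj v (cj w x) := by
  simp [cj, mul_assoc]

lemma cj_map_mul (v : Mˣ) (x y : M) : cj v (x * y) = cj v x * cj v y := by
  simp only [cj]
  calc (v : M) * (x * y) * ((v⁻¹ : Mˣ) : M) = v * x * 1 * y * ((v⁻¹ : Mˣ) : M) := by
        rw [mul_one, mul_assoc (v : M) x y]
    _ = v * x * (((v⁻¹ : Mˣ) : M) * v) * y * ((v⁻¹ : Mˣ) : M) := by rw [Units.inv_mul]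
    _ = _ := by simp only [mul_assoc]

lemma cj_map_one (v : Mˣ) : cj v (1 : M) = 1 := by simp [cj]

lemma cj_of_commute {v : Mˣ} {x : M} (h : Commute (v : M) x) : cj v x = x := by
  rw [cj, h.eq, mul_assoc, Units.mul_inv, mul_one]

lemma Contr.cj_le (h : Contr M) (v : Mˣ) (x y : M) : dist (cj v x) (cj v y) ≤ dist x y :=
  (h.mul_right _ _ _).trans (h.mul_left _ _ _)

/-- The unit `w e + (1 - e)`. -/
def mix (w : Mˣ) (e : M) (he : e * e = e) (hc : Commute (w : M) e) : Mˣ where
  val := w * e + (1 - e)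
  inv := ((w⁻¹ : Mˣ) : M) * e + (1 - e)
  val_inv := by
    have hc' : Commute (((w⁻¹ : Mˣ) : M)) e := hc.units_inv_left
    have h1 : (w : M) * e * (((w⁻¹ : Mˣ) : M) * e) = e := by
      calc (w : M) * e * (((w⁻¹ : Mˣ) : M) * e) = w * (e * ((w⁻¹ : Mˣ) : M)) * e := by
            simp only [mul_assoc]
        _ = w * (((w⁻¹ : Mˣ) : M) * e) * e := by rw [hc'.eq]
        _ = (w * ((w⁻¹ : Mˣ) : M)) * (e * e) := by simp only [mul_assoc]
        _ = e := by rw [Units.mul_inv, he, one_mul]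
    have h2 : (w : M) * e * (1 - e) = 0 := by
      rw [mul_assoc, mul_sub, mul_one, he, sub_self, mul_zero]
    have h3 : (1 - e) * (((w⁻¹ : Mˣ) : M) * e) = 0 := by
      rw [hc'.eq, ← mul_assoc, sub_mul, one_mul, he, sub_self, zero_mul]
    have h4 : (1 - e) * (1 - e) = 1 - e := by
      rw [sub_mul, one_mul, mul_sub, mul_one, he, sub_self, sub_zero]
    rw [add_mul, mul_add, mul_add, h1, h2, h3, h4]
    abel
  inv_val := by
    have hc' : Commute (((w⁻¹ : Mˣ) : M)) e := hc.units_inv_left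
    have h1 : (((w⁻¹ : Mˣ) : M) * e) * ((w : M) * e) = e := by
      calc (((w⁻¹ : Mˣ) : M) * e) * ((w : M) * e) = ((w⁻¹ : Mˣ) : M) * (e * w) * e := by
            simp only [mul_assoc]
        _ = ((w⁻¹ : Mˣ) : M) * (w * e) * e := by rw [hc.eq]
        _ = (((w⁻¹ : Mˣ) : M) * w) * (e * e) := by simp only [mul_assoc]
        _ = e := by rw [Units.inv_mul, he, one_mul]
    have h2 : (((w⁻¹ : Mˣ) : M) * e) * (1 - e) = 0 := by
      rw [mul_assoc, mul_sub, mul_one, he, sub_self, mul_zero]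
    have h3 : (1 - e) * ((w : M) * e) = 0 := by
      rw [hc.eq, ← mul_assoc, sub_mul, one_mul, he, sub_self, zero_mul]
    have h4 : (1 - e) * (1 - e) = 1 - e := by
      rw [sub_mul, one_mul, mul_sub, mul_one, he, sub_self, sub_zero]
    rw [add_mul, mul_add, mul_add, h1, h2, h3, h4]
    abel

/-- The data for the homotopy. -/
structure Flip (M : Type*) [Ring M] [MetricSpace M] where
  /-- The increasing exhaustion. -/
  R : ℕ → Set M
  mono : Monotone R
  dense : Dense (⋃ n, R n)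
  /-- The approximating units. -/
  v : ℕ → Mˣ
  v_zero : v 0 = 1
  level : ℕ → ℕ
  le_level : ∀ n, n ≤ level n
  mem_level : ∀ n, (((v n)⁻¹ * v (n + 1) : Mˣ) : M) ∈ R (level n)
  comm : ∀ n, ∀ x ∈ R n, Commute (((v n)⁻¹ * v (n + 1) : Mˣ) : M) x
  /-- The path of idempotents. -/
  E : ℝ → M
  E_cont : Continuous E
  E_le : ∀ s ≤ 0, E s = 0
  E_ge : ∀ s, 1 ≤ s → E s = 1
  E_idem : ∀ s, E s * E s = E s
  E_comm : ∀ n, ∀ x ∈ R n, ∀ s, Commute (E s) (cj (v n) x)

namespace Flip

variable (D : Flip M)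

/-- The step. -/
def om (n : ℕ) : Mˣ := (D.v n)⁻¹ * D.v (n + 1)

/-- The path of idempotents for the step `n`. -/
def E' (n : ℕ) (s : ℝ) : M := cj (D.v (D.level n))⁻¹ (D.E s)

lemma E'_comm (n : ℕ) (s : ℝ) {x : M} (hx : x ∈ D.R (D.level n)) : Commute x (D.E' n s) := by
  have h := D.E_comm _ x hx s
  have h1 : x = cj (D.v (D.level n))⁻¹ (cj (D.v (D.level n)) x) := by
    rw [← cj_mul, inv_mul_cancel, cj_one]
  rw [Commute, SemiconjBy]
  nth_rewrite 1 [h1]
  nth_rewrite 2 [h1]
  rw [E', ← cj_map_mul, ← cj_map_mul, h.eq]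

lemma E'_idem (n : ℕ) (s : ℝ) : D.E' n s * D.E' n s = D.E' n s := by
  rw [E', ← cj_map_mul, D.E_idem]

/-- The path of units for the step `n`. -/
def W (n : ℕ) (s : ℝ) : Mˣ :=
  mix (D.om n) (D.E' n s) (D.E'_idem n s) (D.E'_comm n s (D.mem_level n))

lemma W_val (n : ℕ) (s : ℝ) : (D.W n s : M) = D.om n * D.E' n s + (1 - D.E' n s) := rfl

lemma W_le (n : ℕ) {s : ℝ} (hs : s ≤ 0) : D.W n s = 1 := by
  apply Units.ext
  rw [W_val, E', D.E_le s hs]
  simp [cj]

lemma W_ge (n : ℕ) {s : ℝ} (hs : 1 ≤ s) : D.W n s = D.om n := by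
  apply Units.ext
  rw [W_val, E', D.E_ge s hs, cj_map_one]
  simp

lemma W_comm (n : ℕ) (s : ℝ) {x : M} (hx : x ∈ D.R n) : Commute (D.W n s : M) x := by
  have h1 : Commute (D.om n : M) x := D.comm n x hx
  have h2 : Commute (D.E' n s) x := (D.E'_comm n s (D.mono (D.le_level n) hx)).symm
  rw [W_val]
  exact (h1.mul_left h2).add_left ((Commute.one_left x).sub_left h2)

/-- Finite products of the steps. -/
def Q : ℕ → ℝ → Mˣ
  | 0, _ => 1
  | N + 1, t => Q N t * D.W N (t - N)

lemma Q_le {N : ℕ} {t : ℝ} (h : (N : ℝ) ≤ t) : D.Q N t = D.v N := by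
  induction N with
  | zero => rw [Q, D.v_zero]
  | succ N ih =>
    push_cast at h
    rw [Q, ih (by linarith), D.W_ge N (by linarith), om, mul_inv_cancel_left]

lemma cj_Q {m N : ℕ} (hN : m ≤ N) {t : ℝ} (ht : (m : ℝ) ≤ t) {x : M} (hx : x ∈ D.R m) :
    cj (D.Q N t) x = cj (D.v m) x := by
  induction N, hN using Nat.le_induction with
  | base => rw [D.Q_le ht]
  | succ N hN ih =>
    rw [Q, cj_mul, cj_of_commute (D.W_comm N _ (D.mono hN hx)), ih]

lemma Q_succ {N : ℕ} {t : ℝ} (h : t ≤ N) : D.Q (N + 1) t = D.Q N t := by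
  rw [Q, D.W_le N (by linarith), mul_one]

/-- The infinite path. -/
noncomputable def V (t : ℝ) : Mˣ := D.Q ⌈t⌉₊ t

lemma V_eq {N : ℕ} {t : ℝ} (h : t ≤ N) : D.V t = D.Q N t := by
  have h1 : ⌈t⌉₊ ≤ N := Nat.ceil_le.2 h
  induction N, h1 using Nat.le_induction with
  | base => rfl
  | succ N hN ih =>
    rw [D.Q_succ (Nat.ceil_le.1 hN), ih (Nat.ceil_le.1 hN)]

lemma V_zero : D.V 0 = 1 := by
  rw [D.V_eq (N := 0) (by simp), Q]

lemma cj_V {m : ℕ} {t : ℝ} (ht : (m : ℝ) ≤ t) {x : M} (hx : x ∈ D.R m) :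
    cj (D.V t) x = cj (D.v m) x := by
  have : m ≤ ⌈t⌉₊ := by
    have := ht.trans (Nat.le_ceil t)
    exact_mod_cast this
  exact D.cj_Q this ht hx

variable [IsTopologicalRing M]

lemma W_cont (h : Contr M) (n : ℕ) : Continuous (D.W n) := by
  rw [h.isEmbedding_val.continuous_iff]
  have h1 : Continuous (D.E' n) := by
    unfold E' cj
    exact (continuous_const.mul D.E_cont).mul continuous_const
  exact (continuous_const.mul h1).add (continuous_const.sub h1)

lemma Q_cont (h : Contr M) (N : ℕ) : Continuous (D.Q N) := by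
  induction N with
  | zero => exact continuous_const
  | succ N ih =>
    exact ih.mul ((D.W_cont h N).comp (continuous_id.sub continuous_const))

lemma V_cont (h : Contr M) : Continuous D.V := by
  rw [continuous_iff_continuousAt]
  intro t
  have h1 : ∀ᶠ s in 𝓝 t, D.V s = D.Q (⌈t⌉₊ + 1) s := by
    have : t < ((⌈t⌉₊ + 1 : ℕ) : ℝ) := by
      push_cast; linarith [Nat.le_ceil t]
    filter_upwards [Iio_mem_nhds this] with s hs
    exact D.V_eq (le_of_lt hs)
  exact ((D.Q_cont h _).continuousAt).congr (h1.mono fun s hs => hs.symm)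

variable [CompleteSpace M]

omit [IsTopologicalRing M] in
lemma exists_lim (h : Contr M) (x : M) :
    ∃ y : M, Tendsto (fun n => cj (D.v n) x) atTop (𝓝 y) := by
  apply cauchySeq_tendsto_of_complete
  rw [Metric.cauchySeq_iff']
  intro ε hε
  obtain ⟨a, ha, hxa⟩ := Metric.dense_iff.1 D.dense x (ε / 2) (half_pos hε)
  obtain ⟨m, hm⟩ := mem_iUnion.1 hxa
  refine ⟨m, fun n hn => ?_⟩
  have h1 : cj (D.v n) a = cj (D.v m) a := by
    rw [← D.Q_le (N := n) (t := n) le_rfl]
    exact D.cj_Q hn (by exact_mod_cast hn) hm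
  have h2 := dist_triangle4 (cj (D.v n) x) (cj (D.v n) a) (cj (D.v m) a) (cj (D.v m) x)
  have h3 := h.cj_le (D.v n) x a
  have h4 := h.cj_le (D.v m) a x
  rw [Metric.mem_ball] at ha
  rw [h1, dist_self] at h2
  rw [h1] at h3
  rw [dist_comm] at ha
  have h5 := dist_comm a x
  linarith

/-- The limit endomorphism. -/
noncomputable def be (h : Contr M) (x : M) : M := (D.exists_lim h x).choose

omit [IsTopologicalRing M] in
lemma be_lim (h : Contr M) (x : M) : Tendsto (fun n => cj (D.v n) x) atTop (𝓝 (D.be h x)) :=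
  (D.exists_lim h x).choose_spec

omit [IsTopologicalRing M] in
lemma be_le (h : Contr M) (x y : M) : dist (D.be h x) (D.be h y) ≤ dist x y :=
  le_of_tendsto ((D.be_lim h x).dist (D.be_lim h y)) (Eventually.of_forall fun _ => h.cj_le _ _ _)

omit [IsTopologicalRing M] in
lemma be_eq (h : Contr M) {m : ℕ} {x : M} (hx : x ∈ D.R m) : D.be h x = cj (D.v m) x := by
  refine tendsto_nhds_unique (D.be_lim h x) ?_
  refine tendsto_const_nhds.congr' ?_
  filter_upwards [eventually_ge_atTop m] with n hn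
  rw [← D.Q_le (N := n) (t := n) le_rfl]
  exact (D.cj_Q hn (by exact_mod_cast hn) hx).symm

lemma be_mul (h : Contr M) (x y : M) : D.be h (x * y) = D.be h x * D.be h y := by
  refine tendsto_nhds_unique (D.be_lim h (x * y)) ?_
  refine ((D.be_lim h x).mul (D.be_lim h y)).congr fun n => ?_
  rw [cj_map_mul]

omit [IsTopologicalRing M] in
lemma be_one (h : Contr M) : D.be h 1 = 1 := by
  refine tendsto_nhds_unique (D.be_lim h 1) ?_
  refine tendsto_const_nhds.congr fun n => ?_
  rw [cj_map_one]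

omit [IsTopologicalRing M] in
lemma be_cont (h : Contr M) : Continuous (D.be h) :=
  (LipschitzWith.mk_one (D.be_le h)).continuous

/-- The limit endomorphism on units. -/
noncomputable def beU (h : Contr M) : Mˣ →* Mˣ :=
  Units.map { toFun := D.be h, map_one' := D.be_one h, map_mul' := D.be_mul h }

lemma beU_val (h : Contr M) (u : Mˣ) : (D.beU h u : M) = D.be h u := rfl

lemma beU_cont (h : Contr M) : Continuous (D.beU h) := by
  rw [h.isEmbedding_val.continuous_iff]
  exact (D.be_cont h).comp Units.continuous_val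

omit [IsTopologicalRing M] in
lemma dist_V_be (h : Contr M) {m : ℕ} {t : ℝ} (ht : (m : ℝ) ≤ t) {a : M} (ha : a ∈ D.R m)
    (x y : M) : dist (cj (D.V t) x) (D.be h y) ≤ dist x a + dist y a := by
  have h1 := dist_triangle (cj (D.V t) x) (D.be h a) (D.be h y)
  have h2 : dist (cj (D.V t) x) (D.be h a) ≤ dist x a := by
    rw [D.be_eq h ha, ← D.cj_V ht ha]
    exact h.cj_le _ _ _
  have h3 := D.be_le h a y
  rw [dist_comm a y] at h3
  linarith

lemma E_comm_be (h : Contr M) (s : ℝ) (x : M) : Commute (D.E s) (D.be h x) := by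
  have hcl : IsClosed {x : M | D.E s * D.be h x = D.be h x * D.E s} :=
    isClosed_eq (continuous_const.mul (D.be_cont h)) ((D.be_cont h).mul continuous_const)
  have h1 : (⋃ n, D.R n) ⊆ {x : M | D.E s * D.be h x = D.be h x * D.E s} := by
    intro x hx
    obtain ⟨m, hm⟩ := mem_iUnion.1 hx
    rw [mem_ofPred_eq, D.be_eq h hm]
    exact D.E_comm m x hm s
  exact closure_minimal h1 hcl (D.dense x)

/-- The identity is homotopic to the limit endomorphism. -/
lemma homotopic_id_be (h : Contr M) :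
    (ContinuousMap.id Mˣ).Homotopic ⟨D.beU h, D.beU_cont h⟩ := by
  classical
  refine ⟨⟨⟨fun p => if (p.1 : ℝ) < 1 then
    D.V (1 / (1 - (p.1 : ℝ)) - 1) * p.2 * (D.V (1 / (1 - (p.1 : ℝ)) - 1))⁻¹
    else D.beU h p.2, ?_⟩, ?_, ?_⟩⟩
  · rw [continuous_iff_continuousAt]
    rintro ⟨s, u⟩
    rcases lt_or_ge (s : ℝ) 1 with hs | hs
    · have h1 : ∀ᶠ p : I × Mˣ in 𝓝 (s, u), (p.1 : ℝ) < 1 := by
        have : Continuous (fun p : I × Mˣ => (p.1 : ℝ)) := by fun_prop
        exact this.continuousAt.eventually (Iio_mem_nhds hs)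
      have h2 : ContinuousAt (fun p : I × Mˣ => (1 / (1 - (p.1 : ℝ)) - 1 : ℝ)) (s, u) := by
        refine ContinuousAt.sub (ContinuousAt.div continuousAt_const ?_ ?_) continuousAt_const
        · fun_prop
        · simp only; linarith
      have h3 : ContinuousAt (fun p : I × Mˣ => D.V (1 / (1 - (p.1 : ℝ)) - 1)) (s, u) :=
        ContinuousAt.comp (f := fun p : I × Mˣ => (1 / (1 - (p.1 : ℝ)) - 1 : ℝ))
          (D.V_cont h).continuousAt h2
      have h4 : ContinuousAt (fun p : I × Mˣ => D.V (1 / (1 - (p.1 : ℝ)) - 1) * p.2 *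
          (D.V (1 / (1 - (p.1 : ℝ)) - 1))⁻¹) (s, u) :=
        (h3.mul continuousAt_snd).mul h3.inv
      refine h4.congr ?_
      filter_upwards [h1] with p hp
      rw [if_pos hp]
    · rw [h.isEmbedding_val.isInducing.continuousAt_iff, Metric.continuousAt_iff']
      intro ε hε
      simp only [Function.comp_apply]
      rw [if_neg (not_lt.2 hs)]
      obtain ⟨a, ha, hxa⟩ := Metric.dense_iff.1 D.dense (u : M) (ε / 4) (by linarith)
      obtain ⟨m, hm⟩ := mem_iUnion.1 hxa
      rw [Metric.mem_ball, dist_comm] at ha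
      have h1 : ∀ᶠ p : I × Mˣ in 𝓝 (s, u), 1 - 1 / ((m : ℝ) + 1) < (p.1 : ℝ) := by
        have : Continuous (fun p : I × Mˣ => (p.1 : ℝ)) := by fun_prop
        refine this.continuousAt.eventually (Ioi_mem_nhds ?_)
        have : 0 < 1 / ((m : ℝ) + 1) := by positivity
        simp only
        linarith
      have h2 : ∀ᶠ p : I × Mˣ in 𝓝 (s, u), dist (p.2 : M) (u : M) < ε / 4 := by
        have : Continuous (fun p : I × Mˣ => (p.2 : M)) :=
          Units.continuous_val.comp continuous_snd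
        exact this.continuousAt.eventually (Metric.ball_mem_nhds _ (by linarith))
      filter_upwards [h1, h2] with p hp1 hp2
      have h5 := dist_triangle (p.2 : M) u a
      split_ifs with hp
      · have h3 : (m : ℝ) ≤ 1 / (1 - (p.1 : ℝ)) - 1 := by
          have h6 : 0 < 1 - (p.1 : ℝ) := by linarith
          have h7 : 0 < (m : ℝ) + 1 := by positivity
          have h8 : (m : ℝ) + 1 ≤ 1 / (1 - (p.1 : ℝ)) := by
            rw [le_div_iff₀ h6]
            have h9 : (1 - (p.1 : ℝ)) < 1 / ((m : ℝ) + 1) := by linarith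
            rw [lt_div_iff₀ h7] at h9
            linarith
          linarith
        have h4 := D.dist_V_be h h3 hm (p.2 : M) (u : M)
        rw [beU_val]
        refine lt_of_le_of_lt h4 ?_
        linarith
      · rw [beU_val, beU_val]
        refine (D.be_le h _ _).trans_lt ?_
        linarith
  · intro u
    simp [D.V_zero]
  · intro u
    simp

/-- The limit endomorphism is homotopic to a constant. -/
lemma homotopic_be_const (h : Contr M) :
    (⟨D.beU h, D.beU_cont h⟩ : C(Mˣ, Mˣ)).Homotopic (ContinuousMap.const Mˣ 1) := by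
  refine ⟨⟨⟨fun p => mix (D.beU h p.2) (D.E (1 - (p.1 : ℝ))) (D.E_idem _)
    (D.E_comm_be h _ _).symm, ?_⟩, ?_, ?_⟩⟩
  · rw [h.isEmbedding_val.continuous_iff]
    have h1 : Continuous (fun p : I × Mˣ => D.E (1 - (p.1 : ℝ))) :=
      D.E_cont.comp (by fun_prop)
    have h2 : Continuous (fun p : I × Mˣ => D.be h (p.2 : M)) :=
      (D.be_cont h).comp (Units.continuous_val.comp continuous_snd)
    exact (h2.mul h1).add (continuous_const.sub h1)
  · intro u
    apply Units.ext
    change D.be h (u : M) * D.E (1 - ((0 : I) : ℝ)) + (1 - D.E (1 - ((0 : I) : ℝ))) = D.be h u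
    rw [D.E_ge _ (by simp)]
    simp
  · intro u
    apply Units.ext
    change D.be h (u : M) * D.E (1 - ((1 : I) : ℝ)) + (1 - D.E (1 - ((1 : I) : ℝ))) = 1
    rw [D.E_le _ (by simp)]
    simp

include D in
theorem contractible_units (h : Contr M) : ContractibleSpace Mˣ := by
  rw [contractible_iff_id_nullhomotopic]
  exact ⟨1, (D.homotopic_id_be h).trans (D.homotopic_be_const h)⟩

include D in
theorem contractible (h : Contr M) : ContractibleSpace {x : M // IsUnit x} := by
  have h1 := D.contractible_units h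
  let e : Mˣ ≃ {x : M // IsUnit x} :=
    { toFun := fun u => ⟨u, u.isUnit⟩
      invFun := fun x => x.2.unit
      left_inv := fun u => Units.ext rfl
      right_inv := fun x => rfl }
  have he : IsInducing e := by
    have h2 : IsInducing ((↑) ∘ e : Mˣ → M) := h.isEmbedding_val.isInducing
    exact (IsInducing.subtypeVal.of_comp_iff).1 h2
  exact (e.toHomeomorphOfIsInducing he).symm.contractibleSpace

end Flip

end Pool.Agent.R643.CG
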