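import Mathlib
import Pool.Agent.R643.CGTop
import Pool.Agent.R643.CGPerm
import Pool.Agent.R643.CGPath

/-!
The rank completion of the union of the matrix rings `M_{2^n}(K)`, and its unit group.
-/

set_option linter.unusedSectionVars false

open Matrix Module Set Filter Topology

namespace Pool.Agent.R643.CG

universe u v

/-! ### The definitions -/

/-- Two copies of the index set of size `2^n` form the index set of size `2^(n+1)`. -/
def finE (n : ℕ) : Fin (2 ^ n) ⊕ Fin (2 ^ n) ≃ Fin (2 ^ (n + 1)) :=
  finSumFinEquiv.trans (finCongr (by rw [pow_succ]; omega))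

/-- The block diagonal doubling `x ↦ diag(x, x)`. -/
def double {K : Type u} [Field K] {n : ℕ} (x : Matrix (Fin (2 ^ n)) (Fin (2 ^ n)) K) :
    Matrix (Fin (2 ^ (n + 1))) (Fin (2 ^ (n + 1))) K :=
  Matrix.reindex (finE n) (finE n) (Matrix.fromBlocks x 0 0 x)

/-- `M` with the maps `ι n` is the completion of the union of the matrix rings `M_{2^n}(K)` (with
respect to the doubling maps) for the normalized rank metric: `M` is a complete metric space and a
ring with continuous operations, the `ι n` are ring homomorphisms which are isometric for the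
normalized rank metric and compatible with doubling, and the union of their images is dense. -/
structure IsRankCompletion (K : Type u) [Field K] (M : Type v) [Ring M] [MetricSpace M]
    (ι : ∀ n : ℕ, Matrix (Fin (2 ^ n)) (Fin (2 ^ n)) K →+* M) : Prop where
  complete : CompleteSpace M
  top : IsTopologicalRing M
  compat : ∀ (n : ℕ) (x : Matrix (Fin (2 ^ n)) (Fin (2 ^ n)) K), ι (n + 1) (double x) = ι n x
  dist_eq : ∀ (n : ℕ) (x y : Matrix (Fin (2 ^ n)) (Fin (2 ^ n)) K),
    dist (ι n x) (ι n y) = ((x - y).rank : ℝ) / 2 ^ n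
  dense : Dense (⋃ n : ℕ, Set.range (ι n))

/-! ### Bit strings as indices -/

/-- The identification of the index set of size `2^n` with the bit strings. -/
def bitE : ∀ n : ℕ, Fin (2 ^ n) ≃ B n
  | 0 => (finCongr (by simp)).trans (Equiv.ofUnique (Fin 1) (B 0))
  | n + 1 => (finE n).symm.trans ((Equiv.sumCongr (bitE n) (bitE n)).trans (sumE n))

variable {K : Type u} [Field K]

/-- Reindexing by bit strings. -/
def rx (n : ℕ) : Matrix (Fin (2 ^ n)) (Fin (2 ^ n)) K ≃+* Matrix (B n) (B n) K :=
  Matrix.reindexRingEquiv K (bitE n)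

lemma rx_apply (n : ℕ) (x : Matrix (Fin (2 ^ n)) (Fin (2 ^ n)) K) :
    rx n x = Matrix.reindex (bitE n) (bitE n) x := rfl

lemma rank_rx (n : ℕ) (x : Matrix (Fin (2 ^ n)) (Fin (2 ^ n)) K) : (rx n x).rank = x.rank := by
  rw [rx_apply, Matrix.rank_reindex]

lemma rx_double (n : ℕ) (x : Matrix (Fin (2 ^ n)) (Fin (2 ^ n)) K) :
    rx (n + 1) (double x) = dbl (rx n x) := by
  ext i j
  obtain ⟨i, rfl⟩ := (sumE n).surjective i
  obtain ⟨j, rfl⟩ := (sumE n).surjective j
  rw [rx_apply, rx_apply, double, dbl]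
  rcases i with i | i <;> rcases j with j | j <;>
    simp [bitE, Matrix.reindex_apply, Matrix.submatrix_apply]

/-! ### Existence -/

/-- The rank norm. -/
noncomputable def rankNorm (K : Type u) [Field K] : AddGroupNorm (R0 K) where
  toFun := rk
  map_zero' := rk_zero
  add_le' := rk_add_le
  neg' := rk_neg
  eq_zero_of_map_eq_zero' _ h := eq_zero_of_rk h

noncomputable instance : NormedAddCommGroup (R0 K) := (rankNorm K).toNormedAddCommGroup

lemma dist_R0 (a b : R0 K) : dist a b = rk (a - b) := by
  rw [dist_eq_norm]; rfl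

instance : ContinuousMul (R0 K) where
  continuous_mul := by
    rw [Metric.continuous_iff]
    rintro ⟨a, b⟩ ε hε
    refine ⟨ε / 2, half_pos hε, ?_⟩
    rintro ⟨a', b'⟩ h
    rw [Prod.dist_eq, max_lt_iff] at h
    simp only [dist_R0] at h ⊢
    have e : a' * b' - a * b = (a' - a) * b' + a * (b' - b) := by noncomm_ring
    rw [e]
    have h1 := rk_add_le ((a' - a) * b') (a * (b' - b))
    have h2 := rk_mul_le_left (a' - a) b'
    have h3 := rk_mul_le_right a (b' - b)
    linarith [h.1, h.2]

instance : IsTopologicalRing (R0 K) where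

/-- The completion. -/
abbrev MC (K : Type u) [Field K] : Type u := UniformSpace.Completion (R0 K)

/-- The embeddings into the completion. -/
noncomputable def iC (n : ℕ) : Matrix (Fin (2 ^ n)) (Fin (2 ^ n)) K →+* MC K :=
  (UniformSpace.Completion.coeRingHom).comp ((opR n).comp (rx n).toRingHom)

lemma iC_apply (n : ℕ) (x : Matrix (Fin (2 ^ n)) (Fin (2 ^ n)) K) :
    iC n x = ((opR n (rx n x) : R0 K) : MC K) := rfl

theorem isRankCompletion_MC : IsRankCompletion K (MC K) iC where
  complete := inferInstance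
  top := inferInstance
  compat n x := by rw [iC_apply, iC_apply, rx_double, opR_dbl]
  dist_eq n x y := by
    rw [iC_apply, iC_apply, UniformSpace.Completion.dist_eq, dist_R0, ← map_sub, ← map_sub,
      rk_opR, rank_rx]
  dense := by
    have h1 : (⋃ n : ℕ, Set.range (iC (K := K) n)) =
        Set.range ((↑) : R0 K → UniformSpace.Completion (R0 K)) := by
      ext z
      simp only [mem_iUnion, mem_range]
      constructor
      · rintro ⟨n, x, rfl⟩
        exact ⟨_, rfl⟩
      · rintro ⟨a, rfl⟩
        obtain ⟨n, x, rfl⟩ := exists_opR a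
        refine ⟨n, (rx n).symm x, ?_⟩
        rw [iC_apply, RingEquiv.apply_symm_apply]
    rw [h1]
    exact UniformSpace.Completion.denseRange_coe

/-! ### The map from the union -/

section map

variable {M : Type v} [Ring M] [MetricSpace M]
  {ι : ∀ n : ℕ, Matrix (Fin (2 ^ n)) (Fin (2 ^ n)) K →+* M}

/-- The embeddings, with bit strings as indices. -/
def ka (ι : ∀ n : ℕ, Matrix (Fin (2 ^ n)) (Fin (2 ^ n)) K →+* M) (n : ℕ) :
    Matrix (B n) (B n) K →+* M := (ι n).comp (rx n).symm.toRingHom

lemma ka_apply (n : ℕ) (x : Matrix (B n) (B n) K) : ka ι n x = ι n ((rx n).symm x) := rfl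

lemma ka_dbl (h : IsRankCompletion K M ι) (n : ℕ) (x : Matrix (B n) (B n) K) :
    ka ι (n + 1) (dbl x) = ka ι n x := by
  have : dbl x = rx (n + 1) (double ((rx n).symm x)) := by
    rw [rx_double, RingEquiv.apply_symm_apply]
  rw [this, ka_apply, ka_apply, RingEquiv.symm_apply_apply, h.compat]

lemma exists_liftK (h : IsRankCompletion K M ι) {n m : ℕ} (hnm : n ≤ m)
    (x : Matrix (B n) (B n) K) :
    ∃ y : Matrix (B m) (B m) K, opR m y = opR n x ∧ ka ι m y = ka ι n x := by
  induction m, hnm using Nat.le_induction with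
  | base => exact ⟨x, rfl, rfl⟩
  | succ m _ ih =>
    obtain ⟨y, hy, hr⟩ := ih
    exact ⟨dbl y, by rw [opR_dbl, hy], by rw [ka_dbl h, hr]⟩

lemma ka_eq (h : IsRankCompletion K M ι) {n m : ℕ} {x : Matrix (B n) (B n) K}
    {y : Matrix (B m) (B m) K} (hxy : opR n x = opR m y) : ka ι n x = ka ι m y := by
  obtain ⟨x', hx, rx⟩ := exists_liftK h (le_max_left n m) x
  obtain ⟨y', hy, ry⟩ := exists_liftK h (le_max_right n m) y
  rw [← hx, ← hy] at hxy
  rw [← rx, ← ry, opR_injective _ hxy]

/-- The map from the union, as a function. -/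
noncomputable def jf (ι : ∀ n : ℕ, Matrix (Fin (2 ^ n)) (Fin (2 ^ n)) K →+* M) (a : R0 K) : M :=
  ka ι (exists_opR a).choose (exists_opR a).choose_spec.choose

lemma jf_opR (h : IsRankCompletion K M ι) (n : ℕ) (x : Matrix (B n) (B n) K) :
    jf ι (opR n x) = ka ι n x :=
  ka_eq h (exists_opR (opR n x)).choose_spec.choose_spec

/-- The map from the union. -/
noncomputable def jj (h : IsRankCompletion K M ι) : R0 K →+* M where
  toFun := jf ι
  map_one' := by rw [← map_one (opR 0), jf_opR h, map_one]
  map_zero' := by rw [← map_zero (opR 0), jf_opR h, map_zero]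
  map_mul' a b := by
    obtain ⟨n, x, y, rfl, rfl⟩ := exists_common a b
    rw [← map_mul, jf_opR h, jf_opR h, jf_opR h, map_mul]
  map_add' a b := by
    obtain ⟨n, x, y, rfl, rfl⟩ := exists_common a b
    rw [← map_add, jf_opR h, jf_opR h, jf_opR h, map_add]

lemma jj_opR (h : IsRankCompletion K M ι) (n : ℕ) (x : Matrix (B n) (B n) K) :
    jj h (opR n x) = ka ι n x := jf_opR h n x

lemma dist_jj (h : IsRankCompletion K M ι) (a b : R0 K) : dist (jj h a) (jj h b) = rk (a - b) := by
  obtain ⟨n, x, y, rfl, rfl⟩ := exists_common a b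
  rw [jj_opR, jj_opR, ka_apply, ka_apply, h.dist_eq, ← map_sub, ← map_sub, rk_opR, ← rank_rx,
    RingEquiv.apply_symm_apply]

lemma denseRange_jj (h : IsRankCompletion K M ι) : DenseRange (jj h) := by
  refine h.dense.mono ?_
  intro z hz
  obtain ⟨n, x, rfl⟩ := mem_iUnion.1 hz
  refine ⟨opR n (rx n x), ?_⟩
  rw [jj_opR, ka_apply, RingEquiv.symm_apply_apply]

lemma contr (h : IsRankCompletion K M ι) : Contr M := by
  have := h.top
  have hd := denseRange_jj h
  refine ⟨fun x y z => ?_, fun x y z => ?_, fun x y z => ?_⟩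
  · refine hd.induction_on₃ (p := fun x y z => dist (x + z) (y + z) = dist x y)
      ?_ (fun a b c => ?_) x y z
    · exact isClosed_eq (by fun_prop) (by fun_prop)
    · rw [← map_add, ← map_add, dist_jj, dist_jj, add_sub_add_right_eq_sub]
  · refine hd.induction_on₃ (p := fun x y z => dist (z * x) (z * y) ≤ dist x y)
      ?_ (fun a b c => ?_) x y z
    · exact isClosed_le (by fun_prop) (by fun_prop)
    · rw [← map_mul, ← map_mul, dist_jj, dist_jj, ← mul_sub]
      exact rk_mul_le_right _ _
  · refine hd.induction_on₃ (p := fun x y z => dist (x * z) (y * z) ≤ dist x y)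
      ?_ (fun a b c => ?_) x y z
    · exact isClosed_le (by fun_prop) (by fun_prop)
    · rw [← map_mul, ← map_mul, dist_jj, dist_jj, ← sub_mul]
      exact rk_mul_le_left _ _

/-- The flips. -/
noncomputable def vv (K : Type u) [Field K] (n : ℕ) : (R0 K)ˣ :=
  Pu (pe (fun i => 2 * i + 1) n) (pe_FS _ _)

theorem exists_flip (h : IsRankCompletion K M ι) : Nonempty (Flip M) := by
  have := h.top
  have := h.complete
  set j := jj h with hj
  have hlev : ∀ n, ∃ m, n ≤ m ∧ ∃ x : Matrix (B m) (B m) K,
      opR m x = (((vv K n)⁻¹ * vv K (n + 1) : (R0 K)ˣ) : R0 K) := by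
    intro n
    obtain ⟨m, x, hx⟩ := exists_opR (((vv K n)⁻¹ * vv K (n + 1) : (R0 K)ˣ) : R0 K)
    obtain ⟨y, hy, -⟩ := exists_liftR (le_max_right n m) x
    exact ⟨max n m, le_max_left _ _, y, hy.trans hx⟩
  choose lev hle hmem using hlev
  obtain ⟨E, hEc, hE0, hE1, hEcl⟩ := exists_path (fun m i => j (G m i))
    (fun m i => by
      rw [dist_comm, hj, dist_jj]; exact rk_G m i)
    (fun m i => by rw [G_succ])
  have hclosed : ∀ {p : M → Prop}, IsClosed {x | p x} → (∀ m i, p (j (G m i))) →
      ∀ s, p (E s) := by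
    intro p hp h1 s
    refine closure_minimal (t := {x | p x}) ?_ hp (hEcl s)
    rintro _ ⟨⟨m, i⟩, rfl⟩
    exact h1 m i
  refine ⟨{
    R := fun n => Set.range (fun x : Matrix (B n) (B n) K => j (opR n x))
    mono := ?_
    dense := ?_
    v := fun n => Units.map (j : R0 K →* M) (vv K n)
    v_zero := ?_
    level := lev
    le_level := hle
    mem_level := ?_
    comm := ?_
    E := E
    E_cont := hEc
    E_le := ?_
    E_ge := ?_
    E_idem := ?_
    E_comm := ?_ }⟩
  · intro n m hnm
    rintro _ ⟨x, rfl⟩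
    obtain ⟨y, hy, -⟩ := exists_liftR hnm x
    exact ⟨y, by simp only [hy]⟩
  · refine (denseRange_jj h).mono ?_
    rintro _ ⟨a, rfl⟩
    obtain ⟨n, x, rfl⟩ := exists_opR a
    exact mem_iUnion.2 ⟨n, x, rfl⟩
  · have : vv K 0 = 1 := Units.ext (Subtype.ext rfl)
    rw [this, map_one]
  · intro n
    obtain ⟨x, hx⟩ := hmem n
    refine ⟨x, ?_⟩
    simp only
    rw [hx, ← map_inv, ← map_mul]
    rfl
  · rintro n _ ⟨x, rfl⟩
    rw [← map_inv, ← map_mul]
    exact (om_commute n x).map j
  · intro s hs
    rw [hE0 s hs, G_zero, map_zero]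
  · intro s hs
    have : G (K := K) 0 1 = 1 := G_top 0
    rw [hE1 s hs, this, map_one]
  · refine hclosed (p := fun x => x * x = x) (isClosed_eq (by fun_prop) (by fun_prop)) ?_
    intro m i
    rw [← map_mul, G_idem]
  · rintro n _ ⟨x, rfl⟩
    refine hclosed (p := fun z => Commute z (cj (Units.map (j : R0 K →* M) (vv K n))
      (j (opR n x)))) (isClosed_eq (by fun_prop) (by fun_prop)) ?_
    intro m i
    have h1 := (G_commute n m i x).map j
    rw [map_mul, map_mul] at h1
    exact h1

theorem contractible_main (h : IsRankCompletion K M ι) :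
    ContractibleSpace {x : M // IsUnit x} := by
  have := h.top
  have := h.complete
  obtain ⟨D⟩ := exists_flip h
  exact D.contractible (contr h)

end map

end Pool.Agent.R643.CG
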