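import Pool.Agent.R643.Realize2

set_option autoImplicit false

/-!
# Word metrics, and the hyperbolic word metric attached to a contracted norm
-/

namespace Pool.Agent.R643

universe u v

variable {G : Type u} [Group G]

/-- products of `n` elements of `S` -/
def Wd (S : Set G) : ℕ → Set G
  | 0 => {1}
  | n + 1 => {g | ∃ s ∈ S, ∃ h ∈ Wd S n, g = s * h}

theorem Wd_add {S : Set G} {m n : ℕ} {g h : G} (hg : g ∈ Wd S m) (hh : h ∈ Wd S n) :
    g * h ∈ Wd S (m + n) := by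
  induction m generalizing g with
  | zero =>
    have : g = 1 := hg
    rw [this, one_mul, zero_add]; exact hh
  | succ m ih =>
    obtain ⟨s, hs, k, hk, rfl⟩ := hg
    rw [Nat.add_right_comm]
    exact ⟨s, hs, k * h, ih hk, mul_assoc _ _ _⟩

theorem Wd_one {S : Set G} {s : G} (hs : s ∈ S) : s ∈ Wd S 1 := ⟨s, hs, 1, rfl, (mul_one s).symm⟩

theorem Wd_inv {S : Set G} (hS : ∀ s ∈ S, s⁻¹ ∈ S) {n : ℕ} {g : G} (hg : g ∈ Wd S n) :
    g⁻¹ ∈ Wd S n := by
  induction n generalizing g with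
  | zero =>
    have : g = 1 := hg
    rw [this, inv_one]; rfl
  | succ n ih =>
    obtain ⟨s, hs, k, hk, rfl⟩ := hg
    rw [mul_inv_rev]
    exact Wd_add (ih hk) (Wd_one (hS s hs))

theorem Wd_pow {S : Set G} {s : G} (hs : s ∈ S) (n : ℕ) : s ^ n ∈ Wd S n := by
  induction n with
  | zero => rw [pow_zero]; rfl
  | succ n ih => rw [pow_succ]; exact Wd_add ih (Wd_one hs)

/-- word length -/
noncomputable def len (S : Set G) (g : G) : ℕ := sInf {n | g ∈ Wd S n}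

section

variable {S : Set G} (hS : ∀ s ∈ S, s⁻¹ ∈ S) (hgen : ∀ g, ∃ n, g ∈ Wd S n)

include hgen in
theorem len_mem (g : G) : g ∈ Wd S (len S g) := Nat.sInf_mem (hgen g)

theorem len_le {n : ℕ} {g : G} (h : g ∈ Wd S n) : len S g ≤ n := Nat.sInf_le h

include hgen in
theorem len_mul (g h : G) : len S (g * h) ≤ len S g + len S h :=
  len_le (Wd_add (len_mem hgen g) (len_mem hgen h))

include hS hgen in
theorem len_inv (g : G) : len S g⁻¹ = len S g := by
  apply le_antisymm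
  · exact len_le (Wd_inv hS (len_mem hgen g))
  · have := len_le (Wd_inv hS (len_mem hgen g⁻¹))
    rwa [inv_inv] at this

theorem len_one : len S (1 : G) = 0 := Nat.le_zero.1 (len_le (n := 0) rfl)

include hgen in
theorem eq_one_of_len {g : G} (h : len S g = 0) : g = 1 := by
  have := len_mem hgen g
  rw [h] at this
  exact this

/-- the word metric -/
noncomputable def wordMetric (hne : ∃ s ∈ S, s ≠ (1 : G)) : GraphMetric G where
  D g h := len S (g⁻¹ * h)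
  self g := by rw [inv_mul_cancel, len_one]
  eq_of g h hd := by
    have := eq_one_of_len hgen hd
    exact (inv_mul_eq_one.1 this)
  symm g h := by
    rw [← len_inv hS hgen (g⁻¹ * h), mul_inv_rev, inv_inv]
  tri g h k := by
    have := len_mul hgen (g⁻¹ * h) (h⁻¹ * k)
    have e : g⁻¹ * h * (h⁻¹ * k) = g⁻¹ * k := by group
    rwa [e] at this
  step g h hgh := by
    have hne : g⁻¹ * h ≠ 1 := fun h' => hgh (inv_mul_eq_one.1 h')
    have hpos : len S (g⁻¹ * h) ≠ 0 := fun h' => hne (eq_one_of_len hgen h')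
    obtain ⟨n, hn⟩ := Nat.exists_eq_succ_of_ne_zero hpos
    have hmem := len_mem hgen (g⁻¹ * h)
    rw [hn] at hmem
    obtain ⟨s, hs, k, hk, hsk⟩ := hmem
    have h1 := len_le hk
    have h2 := len_le (Wd_one hs)
    have h3 := len_mul hgen s k
    rw [← hsk, hn] at h3
    refine ⟨g * s, ?_, ?_⟩
    · rw [inv_mul_cancel_left]; omega
    · have e : (g * s)⁻¹ * h = k := by
        rw [mul_inv_rev, mul_assoc, hsk, inv_mul_cancel_left]
      rw [hn, e]; omega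
  nbr g := by
    obtain ⟨s, hs, hs1⟩ := hne
    refine ⟨g * s, ?_⟩
    rw [inv_mul_cancel_left]
    have h2 := len_le (Wd_one hs)
    have : len S s ≠ 0 := fun h => hs1 (eq_one_of_len hgen h)
    omega

end

/-! ### Contracted norms -/

/-- A homomorphism `τ` to `ℤ` with a section, and a norm on the kernel that is halved by conjugation
with the generator. -/
structure NormData (G : Type u) [Group G] where
  τ : G → ℤ
  τ_mul : ∀ g h, τ (g * h) = τ g + τ h
  t : G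
  τ_t : τ t = 1
  u : G → ℝ
  u_one : u 1 = 0
  u_nonneg : ∀ k, τ k = 0 → 0 ≤ u k
  u_inv : ∀ k, τ k = 0 → u k⁻¹ = u k
  u_mul : ∀ k l, τ k = 0 → τ l = 0 → u (k * l) ≤ u k + u l
  u_conj : ∀ k, τ k = 0 → u (t * k * t⁻¹) = u k / 2

namespace NormData

variable (N : NormData G)

theorem τ_one : N.τ 1 = 0 := by
  have := N.τ_mul 1 1
  rw [one_mul] at this
  omega

theorem τ_inv (g : G) : N.τ g⁻¹ = - N.τ g := by
  have := N.τ_mul g g⁻¹
  rw [mul_inv_cancel, N.τ_one] at this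
  omega

theorem τ_pow (g : G) (n : ℕ) : N.τ (g ^ n) = n * N.τ g := by
  induction n with
  | zero => rw [pow_zero, N.τ_one]; simp
  | succ n ih => rw [pow_succ, N.τ_mul, ih]; push_cast; ring

theorem τ_zpow (g : G) (n : ℤ) : N.τ (g ^ n) = n * N.τ g := by
  obtain ⟨k, rfl | rfl⟩ := n.eq_nat_or_neg
  · rw [zpow_natCast, N.τ_pow]
  · rw [zpow_neg, zpow_natCast, N.τ_inv, N.τ_pow]; push_cast; ring

theorem τ_tz (n : ℤ) : N.τ (N.t ^ n) = n := by rw [N.τ_zpow, N.τ_t, mul_one]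

theorem τ_conj (k : G) (n : ℤ) (hk : N.τ k = 0) : N.τ (N.t ^ n * k * (N.t ^ n)⁻¹) = 0 := by
  rw [N.τ_mul, N.τ_mul, N.τ_inv, hk]; ring

theorem u_conj_pow (k : G) (hk : N.τ k = 0) (n : ℕ) :
    N.u (N.t ^ n * k * (N.t ^ n)⁻¹) = N.u k / 2 ^ n := by
  induction n with
  | zero => simp
  | succ n ih =>
    have e : N.t ^ (n + 1) * k * (N.t ^ (n + 1))⁻¹ =
        N.t * (N.t ^ n * k * (N.t ^ n)⁻¹) * N.t⁻¹ := by
      rw [pow_succ']; group
    have h0 : N.τ (N.t ^ n * k * (N.t ^ n)⁻¹) = 0 := by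
      have := N.τ_conj k n hk
      rwa [zpow_natCast] at this
    rw [e, N.u_conj _ h0, ih, pow_succ]
    field_simp

theorem u_conj_zpow (k : G) (hk : N.τ k = 0) (n : ℤ) :
    N.u (N.t ^ n * k * (N.t ^ n)⁻¹) = N.u k * 2 ^ (-n) := by
  obtain ⟨m, rfl | rfl⟩ := n.eq_nat_or_neg
  · rw [zpow_natCast, N.u_conj_pow k hk, zpow_neg, zpow_natCast]; rfl
  · have h0 := N.τ_conj k (-(m : ℤ)) hk
    have h1 := N.u_conj_pow _ h0 m
    have e : N.t ^ m * (N.t ^ (-(m : ℤ)) * k * (N.t ^ (-(m : ℤ)))⁻¹) * (N.t ^ m)⁻¹ = k := by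
      rw [zpow_neg, zpow_natCast]; group
    rw [e] at h1
    rw [neg_neg, zpow_natCast, h1]
    field_simp

/-- the kernel coordinate -/
def κ (g : G) : G := g * (N.t ^ N.τ g)⁻¹

theorem τ_κ (g : G) : N.τ (N.κ g) = 0 := by
  unfold κ
  rw [N.τ_mul, N.τ_inv, N.τ_tz]; ring

theorem κ_mul (g : G) : N.κ g * N.t ^ N.τ g = g := by
  unfold κ; group

/-- distance of the kernel coordinates -/
def dk (g h : G) : ℝ := N.u ((N.κ g)⁻¹ * N.κ h)

theorem τ_κκ (g h : G) : N.τ ((N.κ g)⁻¹ * N.κ h) = 0 := by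
  rw [N.τ_mul, N.τ_inv, N.τ_κ, N.τ_κ]; ring

theorem dk_nonneg (g h : G) : 0 ≤ N.dk g h := N.u_nonneg _ (N.τ_κκ g h)

theorem dk_self (g : G) : N.dk g g = 0 := by unfold dk; rw [inv_mul_cancel, N.u_one]

theorem dk_symm (g h : G) : N.dk g h = N.dk h g := by
  unfold dk
  rw [← N.u_inv _ (N.τ_κκ g h), mul_inv_rev, inv_inv]

theorem dk_tri (g h k : G) : N.dk g k ≤ N.dk g h + N.dk h k := by
  have := N.u_mul _ _ (N.τ_κκ g h) (N.τ_κκ h k)
  have e : (N.κ g)⁻¹ * N.κ h * ((N.κ h)⁻¹ * N.κ k) = (N.κ g)⁻¹ * N.κ k := by group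
  rwa [e] at this

/-- the generating set -/
def S : Set G := {s | s = N.t ∨ s = N.t⁻¹ ∨ (N.τ s = 0 ∧ N.u s ≤ 1)}

theorem S_inv : ∀ s ∈ N.S, s⁻¹ ∈ N.S := by
  rintro s (rfl | rfl | ⟨h1, h2⟩)
  · exact Or.inr (Or.inl rfl)
  · exact Or.inl (inv_inv _)
  · exact Or.inr (Or.inr ⟨by rw [N.τ_inv, h1, neg_zero], by rwa [N.u_inv _ h1]⟩)

/-- **Upper bound.** -/
theorem upper (g h : G) {M : ℤ} (hg : -N.τ g ≤ M) (hh : -N.τ h ≤ M) (hd : N.dk g h ≤ 2 ^ M) :
    ∃ n : ℕ, g⁻¹ * h ∈ Wd N.S n ∧ (n : ℤ) = 2 * M + N.τ g + N.τ h + 1 := by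
  obtain ⟨i, hi⟩ := Int.eq_ofNat_of_zero_le (show 0 ≤ M + N.τ g by linarith)
  obtain ⟨j, hj⟩ := Int.eq_ofNat_of_zero_le (show 0 ≤ M + N.τ h by linarith)
  set a := N.t ^ M * ((N.κ g)⁻¹ * N.κ h) * (N.t ^ M)⁻¹ with ha
  have haS : a ∈ N.S := by
    right; right
    refine ⟨N.τ_conj _ _ (N.τ_κκ g h), ?_⟩
    rw [ha, N.u_conj_zpow _ (N.τ_κκ g h), zpow_neg]
    have h2 : (0 : ℝ) < 2 ^ M := by positivity
    rw [← div_eq_mul_inv, div_le_one h2]
    exact hd
  have e : g⁻¹ * h = (N.t⁻¹) ^ i * (a * N.t ^ j) := by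
    have e1 : (N.t⁻¹) ^ i = (N.t ^ (M + N.τ g))⁻¹ := by
      rw [hi, inv_pow, ← zpow_natCast]
    have e2 : N.t ^ j = N.t ^ (M + N.τ h) := by rw [hj, ← zpow_natCast]
    rw [e1, e2, ha]
    conv_lhs => rw [← N.κ_mul g, ← N.κ_mul h]
    rw [zpow_add, zpow_add]
    have c1 : Commute (N.t ^ M) (N.t ^ N.τ g) := Commute.zpow_zpow_self N.t _ _
    rw [c1.eq]
    group
  refine ⟨i + (1 + j), ?_, ?_⟩
  · rw [e]
    have m1 : N.t⁻¹ ∈ N.S := Or.inr (Or.inl rfl)
    have m2 : N.t ∈ N.S := Or.inl rfl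
    exact Wd_add (Wd_pow m1 i) (Wd_add (Wd_one haS) (Wd_pow m2 j))
  · push_cast
    have hi' : (i : ℤ) = M + N.τ g := hi.symm
    have hj' : (j : ℤ) = M + N.τ h := hj.symm
    rw [hi', hj']; ring

theorem κ_mul_t (g : G) : N.κ (g * N.t) = N.κ g := by
  unfold κ
  rw [N.τ_mul, N.τ_t, zpow_add, zpow_one]; group

theorem κ_mul_tinv (g : G) : N.κ (g * N.t⁻¹) = N.κ g := by
  have := N.κ_mul_t (g * N.t⁻¹)
  rw [inv_mul_cancel_right] at this
  exact this.symm

/-- **Lower bound.** -/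
theorem lower (n : ℕ) (g h : G) (hgh : g⁻¹ * h ∈ Wd N.S n) : ∃ (m : ℤ) (k : ℕ), -N.τ g ≤ m ∧
    -N.τ h ≤ m ∧ 2 * m + N.τ g + N.τ h + k ≤ n ∧ N.dk g h ≤ k * 2 ^ m := by
  induction n generalizing g with
  | zero =>
    have h1 : g⁻¹ * h = 1 := hgh
    have h2 : g = h := inv_mul_eq_one.1 h1
    subst h2
    refine ⟨-N.τ g, 0, le_rfl, le_rfl, by push_cast; linarith, ?_⟩
    rw [N.dk_self]; simp
  | succ n ih =>
    obtain ⟨s, hs, w, hw, he⟩ := hgh
    have e1 : (g * s)⁻¹ * h = w := by rw [mul_inv_rev, mul_assoc, he, inv_mul_cancel_left]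
    obtain ⟨m, k, h1, h2, h3, h4⟩ := ih (g * s) (by rw [e1]; exact hw)
    rcases hs with rfl | rfl | ⟨hs1, hs2⟩
    · -- step down
      rw [N.τ_mul, N.τ_t] at h1 h3
      have e2 : N.dk (g * N.t) h = N.dk g h := by unfold dk; rw [N.κ_mul_t]
      rw [e2] at h4
      by_cases hm : -N.τ g ≤ m
      · exact ⟨m, k, hm, h2, by push_cast; linarith, h4⟩
      · have hm' : -N.τ g = m + 1 := by omega
        refine ⟨m + 1, k, hm'.le, by linarith, by push_cast; linarith, h4.trans ?_⟩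
        apply mul_le_mul_of_nonneg_left _ (by positivity)
        exact zpow_le_zpow_right₀ (by norm_num) (by linarith)
    · -- step up
      rw [N.τ_mul, N.τ_inv, N.τ_t] at h1 h3
      have e2 : N.dk (g * N.t⁻¹) h = N.dk g h := by unfold dk; rw [N.κ_mul_tinv]
      rw [e2] at h4
      exact ⟨m, k, by linarith, h2, by push_cast; linarith, h4⟩
    · -- horizontal step
      rw [N.τ_mul, hs1, add_zero] at h1 h3
      refine ⟨m, k + 1, h1, h2, by push_cast; linarith, ?_⟩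
      have e3 : N.dk g (g * s) ≤ 2 ^ m := by
        have e4 : (N.κ g)⁻¹ * N.κ (g * s) = N.t ^ N.τ g * s * (N.t ^ N.τ g)⁻¹ := by
          unfold κ
          rw [N.τ_mul, hs1, add_zero]; group
        unfold dk
        rw [e4, N.u_conj_zpow _ hs1]
        have h5 : (0 : ℝ) < 2 ^ (-N.τ g) := by positivity
        have h6 : (2 : ℝ) ^ (-N.τ g) ≤ 2 ^ m := zpow_le_zpow_right₀ (by norm_num) h1
        calc N.u s * 2 ^ (-N.τ g) ≤ 1 * 2 ^ (-N.τ g) := mul_le_mul_of_nonneg_right hs2 h5.le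
          _ ≤ 2 ^ m := by rw [one_mul]; exact h6
      have e5 := N.dk_tri g (g * s) h
      push_cast
      linarith

/-- the height at which two elements are joined -/
theorem exists_top (g h : G) : ∃ M : ℤ, (-N.τ g ≤ M ∧ -N.τ h ≤ M ∧ N.dk g h ≤ 2 ^ M) ∧
    ∀ M' : ℤ, -N.τ g ≤ M' ∧ -N.τ h ≤ M' ∧ N.dk g h ≤ 2 ^ M' → M ≤ M' := by
  apply Int.exists_least_of_bdd
  · exact ⟨-N.τ g, fun z hz => hz.1⟩
  · obtain ⟨n, hn⟩ := pow_unbounded_of_one_lt (N.dk g h) (one_lt_two)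
    refine ⟨max n (max (-N.τ g) (-N.τ h)), ?_, ?_, ?_⟩
    · exact (le_max_left _ _).trans (le_max_right _ _)
    · exact (le_max_right _ _).trans (le_max_right _ _)
    · refine hn.le.trans ?_
      rw [← zpow_natCast]
      exact zpow_le_zpow_right₀ (by norm_num) (le_max_left _ _)

/-- the height at which two elements are joined -/
noncomputable def top (g h : G) : ℤ := (N.exists_top g h).choose

theorem top_spec (g h : G) : -N.τ g ≤ N.top g h ∧ -N.τ h ≤ N.top g h ∧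
    N.dk g h ≤ 2 ^ N.top g h := (N.exists_top g h).choose_spec.1

theorem top_le (g h : G) {M : ℤ} (h1 : -N.τ g ≤ M) (h2 : -N.τ h ≤ M) (h3 : N.dk g h ≤ 2 ^ M) :
    N.top g h ≤ M := (N.exists_top g h).choose_spec.2 M ⟨h1, h2, h3⟩

theorem top_symm (g h : G) : N.top g h = N.top h g := by
  have h1 := N.top_spec g h
  have h2 := N.top_spec h g
  rw [N.dk_symm] at h1
  apply le_antisymm
  · exact N.top_le g h h2.2.1 h2.1 (by rw [N.dk_symm]; exact h2.2.2)
  · exact N.top_le h g h1.2.1 h1.1 h1.2.2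

theorem top_tri (g h k : G) : N.top g k ≤ max (N.top g h) (N.top h k) + 1 := by
  obtain ⟨a1, a2, a3⟩ := N.top_spec g h
  obtain ⟨b1, b2, b3⟩ := N.top_spec h k
  set M := max (N.top g h) (N.top h k)
  have m1 : N.top g h ≤ M := le_max_left _ _
  have m2 : N.top h k ≤ M := le_max_right _ _
  apply N.top_le g k (by linarith) (by linarith)
  have c1 : (2 : ℝ) ^ N.top g h ≤ 2 ^ M := zpow_le_zpow_right₀ (by norm_num) m1
  have c2 : (2 : ℝ) ^ N.top h k ≤ 2 ^ M := zpow_le_zpow_right₀ (by norm_num) m2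
  rw [zpow_add₀ (by norm_num), zpow_one]
  have := N.dk_tri g h k
  linarith

theorem generates (g : G) : ∃ n, g ∈ Wd N.S n := by
  obtain ⟨a1, a2, a3⟩ := N.top_spec 1 g
  obtain ⟨n, hn, -⟩ := N.upper 1 g a1 a2 a3
  rw [inv_one, one_mul] at hn
  exact ⟨n, hn⟩

theorem len_upper (g h : G) {M : ℤ} (hg : -N.τ g ≤ M) (hh : -N.τ h ≤ M) (hd : N.dk g h ≤ 2 ^ M) :
    (len N.S (g⁻¹ * h) : ℤ) ≤ 2 * M + N.τ g + N.τ h + 1 := by
  obtain ⟨n, hn, he⟩ := N.upper g h hg hh hd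
  rw [← he]
  exact_mod_cast len_le hn

theorem two_mul_le_pow (j : ℕ) : 2 * (j : ℤ) ≤ 2 ^ j := by
  induction j with
  | zero => norm_num
  | succ j ih =>
    rcases Nat.eq_zero_or_pos j with rfl | hj
    · norm_num
    · have : (2 : ℤ) ≤ 2 ^ j := by
        calc (2 : ℤ) = 2 ^ 1 := by norm_num
          _ ≤ 2 ^ j := pow_le_pow_right₀ (by norm_num) hj
      rw [pow_succ]; push_cast; linarith

theorem len_lower (g h : G) : 2 * N.top g h + N.τ g + N.τ h - 2 ≤ (len N.S (g⁻¹ * h) : ℤ) := by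
  obtain ⟨m, k, h1, h2, h3, h4⟩ := N.lower _ g h (len_mem N.generates (g⁻¹ * h))
  have hk : (0 : ℤ) ≤ k := by positivity
  by_cases hm : N.top g h ≤ m
  · linarith
  push Not at hm
  -- the minimality of the top
  have hd : (2 : ℝ) ^ (N.top g h - 1) < N.dk g h := by
    by_contra hcon
    push Not at hcon
    have := N.top_le g h (M := N.top g h - 1) (by linarith [Int.lt_iff_add_one_le.1 hm])
      (by linarith [Int.lt_iff_add_one_le.1 hm]) hcon
    linarith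
  obtain ⟨j, hj⟩ := Int.eq_ofNat_of_zero_le (show 0 ≤ N.top g h - 1 - m by
    linarith [Int.lt_iff_add_one_le.1 hm])
  have hkj : (2 : ℤ) ^ j ≤ k := by
    have e1 : (2 : ℝ) ^ (N.top g h - 1) = 2 ^ j * 2 ^ m := by
      rw [← zpow_natCast, ← zpow_add₀ (by norm_num)]
      congr 1
      have : ((j : ℕ) : ℤ) = N.top g h - 1 - m := hj.symm
      rw [this]; ring
    have e2 : (2 : ℝ) ^ j * 2 ^ m < k * 2 ^ m := by rw [← e1]; linarith
    have e3 : (0 : ℝ) < 2 ^ m := by positivity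
    have e4 : (2 : ℝ) ^ j < k := lt_of_mul_lt_mul_right e2 e3.le
    have e5 : (2 : ℤ) ^ j < k := by exact_mod_cast e4
    exact e5.le
  have h5 := two_mul_le_pow j
  have hj' : (j : ℤ) = N.top g h - 1 - m := hj.symm
  linarith

/-- the metric -/
noncomputable def metric : GraphMetric G :=
  wordMetric N.S_inv N.generates ⟨N.t, Or.inl rfl, by
    intro h
    have h1 := N.τ_t
    rw [h, N.τ_one] at h1
    omega⟩

theorem metric_D (g h : G) : N.metric.D g h = len N.S (g⁻¹ * h) := rfl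

theorem metric_inv (x g h : G) : N.metric.D (x • g) (x • h) = N.metric.D g h := by
  rw [N.metric_D, N.metric_D, smul_eq_mul, smul_eq_mul]
  congr 1; group

theorem D_upper (g h : G) {M : ℤ} (hg : -N.τ g ≤ M) (hh : -N.τ h ≤ M) (hd : N.dk g h ≤ 2 ^ M) :
    (N.metric.D g h : ℤ) ≤ 2 * M + N.τ g + N.τ h + 1 := N.len_upper g h hg hh hd

theorem D_lower (g h : G) : 2 * N.top g h + N.τ g + N.τ h - 2 ≤ (N.metric.D g h : ℤ) :=
  N.len_lower g h

theorem D_top (g h : G) : (N.metric.D g h : ℤ) ≤ 2 * N.top g h + N.τ g + N.τ h + 1 := by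
  obtain ⟨a1, a2, a3⟩ := N.top_spec g h
  exact N.D_upper g h a1 a2 a3

/-- **Hyperbolicity.** -/
theorem four (x y z w : G) : (N.metric.D x y : ℤ) + N.metric.D z w ≤
    max ((N.metric.D x z : ℤ) + N.metric.D y w) (N.metric.D x w + N.metric.D y z) + 10 := by
  have u1 := N.D_top x y
  have u2 := N.D_top z w
  have l1 := N.D_lower x z
  have l2 := N.D_lower y w
  have l3 := N.D_lower x w
  have l4 := N.D_lower y z
  have t1 := N.top_tri x z y
  have t2 := N.top_tri x w y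
  have t3 := N.top_tri z x w
  have t4 := N.top_tri z y w
  rw [N.top_symm z y] at t1 t4
  rw [N.top_symm w y] at t2
  rw [N.top_symm z x] at t3
  omega

/-- lengths and the homomorphism -/
theorem τ_le (g h : G) : |N.τ h - N.τ g| ≤ N.metric.D g h := by
  obtain ⟨m, k, h1, h2, h3, h4⟩ := N.lower _ g h (len_mem N.generates (g⁻¹ * h))
  rw [N.metric_D, abs_le]
  constructor <;> omega

theorem bound (g : G) {R : ℕ} (h : N.metric.D 1 g ≤ R) : N.u (N.κ g) ≤ R * 2 ^ R := by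
  have h0 : (1 : G)⁻¹ * g ∈ Wd N.S (N.metric.D 1 g) := len_mem N.generates _
  obtain ⟨m, k, h1, h2, h3, h4⟩ := N.lower _ 1 g h0
  rw [N.τ_one] at h1 h3
  have e : N.dk 1 g = N.u (N.κ g) := by
    unfold dk κ
    rw [N.τ_one]; simp
  rw [e] at h4
  have hk : (k : ℤ) ≤ R := by omega
  have hm : m ≤ R := by omega
  have hk' : (k : ℝ) ≤ R := by exact_mod_cast hk
  have hm' : (2 : ℝ) ^ m ≤ 2 ^ R := by
    rw [← zpow_natCast]
    exact zpow_le_zpow_right₀ (by norm_num) hm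
  have hm0 : (0 : ℝ) < 2 ^ m := by positivity
  calc N.u (N.κ g) ≤ k * 2 ^ m := h4
    _ ≤ R * 2 ^ m := mul_le_mul_of_nonneg_right hk' hm0.le
    _ ≤ R * 2 ^ R := mul_le_mul_of_nonneg_left hm' (by positivity)

end NormData

end Pool.Agent.R643
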