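import Mathlib

set_option autoImplicit false

/-!
# Every ordered abelian group embeds in the additive group of an ordered commutative ring
-/

namespace Pool.Agent.R643

open HahnSeries

universe u

/-- A linear order embeds in a linearly ordered abelian group. -/
noncomputable def toGrp (A : Type u) [LinearOrder A] : A ↪o Lex (A →₀ ℤ) :=
  OrderEmbedding.ofStrictMono (fun a => toLex (Finsupp.single a (-1 : ℤ))) (by
    intro a b hab
    rw [Finsupp.Lex.lt_iff]
    refine ⟨a, ?_, ?_⟩
    · intro j hj
      have h1 : a ≠ j := hj.ne'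
      have h2 : b ≠ j := (hj.trans hab).ne'
      simp [Finsupp.single_apply, h1, h2]
    · simp [Finsupp.single_apply, hab.ne'])

/-- **Hahn embedding into an ordered ring.** -/
theorem exists_ring (Λ : Type u) [AddCommGroup Λ] [LinearOrder Λ] [IsOrderedAddMonoid Λ] :
    ∃ (K : Type u) (_ : CommRing K) (_ : LinearOrder K) (_ : IsStrictOrderedRing K)
      (f : Λ →+ K), StrictMono f := by
  obtain ⟨f, hf, -⟩ := hahnEmbedding_isOrderedAddMonoid Λ
  let Γ := Lex (FiniteArchimedeanClass Λ →₀ ℤ)
  let g : Lex ℝ⟦FiniteArchimedeanClass Λ⟧ →+o Lex ℝ⟦Γ⟧ :=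
    HahnSeries.embDomainOrderAddMonoidHom (toGrp (FiniteArchimedeanClass Λ))
  have hg : Function.Injective g := HahnSeries.embDomainOrderAddMonoidHom_injective _
  refine ⟨Lex ℝ⟦Γ⟧, inferInstance, inferInstance, inferInstance, (g.comp f : Λ →+ Lex ℝ⟦Γ⟧), ?_⟩
  exact Monotone.strictMono_of_injective (OrderHomClass.monotone (g.comp f)) (hg.comp hf)

end Pool.Agent.R643
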