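import Mathlib

set_option autoImplicit false

/-!
# Criteria for finite generation of subgroups
-/

namespace Pool.Agent.R643

universe u v w

variable {G : Type u} [Group G]

theorem zpowers_fg (g : G) : (Subgroup.zpowers g).FG :=
  ⟨{g}, by rw [Finset.coe_singleton, ← Subgroup.zpowers_eq_closure]⟩

theorem closure_fg {S : Set G} (hS : S.Finite) : (Subgroup.closure S).FG :=
  ⟨hS.toFinset, by rw [Set.Finite.coe_toFinset]⟩

/-- extension by an infinite cyclic group -/
theorem fg_of_tau (F K : Subgroup G) (hKF : K ≤ F) (τ : G → ℤ)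
    (hτ : ∀ g ∈ F, ∀ h ∈ F, τ (g * h) = τ g + τ h) (hK : ∀ g ∈ F, τ g = 0 → g ∈ K)
    (hfg : K.FG) : F.FG := by
  let t : F →* Multiplicative ℤ :=
    { toFun := fun g => Multiplicative.ofAdd (τ g)
      map_one' := by
        have := hτ 1 F.one_mem 1 F.one_mem
        rw [one_mul] at this
        have h0 : τ 1 = 0 := by omega
        show Multiplicative.ofAdd (τ ((1 : F) : G)) = 1
        rw [Subgroup.coe_one, h0]; rfl
      map_mul' := by
        intro g h
        show Multiplicative.ofAdd (τ ((g * h : F) : G)) = _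
        rw [Subgroup.coe_mul, hτ g g.2 h h.2]; rfl }
  obtain ⟨z, hz⟩ := (inferInstance : IsCyclic t.range).exists_generator
  obtain ⟨g0, hg0⟩ := z.2
  have key : ∀ g : F, ∃ q : ℤ, t g = (t g0) ^ q := by
    intro g
    obtain ⟨q, hq⟩ := hz ⟨t g, g, rfl⟩
    refine ⟨q, ?_⟩
    rw [hg0]
    have := congrArg Subtype.val hq
    simpa using this.symm
  have hF : F = K ⊔ Subgroup.zpowers (g0 : G) := by
    apply le_antisymm
    · intro g hg
      obtain ⟨q, hq⟩ := key ⟨g, hg⟩
      have h1 : t (⟨g, hg⟩ * g0 ^ (-q)) = 1 := by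
        rw [map_mul, map_zpow, hq, ← zpow_add, add_neg_cancel, zpow_zero]
      have h2 : τ ((⟨g, hg⟩ * g0 ^ (-q) : F) : G) = 0 := Multiplicative.ofAdd.injective h1
      have h3 := hK _ (⟨g, hg⟩ * g0 ^ (-q) : F).2 h2
      have h4 : g = ((⟨g, hg⟩ * g0 ^ (-q) : F) : G) * (g0 : G) ^ q := by
        simp
      rw [h4]
      exact Subgroup.mul_mem_sup h3 (Subgroup.zpow_mem_zpowers _ _)
    · rw [sup_le_iff, Subgroup.zpowers_le]
      exact ⟨hKF, g0.2⟩
  rw [hF]
  exact hfg.sup (zpowers_fg _)

/-- a finite union of cosets of a finitely generated subgroup -/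
theorem fg_of_cosets (F K : Subgroup G) (hKF : K ≤ F) (hfg : K.FG) (S : Set G) (hS : S.Finite)
    (hSF : ∀ s ∈ S, s ∈ F) (h : ∀ f ∈ F, ∃ s ∈ S, s⁻¹ * f ∈ K) : F.FG := by
  have hF : F = Subgroup.closure S ⊔ K := by
    apply le_antisymm
    · intro f hf
      obtain ⟨s, hs, hk⟩ := h f hf
      have : f = s * (s⁻¹ * f) := by group
      rw [this]
      exact Subgroup.mul_mem_sup (Subgroup.subset_closure hs) hk
    · rw [sup_le_iff]
      exact ⟨(Subgroup.closure_le _).2 hSF, hKF⟩
  rw [hF]
  exact (closure_fg hS).sup hfg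

/-- **Generation from an action on a connected graph.** The group `F` acts on the vertices of a
connected graph preserving an equivalence relation whose classes have finitely generated
stabilisers, and the edges joining different classes form finitely many orbits. -/
theorem fg_of_graph {V : Type v} [MulAction G V] (F : Subgroup G) (T : SimpleGraph V)
    (hT : T.Connected) (r : V → V → Prop) (hr : Equivalence r)
    (hinv : ∀ f ∈ F, ∀ u v, r u v → r (f • u) (f • v))
    (hst : ∀ v, ∃ K : Subgroup G, K.FG ∧ ∀ g, g ∈ K ↔ g ∈ F ∧ r (g • v) v)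
    (R : Set (V × V)) (hRf : R.Finite)
    (hR : ∀ u v, T.Adj u v → ¬ r u v → ∃ f ∈ F, (f • u, f • v) ∈ R) : F.FG := by
  classical
  obtain ⟨v0⟩ := hT.nonempty
  let P : Set V := {v0} ∪ (Prod.fst '' R ∪ Prod.snd '' R)
  have hPf : P.Finite := (Set.finite_singleton v0).union ((hRf.image _).union (hRf.image _))
  choose K hKfg hK using hst
  -- transporters
  let tr : V × V → G := fun pq => if h : ∃ f ∈ F, r (f • pq.1) pq.2 then h.choose else 1
  have htr : ∀ p q : V, (∃ f ∈ F, r (f • p) q) → tr (p, q) ∈ F ∧ r (tr (p, q) • p) q := by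
    intro p q h
    have : tr (p, q) = h.choose := dif_pos h
    rw [this]
    exact h.choose_spec
  have htrF : ∀ pq, tr pq ∈ F := by
    intro pq
    by_cases h : ∃ f ∈ F, r (f • pq.1) pq.2
    · have : tr pq = h.choose := dif_pos h
      rw [this]; exact h.choose_spec.1
    · have : tr pq = 1 := dif_neg h
      rw [this]; exact F.one_mem
  have hfin : (⋃ p ∈ P, (((hKfg p).choose : Finset G) : Set G)).Finite :=
    hPf.biUnion (fun p _ => Finset.finite_toSet _)
  let F' : Subgroup G := Subgroup.closure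
    ((⋃ p ∈ P, (((hKfg p).choose : Finset G) : Set G)) ∪ tr '' (P ×ˢ P))
  have hF'fg : F'.FG := closure_fg (hfin.union ((hPf.prod hPf).image _))
  have hKF' : ∀ p ∈ P, K p ≤ F' := by
    intro p hp
    rw [← (hKfg p).choose_spec, Subgroup.closure_le]
    intro s hs
    apply Subgroup.subset_closure
    left
    exact Set.mem_biUnion hp hs
  have htrF' : ∀ p ∈ P, ∀ q ∈ P, tr (p, q) ∈ F' := by
    intro p hp q hq
    apply Subgroup.subset_closure
    right
    exact ⟨(p, q), ⟨hp, hq⟩, rfl⟩
  have hF'F : F' ≤ F := by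
    rw [Subgroup.closure_le]
    rintro s (hs | ⟨pq, -, rfl⟩)
    · rw [Set.mem_iUnion₂] at hs
      obtain ⟨p, hp, hs⟩ := hs
      have : s ∈ K p := by
        rw [← (hKfg p).choose_spec]
        exact Subgroup.subset_closure hs
      exact ((hK p s).1 this).1
    · exact htrF pq
  -- an element of `F` that carries a class of `P` to a class of `P` is in `F'`
  have hmem : ∀ p ∈ P, ∀ q ∈ P, ∀ f ∈ F, r (f • p) q → f ∈ F' := by
    intro p hp q hq f hf hfr
    obtain ⟨h1, h2⟩ := htr p q ⟨f, hf, hfr⟩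
    have h3 : (tr (p, q))⁻¹ * f ∈ K p := by
      rw [hK]
      refine ⟨F.mul_mem (F.inv_mem h1) hf, ?_⟩
      have h4 : r (f • p) (tr (p, q) • p) := hr.trans hfr (hr.symm h2)
      have h5 := hinv _ (F.inv_mem h1) _ _ h4
      rwa [inv_smul_smul, ← mul_smul] at h5
    have h6 := F'.mul_mem (htrF' p hp q hq) (hKF' p hp h3)
    rwa [mul_inv_cancel_left] at h6
  -- every vertex is in the `F'`-orbit of a class of `P`
  have hW : ∀ v, ∃ f ∈ F', ∃ p ∈ P, r (f • v) p := by
    intro v
    have hreach := hT.preconnected v0 v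
    rw [SimpleGraph.reachable_iff_reflTransGen] at hreach
    induction hreach with
    | refl => exact ⟨1, F'.one_mem, v0, Or.inl rfl, by rw [one_smul]; exact hr.refl _⟩
    | @tail u v _ hadj ih =>
      obtain ⟨f, hf, p, hp, hfr⟩ := ih
      by_cases huv : r u v
      · exact ⟨f, hf, p, hp, hr.trans (hinv f (hF'F hf) _ _ (hr.symm huv)) hfr⟩
      · obtain ⟨k, hk, hkR⟩ := hR u v hadj huv
        have hp' : k • u ∈ P := Or.inr (Or.inl ⟨_, hkR, rfl⟩)
        have hq' : k • v ∈ P := Or.inr (Or.inr ⟨_, hkR, rfl⟩)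
        refine ⟨k, ?_, k • v, hq', hr.refl _⟩
        have h1 : k * f⁻¹ ∈ F' := by
          apply hmem p hp (k • u) hp' _ (F.mul_mem hk (F.inv_mem (hF'F hf)))
          have h2 := hinv k hk _ _ (hinv _ (F.inv_mem (hF'F hf)) _ _ (hr.symm hfr))
          rwa [inv_smul_smul, ← mul_smul] at h2
        have h3 := F'.mul_mem h1 hf
        rwa [inv_mul_cancel_right] at h3
  have hFF' : F = F' := by
    apply le_antisymm _ hF'F
    intro f hf
    obtain ⟨k, hk, p, hp, hkr⟩ := hW (f • v0)
    have h1 : k * f ∈ F' := by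
      apply hmem v0 (Or.inl rfl) p hp _ (F.mul_mem (hF'F hk) hf)
      rwa [mul_smul]
    have h2 := F'.mul_mem (F'.inv_mem hk) h1
    rwa [inv_mul_cancel_left] at h2
  rw [hFF']
  exact hF'fg

end Pool.Agent.R643
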