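import Pool.Agent.R643.Cone

set_option autoImplicit false

/-!
# Types of actions on hyperbolic spaces; the word metric of a contracted norm gives a focal action
-/

namespace Pool.Agent.R643

universe u v

/-! ### Definitions -/

section Defs

variable (G : Type u) [Group G] (X : Type v) [MetricSpace X]

/-- Any two points of `X` are joined by a geodesic. -/
def IsGeodesicSpace : Prop :=
  ∀ x y : X, ∃ γ : ℝ → X, γ 0 = x ∧ γ (dist x y) = y ∧
    ∀ s ∈ Set.Icc (0 : ℝ) (dist x y), ∀ t ∈ Set.Icc (0 : ℝ) (dist x y), dist (γ s) (γ t) = |s - t|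

/-- `X` is Gromov hyperbolic: the four point condition holds for some constant. -/
def IsGromovHyperbolic : Prop :=
  ∃ δ : ℝ, ∀ x y z w : X,
    dist x y + dist z w ≤ max (dist x z + dist y w) (dist x w + dist y z) + 2 * δ

variable {X}

/-- The Gromov product of `x` and `y` with respect to `o`. -/
noncomputable def gpr (o x y : X) : ℝ := (dist o x + dist o y - dist x y) / 2

/-- Two sequences of points have Gromov products tending to infinity. -/
def SameEnd (s s' : ℕ → X) : Prop :=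
  ∀ (o : X) (R : ℝ), ∃ N : ℕ, ∀ m n : ℕ, N ≤ m → N ≤ n → R ≤ gpr o (s m) (s' n)

/-- The sequence converges to a point of the Gromov boundary. -/
def ToBoundary (s : ℕ → X) : Prop := SameEnd s s

variable {G} [MulAction G X]

/-- The element `g` fixes the boundary point represented by the sequence `s`. -/
def FixesEnd (g : G) (s : ℕ → X) : Prop := SameEnd (fun n => g • s n) s

variable (X)

/-- The element `g` is loxodromic: an orbit map of the cyclic group generated by `g` is a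
quasi-isometric embedding (the upper bound being automatic). -/
def IsLoxodromic (g : G) : Prop :=
  ∃ (x : X) (l c : ℝ), 0 < l ∧ ∀ n : ℤ, l * |(n : ℝ)| - c ≤ dist x (g ^ n • x)

variable (G)

/-- `G` acts by isometries. -/
def IsIsometricAction : Prop := ∀ (g : G) (x y : X), dist (g • x) (g • y) = dist x y

/-- Some orbit is coarsely dense. -/
def IsCobounded : Prop := ∃ (x₀ : X) (C : ℝ), ∀ x : X, ∃ g : G, dist x (g • x₀) ≤ C

/-- The action is lineal: there is a loxodromic element, and all loxodromic elements have the same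
fixed points on the boundary. -/
def IsLineal : Prop :=
  (∃ g : G, IsLoxodromic X g) ∧ ∀ g h : G, IsLoxodromic X g → IsLoxodromic X h →
    ∀ s : ℕ → X, ToBoundary s → (FixesEnd g s ↔ FixesEnd h s)

/-- The action is focal: it is not lineal, there is a loxodromic element, and any two loxodromic
elements have a common fixed point on the boundary. -/
def IsFocal : Prop :=
  ¬ IsLineal G X ∧ (∃ g : G, IsLoxodromic X g) ∧ ∀ g h : G, IsLoxodromic X g → IsLoxodromic X h →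
    ∃ s : ℕ → X, ToBoundary s ∧ FixesEnd g s ∧ FixesEnd h s

end Defs

theorem gpr_base {X : Type v} [MetricSpace X] (o o' x y : X) :
    gpr o x y - dist o o' ≤ gpr o' x y := by
  unfold gpr
  have h1 := dist_triangle o o' x
  have h2 := dist_triangle o o' y
  linarith

theorem sameEnd_of_base {X : Type v} [MetricSpace X] (o : X) {s s' : ℕ → X}
    (h : ∀ R : ℝ, ∃ N : ℕ, ∀ m n : ℕ, N ≤ m → N ≤ n → R ≤ gpr o (s m) (s' n)) : SameEnd s s' := by
  intro o' R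
  obtain ⟨N, hN⟩ := h (R + dist o o')
  refine ⟨N, fun m n hm hn => ?_⟩
  have h1 := hN m n hm hn
  have h2 := gpr_base o o' (s m) (s' n)
  linarith

namespace NormData

variable {G : Type u} [Group G] (N : NormData G)

theorem Wd_tz (n : ℤ) : N.t ^ n ∈ Wd N.S n.natAbs := by
  have m1 : N.t⁻¹ ∈ N.S := Or.inr (Or.inl rfl)
  have m2 : N.t ∈ N.S := Or.inl rfl
  obtain ⟨k, rfl | rfl⟩ := n.eq_nat_or_neg
  · rw [zpow_natCast, Int.natAbs_natCast]
    exact Wd_pow m2 k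
  · rw [zpow_neg, zpow_natCast, ← inv_pow, Int.natAbs_neg, Int.natAbs_natCast]
    exact Wd_pow m1 k

theorem D_tz (i j : ℤ) : (N.metric.D (N.t ^ i) (N.t ^ j) : ℤ) = |j - i| := by
  apply le_antisymm
  · have h1 : (N.t ^ i)⁻¹ * N.t ^ j = N.t ^ (j - i) := by
      rw [← zpow_neg, ← zpow_add]; congr 1; ring
    rw [N.metric_D, h1]
    have := len_le (N.Wd_tz (j - i))
    rw [← Int.natCast_natAbs]
    exact_mod_cast this
  · have := N.τ_le (N.t ^ i) (N.t ^ j)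
    rwa [N.τ_tz, N.τ_tz] at this

theorem D_one_tz (i : ℤ) : (N.metric.D 1 (N.t ^ i) : ℤ) = |i| := by
  have := N.D_tz 0 i
  rwa [zpow_zero, sub_zero] at this

theorem κ_mul_tz (g : G) (n : ℤ) : N.κ (g * N.t ^ n) = N.κ g := by
  unfold κ
  rw [N.τ_mul, N.τ_tz, zpow_add]
  have c1 : Commute (N.t ^ N.τ g) (N.t ^ n) := Commute.zpow_zpow_self N.t _ _
  rw [c1.eq]; group

theorem κ_one : N.κ 1 = 1 := by unfold κ; rw [N.τ_one]; simp

theorem κ_tz (n : ℤ) : N.κ (N.t ^ n) = 1 := by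
  have := N.κ_mul_tz 1 n
  rwa [one_mul, N.κ_one] at this

theorem dk_left (g : G) : N.dk g 1 = N.u (N.κ g) := by
  unfold dk
  rw [N.κ_one, mul_one, N.u_inv _ (N.τ_κ g)]

theorem exists_pow_ge (U : ℝ) : ∃ n : ℕ, U ≤ 2 ^ n := by
  obtain ⟨n, hn⟩ := pow_unbounded_of_one_lt U (one_lt_two)
  exact ⟨n, hn.le⟩

/-- an element moves the points far up a bounded amount -/
theorem up_bound (g : G) : ∃ n₀ : ℕ, ∀ n : ℕ, n₀ ≤ n →
    (N.metric.D (g * N.t ^ (-(n : ℤ))) (N.t ^ (-(n : ℤ))) : ℤ) ≤ 2 * |N.τ g| + N.τ g + 1 := by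
  obtain ⟨n₀, hn₀⟩ := exists_pow_ge (N.u (N.κ g))
  refine ⟨n₀, fun n hn => ?_⟩
  have a1 : N.τ (g * N.t ^ (-(n : ℤ))) = N.τ g - n := by rw [N.τ_mul, N.τ_tz]; ring
  have a2 : N.τ (N.t ^ (-(n : ℤ))) = -n := N.τ_tz _
  have a3 : N.dk (g * N.t ^ (-(n : ℤ))) (N.t ^ (-(n : ℤ))) = N.u (N.κ g) := by
    unfold dk
    rw [N.κ_mul_tz, N.κ_tz, mul_one, N.u_inv _ (N.τ_κ g)]
  have b1 := neg_abs_le (N.τ g)
  have b2 := abs_nonneg (N.τ g)
  have := N.D_upper (g * N.t ^ (-(n : ℤ))) (N.t ^ (-(n : ℤ))) (M := n + |N.τ g|)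
    (by rw [a1]; linarith) (by rw [a2]; linarith) (by
      rw [a3]
      refine hn₀.trans ?_
      rw [← zpow_natCast]
      apply zpow_le_zpow_right₀ (by norm_num)
      have : (n₀ : ℤ) ≤ n := by exact_mod_cast hn
      linarith)
  rw [a1, a2] at this
  linarith

section

variable {X : Type v} [MetricSpace X] [MulAction G X] (o : X)
  (ho : ∀ g h : G, dist (g • o) (h • o) = N.metric.D g h)

include ho

theorem dist_o (h : G) : dist o (h • o) = N.metric.D 1 h := by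
  have := ho 1 h
  rwa [one_smul] at this

theorem gpr_o (g h : G) : gpr o (g • o) (h • o) =
    ((N.metric.D 1 g : ℝ) + N.metric.D 1 h - N.metric.D g h) / 2 := by
  unfold gpr
  rw [N.dist_o o ho, N.dist_o o ho, ho]

/-- the point at infinity is fixed by all elements -/
theorem fixes_top (g : G) : FixesEnd g (fun n : ℕ => N.t ^ (-(n : ℤ)) • o) := by
  obtain ⟨n₀, hn₀⟩ := N.up_bound g
  apply sameEnd_of_base o
  intro R
  set C : ℤ := 2 * |N.τ g| + N.τ g + 1 with hC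
  obtain ⟨N₁, hN₁⟩ := exists_nat_ge (R + (|(N.τ g : ℝ)| + |(C : ℝ)|))
  refine ⟨max n₀ N₁, fun m n hm hn => ?_⟩
  have hm0 : n₀ ≤ m := (le_max_left _ _).trans hm
  have hm1 : N₁ ≤ m := (le_max_right _ _).trans hm
  have hn1 : N₁ ≤ n := (le_max_right _ _).trans hn
  show R ≤ gpr o (g • N.t ^ (-(m : ℤ)) • o) (N.t ^ (-(n : ℤ)) • o)
  rw [← mul_smul, N.gpr_o o ho]
  have e1 : (m : ℤ) - |N.τ g| ≤ N.metric.D 1 (g * N.t ^ (-(m : ℤ))) := by
    have := N.τ_le 1 (g * N.t ^ (-(m : ℤ)))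
    rw [N.τ_one, N.τ_mul, N.τ_tz, sub_zero] at this
    have h1 := neg_abs_le (N.τ g + -(m : ℤ))
    have h2 := le_abs_self (N.τ g)
    linarith
  have e2 : (N.metric.D 1 (N.t ^ (-(n : ℤ))) : ℤ) = n := by
    rw [N.D_one_tz, abs_neg]; simp
  have e3 : (N.metric.D (g * N.t ^ (-(m : ℤ))) (N.t ^ (-(n : ℤ))) : ℤ) ≤
      C + |(m : ℤ) - n| := by
    have h1 := N.metric.tri (g * N.t ^ (-(m : ℤ))) (N.t ^ (-(m : ℤ))) (N.t ^ (-(n : ℤ)))
    have h2 := hn₀ m hm0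
    have h3 := N.D_tz (-(m : ℤ)) (-(n : ℤ))
    have h4 : -(n : ℤ) - -(m : ℤ) = m - n := by ring
    rw [h4] at h3
    have h5 : (N.metric.D (g * N.t ^ (-(m : ℤ))) (N.t ^ (-(n : ℤ))) : ℤ) ≤
      N.metric.D (g * N.t ^ (-(m : ℤ))) (N.t ^ (-(m : ℤ))) +
        N.metric.D (N.t ^ (-(m : ℤ))) (N.t ^ (-(n : ℤ))) := by exact_mod_cast h1
    linarith
  have f1 : (m : ℝ) - |(N.τ g : ℝ)| ≤ N.metric.D 1 (g * N.t ^ (-(m : ℤ))) := by exact_mod_cast e1
  have f2 : (N.metric.D 1 (N.t ^ (-(n : ℤ))) : ℝ) = n := by exact_mod_cast e2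
  have f3 : (N.metric.D (g * N.t ^ (-(m : ℤ))) (N.t ^ (-(n : ℤ))) : ℝ) ≤
      C + |(m : ℝ) - n| := by exact_mod_cast e3
  have g1 : (N₁ : ℝ) ≤ m := by exact_mod_cast hm1
  have g2 : (N₁ : ℝ) ≤ n := by exact_mod_cast hn1
  have g3 := le_abs_self (C : ℝ)
  have g4 := abs_nonneg (C : ℝ)
  have g5 := abs_nonneg (N.τ g : ℝ)
  rw [f2]
  rcases le_total (m : ℝ) n with h | h
  · rw [abs_of_nonpos (by linarith)] at f3
    linarith
  · rw [abs_of_nonneg (by linarith)] at f3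
    linarith

theorem toBoundary_top : ToBoundary (fun n : ℕ => N.t ^ (-(n : ℤ)) • o) := by
  have := N.fixes_top o ho 1
  unfold FixesEnd at this
  unfold ToBoundary
  simpa using this

theorem down_gpr (i j : ℤ) (hi : 0 ≤ i) (hj : 0 ≤ j) :
    gpr o (N.t ^ i • o) (N.t ^ j • o) = min (i : ℝ) j := by
  rw [N.gpr_o o ho]
  have e1 : (N.metric.D 1 (N.t ^ i) : ℝ) = i := by
    have := N.D_one_tz i
    rw [abs_of_nonneg hi] at this
    exact_mod_cast this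
  have e2 : (N.metric.D 1 (N.t ^ j) : ℝ) = j := by
    have := N.D_one_tz j
    rw [abs_of_nonneg hj] at this
    exact_mod_cast this
  have e3 : (N.metric.D (N.t ^ i) (N.t ^ j) : ℝ) = |(j : ℝ) - i| := by
    have := N.D_tz i j
    exact_mod_cast this
  rw [e1, e2, e3]
  rcases le_total (i : ℝ) j with h | h
  · rw [abs_of_nonneg (by linarith), min_eq_left h]; ring
  · rw [abs_of_nonpos (by linarith), min_eq_right h]; ring

theorem toBoundary_down : ToBoundary (fun n : ℕ => N.t ^ (n : ℤ) • o) := by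
  apply sameEnd_of_base o
  intro R
  obtain ⟨N₁, hN₁⟩ := exists_nat_ge R
  refine ⟨N₁, fun m n hm hn => ?_⟩
  rw [N.down_gpr o ho _ _ (by positivity) (by positivity)]
  refine hN₁.trans (le_min ?_ ?_) <;> exact_mod_cast (by assumption)

theorem fixes_down : FixesEnd N.t (fun n : ℕ => N.t ^ (n : ℤ) • o) := by
  apply sameEnd_of_base o
  intro R
  obtain ⟨N₁, hN₁⟩ := exists_nat_ge R
  refine ⟨N₁, fun m n hm hn => ?_⟩
  have e : N.t • N.t ^ (m : ℤ) • o = N.t ^ ((m : ℤ) + 1) • o := by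
    rw [← mul_smul, add_comm, zpow_add, zpow_one]
  show R ≤ gpr o (N.t • N.t ^ (m : ℤ) • o) (N.t ^ (n : ℤ) • o)
  rw [e, N.down_gpr o ho _ _ (by positivity) (by positivity)]
  refine hN₁.trans (le_min ?_ ?_)
  · push_cast
    have : (N₁ : ℝ) ≤ m := by exact_mod_cast hm
    linarith
  · exact_mod_cast hn

/-- an element of height one whose kernel part is nontrivial does not fix the lower end -/
theorem not_fixes_down {h : G} (h1 : N.τ h = 1) (h2 : 0 < N.u (N.κ h)) :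
    ¬ FixesEnd h (fun n : ℕ => N.t ^ (n : ℤ) • o) := by
  intro hfix
  obtain ⟨M₁, hM₁⟩ := exists_pow_ge (N.u (N.κ h))
  obtain ⟨n₀, hn₀⟩ := exists_pow_ge (1 / N.u (N.κ h))
  obtain ⟨N₀, hN₀⟩ := hfix o (M₁ + n₀ + 3)
  have h3 := hN₀ N₀ N₀ le_rfl le_rfl
  have h3' : (M₁ + n₀ + 3 : ℝ) ≤ gpr o ((h * N.t ^ (N₀ : ℤ)) • o) (N.t ^ (N₀ : ℤ) • o) := by
    rw [mul_smul]; exact h3
  rw [N.gpr_o o ho] at h3'
  have a1 : N.τ (h * N.t ^ (N₀ : ℤ)) = 1 + N₀ := by rw [N.τ_mul, N.τ_tz, h1]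
  have a2 : N.τ (N.t ^ (N₀ : ℤ)) = N₀ := N.τ_tz _
  have a3 : N.dk (h * N.t ^ (N₀ : ℤ)) (N.t ^ (N₀ : ℤ)) = N.u (N.κ h) := by
    unfold dk
    rw [N.κ_mul_tz, N.κ_tz, mul_one, N.u_inv _ (N.τ_κ h)]
  have a4 : N.dk 1 (h * N.t ^ (N₀ : ℤ)) = N.u (N.κ h) := by
    unfold dk
    rw [N.κ_mul_tz, N.κ_one, inv_one, one_mul]
  -- the distance between the two points
  have b1 := N.D_lower (h * N.t ^ (N₀ : ℤ)) (N.t ^ (N₀ : ℤ))
  have b2 := (N.top_spec (h * N.t ^ (N₀ : ℤ)) (N.t ^ (N₀ : ℤ))).2.2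
  rw [a3] at b2
  have b3 : -(n₀ : ℤ) ≤ N.top (h * N.t ^ (N₀ : ℤ)) (N.t ^ (N₀ : ℤ)) := by
    have c1 : (2 : ℝ) ^ (-(n₀ : ℤ)) ≤ N.u (N.κ h) := by
      rw [zpow_neg, zpow_natCast, inv_le_comm₀ (by positivity) h2]
      rw [one_div] at hn₀
      exact hn₀
    exact (zpow_le_zpow_iff_right₀ (by norm_num : (1 : ℝ) < 2)).1 (c1.trans b2)
  have b4 := N.D_upper 1 (h * N.t ^ (N₀ : ℤ)) (M := M₁) (by rw [N.τ_one]; simp)
    (by rw [a1]; have : (0 : ℤ) ≤ M₁ := by positivity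
        have : (0 : ℤ) ≤ N₀ := by positivity
        linarith)
    (by rw [a4, zpow_natCast]; exact hM₁)
  have b5 := N.D_one_tz (N₀ : ℤ)
  rw [N.τ_one, a1] at b4
  rw [a1, a2] at b1
  have b5' : (N.metric.D 1 (N.t ^ (N₀ : ℤ)) : ℤ) = N₀ := by rw [b5]; simp
  have f1 : (2 * (-(n₀ : ℝ)) + (1 + N₀) + N₀ - 2) ≤
      (N.metric.D (h * N.t ^ (N₀ : ℤ)) (N.t ^ (N₀ : ℤ)) : ℝ) := by
    have : 2 * (-(n₀ : ℤ)) + (1 + N₀) + N₀ - 2 ≤
      (N.metric.D (h * N.t ^ (N₀ : ℤ)) (N.t ^ (N₀ : ℤ)) : ℤ) := by linarith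
    exact_mod_cast this
  have f2 : (N.metric.D 1 (h * N.t ^ (N₀ : ℤ)) : ℝ) ≤ 2 * M₁ + 0 + (1 + N₀) + 1 := by
    exact_mod_cast b4
  have f3 : (N.metric.D 1 (N.t ^ (N₀ : ℤ)) : ℝ) = N₀ := by exact_mod_cast b5'
  rw [f3] at h3'
  linarith

theorem lox {g : G} (hg : N.τ g ≠ 0) : IsLoxodromic X g := by
  refine ⟨o, 1, 0, one_pos, fun n => ?_⟩
  rw [N.dist_o o ho]
  have h1 := N.τ_le 1 (g ^ n)
  rw [N.τ_one, N.τ_zpow, sub_zero, abs_mul] at h1
  have h2 : 1 ≤ |N.τ g| := Int.one_le_abs hg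
  have h3 : |n| ≤ N.metric.D 1 (g ^ n) := by
    calc |n| = |n| * 1 := (mul_one _).symm
      _ ≤ |n| * |N.τ g| := mul_le_mul_of_nonneg_left h2 (abs_nonneg n)
      _ ≤ _ := h1
  have h4 : |(n : ℝ)| ≤ N.metric.D 1 (g ^ n) := by exact_mod_cast h3
  linarith

/-- **The action is focal.** -/
theorem focal {k : G} (hk : N.τ k = 0) (hk' : 0 < N.u (k * (N.t * k * N.t⁻¹)⁻¹)) :
    IsFocal G X := by
  have h1 : N.τ (k * N.t * k⁻¹) = 1 := by
    rw [N.τ_mul, N.τ_mul, N.τ_inv, hk, N.τ_t]; ring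
  have h2 : N.κ (k * N.t * k⁻¹) = k * (N.t * k * N.t⁻¹)⁻¹ := by
    unfold κ
    rw [h1, zpow_one]; group
  refine ⟨?_, ⟨N.t, N.lox o ho (by rw [N.τ_t]; norm_num)⟩, ?_⟩
  · rintro ⟨-, hlin⟩
    have h3 := hlin N.t (k * N.t * k⁻¹) (N.lox o ho (by rw [N.τ_t]; norm_num))
      (N.lox o ho (by rw [h1]; norm_num)) _ (N.toBoundary_down o ho)
    exact N.not_fixes_down o ho h1 (by rw [h2]; exact hk') (h3.1 (N.fixes_down o ho))
  · intro g h _ _
    exact ⟨_, N.toBoundary_top o ho, N.fixes_top o ho g, N.fixes_top o ho h⟩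

end

end NormData

end Pool.Agent.R643
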