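import Pool.Agent.R643.Axis

set_option autoImplicit false

/-!
# The path metric of a simplicial tree
-/

namespace Pool.Agent.R643

universe u v w

variable {V : Type u} {T : SimpleGraph V}

/-- in a tree the neighbour of `v` that is closer to `z` is unique -/
theorem parent_unique (hT : T.IsTree) {z u u' v : V} (h : T.Adj u v) (h' : T.Adj u' v)
    (hd : T.dist z v = T.dist z u + 1) (hd' : T.dist z v = T.dist z u' + 1) : u = u' := by
  obtain ⟨p, hp⟩ := hT.connected.exists_walk_length_eq_dist z u
  obtain ⟨q, hq⟩ := hT.connected.exists_walk_length_eq_dist z u'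
  have h1 : (p.concat h).IsPath := by
    apply SimpleGraph.Walk.isPath_of_length_eq_dist
    rw [SimpleGraph.Walk.length_concat, hp, hd]
  have h2 : (q.concat h').IsPath := by
    apply SimpleGraph.Walk.isPath_of_length_eq_dist
    rw [SimpleGraph.Walk.length_concat, hq, hd']
  have h3 := (hT.existsUnique_path z v).unique h1 h2
  have h4 : (p.concat h).penultimate = (q.concat h').penultimate := by rw [h3]
  simpa using h4

/-- existence of a neighbour of `v` that is closer to `z` -/
theorem exists_parent (hT : T.IsTree) {z v : V} (hne : v ≠ z) :
    ∃ u, T.Adj v u ∧ T.dist z v = T.dist z u + 1 := by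
  obtain ⟨p, hp⟩ := hT.connected.exists_walk_length_eq_dist v z
  cases p with
  | nil => exact absurd rfl hne
  | @cons _ w _ hadj q =>
    refine ⟨w, hadj, ?_⟩
    have h1 : T.dist w z ≤ q.length := SimpleGraph.dist_le q
    rw [SimpleGraph.Walk.length_cons] at hp
    have h2 := hT.dist_eq_dist_add_one_of_adj z hadj
    rw [SimpleGraph.dist_comm (u := z) (v := v), SimpleGraph.dist_comm (u := z) (v := w)] at *
    omega

theorem dist_cases (hT : T.IsTree) (z : V) {v w : V} (h : T.Adj v w) :
    T.dist z v = T.dist z w + 1 ∨ T.dist z w = T.dist z v + 1 :=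
  hT.dist_eq_dist_add_one_of_adj z h

/-- if the edge `v - w` separates `y` and `z` -/
theorem dist_through (hT : T.IsTree) {x x' y z : V} (hadj : T.Adj x x')
    (h1 : T.dist y x = T.dist y x' + 1) (h2 : T.dist z x' = T.dist z x + 1) :
    T.dist y z = T.dist y x + T.dist z x := by
  generalize hn : T.dist z x = n
  induction n generalizing x x' with
  | zero =>
    have : z = x := (hT.connected.dist_eq_zero_iff).1 hn
    rw [this]; rfl
  | succ n ih =>
    have hne : x ≠ z := by
      rintro rfl
      rw [SimpleGraph.dist_self] at hn
      omega
    obtain ⟨x'', hadj', h3⟩ := exists_parent hT hne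
    have hne' : x' ≠ x'' := by
      rintro rfl
      omega
    have h4 : T.dist y x'' = T.dist y x + 1 := by
      rcases dist_cases hT y hadj' with h | h
      · exact absurd (parent_unique hT hadj.symm hadj'.symm h1 h) hne'
      · exact h
    have := ih (x := x'') (x' := x) hadj'.symm h4 h3 (by omega)
    omega

theorem dist_median (hT : T.IsTree) (x y z : V) : ∃ m, T.dist x y = T.dist x m + T.dist m y ∧
    T.dist x z = T.dist x m + T.dist m z ∧ T.dist y z = T.dist y m + T.dist m z := by
  generalize hn : T.dist x y = n
  induction n generalizing x with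
  | zero =>
    have : x = y := (hT.connected.dist_eq_zero_iff).1 hn
    subst this
    exact ⟨x, by simp, by simp, by simp⟩
  | succ n ih =>
    have hne : x ≠ y := by
      rintro rfl
      rw [SimpleGraph.dist_self] at hn
      omega
    obtain ⟨x', hadj, h1⟩ := exists_parent hT hne
    have e1 := SimpleGraph.dist_comm (G := T) (u := y) (v := x)
    have e2 := SimpleGraph.dist_comm (G := T) (u := y) (v := x')
    have e3 := SimpleGraph.dist_comm (G := T) (u := z) (v := x)
    have e4 := SimpleGraph.dist_comm (G := T) (u := z) (v := x')
    rcases dist_cases hT z hadj with h2 | h2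
    · obtain ⟨m, m1, m2, m3⟩ := ih x' (by omega)
      have hx : T.dist x x' = 1 := SimpleGraph.dist_eq_one_iff_adj.2 hadj
      have t1 := hT.connected.dist_triangle (u := x) (v := x') (w := m)
      have t2 := hT.connected.dist_triangle (u := x) (v := m) (w := y)
      have t3 := hT.connected.dist_triangle (u := x) (v := m) (w := z)
      exact ⟨m, by omega, by omega, by omega⟩
    · have := dist_through hT hadj h1 h2
      refine ⟨x, by simp; omega, by simp, by omega⟩

theorem dist_four (hT : T.IsTree) (a b c e : V) : T.dist a b + T.dist c e ≤
    max (T.dist a c + T.dist b e) (T.dist a e + T.dist b c) := by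
  generalize hn : T.dist a b = n
  induction n generalizing a with
  | zero =>
    have : a = b := (hT.connected.dist_eq_zero_iff).1 hn
    subst this
    have t1 := hT.connected.dist_triangle (u := c) (v := a) (w := e)
    have e1 := SimpleGraph.dist_comm (G := T) (u := a) (v := c)
    omega
  | succ n ih =>
    have hne : a ≠ b := by
      rintro rfl
      rw [SimpleGraph.dist_self] at hn
      omega
    obtain ⟨a', hadj, h1⟩ := exists_parent hT hne
    have e1 := SimpleGraph.dist_comm (G := T) (u := b) (v := a)
    have e2 := SimpleGraph.dist_comm (G := T) (u := b) (v := a')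
    have e3 := SimpleGraph.dist_comm (G := T) (u := c) (v := a)
    have e4 := SimpleGraph.dist_comm (G := T) (u := c) (v := a')
    have e5 := SimpleGraph.dist_comm (G := T) (u := e) (v := a)
    have e6 := SimpleGraph.dist_comm (G := T) (u := e) (v := a')
    have t1 := hT.connected.dist_triangle (u := c) (v := a) (w := e)
    have hih := ih a' (by omega)
    rcases dist_cases hT c hadj with h2 | h2
    · rcases dist_cases hT e hadj with h3 | h3
      · omega
      · have := dist_through hT hadj h1 h3
        omega
    · have := dist_through hT hadj h1 h2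
      omega

/-- The integer valued metric of a tree. -/
noncomputable def dz (T : SimpleGraph V) (x y : V) : ℤ := T.dist x y

theorem dz_zh (hT : T.IsTree) : ZH (dz T) where
  self x := by simp [dz]
  eq_of x y h := by
    have : T.dist x y = 0 := by unfold dz at h; exact_mod_cast h
    exact (hT.connected.dist_eq_zero_iff).1 this
  symm x y := by unfold dz; rw [SimpleGraph.dist_comm]
  tri x y z := by
    unfold dz
    exact_mod_cast hT.connected.dist_triangle
  fp a b c e := by
    unfold dz
    exact_mod_cast dist_four hT a b c e
  med x y z := by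
    unfold dz
    obtain ⟨m, h1, h2, h3⟩ := dist_median hT x y z
    exact ⟨m, by exact_mod_cast h1, by exact_mod_cast h2, by exact_mod_cast h3⟩

theorem dz_adj {x y : V} : dz T x y = 1 ↔ T.Adj x y := by
  unfold dz
  rw [← SimpleGraph.dist_eq_one_iff_adj]
  norm_cast

/-- points between two given points at every distance -/
theorem exists_between (hT : T.IsTree) (x y : V) {k : ℕ} (hk : k ≤ T.dist x y) :
    ∃ p, T.dist x p = k ∧ T.dist p y = T.dist x y - k := by
  induction k with
  | zero => exact ⟨x, by simp, by simp⟩
  | succ k ih =>
    obtain ⟨p, hp1, hp2⟩ := ih (by omega)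
    have hne : p ≠ y := by
      rintro rfl
      rw [SimpleGraph.dist_self] at hp2
      omega
    obtain ⟨q, hadj, hq⟩ := exists_parent hT hne
    have hx : T.dist p q = 1 := SimpleGraph.dist_eq_one_iff_adj.2 hadj
    have e1 := SimpleGraph.dist_comm (G := T) (u := y) (v := p)
    have e2 := SimpleGraph.dist_comm (G := T) (u := y) (v := q)
    have t1 := hT.connected.dist_triangle (u := x) (v := p) (w := q)
    have t2 := hT.connected.dist_triangle (u := x) (v := q) (w := y)
    exact ⟨q, by omega, by omega⟩

end Pool.Agent.R643
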