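import Pool.Agent.R643.Line

set_option autoImplicit false

/-!
# Groups acting on trees with infinite cyclic stabilisers: commensurability and the modulus
-/

namespace Pool.Agent.R643

universe u v w

variable {G : Type u} [Group G] {V : Type v} [MulAction G V] {T : SimpleGraph V}

/-- an action on a tree with infinite cyclic vertex and edge stabilisers -/
structure CycAct (T : SimpleGraph V) (G : Type u) [Group G] [MulAction G V] : Prop where
  hT : T.IsTree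
  hadj : ∀ (g : G) (u v : V), T.Adj u v → T.Adj (g • u) (g • v)
  hinv : ∀ (g : G) (u v : V), T.Adj u v → ¬ (g • u = v ∧ g • v = u)
  vgen : ∀ v : V, ∃ w : G, (∀ n : ℤ, w ^ n = 1 → n = 0) ∧ ∀ g : G, g • v = v ↔
    g ∈ Subgroup.zpowers w
  edge : ∀ u v : V, T.Adj u v → ∃ z : G, z ≠ 1 ∧ z • u = u ∧ z • v = v

namespace CycAct

variable (C : CycAct T G)

include C

theorem tf {g : G} {v : V} (hg : g • v = v) {n : ℤ} (hn : n ≠ 0) (h : g ^ n = 1) : g = 1 := by
  obtain ⟨w, hw1, hw2⟩ := C.vgen v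
  obtain ⟨k, rfl⟩ := (hw2 g).1 hg
  have h' : w ^ (k * n) = 1 := by rw [zpow_mul]; exact h
  rcases mul_eq_zero.1 (hw1 _ h') with h1 | h1
  · show w ^ k = 1
    rw [h1, zpow_zero]
  · exact absurd h1 hn

theorem tf' {g : G} {v : V} (hg : g • v = v) (h1 : g ≠ 1) {n : ℤ} (h : g ^ n = 1) : n = 0 := by
  by_contra hn
  exact h1 (C.tf hg hn h)

/-- two elements of a vertex stabiliser are commensurable -/
theorem comm_vertex {x y : G} {v : V} (hx : x • v = v) (hy : y • v = v) (hx1 : x ≠ 1)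
    (hy1 : y ≠ 1) : ∃ m n : ℤ, m ≠ 0 ∧ n ≠ 0 ∧ x ^ m = y ^ n := by
  obtain ⟨w, hw1, hw2⟩ := C.vgen v
  obtain ⟨k, rfl⟩ := (hw2 x).1 hx
  obtain ⟨l, rfl⟩ := (hw2 y).1 hy
  have hk : k ≠ 0 := by rintro rfl; exact hx1 (zpow_zero w)
  have hl : l ≠ 0 := by rintro rfl; exact hy1 (zpow_zero w)
  refine ⟨l, k, hl, hk, ?_⟩
  show (w ^ k) ^ l = (w ^ l) ^ k
  rw [← zpow_mul, ← zpow_mul, mul_comm]

/-- nontrivial elliptic elements are commensurable -/
theorem comm_ell {x y : G} {u v : V} (hx : x • u = u) (hy : y • v = v) (hx1 : x ≠ 1)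
    (hy1 : y ≠ 1) : ∃ m n : ℤ, m ≠ 0 ∧ n ≠ 0 ∧ x ^ m = y ^ n := by
  have hreach := C.hT.connected.preconnected u v
  rw [SimpleGraph.reachable_iff_reflTransGen] at hreach
  induction hreach generalizing y with
  | refl => exact C.comm_vertex hx hy hx1 hy1
  | @tail a b _ hab ih =>
    obtain ⟨z, hz1, hza, hzb⟩ := C.edge a b hab
    obtain ⟨m, n, hm, hn, h1⟩ := ih hza hz1
    obtain ⟨m', n', hm', hn', h2⟩ := C.comm_vertex hzb hy hz1 hy1
    refine ⟨m * m', n' * n, mul_ne_zero hm hm', mul_ne_zero hn' hn, ?_⟩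
    rw [zpow_mul, h1, zpow_mul, ← h2, ← zpow_mul, ← zpow_mul, mul_comm]

/-- every nontrivial elliptic element is commensurated -/
theorem commensurated {x : G} {u : V} (hx : x • u = u) (hx1 : x ≠ 1) (g : G) :
    ∃ m n : ℤ, m ≠ 0 ∧ n ≠ 0 ∧ g * x ^ m * g⁻¹ = x ^ n := by
  have h1 : (g * x * g⁻¹) • g • u = g • u := by
    simp only [mul_smul, inv_smul_smul, hx]
  have h2 : g * x * g⁻¹ ≠ 1 := by
    intro h
    exact hx1 (conj_eq_one_iff.1 h)
  obtain ⟨m, n, hm, hn, h3⟩ := C.comm_ell h1 hx h2 hx1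
  exact ⟨m, n, hm, hn, by rw [← h3, conj_zpow]⟩

/-- either an automorphism preserves the elliptic elements, or all subgroups are finitely
generated -/
theorem dichotomy (φ : G ≃* G) (F : Subgroup G) :
    F.FG ∨ ∀ (x : G) (v : V), x • v = v → ∃ u : V, φ x • u = u := by
  by_cases hF : F.FG
  · exact Or.inl hF
  right
  intro x v hx
  have A := isoAct_of_adj C.hT C.hadj
  by_cases hx1 : x = 1
  · exact ⟨v, by rw [hx1, map_one, one_smul]⟩
  rcases fix_or_hyp C.hT A C.hinv (φ x) with h | h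
  · exact h
  exfalso
  apply hF
  haveI : Nonempty V := ⟨v⟩
  refine fg_of_commensurated_hyp A h ?_ ?_ F
  · intro g
    obtain ⟨m, n, hm, hn, h1⟩ := C.commensurated hx hx1 (φ.symm g)
    refine ⟨m, n, hm, hn, ?_⟩
    have := congrArg φ h1
    simpa using this
  · intro v
    obtain ⟨w, -, hw⟩ := C.vgen v
    exact ⟨w, fun g => (hw g).1⟩

end CycAct

/-! ### The commensurability function `μ` -/

/-- `μ a x = n / m` if `x ^ m = a ^ n` -/
noncomputable def mu (a x : G) : ℚ := by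
  classical
  exact if h : ∃ p : ℤ × ℤ, p.1 ≠ 0 ∧ x ^ p.1 = a ^ p.2 then (h.choose.2 : ℚ) / h.choose.1 else 0

theorem mu_eq {a x : G} (ha : ∀ n : ℤ, a ^ n = 1 → n = 0) {m n : ℤ} (hm : m ≠ 0)
    (h : x ^ m = a ^ n) : mu a x = n / m := by
  classical
  have hex : ∃ p : ℤ × ℤ, p.1 ≠ 0 ∧ x ^ p.1 = a ^ p.2 := ⟨(m, n), hm, h⟩
  have h1 : mu a x = (hex.choose.2 : ℚ) / hex.choose.1 := by
    unfold mu
    exact dif_pos hex
  obtain ⟨h2, h3⟩ := hex.choose_spec
  set m' := hex.choose.1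
  set n' := hex.choose.2
  rw [h1]
  have h4 : a ^ (n' * m - n * m') = 1 := by
    rw [zpow_sub, zpow_mul, ← h3, zpow_mul, ← h, ← zpow_mul, ← zpow_mul, mul_comm m' m,
      mul_inv_cancel]
  have h5 := ha _ h4
  have hm' : (m : ℚ) ≠ 0 := by exact_mod_cast hm
  have hm2 : (m' : ℚ) ≠ 0 := by exact_mod_cast h2
  rw [div_eq_div_iff hm2 hm']
  have : n' * m = n * m' := by linarith
  exact_mod_cast this

/-- the elements commensurable to a power of `a` -/
def InE (a x : G) : Prop := ∃ m n : ℤ, m ≠ 0 ∧ x ^ m = a ^ n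

section mu

variable {a : G} (ha : ∀ n : ℤ, a ^ n = 1 → n = 0)

include ha

theorem mu_one : mu a (1 : G) = 0 := by
  rw [mu_eq ha (m := 1) (n := 0) one_ne_zero (by simp)]; simp

theorem mu_self : mu a a = 1 := by
  rw [mu_eq ha (m := 1) (n := 1) one_ne_zero rfl]; simp

theorem mu_zpow {x : G} (hx : InE a x) (k : ℤ) : mu a (x ^ k) = k * mu a x := by
  obtain ⟨m, n, hm, h⟩ := hx
  rw [mu_eq ha hm h, mu_eq ha (x := x ^ k) (m := m) (n := n * k) hm]
  · push_cast; ring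
  · rw [← zpow_mul, mul_comm k m, zpow_mul, h, ← zpow_mul]

theorem mu_mul {x y : G} (hx : InE a x) (hy : InE a y) (hxy : Commute x y) :
    mu a (x * y) = mu a x + mu a y := by
  obtain ⟨m, n, hm, h⟩ := hx
  obtain ⟨m', n', hm', h'⟩ := hy
  rw [mu_eq ha hm h, mu_eq ha hm' h', mu_eq ha (x := x * y) (m := m * m') (n := n * m' + n' * m)
    (mul_ne_zero hm hm')]
  · have h1 : (m : ℚ) ≠ 0 := by exact_mod_cast hm
    have h2 : (m' : ℚ) ≠ 0 := by exact_mod_cast hm'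
    push_cast
    field_simp
  · rw [hxy.mul_zpow, zpow_mul, h, mul_comm m m', zpow_mul y, h', ← zpow_mul, ← zpow_mul,
      ← zpow_add]

theorem mu_ne_zero {x : G} (hx : InE a x) (hx' : ∀ n : ℤ, x ^ n = 1 → n = 0) :
    mu a x ≠ 0 := by
  obtain ⟨m, n, hm, h⟩ := hx
  rw [mu_eq ha hm h]
  have h1 : (m : ℚ) ≠ 0 := by exact_mod_cast hm
  have h2 : n ≠ 0 := by
    rintro rfl
    rw [zpow_zero] at h
    exact hm (hx' _ h)
  have h3 : (n : ℚ) ≠ 0 := by exact_mod_cast h2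
  exact div_ne_zero h3 h1

end mu

/-- the modular homomorphism (inverse convention) -/
noncomputable def Dl (a g : G) : ℚ := mu a (g * a * g⁻¹)

namespace CycAct

variable (C : CycAct T G) {a : G} {va : V} (ha : a • va = va) (ha1 : a ≠ 1)

include C ha ha1

theorem a_tf : ∀ n : ℤ, a ^ n = 1 → n = 0 := fun _ h => C.tf' ha ha1 h

theorem inE {x : G} {v : V} (hx : x • v = v) : InE a x := by
  by_cases hx1 : x = 1
  · exact ⟨1, 0, one_ne_zero, by rw [hx1]; simp⟩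
  · obtain ⟨m, n, hm, -, h⟩ := C.comm_ell hx ha hx1 ha1
    exact ⟨m, n, hm, h⟩

theorem conj_ell {x : G} {v : V} (hx : x • v = v) (g : G) : (g * x * g⁻¹) • g • v = g • v := by
  simp only [mul_smul, inv_smul_smul, hx]

theorem mu_conj {x : G} (hx : InE a x) (g : G) : mu a (g * x * g⁻¹) = Dl a g * mu a x := by
  have hat := C.a_tf ha ha1
  obtain ⟨m, n, hm, h⟩ := hx
  obtain ⟨m', n', hm', h'⟩ := C.inE ha ha1 (C.conj_ell ha ha1 ha g)
  rw [Dl, mu_eq hat hm' h', mu_eq hat hm h, mu_eq hat (x := g * x * g⁻¹) (m := m * m')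
    (n := n' * n) (mul_ne_zero hm hm')]
  · have h1 : (m : ℚ) ≠ 0 := by exact_mod_cast hm
    have h2 : (m' : ℚ) ≠ 0 := by exact_mod_cast hm'
    push_cast
    field_simp
  · rw [zpow_mul, conj_zpow, h, ← conj_zpow, ← zpow_mul, mul_comm n m', zpow_mul, h', ← zpow_mul]

theorem Dl_mul (g k : G) : Dl a (g * k) = Dl a g * Dl a k := by
  have h := C.mu_conj ha ha1 (C.inE ha ha1 (C.conj_ell ha ha1 ha k)) g
  have e : g * (k * a * k⁻¹) * g⁻¹ = g * k * a * (g * k)⁻¹ := by group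
  rw [e] at h
  exact h

theorem Dl_one : Dl a (1 : G) = 1 := by
  unfold Dl
  rw [one_mul, inv_one, mul_one]
  exact mu_self (C.a_tf ha ha1)

theorem Dl_ne (g : G) : Dl a g ≠ 0 := by
  intro h
  have := C.Dl_mul ha ha1 g g⁻¹
  rw [mul_inv_cancel, C.Dl_one ha ha1, h, zero_mul] at this
  exact one_ne_zero this

theorem Dl_inv (g : G) : Dl a g⁻¹ = (Dl a g)⁻¹ := by
  have := C.Dl_mul ha ha1 g g⁻¹
  rw [mul_inv_cancel, C.Dl_one ha ha1] at this
  exact eq_inv_of_mul_eq_one_right this.symm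

theorem Dl_zpow (g : G) (k : ℤ) : Dl a (g ^ k) = Dl a g ^ k := by
  have hn : ∀ n : ℕ, Dl a (g ^ n) = Dl a g ^ n := by
    intro n
    induction n with
    | zero => rw [pow_zero, pow_zero]; exact C.Dl_one ha ha1
    | succ n ih => rw [pow_succ, C.Dl_mul ha ha1, ih, pow_succ]
  obtain ⟨n, rfl | rfl⟩ := k.eq_nat_or_neg
  · rw [zpow_natCast, zpow_natCast, hn]
  · rw [zpow_neg, zpow_neg, C.Dl_inv ha ha1, zpow_natCast, zpow_natCast, hn]

/-- elliptic elements have modulus one -/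
theorem Dl_ell {x : G} {v : V} (hx : x • v = v) : Dl a x = 1 := by
  by_cases hx1 : x = 1
  · rw [hx1]; exact C.Dl_one ha ha1
  have hat := C.a_tf ha ha1
  obtain ⟨m, n, hm, hn, h⟩ := C.comm_ell hx ha hx1 ha1
  have h2 : (x * a * x⁻¹) ^ n = a ^ n := by
    rw [conj_zpow, ← h]
    have : Commute x (x ^ m) := Commute.self_zpow x m
    rw [this.eq, mul_inv_cancel_right]
  unfold Dl
  rw [mu_eq hat hn h2, div_self]
  exact_mod_cast hn

theorem mu_ne {x : G} {v : V} (hx : x • v = v) (hx1 : x ≠ 1) : mu a x ≠ 0 :=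
  mu_ne_zero (C.a_tf ha ha1) (C.inE ha ha1 hx) (fun _ h => C.tf' hx hx1 h)

theorem commute_of_fix {x y : G} {v : V} (hx : x • v = v) (hy : y • v = v) : Commute x y := by
  obtain ⟨w, -, hw2⟩ := C.vgen v
  obtain ⟨k, rfl⟩ := (hw2 x).1 hx
  obtain ⟨l, rfl⟩ := (hw2 y).1 hy
  exact ((Commute.refl w).zpow_zpow k l)

theorem mu_mul_fix {x y : G} {v : V} (hx : x • v = v) (hy : y • v = v) :
    mu a (x * y) = mu a x + mu a y :=
  mu_mul (C.a_tf ha ha1) (C.inE ha ha1 hx) (C.inE ha ha1 hy) (C.commute_of_fix ha ha1 hx hy)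

theorem mu_inj {x y : G} {v : V} (hx : x • v = v) (hy : y • v = v) (h : mu a x = mu a y) :
    x = y := by
  by_contra hne
  have hyi : y⁻¹ • v = v := by rw [inv_smul_eq_iff, hy]
  have h1 : (x * y⁻¹) • v = v := by rw [mul_smul, hyi, hx]
  have h2 : x * y⁻¹ ≠ 1 := fun h2 => hne (mul_inv_eq_one.1 h2)
  have h3 := C.mu_ne ha ha1 h1 h2
  apply h3
  have h4 := C.mu_mul_fix ha ha1 h1 hy
  rw [inv_mul_cancel_right] at h4
  linarith

section Aut

variable (φ : G ≃* G) (hφ : ∀ (x : G) (v : V), x • v = v → ∃ u : V, φ x • u = u)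

include hφ

theorem mu_phi {x : G} (hx : InE a x) : mu a (φ x) = mu a (φ a) * mu a x := by
  have hat := C.a_tf ha ha1
  obtain ⟨m, n, hm, h⟩ := hx
  obtain ⟨u, hu⟩ := hφ a va ha
  obtain ⟨m', n', hm', h'⟩ := C.inE ha ha1 hu
  rw [mu_eq hat hm' h', mu_eq hat hm h, mu_eq hat (x := φ x) (m := m * m')
    (n := n' * n) (mul_ne_zero hm hm')]
  · have h1 : (m : ℚ) ≠ 0 := by exact_mod_cast hm
    have h2 : (m' : ℚ) ≠ 0 := by exact_mod_cast hm'
    push_cast
    field_simp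
  · rw [zpow_mul, ← map_zpow, h, map_zpow, ← zpow_mul, mul_comm n m', zpow_mul, h', ← zpow_mul]

theorem rho_ne : mu a (φ a) ≠ 0 := by
  obtain ⟨u, hu⟩ := hφ a va ha
  exact C.mu_ne ha ha1 hu (by simpa using ha1)

theorem Dl_phi (g : G) : Dl a (φ g) = Dl a g := by
  obtain ⟨u, hu⟩ := hφ a va ha
  have h1 := C.mu_conj ha ha1 (C.inE ha ha1 hu) (φ g)
  have h2 := C.mu_phi ha ha1 φ hφ (C.inE ha ha1 (C.conj_ell ha ha1 ha g))
  have e : φ (g * a * g⁻¹) = φ g * φ a * (φ g)⁻¹ := by simp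
  rw [e, h1] at h2
  have h3 := C.rho_ne ha ha1 φ hφ
  apply mul_right_cancel₀ h3
  rw [h2, mul_comm]
  rfl

end Aut

end CycAct

end Pool.Agent.R643
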