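import Pool.Agent.R643.Gbs

set_option autoImplicit false

/-!
# A crossed homomorphism that extends the commensurability function
-/

namespace Pool.Agent.R643

universe u v w

/-- an antisymmetric function on the edges of a tree is the differential of a function on the
vertices -/
theorem exists_potential {V : Type v} {T : SimpleGraph V} (hT : T.IsTree) (q : V → V → ℚ)
    (hq : ∀ u v, q u v = - q v u) : ∃ P : V → ℚ, ∀ u v, T.Adj u v → P v - P u = q u v := by
  obtain ⟨z⟩ := hT.connected.nonempty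
  choose p hp using fun v => hT.connected.exists_walk_length_eq_dist z v
  let P : V → ℚ := fun v => ((p v).darts.map (fun e => q e.fst e.snd)).sum
  have key : ∀ u v, T.Adj u v → T.dist z v = T.dist z u + 1 → P v - P u = q u v := by
    intro u v hadj hd
    have h1 : ((p u).concat hadj).IsPath := by
      apply SimpleGraph.Walk.isPath_of_length_eq_dist
      rw [SimpleGraph.Walk.length_concat, hp, hd]
    have h2 : (p v).IsPath := SimpleGraph.Walk.isPath_of_length_eq_dist _ (hp v)
    have h3 : p v = (p u).concat hadj := (hT.existsUnique_path z v).unique h2 h1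
    show ((p v).darts.map (fun e => q e.fst e.snd)).sum -
      ((p u).darts.map (fun e => q e.fst e.snd)).sum = q u v
    rw [h3, SimpleGraph.Walk.darts_concat, List.concat_eq_append, List.map_append, List.sum_append]
    simp
  refine ⟨P, fun u v hadj => ?_⟩
  rcases hT.dist_eq_dist_add_one_of_adj z hadj with h | h
  · have := key v u hadj.symm h
    rw [hq u v, ← this]; ring
  · exact key u v hadj h

variable {G : Type u} [Group G] {V : Type v} [MulAction G V] {T : SimpleGraph V}

/-- there is a crossed homomorphism that agrees with `mu` on the elliptic elements -/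
theorem CycAct.exists_crossed (C : CycAct T G) {a : G} {va : V} (ha : a • va = va) (ha1 : a ≠ 1) :
    ∃ b : G → ℚ, (∀ g k, b (g * k) = b g + Dl a g * b k) ∧
      ∀ (x : G) (v : V), x • v = v → b x = mu a x := by
  classical
  -- representatives of the vertices
  let rep : V → V := fun v => (Quotient.mk (MulAction.orbitRel G V) v).out
  have hrep : ∀ v, ∃ s : G, s • rep v = v := by
    intro v
    have h := Quotient.mk_out (s := MulAction.orbitRel G V) v
    obtain ⟨s, hs⟩ := (MulAction.orbitRel_apply (G := G)).1 h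
    refine ⟨s⁻¹, ?_⟩
    rw [inv_smul_eq_iff]
    exact hs.symm
  have hrepg : ∀ (g : G) (v : V), rep (g • v) = rep v := by
    intro g v
    show (Quotient.mk (MulAction.orbitRel G V) (g • v)).out = _
    congr 1
    exact Quotient.sound ((MulAction.orbitRel_apply (G := G)).2 ⟨g, rfl⟩)
  choose s hs using hrep
  have D1 := C.Dl_mul ha ha1
  have hk : ∀ (g : G) (v : V), ((s v)⁻¹ * g * s (g⁻¹ • v)) • rep v = rep v := by
    intro g v
    have h1 : s (g⁻¹ • v) • rep v = g⁻¹ • v := by
      conv_lhs => rw [← hrepg g⁻¹ v]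
      exact hs _
    rw [mul_smul, mul_smul, h1, smul_inv_smul, inv_smul_eq_iff, hs]
  have hDs : ∀ (g : G) (v : V), Dl a (s v) = Dl a g * Dl a (s (g⁻¹ • v)) := by
    intro g v
    have h1 := C.Dl_ell ha ha1 (hk g v)
    rw [D1, D1, C.Dl_inv ha ha1] at h1
    have h2 := C.Dl_ne ha ha1 (s v)
    field_simp at h1
    exact h1.symm
  let A : G → V → ℚ := fun g v => Dl a (s v) * mu a ((s v)⁻¹ * g * s (g⁻¹ • v))
  have hA : ∀ (g k : G) (v : V), A (g * k) v = A g v + Dl a g * A k (g⁻¹ • v) := by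
    intro g k v
    show Dl a (s v) * mu a ((s v)⁻¹ * (g * k) * s ((g * k)⁻¹ • v)) =
      Dl a (s v) * mu a ((s v)⁻¹ * g * s (g⁻¹ • v)) + Dl a g * (Dl a (s (g⁻¹ • v)) *
        mu a ((s (g⁻¹ • v))⁻¹ * k * s (k⁻¹ • g⁻¹ • v)))
    have e1 : (g * k)⁻¹ • v = k⁻¹ • g⁻¹ • v := by rw [mul_inv_rev, mul_smul]
    have e2 : (s v)⁻¹ * (g * k) * s (k⁻¹ • g⁻¹ • v) = ((s v)⁻¹ * g * s (g⁻¹ • v)) *
        ((s (g⁻¹ • v))⁻¹ * k * s (k⁻¹ • g⁻¹ • v)) := by group
    have e3 := hk k (g⁻¹ • v)
    rw [hrepg] at e3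
    rw [e1, e2, C.mu_mul_fix ha ha1 (hk g v) e3, ← mul_assoc, ← hDs g v, mul_add]
  have hAfix : ∀ (g : G) (v : V), g • v = v → A g v = mu a g := by
    intro g v hg
    have e0 : g⁻¹ • v = v := by rw [inv_smul_eq_iff, hg]
    show Dl a (s v) * mu a ((s v)⁻¹ * g * s (g⁻¹ • v)) = mu a g
    have e1 := C.mu_conj ha ha1 (C.inE ha ha1 hg) (s v)⁻¹
    rw [inv_inv, C.Dl_inv ha ha1] at e1
    rw [e0, e1, ← mul_assoc, mul_inv_cancel₀ (C.Dl_ne ha ha1 _), one_mul]
  -- representatives of pairs
  let D : G → V × V → ℚ := fun g p => A g p.2 - A g p.1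
  have hD : ∀ (g k : G) (p : V × V), D (g * k) p = D g p + Dl a g * D k (g⁻¹ • p) := by
    intro g k p
    show A (g * k) p.2 - A (g * k) p.1 = A g p.2 - A g p.1 + Dl a g *
      (A k (g⁻¹ • p.2) - A k (g⁻¹ • p.1))
    rw [hA, hA]; ring
  have hDfix : ∀ (g : G) (p : V × V), g • p = p → D g p = 0 := by
    intro g p hg
    have h1 : g • p.1 = p.1 := congrArg Prod.fst hg
    have h2 : g • p.2 = p.2 := congrArg Prod.snd hg
    show A g p.2 - A g p.1 = 0
    rw [hAfix g _ h1, hAfix g _ h2, sub_self]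
  let rep2 : V × V → V × V := fun v => (Quotient.mk (MulAction.orbitRel G (V × V)) v).out
  have hrep2 : ∀ v, ∃ s : G, s • rep2 v = v := by
    intro v
    have h := Quotient.mk_out (s := MulAction.orbitRel G (V × V)) v
    obtain ⟨s, hs⟩ := (MulAction.orbitRel_apply (G := G)).1 h
    refine ⟨s⁻¹, ?_⟩
    rw [inv_smul_eq_iff]
    exact hs.symm
  have hrepg2 : ∀ (g : G) (v : V × V), rep2 (g • v) = rep2 v := by
    intro g v
    show (Quotient.mk (MulAction.orbitRel G (V × V)) (g • v)).out = _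
    congr 1
    exact Quotient.sound ((MulAction.orbitRel_apply (G := G)).2 ⟨g, rfl⟩)
  choose t ht using hrep2
  let Q : V × V → ℚ := fun p => D (t p) p
  have hQ : ∀ (g : G) (p : V × V), Q (g • p) = D g (g • p) + Dl a g * Q p := by
    intro g p
    have e1 : ((t p)⁻¹ * g⁻¹ * t (g • p)) • rep2 p = rep2 p := by
      have h1 : t (g • p) • rep2 p = g • p := by
        conv_lhs => rw [← hrepg2 g p]
        exact ht _
      rw [mul_smul, mul_smul, h1, inv_smul_smul, inv_smul_eq_iff, ht]
    have e2 : t (g • p) = g * (t p * ((t p)⁻¹ * g⁻¹ * t (g • p))) := by group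
    show D (t (g • p)) (g • p) = D g (g • p) + Dl a g * D (t p) p
    rw [e2, hD, hD, inv_smul_smul]
    have e3 : (t p)⁻¹ • p = rep2 p := by rw [inv_smul_eq_iff, ht]
    rw [e3, hDfix _ _ e1, mul_zero, add_zero]
  let Q' : V → V → ℚ := fun x y => (Q (x, y) - Q (y, x)) / 2
  have hQ' : ∀ (g : G) (x y : V), Q' (g • x) (g • y) = (A g (g • y) - A g (g • x)) +
      Dl a g * Q' x y := by
    intro g x y
    have h1 := hQ g (x, y)
    have h2 := hQ g (y, x)
    have h3 : D g (g • (x, y)) = A g (g • y) - A g (g • x) := rfl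
    have h4 : D g (g • (y, x)) = A g (g • x) - A g (g • y) := rfl
    rw [h3] at h1
    rw [h4] at h2
    have h5 : g • (x, y) = (g • x, g • y) := rfl
    have h6 : g • (y, x) = (g • y, g • x) := rfl
    rw [h5] at h1
    rw [h6] at h2
    show (Q (g • x, g • y) - Q (g • y, g • x)) / 2 = _ + Dl a g * ((Q (x, y) - Q (y, x)) / 2)
    rw [h1, h2]; ring
  obtain ⟨P, hP⟩ := exists_potential C.hT Q' (fun x y => by
    show (Q (x, y) - Q (y, x)) / 2 = - ((Q (y, x) - Q (x, y)) / 2)
    ring)
  let b' : G → V → ℚ := fun g z => A g z - P z + Dl a g * P (g⁻¹ • z)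
  have hb' : ∀ (g : G) (x y : V), b' g x = b' g y := by
    intro g x y
    have hreach := C.hT.connected.preconnected x y
    rw [SimpleGraph.reachable_iff_reflTransGen] at hreach
    induction hreach with
    | refl => rfl
    | @tail y z _ hadj ih =>
      rw [ih]
      have h1 := hP y z hadj
      have h2 := hP (g⁻¹ • y) (g⁻¹ • z) (C.hadj g⁻¹ y z hadj)
      have h3 := hQ' g (g⁻¹ • y) (g⁻¹ • z)
      rw [smul_inv_smul, smul_inv_smul] at h3
      show A g y - P y + Dl a g * P (g⁻¹ • y) = A g z - P z + Dl a g * P (g⁻¹ • z)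
      rw [← h1, ← h2] at h3
      linarith
  refine ⟨fun g => b' g va, ?_, ?_⟩
  · intro g k
    show b' (g * k) va = b' g va + Dl a g * b' k va
    rw [hb' k va (g⁻¹ • va)]
    show A (g * k) va - P va + Dl a (g * k) * P ((g * k)⁻¹ • va) =
      A g va - P va + Dl a g * P (g⁻¹ • va) + Dl a g * (A k (g⁻¹ • va) - P (g⁻¹ • va) +
        Dl a k * P (k⁻¹ • g⁻¹ • va))
    rw [hA, D1, mul_inv_rev, mul_smul]; ring
  · intro x v hx
    show b' x va = mu a x
    rw [hb' x va v]
    have e0 : x⁻¹ • v = v := by rw [inv_smul_eq_iff, hx]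
    show A x v - P v + Dl a x * P (x⁻¹ • v) = mu a x
    rw [hAfix x v hx, e0, C.Dl_ell ha ha1 hx]; ring

end Pool.Agent.R643
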