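import Pool.Agent.R643.GbsMain3

set_option autoImplicit false

/-!
# Fixed subgroups of automorphisms of generalised Baumslag-Solitar groups: the main theorem
-/

namespace Pool.Agent.R643

universe u v w

variable {G : Type u} [Group G]

/-- The image of the modular homomorphism, computed with the element `a`: all quotients `m / n` of
nonzero integers such that `g a ^ m g⁻¹ = a ^ n` for some `g` in the group. -/
def modulusSet (a : G) : Set ℚ :=
  {q | ∃ (g : G) (m n : ℤ), m ≠ 0 ∧ n ≠ 0 ∧ g * a ^ m * g⁻¹ = a ^ n ∧ q = (m : ℚ) / n}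

variable {V : Type v} [MulAction G V] {T : SimpleGraph V}

theorem mem_modulusSet (C : CycAct T G) {a : G} {va : V} (ha : a • va = va) (ha1 : a ≠ 1) (q : ℚ) :
    q ∈ modulusSet a ↔ ∃ g : G, q = (Dl a g)⁻¹ := by
  have hat := C.a_tf ha ha1
  have key : ∀ (g : G) (m n : ℤ), m ≠ 0 → g * a ^ m * g⁻¹ = a ^ n → Dl a g = n / m := by
    intro g m n hm h
    unfold Dl
    rw [← conj_zpow] at h
    exact mu_eq hat hm h
  constructor
  · rintro ⟨g, m, n, hm, hn, h, rfl⟩
    exact ⟨g, by rw [key g m n hm h, inv_div]⟩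
  · rintro ⟨g, rfl⟩
    obtain ⟨m, n, hm, hn, h⟩ := C.commensurated ha ha1 g
    exact ⟨g, m, n, hm, hn, h, by rw [key g m n hm h, inv_div]⟩

theorem interval_finite (hT : T.IsTree) (x y : V) :
    {p : V | T.dist x p + T.dist p y = T.dist x y}.Finite := by
  apply Set.Finite.of_finite_image (f := fun p => T.dist x p)
  · refine (Set.finite_Iic (T.dist x y)).subset ?_
    rintro _ ⟨p, hp, rfl⟩
    have hp' : T.dist x p + T.dist p y = T.dist x y := hp
    show T.dist x p ≤ T.dist x y
    omega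
  · intro p hp q hq h
    have hp' : T.dist x p + T.dist p y = T.dist x y := hp
    have hq' : T.dist x q + T.dist q y = T.dist x y := hq
    have h' : T.dist x p = T.dist x q := h
    refine (dz_zh hT).uniq (x := x) (y := y) ?_ ?_ ?_
    · unfold dz; exact_mod_cast hp'
    · unfold dz; exact_mod_cast hq'
    · unfold dz; exact_mod_cast h'

/-- **Main theorem.** -/
theorem fix_fg (C : CycAct T G) [Finite (MulAction.orbitRel.Quotient G V)]
    [Finite (Quotient (edgeSetoid T G))]
    (hcard : Nat.card (Quotient (edgeSetoid T G)) = Nat.card (MulAction.orbitRel.Quotient G V))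
    {a : G} {va : V} (ha : a • va = va) (ha1 : a ≠ 1)
    (hmod : ∀ n : ℤ, n ≠ 0 → n ≠ -1 → modulusSet a ≠ {q : ℚ | ∃ k : ℤ, q = (n : ℚ) ^ k})
    (φ : G ≃* G) (F : Subgroup G) (hF : ∀ g, g ∈ F ↔ φ g = g) : F.FG := by
  classical
  rcases C.dichotomy φ F with h | hφ
  · exact h
  have hT := C.hT
  have hat := C.a_tf ha ha1
  have A := isoAct_of_adj C.hT C.hadj
  obtain ⟨t, ht⟩ := exists_generator C.hT.connected C.hadj hcard
  set r := Dl a t with hrdef
  have hr0 : r ≠ 0 := C.Dl_ne ha ha1 t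
  -- the modulus is generated by `r`
  have hDl : ∀ g : G, ∃ l : ℤ, Dl a g = r ^ l := by
    let N : Subgroup G :=
      { carrier := {g | ∃ l : ℤ, Dl a g = r ^ l}
        mul_mem' := by
          rintro g k ⟨l, hl⟩ ⟨l', hl'⟩
          exact ⟨l + l', by rw [C.Dl_mul ha ha1, hl, hl', zpow_add₀ hr0]⟩
        one_mem' := ⟨0, by rw [C.Dl_one ha ha1, zpow_zero]⟩
        inv_mem' := by
          rintro g ⟨l, hl⟩
          exact ⟨-l, by rw [C.Dl_inv ha ha1, hl, zpow_neg]⟩ }
    have hN : N = ⊤ := by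
      apply ht N
      · intro v g hg
        exact ⟨0, by rw [C.Dl_ell ha ha1 (v := v) hg, zpow_zero]⟩
      · exact ⟨1, by rw [zpow_one]⟩
    intro g
    have : g ∈ N := by rw [hN]; trivial
    exact this
  have hmodr : modulusSet a = {q : ℚ | ∃ k : ℤ, q = r ^ k} := by
    ext q
    rw [mem_modulusSet C ha ha1]
    constructor
    · rintro ⟨g, rfl⟩
      obtain ⟨l, hl⟩ := hDl g
      exact ⟨-l, by rw [hl, zpow_neg]⟩
    · rintro ⟨k, rfl⟩
      exact ⟨t ^ (-k), by rw [C.Dl_zpow ha ha1, zpow_neg, inv_inv]⟩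
  have hrint : ∀ n : ℤ, n ≠ -1 → r ≠ n := by
    intro n hn h
    have hn0 : n ≠ 0 := by
      rintro rfl
      exact hr0 (by rw [h]; simp)
    apply hmod n hn0 hn
    rw [hmodr, h]
  have hrint' : ∀ n : ℤ, n ≠ -1 → r⁻¹ ≠ n := by
    intro n hn h
    have hn0 : n ≠ 0 := by
      rintro rfl
      exact hr0 (by simpa using h)
    apply hmod n hn0 hn
    rw [hmodr]
    have h' : r = (n : ℚ)⁻¹ := by rw [← h, inv_inv]
    ext q
    constructor
    · rintro ⟨k, rfl⟩
      exact ⟨-k, by rw [h', inv_zpow, zpow_neg]⟩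
    · rintro ⟨k, rfl⟩
      exact ⟨-k, by rw [h', inv_zpow, zpow_neg, inv_inv]⟩
  have hr : r = -1 ∨ (2 ≤ r.den ∧ 2 ≤ (r⁻¹).den) := by
    by_cases h1 : r = -1
    · exact Or.inl h1
    right
    have hden : ∀ x : ℚ, (∀ n : ℤ, n ≠ -1 → x ≠ n) → x ≠ -1 → 2 ≤ x.den := by
      intro x hx hx1
      by_contra hlt
      have h2 : x.den = 1 := by
        have := x.den_pos
        omega
      have h3 : (x.num : ℚ) = x := Rat.coe_int_num_of_den_eq_one h2
      by_cases h4 : x.num = -1
      · apply hx1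
        rw [← h3, h4]; norm_num
      · exact hx x.num h4 h3.symm
    refine ⟨hden r hrint h1, hden r⁻¹ hrint' ?_⟩
    intro h2
    apply h1
    rw [← inv_inv r, h2]; norm_num
  have hr1 : r ≠ 1 := by
    have := hrint 1 (by norm_num)
    simpa using this
  -- the crossed homomorphism
  obtain ⟨b, hb1, hb2⟩ := C.exists_crossed ha ha1
  set ρ := mu a (φ a) with hρ
  obtain ⟨κ, hκ⟩ : ∃ κ : ℚ, ∀ g, b (φ g) = ρ * b g + κ * (1 - Dl a g) := by
    let δ : G → ℚ := fun g => b (φ g) - ρ * b g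
    have hδ : ∀ g k, δ (g * k) = δ g + Dl a g * δ k := by
      intro g k
      show b (φ (g * k)) - ρ * b (g * k) = b (φ g) - ρ * b g + Dl a g * (b (φ k) - ρ * b k)
      rw [map_mul, hb1, hb1, C.Dl_phi ha ha1 φ hφ]; ring
    have hD1 := C.Dl_one ha ha1
    have hδ1 : δ 1 = 0 := by
      have := hδ 1 1
      rw [one_mul, hD1] at this
      linarith
    have hr1' : 1 - r ≠ 0 := fun h => hr1 (by linarith)
    refine ⟨δ t / (1 - r), ?_⟩
    let N : Subgroup G :=
      { carrier := {g | δ g = δ t / (1 - r) * (1 - Dl a g)}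
        mul_mem' := by
          intro g k hg hk
          have hg' : δ g = δ t / (1 - r) * (1 - Dl a g) := hg
          have hk' : δ k = δ t / (1 - r) * (1 - Dl a k) := hk
          show δ (g * k) = δ t / (1 - r) * (1 - Dl a (g * k))
          rw [hδ, hg', hk', C.Dl_mul ha ha1]; ring
        one_mem' := by
          show δ 1 = δ t / (1 - r) * (1 - Dl a 1)
          rw [hδ1, hD1]; ring
        inv_mem' := by
          intro g hg
          have hg' : δ g = δ t / (1 - r) * (1 - Dl a g) := hg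
          show δ g⁻¹ = δ t / (1 - r) * (1 - Dl a g⁻¹)
          have h1 := hδ g g⁻¹
          rw [mul_inv_cancel, hδ1, hg'] at h1
          have h2 := C.Dl_ne ha ha1 g
          rw [C.Dl_inv ha ha1]
          apply mul_left_cancel₀ h2
          have h3 : Dl a g * (δ t / (1 - r) * (1 - (Dl a g)⁻¹)) =
              δ t / (1 - r) * (Dl a g - Dl a g * (Dl a g)⁻¹) := by ring
          rw [h3, mul_inv_cancel₀ h2]
          linarith }
    have hN : N = ⊤ := by
      apply ht N
      · intro v g hg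
        have hg' : g • v = v := hg
        show δ g = δ t / (1 - r) * (1 - Dl a g)
        rw [C.Dl_ell ha ha1 hg', sub_self, mul_zero]
        obtain ⟨u, hu⟩ := hφ g v hg'
        show b (φ g) - ρ * b g = 0
        rw [hb2 _ u hu, hb2 _ v hg', C.mu_phi ha ha1 φ hφ (C.inE ha ha1 hg')]
        ring
      · show δ t = δ t / (1 - r) * (1 - Dl a t)
        rw [← hrdef, div_mul_cancel₀ _ hr1']
    intro g
    have hg : g ∈ N := by rw [hN]; trivial
    have hg' : b (φ g) - ρ * b g = δ t / (1 - r) * (1 - Dl a g) := hg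
    linarith
  -- equivariant map and flow
  obtain ⟨H, hH⟩ := C.exists_equivariant φ hφ
  obtain ⟨σ, hσ1, hσ2⟩ := exists_flow hT H
  have hHF : ∀ f ∈ F, ∀ v, H (f • v) = f • H v := by
    intro f hf v
    rw [hH, (hF f).1 hf]
  have hdist : ∀ (g : G) (x y : V), T.dist (g • x) (g • y) = T.dist x y := by
    intro g x y
    have := A.iso g x y
    unfold dz at this
    exact_mod_cast this
  have hσF : ∀ f ∈ F, ∀ v, σ (f • v) = f • σ v := by
    intro f hf v
    by_cases hv : H v = v
    · rw [hσ1 v hv, hσ1 (f • v) (by rw [hHF f hf, hv])]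
    · have hfv : H (f • v) ≠ f • v := by
        rw [hHF f hf]
        intro h
        exact hv (smul_left_cancel f h)
      obtain ⟨h1, h2⟩ := hσ2 _ hfv
      obtain ⟨h3, h4⟩ := hσ2 _ hv
      have h5 := C.hadj f _ _ h3
      have h6 : T.dist (H (f • v)) (f • v) = T.dist (H (f • v)) (f • σ v) + 1 := by
        rw [hHF f hf, hdist, hdist, h4]
      exact parent_unique hT h1.symm h5.symm h2 h6
  -- finitely many representatives of vertices and edges
  obtain ⟨Vr, hVr, hVrep⟩ : ∃ Vr : Set V, Vr.Finite ∧ ∀ v : V, ∃ g : G, ∃ p ∈ Vr, g • p = v := by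
    refine ⟨Set.range (fun q : MulAction.orbitRel.Quotient G V => q.out), Set.finite_range _, ?_⟩
    intro v
    have h := Quotient.mk_out (s := MulAction.orbitRel G V) v
    obtain ⟨s, hs⟩ := (MulAction.orbitRel_apply (G := G)).1 h
    have hs' : s • v = (Quotient.mk (MulAction.orbitRel G V) v).out := hs
    exact ⟨s⁻¹, _, ⟨Quotient.mk (MulAction.orbitRel G V) v, rfl⟩, by
      show s⁻¹ • (Quotient.mk (MulAction.orbitRel G V) v).out = v
      rw [← hs', inv_smul_smul]⟩
  obtain ⟨Er, hEr, hErep⟩ : ∃ Er : Set (V × V), Er.Finite ∧ ∀ u v : V, T.Adj u v →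
      ∃ g : G, ∃ p ∈ Er, g • p.1 = u ∧ g • p.2 = v := by
    have hsurj : ∀ ω : Quotient (edgeSetoid T G), ∃ p : V × V, ∃ h : T.Adj p.1 p.2,
        Quotient.mk (edgeSetoid T G) ⟨s(p.1, p.2), h⟩ = ω := by
      intro ω
      obtain ⟨⟨e, he⟩, rfl⟩ := Quotient.exists_rep ω
      induction e using Sym2.ind with
      | _ u v => exact ⟨(u, v), he, rfl⟩
    choose pe hpe1 hpe2 using hsurj
    refine ⟨Set.range pe ∪ Set.range (fun ω => (pe ω).swap),
      (Set.finite_range _).union (Set.finite_range _), fun u v huv => ?_⟩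
    obtain ⟨g, hg⟩ := Quotient.exact (hpe2 (Quotient.mk (edgeSetoid T G) ⟨s(u, v), huv⟩))
    set p := pe (Quotient.mk (edgeSetoid T G) ⟨s(u, v), huv⟩) with hp
    have hg' : s(g • p.1, g • p.2) = s(u, v) := hg
    rw [Sym2.eq_iff] at hg'
    rcases hg' with ⟨h1, h2⟩ | ⟨h1, h2⟩
    · exact ⟨g, p, Or.inl ⟨_, rfl⟩, h1, h2⟩
    · exact ⟨g, p.swap, Or.inr ⟨_, rfl⟩, h2, h1⟩
  -- the criterion
  let eqv : V → V → Prop := fun x y => ∃ m n : ℕ, σ^[m] x = σ^[n] y
  have heqv : Equivalence eqv :=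
    { refl := fun x => ⟨0, 0, rfl⟩
      symm := by rintro x y ⟨m, n, h⟩; exact ⟨n, m, h.symm⟩
      trans := by
        rintro x y z ⟨m, n, h⟩ ⟨k, l, h'⟩
        refine ⟨k + m, n + l, ?_⟩
        rw [Function.iterate_add_apply, h, ← Function.iterate_add_apply, add_comm k n,
          Function.iterate_add_apply, h', ← Function.iterate_add_apply] }
  have hit : ∀ f ∈ F, ∀ (n : ℕ) (u : V), σ^[n] (f • u) = f • σ^[n] u := by
    intro f hf n
    induction n with
    | zero => intro u; rfl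
    | succ n ih => intro u; rw [Function.iterate_succ_apply, hσF f hf, ih]; rfl
  -- special edges
  choose! R hR1 hR2 using fun (e : V × V) (he : T.Adj e.1 e.2) (xy : V × V) =>
    special_fin C ha ha1 hr hDl φ hφ b hb1 hb2 κ hκ F hF e.1 e.2 he xy.1 xy.2
  let I : V × V → Set V := fun e =>
    {p : V | T.dist (H e.1) p + T.dist p (H e.2) = T.dist (H e.1) (H e.2)}
  have hI : ∀ e, (I e).Finite := fun e => interval_finite hT _ _
  let Er' : Set (V × V) := {e ∈ Er | T.Adj e.1 e.2}
  have hEr' : Er'.Finite := hEr.subset (fun e he => he.1)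
  refine fg_of_graph F T hT.connected eqv heqv ?_ ?_
    (⋃ e ∈ Er', ⋃ xy ∈ (I e) ×ˢ (I e), R e xy) ?_ ?_
  · rintro f hf x y ⟨m, n, h⟩
    exact ⟨m, n, by rw [hit f hf, hit f hf, h]⟩
  · intro v
    exact class_fg C ha ha1 hr hDl hVr hVrep F σ hσF v
  · exact hEr'.biUnion (fun e he => ((hI e).prod (hI e)).biUnion
      (fun xy _ => hR1 e he.2 xy))
  · intro u v huv hneq
    -- the edge is carried over itself
    have s1 : T.dist (H u) v = T.dist (H u) u + 1 := by
      rcases dist_cases hT (H u) huv with h | h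
      · exfalso
        have hne : H u ≠ u := by
          intro h0
          rw [h0, SimpleGraph.dist_self] at h
          omega
        obtain ⟨h1, h2⟩ := hσ2 u hne
        have h3 : σ u = v := parent_unique hT h1.symm huv.symm h2 h
        exact hneq ⟨1, 0, h3⟩
      · exact h
    have s2 : T.dist (H v) u = T.dist (H v) v + 1 := by
      rcases dist_cases hT (H v) huv.symm with h | h
      · exfalso
        have hne : H v ≠ v := by
          intro h0
          rw [h0, SimpleGraph.dist_self] at h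
          omega
        obtain ⟨h1, h2⟩ := hσ2 v hne
        have h3 : σ v = u := parent_unique hT h1.symm huv h2 h
        exact hneq ⟨0, 1, h3.symm⟩
      · exact h
    have s3 := dist_through hT huv.symm s1 s2
    -- translate
    obtain ⟨g, e, he, hgu, hgv⟩ := hErep u v huv
    have hadj' : T.Adj e.1 e.2 := by
      have := C.hadj g⁻¹ u v huv
      rwa [← hgu, ← hgv, inv_smul_smul, inv_smul_smul] at this
    have c1 := SimpleGraph.dist_comm (G := T) (u := H v) (v := v)
    have c2 := SimpleGraph.dist_comm (G := T) (u := H v) (v := u)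
    have hHe1 : H e.1 = (φ g)⁻¹ • H u := by rw [← hgu, hH, inv_smul_smul]
    have hHe2 : H e.2 = (φ g)⁻¹ • H v := by rw [← hgv, hH, inv_smul_smul]
    have x1 : ((φ g)⁻¹ * g) • e.1 = (φ g)⁻¹ • u := by rw [mul_smul, hgu]
    have x2 : ((φ g)⁻¹ * g) • e.2 = (φ g)⁻¹ • v := by rw [mul_smul, hgv]
    have m1 : ((φ g)⁻¹ * g) • e.1 ∈ I e := by
      show T.dist (H e.1) _ + T.dist _ (H e.2) = T.dist (H e.1) (H e.2)
      rw [x1, hHe1, hHe2, hdist, hdist, hdist]
      omega
    have m2 : ((φ g)⁻¹ * g) • e.2 ∈ I e := by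
      show T.dist (H e.1) _ + T.dist _ (H e.2) = T.dist (H e.1) (H e.2)
      rw [x2, hHe1, hHe2, hdist, hdist, hdist]
      omega
    obtain ⟨f, hf, hfR⟩ := hR2 e hadj' (((φ g)⁻¹ * g) • e.1, ((φ g)⁻¹ * g) • e.2) g rfl rfl
    rw [hgu, hgv] at hfR
    refine ⟨f, hf, ?_⟩
    rw [Set.mem_iUnion₂]
    refine ⟨e, ⟨he, hadj'⟩, ?_⟩
    rw [Set.mem_iUnion₂]
    exact ⟨_, ⟨m1, m2⟩, hfR⟩

end Pool.Agent.R643
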