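import Mathlib

set_option autoImplicit false

/-!
# Generators of a group acting on a tree whose quotient graph has one cycle
-/

namespace Pool.Agent.R643

universe u v w

variable {V : Type v}

/-- Two edges of a graph with a group action are equivalent if they are in the same orbit. -/
def edgeSetoid (T : SimpleGraph V) (G : Type u) [Group G] [MulAction G V] : Setoid T.edgeSet where
  r e f := ∃ g : G, Sym2.map (fun v => g • v) (e : Sym2 V) = f
  iseqv :=
    { refl := fun e => ⟨1, by
        have : (fun v : V => (1 : G) • v) = id := by ext v; simp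
        rw [this, Sym2.map_id]; rfl⟩
      symm := by
        rintro e f ⟨g, hg⟩
        refine ⟨g⁻¹, ?_⟩
        rw [← hg, Sym2.map_map]
        have : ((fun v : V => g⁻¹ • v) ∘ fun v : V => g • v) = id := by ext v; simp
        rw [this, Sym2.map_id]; rfl
      trans := by
        rintro e f k ⟨g, hg⟩ ⟨g', hg'⟩
        refine ⟨g' * g, ?_⟩
        rw [← hg', ← hg, Sym2.map_map]
        congr 1
        ext v; simp [mul_smul] }

variable {G : Type u} [Group G] [MulAction G V] {T : SimpleGraph V}

/-- If the quotient graph has as many edges as vertices, then the group is generated by the vertex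
stabilisers and one more element. -/
theorem exists_generator (hT : T.Connected)
    (hadj : ∀ (g : G) (u v : V), T.Adj u v → T.Adj (g • u) (g • v))
    [Finite (MulAction.orbitRel.Quotient G V)] [Finite (Quotient (edgeSetoid T G))]
    (hcard : Nat.card (Quotient (edgeSetoid T G)) = Nat.card (MulAction.orbitRel.Quotient G V)) :
    ∃ t : G, ∀ N : Subgroup G, (∀ v : V, MulAction.stabilizer G v ≤ N) → t ∈ N → N = ⊤ := by
  classical
  have := Fintype.ofFinite (MulAction.orbitRel.Quotient G V)
  have := Fintype.ofFinite (Quotient (edgeSetoid T G))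
  obtain ⟨v0⟩ := hT.nonempty
  set n := Nat.card (MulAction.orbitRel.Quotient G V) with hn
  let π : V → MulAction.orbitRel.Quotient G V := fun v => Quotient.mk _ v
  have hπ : ∀ u v, π u = π v ↔ ∃ g : G, g • v = u := by
    intro u v
    constructor
    · intro h
      exact (MulAction.orbitRel_apply (G := G)).1 (Quotient.exact h)
    · rintro ⟨g, hg⟩
      exact Quotient.sound ((MulAction.orbitRel_apply (G := G)).2 ⟨g, hg⟩)
  let cls : ∀ u v, T.Adj u v → Quotient (edgeSetoid T G) := fun u v h =>
    Quotient.mk _ ⟨s(u, v), h⟩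
  have hcls : ∀ u v (h : T.Adj u v) u' v' (h' : T.Adj u' v'), cls u v h = cls u' v' h' →
      ∃ g : G, (g • u = u' ∧ g • v = v') ∨ (g • u = v' ∧ g • v = u') := by
    intro u v h u' v' h' he
    obtain ⟨g, hg⟩ := Quotient.exact he
    refine ⟨g, ?_⟩
    have : s(g • u, g • v) = s(u', v') := hg
    rw [Sym2.eq_iff] at this
    exact this
  have hclsurj : ∀ ω : Quotient (edgeSetoid T G), ∃ u v, ∃ h : T.Adj u v, cls u v h = ω := by
    intro ω
    obtain ⟨⟨e, he⟩, rfl⟩ := Quotient.exists_rep ω
    induction e using Sym2.ind with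
    | _ u v => exact ⟨u, v, he, rfl⟩
  have hclsg : ∀ (g : G) u v (h : T.Adj u v), cls (g • u) (g • v) (hadj g u v h) = cls u v h := by
    intro g u v h
    apply Quotient.sound
    exact ⟨g⁻¹, by simp⟩
  have hn1 : 1 ≤ n := by
    rw [hn, Nat.one_le_iff_ne_zero]
    exact Nat.card_ne_zero.2 ⟨⟨π v0⟩, inferInstance⟩
  have hnF : n = Fintype.card (MulAction.orbitRel.Quotient G V) := Nat.card_eq_fintype_card
  -- a transversal obtained by successively adding neighbours
  have key : ∀ k, 1 ≤ k → k ≤ n → ∃ (S : Finset V) (E : Finset (Quotient (edgeSetoid T G))),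
      S.card = k ∧ (∀ x ∈ S, ∀ y ∈ S, π x = π y → x = y) ∧ E.card = k - 1 ∧
      ∀ ω ∈ E, ∃ x ∈ S, ∃ y ∈ S, ∃ h : T.Adj x y, cls x y h = ω := by
    intro k hk
    induction k, hk using Nat.le_induction with
    | base =>
      intro _
      refine ⟨{v0}, ∅, rfl, ?_, rfl, by simp⟩
      intro x hx y hy _
      rw [Finset.mem_singleton] at hx hy
      rw [hx, hy]
    | succ k hk ih =>
      intro hkn
      obtain ⟨S, E, hS, hSinj, hE, hES⟩ := ih (by omega)
      have himg : (S.image π).card = k := by
        rw [Finset.card_image_of_injOn, hS]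
        intro x hx y hy h
        exact hSinj x hx y hy h
      obtain ⟨y0, hy0⟩ : ∃ y0, π y0 ∉ S.image π := by
        by_contra hcon
        push Not at hcon
        have : S.image π = Finset.univ := by
          ext c
          simp only [Finset.mem_univ, iff_true]
          obtain ⟨y, rfl⟩ := Quotient.exists_rep c
          exact hcon y
        rw [this, Finset.card_univ, ← hnF] at himg
        omega
      obtain ⟨s0, hs0⟩ : S.Nonempty := by rw [← Finset.card_pos]; omega
      -- an edge leaving the saturation of `S`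
      obtain ⟨x, y, hxy, hx, hy⟩ : ∃ x y, T.Adj x y ∧ π x ∈ S.image π ∧ π y ∉ S.image π := by
        by_contra hcon
        push Not at hcon
        have hall : ∀ z, T.Reachable s0 z → π z ∈ S.image π := by
          intro z hz
          rw [SimpleGraph.reachable_iff_reflTransGen] at hz
          induction hz with
          | refl => exact Finset.mem_image_of_mem _ hs0
          | tail _ hab ih => exact hcon _ _ hab ih
        exact hy0 (hall y0 (hT.preconnected s0 y0))
      obtain ⟨s, hs, hsx⟩ := Finset.mem_image.1 hx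
      obtain ⟨g, hg⟩ := (hπ s x).1 hsx
      have hadj' : T.Adj s (g • y) := by rw [← hg]; exact hadj g x y hxy
      have hw : π (g • y) ∉ S.image π := by
        have : π (g • y) = π y := (hπ _ _).2 ⟨g, rfl⟩
        rw [this]; exact hy
      have hwS : g • y ∉ S := fun h => hw (Finset.mem_image_of_mem _ h)
      have hω : cls s (g • y) hadj' ∉ E := by
        intro hmem
        obtain ⟨x', hx', y', hy', h', he⟩ := hES _ hmem
        obtain ⟨k, hk⟩ := hcls _ _ _ _ _ _ he
        rcases hk with ⟨-, hk⟩ | ⟨hk, -⟩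
        · exact hw (by rw [← hk, (hπ (k • y') y').2 ⟨k, rfl⟩]; exact Finset.mem_image_of_mem _ hy')
        · exact hw (by rw [← hk, (hπ (k • x') x').2 ⟨k, rfl⟩]; exact Finset.mem_image_of_mem _ hx')
      refine ⟨insert (g • y) S, insert (cls s (g • y) hadj') E, ?_, ?_, ?_, ?_⟩
      · rw [Finset.card_insert_of_notMem hwS, hS]
      · intro a ha b hb hab
        rw [Finset.mem_insert] at ha hb
        rcases ha with rfl | ha <;> rcases hb with rfl | hb
        · rfl
        · exact absurd (hab ▸ Finset.mem_image_of_mem _ hb) hw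
        · exact absurd (hab ▸ Finset.mem_image_of_mem _ ha) hw
        · exact hSinj a ha b hb hab
      · rw [Finset.card_insert_of_notMem hω, hE]; omega
      · intro ω hmem
        rw [Finset.mem_insert] at hmem
        rcases hmem with rfl | hmem
        · exact ⟨s, Finset.mem_insert_of_mem hs, g • y, Finset.mem_insert_self _ _, hadj', rfl⟩
        · obtain ⟨x', hx', y', hy', h', he⟩ := hES _ hmem
          exact ⟨x', Finset.mem_insert_of_mem hx', y', Finset.mem_insert_of_mem hy', h', he⟩
  obtain ⟨S, E, hS, hSinj, hE, hES⟩ := key n hn1 le_rfl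
  have himg : S.image π = Finset.univ := by
    apply Finset.eq_univ_of_card
    rw [Finset.card_image_of_injOn (fun x hx y hy h => hSinj x hx y hy h), hS, hnF]
  have htrans : ∀ v, ∃ g : G, ∃ s ∈ S, g • s = v := by
    intro v
    have : π v ∈ S.image π := by rw [himg]; exact Finset.mem_univ _
    obtain ⟨s, hs, hsv⟩ := Finset.mem_image.1 this
    obtain ⟨g, hg⟩ := (hπ v s).1 hsv.symm
    exact ⟨g, s, hs, hg⟩
  have hEc : (Finset.univ \ E).card = 1 := by
    rw [Finset.card_sdiff_of_subset (Finset.subset_univ _), Finset.card_univ,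
      ← Nat.card_eq_fintype_card, hcard, hE]
    omega
  obtain ⟨ω, hω⟩ := Finset.card_eq_one.1 hEc
  have hEω : ∀ c, c ∈ E ∨ c = ω := by
    intro c
    by_cases hc : c ∈ E
    · exact Or.inl hc
    · right
      have : c ∈ Finset.univ \ E := by simp [hc]
      rw [hω, Finset.mem_singleton] at this
      exact this
  -- the extra edge
  obtain ⟨x1, y1, h1, hc1⟩ := hclsurj ω
  obtain ⟨g1, s1, hs1, hg1⟩ := htrans x1
  obtain ⟨g2, s2, hs2, hg2⟩ := htrans (g1⁻¹ • y1)
  have hadj1 : T.Adj s1 (g2 • s2) := by
    have := hadj g1⁻¹ _ _ h1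
    rw [← hg1, inv_smul_smul] at this
    rw [hg2]; exact this
  have hc2 : cls s1 (g2 • s2) hadj1 = ω := by
    rw [← hc1, ← hclsg g1⁻¹ x1 y1 h1]
    congr 1
    · rw [← hg1, inv_smul_smul]
  refine ⟨g2, fun N hN htN => ?_⟩
  have hNs : ∀ (g : G) (v : V), g • v = v → g ∈ N := fun g v hg => hN v hg
  -- the set `N S` is everything
  have hall : ∀ v, ∃ g ∈ N, ∃ s ∈ S, g • s = v := by
    intro v
    obtain ⟨s0, hs0⟩ : S.Nonempty := by rw [← Finset.card_pos]; omega
    have hreach := hT.preconnected s0 v
    rw [SimpleGraph.reachable_iff_reflTransGen] at hreach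
    induction hreach with
    | refl => exact ⟨1, N.one_mem, s0, hs0, one_smul _ _⟩
    | @tail x y _ hab ih =>
      obtain ⟨g, hg, s, hs, rfl⟩ := ih
      have hadj2 : T.Adj s (g⁻¹ • y) := by
        have := hadj g⁻¹ _ _ hab
        rwa [inv_smul_smul] at this
      -- it suffices to treat the edge at `s`
      suffices hsuf : ∃ k ∈ N, ∃ s' ∈ S, k • s' = g⁻¹ • y by
        obtain ⟨k, hk, s', hs', hks⟩ := hsuf
        refine ⟨g * k, N.mul_mem hg hk, s', hs', ?_⟩
        rw [mul_smul, hks, smul_inv_smul]
      rcases hEω (cls s (g⁻¹ • y) hadj2) with hmem | hmem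
      · obtain ⟨a, ha, b, hb, hab', he⟩ := hES _ hmem
        obtain ⟨k, hk | hk⟩ := hcls _ _ _ _ _ _ he
        · obtain ⟨k1, k2⟩ := hk
          have : s = a := hSinj s hs a ha ((hπ _ _).2 ⟨k, k1⟩)
          subst this
          exact ⟨k, hNs k _ k1, b, hb, k2⟩
        · obtain ⟨k1, k2⟩ := hk
          have : s = b := hSinj s hs b hb ((hπ _ _).2 ⟨k, k2⟩)
          subst this
          exact ⟨k, hNs k _ k2, a, ha, k1⟩
      · rw [← hc2] at hmem
        obtain ⟨k, hk | hk⟩ := hcls _ _ _ _ _ _ hmem.symm
        · obtain ⟨k1, k2⟩ := hk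
          have : s = s1 := hSinj s hs s1 hs1 ((hπ _ _).2 ⟨k, k1⟩)
          subst this
          exact ⟨k * g2, N.mul_mem (hNs k _ k1) htN, s2, hs2, by rw [mul_smul, k2]⟩
        · obtain ⟨k1, k2⟩ := hk
          have e1 : (k * g2) • s2 = s := by rw [mul_smul, k2]
          have : s = s2 := hSinj s hs s2 hs2 ((hπ _ _).2 ⟨k * g2, e1⟩)
          subst this
          have hk' : k ∈ N := by
            have := N.mul_mem (hNs _ _ e1) (N.inv_mem htN)
            rwa [mul_inv_cancel_right] at this
          exact ⟨k, hk', s1, hs1, k1⟩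
  rw [eq_top_iff]
  intro g _
  obtain ⟨s0, hs0⟩ : S.Nonempty := by rw [← Finset.card_pos]; omega
  obtain ⟨k, hk, s, hs, hks⟩ := hall (g • s0)
  have : s = s0 := hSinj s hs s0 hs0 ((hπ _ _).2 ⟨k⁻¹ * g, by
    rw [mul_smul, ← hks, inv_smul_smul]⟩)
  subst this
  have h3 : k⁻¹ * g ∈ N := hNs _ s (by rw [mul_smul, ← hks, inv_smul_smul])
  have := N.mul_mem hk h3
  rwa [mul_inv_cancel_left] at this

end Pool.Agent.R643
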