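import Pool.Agent.R643.GbsCoc
import Pool.Agent.R643.GbsGen
import Pool.Agent.R643.Arith

set_option autoImplicit false

/-!
# Fixed subgroups of automorphisms of generalised Baumslag-Solitar groups with one cycle
-/

namespace Pool.Agent.R643

universe u v w

variable {G : Type u} [Group G] {V : Type v} [MulAction G V] {T : SimpleGraph V}

theorem fg_bot' : (⊥ : Subgroup G).FG := ⟨∅, by simp⟩

/-- an equivariant map of the vertices -/
theorem CycAct.exists_equivariant (C : CycAct T G) (φ : G ≃* G)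
    (hφ : ∀ (x : G) (v : V), x • v = v → ∃ u : V, φ x • u = u) :
    ∃ H : V → V, ∀ (g : G) (v : V), H (g • v) = φ g • H v := by
  classical
  let rep : V → V := fun v => (Quotient.mk (MulAction.orbitRel G V) v).out
  have hrep : ∀ v, ∃ s : G, s • rep v = v := by
    intro v
    have h := Quotient.mk_out (s := MulAction.orbitRel G V) v
    obtain ⟨s, hs⟩ := (MulAction.orbitRel_apply (G := G)).1 h
    refine ⟨s⁻¹, ?_⟩
    rw [inv_smul_eq_iff]
    exact hs.symm
  have hrepg : ∀ (g : G) (v : V), rep (g • v) = rep v := by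
    intro g v
    show (Quotient.mk (MulAction.orbitRel G V) (g • v)).out = _
    congr 1
    exact Quotient.sound ((MulAction.orbitRel_apply (G := G)).2 ⟨g, rfl⟩)
  choose s hs using hrep
  choose w hw1 hw2 using C.vgen
  have hwfix : ∀ v, w v • v = v := fun v => (hw2 v (w v)).2 (Subgroup.mem_zpowers _)
  choose u hu using fun v => hφ (w v) v (hwfix v)
  refine ⟨fun v => φ (s v) • u (rep v), fun g v => ?_⟩
  show φ (s (g • v)) • u (rep (g • v)) = φ g • φ (s v) • u (rep v)
  rw [hrepg]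
  have h1 : ((g * s v)⁻¹ * s (g • v)) • rep v = rep v := by
    have h2 : s (g • v) • rep v = g • v := by
      conv_lhs => rw [← hrepg g v]
      exact hs _
    rw [mul_smul, h2, inv_smul_eq_iff, mul_smul, hs]
  obtain ⟨k, hk⟩ := (hw2 _ _).1 h1
  have h3 : s (g • v) = g * s v * (w (rep v)) ^ k := by
    have hk' : (w (rep v)) ^ k = (g * s v)⁻¹ * s (g • v) := hk
    rw [hk']; group
  have h4 : (φ (w (rep v))) ^ k • u (rep v) = u (rep v) := by
    have : φ (w (rep v)) ∈ MulAction.stabilizer G (u (rep v)) := hu _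
    exact (MulAction.stabilizer G (u (rep v))).zpow_mem this k
  rw [h3, map_mul, map_mul, map_zpow, mul_smul, mul_smul, h4]

/-- the flow of a self map of a tree -/
theorem exists_flow (hT : T.IsTree) (H : V → V) : ∃ σ : V → V, (∀ v, H v = v → σ v = v) ∧
    ∀ v, H v ≠ v → T.Adj v (σ v) ∧ T.dist (H v) v = T.dist (H v) (σ v) + 1 := by
  classical
  refine ⟨fun v => if h : H v = v then v else (exists_parent hT (z := H v) (v := v)
    (fun h' => h h'.symm)).choose, ?_, ?_⟩
  · intro v hv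
    exact dif_pos hv
  · intro v hv
    have : (if h : H v = v then v else (exists_parent hT (z := H v) (v := v)
      (fun h' => h h'.symm)).choose) = (exists_parent hT (z := H v) (v := v)
      (fun h' => hv h'.symm)).choose := dif_neg hv
    simp only [this]
    exact (exists_parent hT (z := H v) (v := v) (fun h' => hv h'.symm)).choose_spec

/-- finitely many representatives -/
theorem finite_reps (F : Subgroup G) (e1 e2 : V) (S : Set G) (ι : G → ℤ) (hfin : (ι '' S).Finite)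
    (hι : ∀ g ∈ S, ∀ g' ∈ S, ι g = ι g' → ∃ f ∈ F, f • g • e1 = g' • e1 ∧ f • g • e2 = g' • e2) :
    ∃ R : Set (V × V), R.Finite ∧ ∀ g ∈ S, ∃ f ∈ F, (f • g • e1, f • g • e2) ∈ R := by
  classical
  choose! k hk using fun c (hc : c ∈ ι '' S) => hc
  refine ⟨(fun c => (k c • e1, k c • e2)) '' (ι '' S), hfin.image _, fun g hg => ?_⟩
  have hc : ι g ∈ ι '' S := ⟨g, hg, rfl⟩
  obtain ⟨f, hf, h1, h2⟩ := hι g hg (k (ι g)) (hk _ hc).1 (hk _ hc).2.symm
  exact ⟨f, hf, ι g, hc, by rw [h1, h2]⟩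

section

variable (C : CycAct T G) {a : G} {va : V} (ha : a • va = va) (ha1 : a ≠ 1) {r : ℚ}
  (hr : r = -1 ∨ (2 ≤ r.den ∧ 2 ≤ (r⁻¹).den)) (hDl : ∀ g : G, ∃ l : ℤ, Dl a g = r ^ l)

include C ha ha1 hr hDl

/-- A group each of whose elements fixes almost all members of a sequence of vertices is finitely
generated. -/
theorem kernel_fg {Vr : Set V} (hVr : Vr.Finite) (hrep : ∀ v : V, ∃ g : G, ∃ p ∈ Vr, g • p = v)
    (K : Subgroup G) (vs : ℕ → V) (hK : ∀ x ∈ K, ∃ m, ∀ n, m ≤ n → x • vs n = vs n) : K.FG := by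
  classical
  have hat := C.a_tf ha ha1
  by_cases hbot : K = ⊥
  · rw [hbot]; exact fg_bot'
  obtain ⟨x0, hx0, hx01⟩ : ∃ x : G, x ∈ K ∧ x ≠ 1 := by
    obtain ⟨x, hx⟩ := Subgroup.ne_bot_iff_exists_ne_one.1 hbot
    exact ⟨x, x.2, fun h => hx (Subtype.ext h)⟩
  obtain ⟨m0, hm0⟩ := hK x0 hx0
  choose w hw1 hw2 using C.vgen
  have hwfix : ∀ v, w v • v = v := fun v => (hw2 v (w v)).2 (Subgroup.mem_zpowers _)
  have hwne : ∀ v, w v ≠ 1 := by
    intro v h
    have := hw1 v 1 (by rw [h]; simp)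
    omega
  have hmux0 : mu a x0 ≠ 0 := C.mu_ne ha ha1 (hm0 m0 le_rfl) hx01
  obtain ⟨M1, hM1, hM1'⟩ := exists_common_denom ((fun p => mu a (w p) / mu a x0) '' Vr)
    (hVr.image _)
  set Φ : Set ℚ := {q : ℚ | (∃ l : ℤ, q = r ^ l) ∧ ∃ c : ℤ, q * M1 = c} with hΦ
  have hΦf : Φ.Finite := finite_pow hr hM1
  obtain ⟨M, hM, hM'⟩ := exists_common_denom ((fun qp : ℚ × V => qp.1⁻¹ * mu a (w qp.2)) ''
    (Φ ×ˢ Vr)) ((hΦf.prod hVr).image _)
  -- the values of `mu` on `K` have bounded denominators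
  have hint : ∀ x ∈ K, ∃ c : ℤ, mu a x * M = c := by
    intro x hx
    obtain ⟨m, hm⟩ := hK x hx
    set n := max m0 m with hn
    have f0 := hm0 n (le_max_left _ _)
    have f1 := hm n (le_max_right _ _)
    obtain ⟨g, p, hp, hgp⟩ := hrep (vs n)
    have c0 : (g⁻¹ * x0 * g) • p = p := by
      rw [mul_smul, mul_smul, hgp, f0, inv_smul_eq_iff, hgp]
    have c1 : (g⁻¹ * x * g) • p = p := by
      rw [mul_smul, mul_smul, hgp, f1, inv_smul_eq_iff, hgp]
    obtain ⟨i, hi⟩ := (hw2 p _).1 c0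
    obtain ⟨j, hj⟩ := (hw2 p _).1 c1
    have hi' : x0 = g * (w p) ^ i * g⁻¹ := by
      have : (w p) ^ i = g⁻¹ * x0 * g := hi
      rw [this]; group
    have hj' : x = g * (w p) ^ j * g⁻¹ := by
      have : (w p) ^ j = g⁻¹ * x * g := hj
      rw [this]; group
    have hE := C.inE ha ha1 (hwfix p)
    have hEi : ∀ i : ℤ, InE a ((w p) ^ i) := fun i => C.inE ha ha1
      (v := p) ((MulAction.stabilizer G p).zpow_mem (hwfix p) i)
    have m1 : mu a x0 = Dl a g * (i * mu a (w p)) := by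
      conv_lhs => rw [hi']
      rw [C.mu_conj ha ha1 (hEi i), mu_zpow hat hE]
    have m2 : mu a x = Dl a g * (j * mu a (w p)) := by
      conv_lhs => rw [hj']
      rw [C.mu_conj ha ha1 (hEi j), mu_zpow hat hE]
    have hDg := C.Dl_ne ha ha1 g
    have hq : (Dl a g)⁻¹ ∈ Φ := by
      constructor
      · obtain ⟨l, hl⟩ := hDl g
        exact ⟨-l, by rw [hl, zpow_neg]⟩
      · obtain ⟨c, hc⟩ := hM1' _ ⟨p, hp, rfl⟩
        refine ⟨i * c, ?_⟩
        push_cast
        rw [← hc]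
        have : (Dl a g)⁻¹ = i * mu a (w p) / mu a x0 := by
          rw [m1]
          have hne : (i : ℚ) * mu a (w p) ≠ 0 := by
            intro h0
            rw [h0, mul_zero] at m1
            exact hmux0 m1
          have h3 := left_ne_zero_of_mul hne
          have h4 := right_ne_zero_of_mul hne
          field_simp
        rw [this]; ring
    obtain ⟨c, hc⟩ := hM' _ ⟨((Dl a g)⁻¹, p), ⟨hq, hp⟩, rfl⟩
    simp only [inv_inv] at hc
    refine ⟨j * c, ?_⟩
    push_cast
    rw [← hc, m2]; ring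
  -- conclusion
  have hfix2 : ∀ x ∈ K, ∀ y ∈ K, ∃ v : V, x • v = v ∧ y • v = v := by
    intro x hx y hy
    obtain ⟨m, hm⟩ := hK x hx
    obtain ⟨m', hm'⟩ := hK y hy
    exact ⟨vs (max m m'), hm _ (le_max_left _ _), hm' _ (le_max_right _ _)⟩
  choose! τ hτ using hint
  refine fg_of_tau K ⊥ bot_le τ ?_ ?_ fg_bot'
  · intro x hx y hy
    have e1 := hτ x hx
    have e2 := hτ y hy
    have e3 := hτ (x * y) (K.mul_mem hx hy)
    obtain ⟨v, v1, v2⟩ := hfix2 x hx y hy
    rw [C.mu_mul_fix ha ha1 v1 v2, add_mul, e1, e2] at e3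
    exact_mod_cast e3.symm
  · intro x hx h0
    have e1 := hτ x hx
    rw [h0] at e1
    obtain ⟨v, v1, -⟩ := hfix2 x hx x hx
    rw [Subgroup.mem_bot]
    by_contra hne
    have := C.mu_ne ha ha1 v1 hne
    have hM2 : (M : ℚ) ≠ 0 := by exact_mod_cast hM
    simp at e1
    rcases e1 with e1 | e1
    · exact this e1
    · exact hM e1

end

end Pool.Agent.R643
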