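import Pool.Agent.R643.GbsMain

set_option autoImplicit false

/-!
# Stabilisers of the components of the flow
-/

namespace Pool.Agent.R643

universe u v w

variable {G : Type u} [Group G] {V : Type v} [MulAction G V] {T : SimpleGraph V}

theorem class_fg (C : CycAct T G) {a : G} {va : V} (ha : a • va = va) (ha1 : a ≠ 1) {r : ℚ}
    (hr : r = -1 ∨ (2 ≤ r.den ∧ 2 ≤ (r⁻¹).den)) (hDl : ∀ g : G, ∃ l : ℤ, Dl a g = r ^ l)
    {Vr : Set V} (hVr : Vr.Finite) (hrep : ∀ v : V, ∃ g : G, ∃ p ∈ Vr, g • p = v)
    (F : Subgroup G) (σ : V → V) (hσ : ∀ f ∈ F, ∀ v, σ (f • v) = f • σ v) (v : V) :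
    ∃ K : Subgroup G, K.FG ∧ ∀ g, g ∈ K ↔ g ∈ F ∧ ∃ m n, σ^[m] (g • v) = σ^[n] v := by
  classical
  have hit : ∀ f ∈ F, ∀ (n : ℕ) (u : V), σ^[n] (f • u) = f • σ^[n] u := by
    intro f hf n
    induction n with
    | zero => intro u; rfl
    | succ n ih => intro u; rw [Function.iterate_succ_apply, hσ f hf, ih]; rfl
  set vs : ℕ → V := fun n => σ^[n] v with hvs
  have shift : ∀ f ∈ F, ∀ m n i : ℕ, f • vs m = vs n → f • vs (m + i) = vs (n + i) := by
    intro f hf m n i h
    show f • σ^[m + i] v = σ^[n + i] v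
    rw [add_comm m i, add_comm n i, Function.iterate_add_apply, Function.iterate_add_apply,
      ← hit f hf]
    exact congrArg (σ^[i]) h
  let K : Subgroup G :=
    { carrier := {g | g ∈ F ∧ ∃ m n, g • vs m = vs n}
      mul_mem' := by
        rintro g k ⟨hg, m, n, h1⟩ ⟨hk, m', n', h2⟩
        refine ⟨F.mul_mem hg hk, m' + m, n + n', ?_⟩
        rw [mul_smul, shift k hk _ _ m h2, add_comm n' m]
        exact shift g hg _ _ n' h1
      one_mem' := ⟨F.one_mem, 0, 0, one_smul _ _⟩
      inv_mem' := by
        rintro g ⟨hg, m, n, h1⟩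
        exact ⟨F.inv_mem hg, n, m, by rw [← h1, inv_smul_smul]⟩ }
  have hK : ∀ g, g ∈ K ↔ g ∈ F ∧ ∃ m n, g • vs m = vs n := fun g => Iff.rfl
  refine ⟨K, ?_, ?_⟩
  swap
  · intro g
    rw [hK]
    constructor
    · rintro ⟨hg, m, n, h⟩
      exact ⟨hg, m, n, by rw [hit g hg]; exact h⟩
    · rintro ⟨hg, m, n, h⟩
      refine ⟨hg, m, n, ?_⟩
      rw [hit g hg] at h
      exact h
  by_cases hper : ∃ N k, 1 ≤ k ∧ vs (N + k) = vs N
  · -- the flow line is eventually periodic
    obtain ⟨N, k, hk, hNk⟩ := hper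
    have hσs : ∀ n, vs (n + 1) = σ (vs n) := fun n => Function.iterate_succ_apply' σ n v
    have per1 : ∀ i, vs (N + k + i) = vs (N + i) := by
      intro i
      induction i with
      | zero => exact hNk
      | succ i ih => rw [← add_assoc, hσs, ih, ← hσs, add_assoc]
    have per : ∀ q i, vs (N + k * q + i) = vs (N + i) := by
      intro q
      induction q with
      | zero => intro i; simp
      | succ q ih =>
        intro i
        have e : N + k * (q + 1) + i = N + k + (k * q + i) := by ring
        rw [e, per1, ← add_assoc, ih]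
    obtain ⟨w, -, hw⟩ := C.vgen (vs N)
    have hK0 : (F ⊓ MulAction.stabilizer G (vs N)).FG :=
      fg_of_le_zpowers (w := w) (fun g hg => (hw g).1 hg.2)
    let s : ℕ → G := fun j => if h : ∃ g ∈ K, g • vs N = vs (N + j) then h.choose else 1
    have hs : ∀ j, (∃ g ∈ K, g • vs N = vs (N + j)) → s j ∈ K ∧ s j • vs N = vs (N + j) := by
      intro j h
      have : s j = h.choose := dif_pos h
      rw [this]
      exact h.choose_spec
    have hsK : ∀ j, s j ∈ K := by
      intro j
      by_cases h : ∃ g ∈ K, g • vs N = vs (N + j)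
      · exact (hs j h).1
      · have : s j = 1 := dif_neg h
        rw [this]; exact K.one_mem
    refine fg_of_cosets K (F ⊓ MulAction.stabilizer G (vs N)) ?_ hK0 (s '' (Finset.range k : Set ℕ))
      ((Finset.finite_toSet _).image _) ?_ ?_
    · intro g hg
      exact ⟨hg.1, N, N, hg.2⟩
    · rintro _ ⟨j, -, rfl⟩
      exact hsK j
    · intro f hf
      obtain ⟨hfF, m, n, hmn⟩ := hf
      -- shift so that the source is `vs N`
      have h1 : m ≤ N + k * (m + n) := by
        have : 1 * (m + n) ≤ k * (m + n) := Nat.mul_le_mul_right _ hk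
        omega
      have h2 := shift f hfF m n (N + k * (m + n) - m) hmn
      rw [Nat.add_sub_cancel' h1] at h2
      have h3 : vs (N + k * (m + n)) = vs N := by
        have := per (m + n) 0
        simpa using this
      rw [h3] at h2
      have h4 : N ≤ n + (N + k * (m + n) - m) := by
        have : 1 * (m + n) ≤ k * (m + n) := Nat.mul_le_mul_right _ hk
        omega
      set L := n + (N + k * (m + n) - m) with hL
      have h5 : vs L = vs (N + (L - N) % k) := by
        have e : L = N + k * ((L - N) / k) + (L - N) % k := by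
          have := Nat.div_add_mod (L - N) k
          omega
        conv_lhs => rw [e]
        exact per _ _
      rw [h5] at h2
      have h6 := hs _ ⟨f, ⟨hfF, m, n, hmn⟩, h2⟩
      refine ⟨s ((L - N) % k), ⟨(L - N) % k, ?_, rfl⟩, ?_, ?_⟩
      · rw [Finset.mem_coe, Finset.mem_range]
        exact Nat.mod_lt _ (by omega)
      · exact F.mul_mem (F.inv_mem h6.1.1) hfF
      · show ((s ((L - N) % k))⁻¹ * f) • vs N = vs N
        rw [mul_smul, h2, inv_smul_eq_iff, h6.2]
  · -- the flow line is injective
    push Not at hper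
    have hinj : ∀ m n, vs m = vs n → m = n := by
      intro m n h
      rcases lt_trichotomy m n with h1 | h1 | h1
      · exact absurd (by rw [Nat.add_sub_cancel' h1.le]; exact h.symm) (hper m (n - m) (by omega))
      · exact h1
      · exact absurd (by rw [Nat.add_sub_cancel' h1.le]; exact h) (hper n (m - n) (by omega))
    have huniq : ∀ f ∈ F, ∀ m n m' n', f • vs m = vs n → f • vs m' = vs n' →
        (n : ℤ) - m = n' - m' := by
      intro f hf m n m' n' h h'
      have e1 := shift f hf m n m' h
      have e2 := shift f hf m' n' m h'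
      rw [add_comm m' m, e1] at e2
      have := hinj _ _ e2
      omega
    choose! μ ν hμν using fun g (hg : g ∈ K) => hg.2
    let K0 : Subgroup G :=
      { carrier := {g | g ∈ F ∧ ∃ m, g • vs m = vs m}
        mul_mem' := by
          rintro g k ⟨hg, m, h1⟩ ⟨hk, m', h2⟩
          refine ⟨F.mul_mem hg hk, m' + m, ?_⟩
          rw [mul_smul, shift k hk _ _ m h2, add_comm m' m]
          exact shift g hg _ _ m' h1
        one_mem' := ⟨F.one_mem, 0, one_smul _ _⟩
        inv_mem' := by
          rintro g ⟨hg, m, h1⟩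
          exact ⟨F.inv_mem hg, m, by rw [inv_smul_eq_iff, h1]⟩ }
    have hK0 : K0.FG := by
      refine kernel_fg C ha ha1 hr hDl hVr hrep K0 vs ?_
      rintro x ⟨hx, m, hm⟩
      refine ⟨m, fun n hn => ?_⟩
      have := shift x hx m m (n - m) hm
      rwa [Nat.add_sub_cancel' hn] at this
    refine fg_of_tau K K0 ?_ (fun g => (ν g : ℤ) - μ g) ?_ ?_ hK0
    · rintro g ⟨hg, m, h1⟩
      exact ⟨hg, m, m, h1⟩
    · intro g hg k hk
      have e1 := hμν g hg
      have e2 := hμν k hk
      have e3 := hμν (g * k) (K.mul_mem hg hk)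
      have e4 : (g * k) • vs (μ k + μ g) = vs (ν g + ν k) := by
        rw [mul_smul, shift k hk.1 _ _ (μ g) e2, add_comm (ν k) (μ g)]
        exact shift g hg.1 _ _ (ν k) e1
      have := huniq (g * k) (F.mul_mem hg.1 hk.1) _ _ _ _ e3 e4
      show (ν (g * k) : ℤ) - μ (g * k) = (ν g : ℤ) - μ g + ((ν k : ℤ) - μ k)
      rw [this]; push_cast; ring
    · intro g hg h0
      have e1 := hμν g hg
      have h0' : (ν g : ℤ) - μ g = 0 := h0
      have : ν g = μ g := by omega
      rw [this] at e1
      exact ⟨hg.1, μ g, e1⟩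

end Pool.Agent.R643
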