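import Pool.Agent.R643.GbsMain2

set_option autoImplicit false

/-!
# Special edges, and the main theorem
-/

namespace Pool.Agent.R643

universe u v w

variable {G : Type u} [Group G] {V : Type v} [MulAction G V] {T : SimpleGraph V}

theorem eq_zpowers_of_le {K : Subgroup G} {w : G} (h : K ≤ Subgroup.zpowers w) :
    ∃ z, K = Subgroup.zpowers z := by
  have h1 : IsCyclic (Subgroup.zpowers w) := by infer_instance
  have h2 : IsCyclic K :=
    isCyclic_of_injective (Subgroup.inclusion h) (Subgroup.inclusion_injective h)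
  obtain ⟨z, hz⟩ := h2.exists_generator
  refine ⟨z, le_antisymm ?_ ?_⟩
  · intro k hk
    obtain ⟨q, hq⟩ := hz ⟨k, hk⟩
    exact ⟨q, by simpa using congrArg Subtype.val hq⟩
  · rw [Subgroup.zpowers_le]; exact z.2

/-- The edges `g e` such that `φ(g)⁻¹ g` carries `e` to a given edge form finitely many orbits under
the fixed subgroup. -/
theorem special_fin (C : CycAct T G) {a : G} {va : V} (ha : a • va = va) (ha1 : a ≠ 1) {r : ℚ}
    (hr : r = -1 ∨ (2 ≤ r.den ∧ 2 ≤ (r⁻¹).den)) (hDl : ∀ g : G, ∃ l : ℤ, Dl a g = r ^ l)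
    (φ : G ≃* G) (hφ : ∀ (x : G) (v : V), x • v = v → ∃ u : V, φ x • u = u)
    (b : G → ℚ) (hb1 : ∀ g k, b (g * k) = b g + Dl a g * b k)
    (hb2 : ∀ (x : G) (v : V), x • v = v → b x = mu a x) (κ : ℚ)
    (hκ : ∀ g, b (φ g) = mu a (φ a) * b g + κ * (1 - Dl a g))
    (F : Subgroup G) (hF : ∀ g, g ∈ F ↔ φ g = g) (e1 e2 : V) (hadj : T.Adj e1 e2) (x y : V) :
    ∃ R : Set (V × V), R.Finite ∧ ∀ g : G, ((φ g)⁻¹ * g) • e1 = x → ((φ g)⁻¹ * g) • e2 = y →
      ∃ f ∈ F, (f • g • e1, f • g • e2) ∈ R := by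
  classical
  have hat := C.a_tf ha ha1
  set S : Set G := {g | ((φ g)⁻¹ * g) • e1 = x ∧ ((φ g)⁻¹ * g) • e2 = y} with hS
  rcases S.eq_empty_or_nonempty with hemp | ⟨g1, hg1⟩
  · refine ⟨∅, Set.finite_empty, fun g h1 h2 => ?_⟩
    have : g ∈ S := ⟨h1, h2⟩
    rw [hemp] at this
    exact this.elim
  suffices hsuf : ∃ ι : G → ℤ, (ι '' S).Finite ∧ ∀ g ∈ S, ∀ g' ∈ S, ι g = ι g' →
      ∃ f ∈ F, f • g • e1 = g' • e1 ∧ f • g • e2 = g' • e2 by
    obtain ⟨ι, h1, h2⟩ := hsuf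
    obtain ⟨R, hR, h3⟩ := finite_reps F e1 e2 S ι h1 h2
    exact ⟨R, hR, fun g hg hg' => h3 g ⟨hg, hg'⟩⟩
  set c := (φ g1)⁻¹ * g1 with hc
  obtain ⟨w, -, hw⟩ := C.vgen e1
  obtain ⟨z, hz⟩ := eq_zpowers_of_le (K := MulAction.stabilizer G e1 ⊓ MulAction.stabilizer G e2)
    (w := w) (fun g hg => (hw g).1 hg.1)
  have hzmem : z ∈ MulAction.stabilizer G e1 ⊓ MulAction.stabilizer G e2 := by
    rw [hz]; exact Subgroup.mem_zpowers z
  have hz1 : z • e1 = e1 := hzmem.1
  have hz2 : z • e2 = e2 := hzmem.2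
  have hzne : z ≠ 1 := by
    rintro rfl
    obtain ⟨z', hz'1, hz'2, hz'3⟩ := C.edge e1 e2 hadj
    have : z' ∈ MulAction.stabilizer G e1 ⊓ MulAction.stabilizer G e2 := ⟨hz'2, hz'3⟩
    rw [hz, Subgroup.zpowers_one_eq_bot, Subgroup.mem_bot] at this
    exact hz'1 this
  have hzpow : ∀ k : ℤ, z ^ k • e1 = e1 ∧ z ^ k • e2 = e2 := by
    intro k
    have := (MulAction.stabilizer G e1 ⊓ MulAction.stabilizer G e2).zpow_mem hzmem k
    exact ⟨this.1, this.2⟩
  have hzE := C.inE ha ha1 hz1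
  have hmuz : mu a z ≠ 0 := C.mu_ne ha ha1 hz1 hzne
  have hex : ∀ g ∈ S, ∃ k : ℤ, (φ g)⁻¹ * g = c * z ^ k := by
    intro g hg
    have h1 : c⁻¹ * ((φ g)⁻¹ * g) ∈ MulAction.stabilizer G e1 ⊓ MulAction.stabilizer G e2 := by
      constructor
      · show (c⁻¹ * ((φ g)⁻¹ * g)) • e1 = e1
        rw [mul_smul, hg.1, inv_smul_eq_iff, hg1.1]
      · show (c⁻¹ * ((φ g)⁻¹ * g)) • e2 = e2
        rw [mul_smul, hg.2, inv_smul_eq_iff, hg1.2]
    rw [hz] at h1
    obtain ⟨k, hk⟩ := h1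
    have hk' : z ^ k = c⁻¹ * ((φ g)⁻¹ * g) := hk
    exact ⟨k, by rw [hk', mul_inv_cancel_left]⟩
  choose! kk hkk using hex
  have hDc : Dl a c = 1 := by
    rw [hc, C.Dl_mul ha ha1, C.Dl_inv ha ha1, C.Dl_phi ha ha1 φ hφ,
      inv_mul_cancel₀ (C.Dl_ne ha ha1 g1)]
  -- equal values give the same orbit
  have hsame : ∀ g g' : G, (φ g)⁻¹ * g = (φ g')⁻¹ * g' → g' * g⁻¹ ∈ F := by
    intro g g' h
    rw [hF, map_mul, map_inv]
    have h1 : g = φ g * ((φ g')⁻¹ * g') := by rw [← h, mul_inv_cancel_left]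
    have h2 : g' * g⁻¹ = g' * (φ g * ((φ g')⁻¹ * g'))⁻¹ := by rw [← h1]
    rw [h2]; group
  by_cases hρ : mu a (φ a) = 1
  · refine ⟨kk, ?_, ?_⟩
    · -- finitely many exponents
      obtain ⟨Ψ, hΨ, hΨ'⟩ : ∃ Ψ : Set ℚ, Ψ.Finite ∧ ∀ g ∈ S, (kk g : ℚ) ∈ Ψ := by
        have hrel : ∀ g ∈ S, κ * (1 - Dl a g) + Dl a g * (b c + kk g * mu a z) = 0 := by
          intro g hg
          have h1 : g = φ g * (c * z ^ (kk g)) := by rw [← hkk g hg, mul_inv_cancel_left]
          have h2 : b g = b (φ g * (c * z ^ (kk g))) := by rw [← h1]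
          rw [hb1, hb1, C.Dl_phi ha ha1 φ hφ, hκ, hρ, hDc, hb2 _ e1 (hzpow _).1,
            mu_zpow hat hzE] at h2
          linarith
        by_cases hκ0 : κ = 0
        · refine ⟨{-(b c) / mu a z}, Set.finite_singleton _, fun g hg => ?_⟩
          have h1 := hrel g hg
          rw [hκ0, zero_mul, zero_add] at h1
          have h2 := (mul_eq_zero.1 h1).resolve_left (C.Dl_ne ha ha1 g)
          rw [Set.mem_singleton_iff, eq_div_iff hmuz]
          linarith
        · obtain ⟨M, hM, hM'⟩ := exists_common_denom {b c / κ, mu a z / κ} (Set.toFinite _)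
          refine ⟨(fun q => (κ * (1 - q) - b c) / mu a z) ''
            {q : ℚ | (∃ l : ℤ, q = r ^ l) ∧ ∃ d : ℤ, q * M = d}, (finite_pow hr hM).image _,
            fun g hg => ?_⟩
          have h1 := hrel g hg
          have hD := C.Dl_ne ha ha1 g
          have h2 : b c + kk g * mu a z = κ * (1 - (Dl a g)⁻¹) := by
            field_simp
            linarith
          refine ⟨(Dl a g)⁻¹, ⟨?_, ?_⟩, ?_⟩
          · obtain ⟨l, hl⟩ := hDl g
            exact ⟨-l, by rw [hl, zpow_neg]⟩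
          · obtain ⟨d1, hd1⟩ := hM' (b c / κ) (by simp)
            obtain ⟨d2, hd2⟩ := hM' (mu a z / κ) (by simp)
            refine ⟨M - d1 - kk g * d2, ?_⟩
            push_cast
            rw [← hd1, ← hd2]
            have h3 : (Dl a g)⁻¹ = 1 - (b c + kk g * mu a z) / κ := by
              rw [h2]; field_simp; ring
            rw [h3]; field_simp; ring
          · show (κ * (1 - (Dl a g)⁻¹) - b c) / mu a z = kk g
            rw [← h2]; field_simp; ring
      apply Set.Finite.of_finite_image (f := fun k : ℤ => (k : ℚ))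
      · refine hΨ.subset ?_
        rintro _ ⟨_, ⟨g, hg, rfl⟩, rfl⟩
        exact hΨ' g hg
      · exact (Int.cast_injective).injOn
    · intro g hg g' hg' h
      refine ⟨g' * g⁻¹, hsame g g' (by rw [hkk g hg, hkk g' hg', h]), ?_, ?_⟩
      · rw [mul_smul, inv_smul_smul]
      · rw [mul_smul, inv_smul_smul]
  · -- `φ(z)` and `z` are commensurable with a ratio different from one
    obtain ⟨u, hu⟩ := hφ z e1 hz1
    have hu' : (c⁻¹ * φ z * c) • c⁻¹ • u = c⁻¹ • u := by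
      simp only [mul_smul, smul_inv_smul, hu]
    have hne : c⁻¹ * φ z * c ≠ 1 := by
      intro h
      have h2 : φ z = 1 := by
        have := congrArg (fun t => c * t * c⁻¹) h
        simpa [mul_assoc] using this
      exact hzne (by simpa using h2)
    obtain ⟨J, J', hJ, hJ', hJJ⟩ := C.comm_ell hu' hz1 hne hzne
    have hmu1 : mu a (c⁻¹ * φ z * c) = mu a (φ a) * mu a z := by
      have h1 := C.mu_conj ha ha1 (C.inE ha ha1 hu) c⁻¹
      rw [inv_inv, C.Dl_inv ha ha1, hDc, inv_one, one_mul] at h1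
      rw [h1, C.mu_phi ha ha1 φ hφ hzE]
    have hL : (J : ℚ) * mu a (φ a) = J' := by
      have h1 := mu_zpow hat (C.inE ha ha1 hu') J
      have h2 := mu_zpow hat hzE J'
      rw [hJJ, h2, hmu1] at h1
      apply mul_right_cancel₀ hmuz
      rw [h1]; ring
    have hL0 : J - J' ≠ 0 := by
      intro h0
      have h1 : J' = J := by omega
      rw [h1] at hL
      have h2 : (J : ℚ) ≠ 0 := by exact_mod_cast hJ
      apply hρ
      have : (J : ℚ) * mu a (φ a) = J * 1 := by rw [hL, mul_one]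
      exact mul_left_cancel₀ h2 this
    refine ⟨fun g => kk g % (J - J'), ?_, ?_⟩
    · refine (Set.finite_Icc (0 : ℤ) |J - J'|).subset ?_
      rintro _ ⟨g, -, rfl⟩
      exact ⟨Int.emod_nonneg _ hL0, (Int.emod_lt_abs _ hL0).le⟩
    · intro g hg g' hg' h
      obtain ⟨i, hi⟩ : ∃ i, kk g' = kk g + (J - J') * i := by
        have h' : kk g % (J - J') = kk g' % (J - J') := h
        obtain ⟨i, hi⟩ := Int.ModEq.dvd (show kk g ≡ kk g' [ZMOD (J - J')] from h')
        exact ⟨i, by linarith⟩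
      have hφz : (φ z) ^ J = c * z ^ J' * c⁻¹ := by
        rw [← hJJ]
        have := conj_zpow (i := J) (a := c⁻¹) (b := φ z)
        rw [inv_inv] at this
        rw [this]; group
      have hφz2 : φ (z ^ (J * i)) = c * z ^ (J' * i) * c⁻¹ := by
        rw [map_zpow, zpow_mul, hφz, conj_zpow, ← zpow_mul]
      have hkey : (φ (g * z ^ (J * i)))⁻¹ * (g * z ^ (J * i)) = (φ g')⁻¹ * g' := by
        have e1 : (φ (g * z ^ (J * i)))⁻¹ * (g * z ^ (J * i)) =
            (φ (z ^ (J * i)))⁻¹ * ((φ g)⁻¹ * g) * z ^ (J * i) := by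
          rw [map_mul]; group
        rw [e1, hkk g hg, hkk g' hg', hφz2, hi]
        have e2 : (c * z ^ (J' * i) * c⁻¹)⁻¹ * (c * z ^ kk g) * z ^ (J * i) =
            c * (z ^ (-(J' * i)) * z ^ kk g * z ^ (J * i)) := by
          rw [zpow_neg]; group
        rw [e2, ← zpow_add, ← zpow_add]
        congr 2
        ring
      refine ⟨g' * (g * z ^ (J * i))⁻¹, hsame _ _ hkey, ?_, ?_⟩
      · rw [mul_inv_rev, mul_smul, mul_smul, inv_smul_smul, inv_smul_eq_iff.2 (hzpow _).1.symm]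
      · rw [mul_inv_rev, mul_smul, mul_smul, inv_smul_smul, inv_smul_eq_iff.2 (hzpow _).2.symm]

end Pool.Agent.R643
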