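import Pool.Agent.R643.GTree

set_option autoImplicit false

/-!
# Hyperbolic isometries of trees
-/

namespace Pool.Agent.R643

universe u v w

/-- An action by isometries on a space with the four point condition and medians. -/
structure IsoAct {K : Type u} [CommRing K] [LinearOrder K] {X : Type v} (d : X → X → K)
    (G : Type w) [Group G] [MulAction G X] : Prop where
  zh : ZH d
  iso : ∀ (g : G) (x y : X), d (g • x) (g • y) = d x y

namespace IsoAct

variable {K : Type u} [CommRing K] [LinearOrder K] {X : Type v}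
  {d : X → X → K} {G : Type w} [Group G] [MulAction G X]

theorem inv_right (A : IsoAct d G) (g : G) (x y : X) : d x (g⁻¹ • y) = d (g • x) y := by
  have := A.iso g x (g⁻¹ • y)
  rw [smul_inv_smul] at this
  exact this.symm

theorem inv_left (A : IsoAct d G) (g : G) (x y : X) : d (g⁻¹ • x) y = d x (g • y) := by
  have := A.iso g (g⁻¹ • x) y
  rw [smul_inv_smul] at this
  exact this.symm

variable [IsStrictOrderedRing K] (A : IsoAct d G)

include A

/-- an isometry whose square has no fixed point is hyperbolic -/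
theorem hyp {g : G} (hg : ∀ x : X, g • g • x ≠ x) (x : X) : d x (g • x) < d x (g • g • x) := by
  have h := A.zh
  by_contra hcon
  push Not at hcon
  obtain ⟨m, h1, h2, h3⟩ := h.med (g • x) x (g • g • x)
  have e1 : d (g • x) x = d x (g • x) := h.symm _ _
  have e2 : d (g • x) (g • g • x) = d x (g • x) := A.iso g _ _
  have e3 : d m x = d x m := h.symm _ _
  have e4 : d (g • x) m = d m (g • x) := h.symm _ _
  have e5 : d m (g • g • x) = d (g • g • x) m := h.symm _ _
  have u1 : d (g • x) (g⁻¹ • m) = d (g • g • x) m := A.inv_right g _ _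
  have u2 : d (g⁻¹ • m) x = d m (g • x) := A.inv_left g _ _
  have v1 : d (g • x) (g • m) = d x m := A.iso g _ _
  have v2 : d (g • m) (g • g • x) = d m (g • x) := A.iso g _ _
  have w1 : d (g⁻¹ • m) m = d (g • x) m - d (g • x) (g⁻¹ • m) :=
    h.lin (y := x) (by linarith) (by linarith) (by linarith)
  have w2 : d (g • m) m = d (g • x) m - d (g • x) (g • m) :=
    h.lin (y := g • g • x) (by linarith) (by linarith) (by linarith)
  have huv : g⁻¹ • m = g • m :=
    h.uniq (x := g • x) (y := m) (by linarith) (by linarith) (by linarith)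
  apply hg m
  rw [← huv, smul_inv_smul]

theorem hyp_pos {g : G} (hg : ∀ x : X, g • g • x ≠ x) (x : X) : 0 < d x (g • x) := by
  apply A.zh.pos
  intro h
  apply hg x
  rw [← h, ← h]

/-- distances along the orbit of a point -/
theorem orbit {g : G} (hg : ∀ x : X, g • g • x ≠ x) (x : X) (k : ℕ) :
    d x (g ^ (k + 1) • x) = d x (g • x) + k * (d x (g • g • x) - d x (g • x)) := by
  have h := A.zh
  have hl := A.hyp hg x
  induction k using Nat.strong_induction_on with
  | _ k ih =>
    match k, ih with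
    | 0, _ => simp
    | 1, _ =>
      have : g ^ (1 + 1) • x = g • g • x := by rw [pow_succ, pow_one, mul_smul]
      rw [this]; push_cast; ring
    | k + 2, ih =>
      have i1 := ih (k + 1) (by omega)
      have i0 := ih k (by omega)
      have p0 : d (g • x) (g ^ (k + 1 + 1) • x) = d x (g ^ (k + 1) • x) := by
        rw [pow_succ' g (k + 1), mul_smul]; exact A.iso g _ _
      have p1 : d (g • x) (g ^ (k + 2 + 1) • x) = d x (g ^ (k + 1 + 1) • x) := by
        rw [pow_succ' g (k + 2), mul_smul]; exact A.iso g _ _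
      have p2 : d (g ^ (k + 1 + 1) • x) (g ^ (k + 2 + 1) • x) = d x (g • x) := by
        rw [show g ^ (k + 2 + 1) • x = g ^ (k + 1 + 1) • g • x by
          rw [← mul_smul, ← pow_succ]]
        exact A.iso _ _ _
      have s1 := h.symm (g ^ (k + 1 + 1) • x) (g • x)
      have s2 := h.symm (g ^ (k + 2 + 1) • x) (g • x)
      have s3 := h.symm (g ^ (k + 2 + 1) • x) (g ^ (k + 1 + 1) • x)
      have f1 := h.fp x (g ^ (k + 1 + 1) • x) (g • x) (g ^ (k + 2 + 1) • x)
      have f2 := h.fp x (g ^ (k + 2 + 1) • x) (g • x) (g ^ (k + 1 + 1) • x)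
      have hk : (0 : K) ≤ k := Nat.cast_nonneg k
      have hkl : (0 : K) ≤ k * (d x (g • g • x) - d x (g • x)) :=
        mul_nonneg hk (by linarith)
      have i1' : d x (g ^ (k + 1 + 1) • x) = d x (g • x) +
          (k * (d x (g • g • x) - d x (g • x)) + (d x (g • g • x) - d x (g • x))) := by
        rw [i1]; push_cast; ring
      have goal' : d x (g ^ (k + 2 + 1) • x) = d x (g • x) +
          (k * (d x (g • g • x) - d x (g • x)) + 2 * (d x (g • g • x) - d x (g • x))) := by
        rcases le_max_iff.1 f1 with f1 | f1 <;> rcases le_max_iff.1 f2 with f2 | f2 <;>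
          linarith
      rw [goal']; push_cast; ring

/-- powers of hyperbolic isometries have no fixed points -/
theorem pow_ne {g : G} (hg : ∀ x : X, g • g • x ≠ x) {k : ℕ} (hk : k ≠ 0) (x : X) :
    g ^ k • x ≠ x := by
  obtain ⟨m, rfl⟩ : ∃ m, k = m + 1 := ⟨k - 1, by omega⟩
  intro h
  have h1 := A.orbit hg x m
  rw [h, A.zh.self] at h1
  have h2 := A.hyp hg x
  have h3 := A.hyp_pos hg x
  have h4 : (0 : K) ≤ m * (d x (g • g • x) - d x (g • x)) :=
    mul_nonneg (Nat.cast_nonneg m) (by linarith)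
  linarith

/-- distances along the axis -/
theorem orbit_axis {g : G} (hg : ∀ x : X, g • g • x ≠ x) {x : X}
    (hx : d x (g • g • x) = 2 * d x (g • x)) (k : ℕ) : d x (g ^ k • x) = k * d x (g • x) := by
  cases k with
  | zero => simp [A.zh.self]
  | succ k => rw [A.orbit hg x k, hx]; push_cast; ring

theorem pow_axis {g : G} (hg : ∀ x : X, g • g • x ≠ x) {x : X}
    (hx : d x (g • g • x) = 2 * d x (g • x)) (k : ℕ) :
    d x (g ^ k • g ^ k • x) = 2 * d x (g ^ k • x) := by
  rw [← mul_smul, ← pow_add, A.orbit_axis hg hx, A.orbit_axis hg hx]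
  push_cast; ring

theorem axis_of_pow {g : G} (hg : ∀ x : X, g • g • x ≠ x) {n : ℕ} (hn : n ≠ 0) {x : X}
    (hx : d x (g ^ n • g ^ n • x) = 2 * d x (g ^ n • x)) :
    d x (g • g • x) = 2 * d x (g • x) := by
  obtain ⟨m, rfl⟩ : ∃ m, n = m + 1 := ⟨n - 1, by omega⟩
  have h2 := A.orbit hg x m
  have h3 := A.orbit hg x (2 * m + 1)
  have h4 : g ^ (2 * m + 1 + 1) • x = g ^ (m + 1) • g ^ (m + 1) • x := by
    rw [← mul_smul, ← pow_add]; congr 2; ring
  rw [h4, hx, h2] at h3
  push_cast at h3
  linarith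

theorem axis_inv {g : G} {x : X} (hx : d x (g • g • x) = 2 * d x (g • x)) :
    d x (g⁻¹ • g⁻¹ • x) = 2 * d x (g⁻¹ • x) := by
  rw [A.inv_right, A.inv_right, A.inv_right, A.zh.symm (g • g • x), A.zh.symm (g • x), hx]

theorem axis_nonempty {g : G} (hg : ∀ x : X, g • g • x ≠ x) (x : X) :
    ∃ p, d p (g • g • p) = 2 * d p (g • p) := by
  have h := A.zh
  have hl := A.hyp hg x
  obtain ⟨p, h1, h2, h3⟩ := h.med x (g • x) (g⁻¹ • x)
  have e1 : d x (g⁻¹ • x) = d x (g • x) := by rw [A.inv_right, h.symm]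
  have e2 : d (g • x) (g⁻¹ • x) = d x (g • g • x) := by rw [A.inv_right, h.symm]
  have e3 : d (g • x) p = d p (g • x) := h.symm _ _
  have g1 : d (g • p) (g • x) = d p x := A.iso _ _ _
  have g2 : d x (g • p) = d p (g⁻¹ • x) := by
    rw [A.inv_right g p x, h.symm]
  have e4 : d p x = d x p := h.symm _ _
  have l1 : d p (g • p) = d x (g • p) - d x p :=
    h.lin (y := g • x) (by linarith) (by linarith) (by linarith)
  have i1 : d (g⁻¹ • p) p = d p (g • p) := A.inv_left _ _ _
  have i2 : d (g⁻¹ • p) (g⁻¹ • x) = d p x := A.iso _ _ _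
  have i3 : d (g⁻¹ • p) (g • p) = d p (g • g • p) := A.inv_left _ _ _
  have t1 := h.tri (g⁻¹ • x) (g⁻¹ • p) (g • x)
  have t2 := h.tri (g⁻¹ • p) (g • p) (g • x)
  have t3 := h.tri (g⁻¹ • p) p (g • p)
  have e5 := h.symm (g⁻¹ • x) (g⁻¹ • p)
  have e6 := h.symm (g⁻¹ • x) (g • x)
  exact ⟨p, by linarith⟩

end IsoAct

end Pool.Agent.R643
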