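import Pool.Agent.R643.Iso
import Pool.Agent.R643.Fg

set_option autoImplicit false

/-!
# Actions on trees that preserve a line

If a hyperbolic element is commensurated by the group and the vertex stabilisers are cyclic, then
every subgroup is finitely generated.
-/

namespace Pool.Agent.R643

universe u v w

variable {G : Type u} [Group G] {V : Type v} [MulAction G V] {T : SimpleGraph V}

theorem isoAct_of_adj (hT : T.IsTree) (hadj : ∀ (g : G) (u v : V), T.Adj u v → T.Adj (g • u) (g • v)) :
    IsoAct (dz T) G where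
  zh := dz_zh hT
  iso := by
    have hle : ∀ (g : G) (x y : V), T.dist (g • x) (g • y) ≤ T.dist x y := by
      intro g x y
      obtain ⟨p, hp⟩ := hT.connected.exists_walk_length_eq_dist x y
      let φ : T →g T := ⟨fun v => g • v, fun {a b} h => hadj g a b h⟩
      have := SimpleGraph.dist_le (p.map φ)
      rw [SimpleGraph.Walk.length_map, hp] at this
      exact this
    intro g x y
    unfold dz
    have h1 := hle g x y
    have h2 := hle g⁻¹ (g • x) (g • y)
    rw [inv_smul_smul, inv_smul_smul] at h2
    exact_mod_cast le_antisymm h1 h2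

/-- a subgroup of a cyclic subgroup is finitely generated -/
theorem fg_of_le_zpowers {K : Subgroup G} {w : G} (h : K ≤ Subgroup.zpowers w) : K.FG := by
  have h1 : IsCyclic (Subgroup.zpowers w) := by infer_instance
  have h2 : IsCyclic K :=
    isCyclic_of_injective (Subgroup.inclusion h) (Subgroup.inclusion_injective h)
  obtain ⟨z, hz⟩ := h2.exists_generator
  have : K = Subgroup.zpowers (z : G) := by
    apply le_antisymm
    · intro k hk
      obtain ⟨q, hq⟩ := hz ⟨k, hk⟩
      exact ⟨q, by simpa using congrArg Subtype.val hq⟩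
    · rw [Subgroup.zpowers_le]; exact z.2
  rw [this]
  exact zpowers_fg _

/-- an automorphism of a tree without inversions either fixes a vertex or is hyperbolic -/
theorem fix_or_hyp (hT : T.IsTree) (A : IsoAct (dz T) G)
    (hinv : ∀ (g : G) (u v : V), T.Adj u v → ¬ (g • u = v ∧ g • v = u)) (g : G) :
    (∃ v : V, g • v = v) ∨ ∀ x : V, g • g • x ≠ x := by
  by_contra hcon
  push Not at hcon
  obtain ⟨h1, x, hx⟩ := hcon
  have h := A.zh
  have hsy : ∀ a b, dz T a b = dz T b a := h.symm
  rcases Nat.even_or_odd' (T.dist x (g • x)) with ⟨k, hk | hk⟩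
  · obtain ⟨p, hp1, hp2⟩ := exists_between hT x (g • x) (k := k) (by omega)
    have a1 : dz T x p = k := by unfold dz; exact_mod_cast hp1
    have a2 : dz T p (g • x) = k := by unfold dz; rw [hp2, hk]; congr 1; omega
    have a3 : dz T x (g • x) = 2 * k := by unfold dz; rw [hk]; push_cast; ring
    have b1 : dz T (g • p) (g • x) = k := by rw [A.iso, hsy, a1]
    have b2 : dz T x (g • p) = k := by
      have := A.iso g p (g • x)
      rw [hx] at this
      rw [hsy, this, a2]
    exact h1 p (h.uniq (x := x) (y := g • x) (p := g • p) (q := p) (by linarith) (by linarith)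
      (by linarith))
  · obtain ⟨p, hp1, hp2⟩ := exists_between hT x (g • x) (k := k) (by omega)
    obtain ⟨q, hq1, hq2⟩ := exists_between hT x (g • x) (k := k + 1) (by omega)
    have a1 : dz T x p = k := by unfold dz; exact_mod_cast hp1
    have a2 : dz T p (g • x) = k + 1 := by
      unfold dz; rw [hp2, hk]
      have : 2 * k + 1 - k = k + 1 := by omega
      rw [this]; push_cast; ring
    have a3 : dz T x (g • x) = 2 * k + 1 := by unfold dz; rw [hk]; push_cast; ring
    have c1 : dz T x q = k + 1 := by unfold dz; rw [hq1]; push_cast; ring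
    have c2 : dz T q (g • x) = k := by
      unfold dz; rw [hq2, hk]
      have : 2 * k + 1 - (k + 1) = k := by omega
      rw [this]
    have pq : T.Adj p q := by
      rw [← dz_adj, h.lin (x := x) (y := g • x) (by linarith) (by linarith) (by linarith), a1, c1]
      ring
    have b1 : dz T (g • p) (g • x) = k := by rw [A.iso, hsy, a1]
    have b2 : dz T x (g • p) = k + 1 := by
      have := A.iso g p (g • x)
      rw [hx] at this
      rw [hsy, this, a2]
    have b3 : dz T (g • q) (g • x) = k + 1 := by rw [A.iso, hsy, c1]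
    have b4 : dz T x (g • q) = k := by
      have := A.iso g q (g • x)
      rw [hx] at this
      rw [hsy, this, c2]
    exact hinv g p q pq ⟨h.uniq (x := x) (y := g • x) (by linarith) (by linarith) (by linarith),
      h.uniq (x := x) (y := g • x) (by linarith) (by linarith) (by linarith)⟩

/-- if a nonzero power fixes a vertex, then so does the element -/
theorem fix_of_zpow (hT : T.IsTree) (A : IsoAct (dz T) G)
    (hinv : ∀ (g : G) (u v : V), T.Adj u v → ¬ (g • u = v ∧ g • v = u)) {g : G} {n : ℤ}
    (hn : n ≠ 0) {x : V} (hx : g ^ n • x = x) : ∃ v : V, g • v = v := by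
  rcases fix_or_hyp hT A hinv g with h | h
  · exact h
  exfalso
  obtain ⟨k, rfl | rfl⟩ := n.eq_nat_or_neg
  · rw [zpow_natCast] at hx
    exact A.pow_ne h (by omega) x hx
  · rw [zpow_neg, zpow_natCast, inv_smul_eq_iff] at hx
    exact A.pow_ne h (by omega) x hx.symm

section Axis

variable (A : IsoAct (dz T) G)

include A

/-- points of the axis lie between far away translates of another point of the axis -/
theorem between_translates {y : G} (hy : ∀ x : V, y • y • x ≠ x) {x z : V}
    (hz : dz T z (y • y • z) = 2 * dz T z (y • z)) {k : ℕ} (hk : dz T z x < k) :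
    dz T (y⁻¹ ^ k • x) (y ^ k • x) = dz T (y⁻¹ ^ k • x) z + dz T z (y ^ k • x) := by
  have h := A.zh
  have hl := A.hyp_pos hy z
  have hk0 := h.nn z x
  have p1 : dz T z (y ^ k • z) = k * dz T z (y • z) := A.orbit_axis hy hz k
  have p2 : dz T z (y⁻¹ ^ k • z) = k * dz T z (y • z) := by
    rw [inv_pow, A.inv_right, h.symm, p1]
  have p3 : dz T (y⁻¹ ^ k • z) (y ^ k • z) = dz T (y⁻¹ ^ k • z) z + dz T z (y ^ k • z) := by
    have e1 : dz T (y⁻¹ ^ k • z) (y ^ k • z) = dz T z (y ^ k • y ^ k • z) := by
      rw [inv_pow, A.inv_left]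
    have e2 := A.pow_axis hy hz k
    rw [e1, e2, h.symm (y⁻¹ ^ k • z), p2, p1]; ring
  have q1 : dz T (y ^ k • z) (y ^ k • x) = dz T z x := A.iso _ _ _
  have q2 : dz T (y⁻¹ ^ k • z) (y⁻¹ ^ k • x) = dz T z x := A.iso _ _ _
  have hkl : dz T z x < k * dz T z (y • z) := by
    have : (k : ℤ) * 1 ≤ k * dz T z (y • z) := mul_le_mul_of_nonneg_left hl (by omega)
    linarith
  set P := y⁻¹ ^ k • z
  set Q := y ^ k • z
  set P' := y⁻¹ ^ k • x
  set Q' := y ^ k • x
  have hsy : ∀ a b, dz T a b = dz T b a := h.symm
  have tr : ∀ a b c : V, dz T a b < dz T a z + dz T z b → dz T b c < dz T b z + dz T z c →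
      dz T a c < dz T a z + dz T z c := by
    intro a b c h1 h2
    have h3 := h.fp a c b z
    have e1 := hsy c z
    have e2 := hsy c b
    have e3 := hsy z b
    rcases le_max_iff.1 h3 with h3 | h3 <;> linarith
  apply le_antisymm (h.tri _ _ _)
  by_contra hcon
  push Not at hcon
  have n1 := h.nn P' z
  have n2 := h.nn z Q'
  have e1 := hsy P z
  have s1 : dz T P P' < dz T P z + dz T z P' := by
    have := hsy P' z
    linarith
  have s2 : dz T Q' Q < dz T Q' z + dz T z Q := by
    have := hsy Q' z
    have := hsy Q Q'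
    linarith
  have s3 := tr _ _ _ (tr _ _ _ s1 hcon) s2
  linarith

/-- A hyperbolic element that is commensurated by the whole group forces every subgroup to be
finitely generated, if the vertex stabilisers are cyclic. -/
theorem fg_of_commensurated_hyp {y : G} (hy : ∀ x : V, y • y • x ≠ x) [Nonempty V]
    (hcom : ∀ g : G, ∃ m n : ℤ, m ≠ 0 ∧ n ≠ 0 ∧ g * y ^ m * g⁻¹ = y ^ n)
    (hst : ∀ v : V, ∃ w : G, ∀ g : G, g • v = v → g ∈ Subgroup.zpowers w)
    (F : Subgroup G) : F.FG := by
  have h := A.zh
  obtain ⟨v0⟩ := ‹Nonempty V›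
  let Ax : V → Prop := fun x => dz T x (y • y • x) = 2 * dz T x (y • x)
  obtain ⟨x0, hx0⟩ : ∃ x0, Ax x0 := A.axis_nonempty hy v0
  have hyinv : ∀ x : V, y⁻¹ • y⁻¹ • x ≠ x := by
    intro x hx
    apply hy x
    rw [inv_smul_eq_iff, inv_smul_eq_iff] at hx
    exact hx.symm
  -- the axis of a power
  have axpow : ∀ (n : ℤ), n ≠ 0 → ∀ x, Ax x ↔
      dz T x (y ^ n • y ^ n • x) = 2 * dz T x (y ^ n • x) := by
    intro n hn x
    obtain ⟨k, rfl | rfl⟩ := n.eq_nat_or_neg
    · rw [zpow_natCast]
      exact ⟨fun hx => A.pow_axis hy hx k, fun hx => A.axis_of_pow hy (by omega) hx⟩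
    · rw [zpow_neg, zpow_natCast, ← inv_pow]
      constructor
      · intro hx
        exact A.pow_axis hyinv (A.axis_inv hx) k
      · intro hx
        have := A.axis_inv (A.axis_of_pow hyinv (by omega) hx)
        rwa [inv_inv] at this
  -- the axis is preserved
  have axinv : ∀ (g : G) (x : V), Ax x → Ax (g • x) := by
    intro g x hx
    obtain ⟨m, n, hm, hn, hmn⟩ := hcom g
    rw [axpow m hm] at hx
    rw [axpow n hn, ← hmn]
    have e1 : (g * y ^ m * g⁻¹) • g • x = g • y ^ m • x := by
      simp only [mul_smul, inv_smul_smul]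
    have e2 : (g * y ^ m * g⁻¹) • g • y ^ m • x = g • y ^ m • y ^ m • x := by
      simp only [mul_smul, inv_smul_smul]
    rw [e1, e2, A.iso, A.iso]
    exact hx
  -- the coordinate
  let l := dz T x0 (y • x0)
  have hl : 0 < l := A.hyp_pos hy x0
  let κ : V → ℕ := fun z => (dz T z x0).toNat + 1
  have hκ : ∀ z, dz T z x0 < κ z := by
    intro z
    have := h.nn z x0
    show dz T z x0 < (((dz T z x0).toNat + 1 : ℕ) : ℤ)
    push_cast
    rw [Int.toNat_of_nonneg this]; omega
  let c : V → ℤ := fun z => dz T (y⁻¹ ^ (κ z) • x0) z - κ z * l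
  have step : ∀ z, Ax z → ∀ k : ℕ, dz T z x0 < k →
      dz T (y⁻¹ ^ (k + 1) • x0) z = dz T (y⁻¹ ^ k • x0) z + l := by
    intro z hz k hk
    have b1 := between_translates A hy hz (x := x0) hk
    have b2 : dz T (y⁻¹ ^ (k + 1) • x0) (y ^ k • x0) = (2 * k + 1) * l := by
      rw [inv_pow, A.inv_left, ← mul_smul, ← pow_add, A.orbit_axis hy hx0]
      push_cast; ring
    have b3 : dz T (y⁻¹ ^ k • x0) (y ^ k • x0) = (2 * k) * l := by
      rw [inv_pow, A.inv_left, ← mul_smul, ← pow_add, A.orbit_axis hy hx0]
      push_cast; ring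
    have b4 : dz T (y⁻¹ ^ (k + 1) • x0) (y⁻¹ ^ k • x0) = l := by
      rw [pow_succ, mul_smul, A.iso, A.inv_left]
    have t1 := h.tri (y⁻¹ ^ (k + 1) • x0) (y⁻¹ ^ k • x0) z
    have t2 := h.tri (y⁻¹ ^ (k + 1) • x0) z (y ^ k • x0)
    have e : (2 * (k : ℤ) + 1) * l = 2 * k * l + l := by ring
    linarith
  have hc : ∀ z, Ax z → ∀ k : ℕ, κ z ≤ k → c z = dz T (y⁻¹ ^ k • x0) z - k * l := by
    intro z hz k hk
    induction k, hk using Nat.le_induction with
    | base => rfl
    | succ k hk ih =>
      rw [ih, step z hz k (lt_of_lt_of_le (hκ z) (by exact_mod_cast hk))]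
      push_cast; ring
  have hciso : ∀ z w, Ax z → Ax w → dz T z w = |c z - c w| := by
    intro z w hz hw
    set k := max (κ z) (κ w) with hk
    have k1 : κ z ≤ k := le_max_left _ _
    have k2 : κ w ≤ k := le_max_right _ _
    rw [hc z hz k k1, hc w hw k k2]
    have b1 := between_translates A hy hz (x := x0) (k := k)
      (lt_of_lt_of_le (hκ z) (by exact_mod_cast k1))
    have b2 := between_translates A hy hw (x := x0) (k := k)
      (lt_of_lt_of_le (hκ w) (by exact_mod_cast k2))
    have e : dz T (y⁻¹ ^ k • x0) z - k * l - (dz T (y⁻¹ ^ k • x0) w - k * l) =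
      dz T (y⁻¹ ^ k • x0) z - dz T (y⁻¹ ^ k • x0) w := by ring
    rw [e]
    rcases le_total (dz T (y⁻¹ ^ k • x0) z) (dz T (y⁻¹ ^ k • x0) w) with hle | hle
    · rw [h.lin b1.symm b2.symm hle, abs_of_nonpos (by linarith)]; ring
    · rw [h.symm z w, h.lin b2.symm b1.symm hle, abs_of_nonneg (by linarith)]
  have c0 : c x0 = 0 := by
    rw [hc x0 hx0 (κ x0) le_rfl]
    rw [inv_pow, A.inv_left, A.orbit_axis hy hx0]
    ring
  have hyx0 : Ax (y • x0) := axinv y x0 hx0
  have c1 : c (y • x0) ≠ 0 := by
    intro h0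
    have := hciso x0 (y • x0) hx0 hyx0
    rw [c0, h0, sub_self, abs_zero] at this
    omega
  -- isometries preserve or reverse the coordinate
  have dich : ∀ g : G, (∀ z, Ax z → c (g • z) = c (g • x0) + c z) ∨
      (∀ z, Ax z → c (g • z) = c (g • x0) - c z) := by
    intro g
    have hpm : ∀ z, Ax z → c (g • z) = c (g • x0) + c z ∨ c (g • z) = c (g • x0) - c z := by
      intro z hz
      have e1 := hciso (g • z) (g • x0) (axinv g z hz) (axinv g x0 hx0)
      rw [A.iso, hciso z x0 hz hx0, c0, sub_zero] at e1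
      rcases abs_eq_abs.1 e1 with e | e
      · left; linarith
      · right; linarith
    rcases hpm (y • x0) hyx0 with h1 | h1
    · left
      intro z hz
      rcases hpm z hz with h2 | h2
      · exact h2
      · have e1 := hciso (g • z) (g • y • x0) (axinv g z hz) (axinv g _ hyx0)
        rw [A.iso, hciso z (y • x0) hz hyx0, h1, h2] at e1
        rcases abs_eq_abs.1 e1 with e | e
        · have : c z = 0 := by linarith
          rw [h2, this]; ring
        · exact absurd (by linarith) c1
    · right
      intro z hz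
      rcases hpm z hz with h2 | h2
      · have e1 := hciso (g • z) (g • y • x0) (axinv g z hz) (axinv g _ hyx0)
        rw [A.iso, hciso z (y • x0) hz hyx0, h1, h2] at e1
        rcases abs_eq_abs.1 e1 with e | e
        · exact absurd (by linarith) c1
        · have : c z = 0 := by linarith
          rw [h2, this]; ring
      · exact h2
  -- the orientation preserving subgroup
  let N : Subgroup G :=
    { carrier := {g | ∀ z, Ax z → c (g • z) = c (g • x0) + c z}
      mul_mem' := by
        intro a b ha hb z hz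
        rw [mul_smul, mul_smul, ha _ (axinv b z hz), hb z hz, ha _ (axinv b x0 hx0)]
        ring
      one_mem' := by
        intro z hz
        rw [one_smul, one_smul, c0, zero_add]
      inv_mem' := by
        intro a ha z hz
        have e1 := ha _ (axinv a⁻¹ z hz)
        have e2 := ha _ (axinv a⁻¹ x0 hx0)
        rw [smul_inv_smul] at e1 e2
        rw [c0] at e2
        linarith }
  have hN : ∀ a b : G, a ∉ N → b ∉ N → a * b ∈ N := by
    intro a b ha hb z hz
    have ha' := (dich a).resolve_left ha
    have hb' := (dich b).resolve_left hb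
    rw [mul_smul, mul_smul, ha' _ (axinv b z hz), hb' z hz, ha' _ (axinv b x0 hx0)]
    ring
  obtain ⟨w, hw⟩ := hst x0
  have hF1 : (F ⊓ N).FG := by
    refine fg_of_tau (F ⊓ N) (F ⊓ N ⊓ MulAction.stabilizer G x0) inf_le_left
      (fun g => c (g • x0)) ?_ ?_ ?_
    · intro g hg k hk
      show c ((g * k) • x0) = _
      rw [mul_smul]
      exact hg.2 _ (axinv k x0 hx0)
    · intro g hg hg0
      refine ⟨hg, ?_⟩
      show g • x0 = x0
      apply h.eq_of
      rw [hciso _ _ (axinv g x0 hx0) hx0, c0]
      have : c (g • x0) = 0 := hg0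
      rw [this]; simp
    · exact fg_of_le_zpowers (w := w) (fun g hg => hw g hg.2)
  by_cases hcase : F ≤ N
  · rwa [inf_eq_left.2 hcase] at hF1
  · obtain ⟨k, hkF, hkN⟩ := Set.not_subset.1 hcase
    refine fg_of_cosets F (F ⊓ N) inf_le_left hF1 {1, k} (by simp) ?_ ?_
    · rintro s (rfl | rfl)
      · exact F.one_mem
      · exact hkF
    · intro f hf
      by_cases hfN : f ∈ N
      · exact ⟨1, by simp, by simpa using ⟨hf, hfN⟩⟩
      · refine ⟨k, by simp, F.mul_mem (F.inv_mem hkF) hf, hN _ _ ?_ hfN⟩
        intro hcon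
        exact hkN (by simpa using N.inv_mem hcon)

end Axis

end Pool.Agent.R643
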