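import Mathlib
import Pool.Agent.R643.CGPerm

/-!
The group of locally constant functions on the Cantor set, with the metric of convergence in
measure: coarsely bounded, but not amenable if the target group is a free group.
-/

set_option linter.unusedSectionVars false

open Set Filter Topology

namespace Pool.Agent.R643.OB

open Pool.Agent.R643.CG

/-! ### Functions of finitely many coordinates and the uniform measure -/

/-- `f` depends only on the first `m` coordinates. -/
def DF {α : Type*} (m : ℕ) (f : C → α) : Prop :=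
  ∀ c c' : C, (∀ k, k < m → c k = c' k) → f c = f c'

/-- `f` depends on finitely many coordinates. -/
def LC {α : Type*} (f : C → α) : Prop := ∃ m, DF m f

lemma DF.mono {α : Type*} {m n : ℕ} {f : C → α} (hf : DF m f) (h : m ≤ n) : DF n f :=
  fun c c' hc => hf c c' fun k hk => hc k (hk.trans_le h)

lemma DF.glue {α : Type*} {m : ℕ} {f : C → α} (h : DF m f) (c : C) :
    f (CG.glue m (tk m c) c0) = f c :=
  h _ _ fun k hk => by rw [glue_of_lt hk]; rfl

lemma LC.comp₂ {α β γ : Type*} {f : C → α} {g : C → β} (hf : LC f) (hg : LC g) (F : α → β → γ) :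
    LC (fun c => F (f c) (g c)) := by
  obtain ⟨m, hm⟩ := hf
  obtain ⟨n, hn⟩ := hg
  exact ⟨max m n, fun c c' h => by
    simp only [hm.mono (le_max_left m n) c c' h, hn.mono (le_max_right m n) c c' h]⟩

lemma LC.comp {α γ : Type*} {f : C → α} (hf : LC f) (F : α → γ) : LC (fun c => F (f c)) := by
  obtain ⟨m, hm⟩ := hf
  exact ⟨m, fun c c' h => by simp only [hm c c' h]⟩

lemma LC.const {α : Type*} (a : α) : LC (fun _ : C => a) := ⟨0, fun _ _ _ => rfl⟩

open Classical in
/-- The number of bit strings of length `n` in `S`. -/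
noncomputable def cnt (n : ℕ) (S : C → Prop) : ℕ :=
  ∑ u : B n, if S (CG.glue n u c0) then 1 else 0

lemma cnt_succ {n : ℕ} {S : C → Prop} (h : DF n S) : cnt (n + 1) S = 2 * cnt n S := by
  classical
  have key : ∀ (v : B (n + 1)) (u : B n), (∀ k (hk : k < n), v ⟨k, by omega⟩ = u ⟨k, hk⟩) →
      S (CG.glue (n + 1) v c0) = S (CG.glue n u c0) := by
    intro v u huv
    refine h _ _ fun k hk => ?_
    rw [glue_of_lt hk, glue_of_lt (by omega : k < n + 1), huv k hk]
  rw [cnt, ← (sumE n).sum_comp, Fintype.sum_sum_type, two_mul, cnt]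
  congr 1
  · refine Finset.sum_congr rfl fun u _ => ?_
    rw [key (sumE n (Sum.inl u)) u fun k hk =>
      Fin.snoc_castSucc (α := fun _ => Bool) false u ⟨k, hk⟩]
  · refine Finset.sum_congr rfl fun u _ => ?_
    rw [key (sumE n (Sum.inr u)) u fun k hk =>
      Fin.snoc_castSucc (α := fun _ => Bool) true u ⟨k, hk⟩]

/-- The density at level `n`. -/
noncomputable def dens (n : ℕ) (S : C → Prop) : ℝ := (cnt n S : ℝ) / 2 ^ n

lemma dens_eq {m n : ℕ} {S : C → Prop} (h : DF m S) (hmn : m ≤ n) : dens n S = dens m S := by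
  induction n, hmn using Nat.le_induction with
  | base => rfl
  | succ n hn ih =>
    rw [← ih, dens, dens, cnt_succ (h.mono hn), pow_succ]
    push_cast
    field_simp

open Classical in
/-- The uniform measure of a set which depends on finitely many coordinates. -/
noncomputable def mu (S : C → Prop) : ℝ := if h : LC S then dens h.choose S else 0

lemma mu_eq {m : ℕ} {S : C → Prop} (h : DF m S) : mu S = dens m S := by
  have h' : LC S := ⟨m, h⟩
  rw [mu, dif_pos h', ← dens_eq h'.choose_spec (le_max_left _ m), dens_eq h (le_max_right _ m)]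

lemma mu_nonneg (S : C → Prop) : 0 ≤ mu S := by
  rw [mu]
  split_ifs
  · rw [dens]; positivity
  · exact le_rfl

lemma mu_le_add {S T U : C → Prop} (hS : LC S) (hT : LC T) (hU : LC U)
    (h : ∀ c, S c → T c ∨ U c) : mu S ≤ mu T + mu U := by
  classical
  obtain ⟨a, ha⟩ := hS
  obtain ⟨b, hb⟩ := hT
  obtain ⟨d, hd⟩ := hU
  rw [mu_eq (ha.mono (show a ≤ a + b + d by omega)), mu_eq (hb.mono (show b ≤ a + b + d by omega)),
    mu_eq (hd.mono (show d ≤ a + b + d by omega)), dens, dens, dens, ← add_div]
  gcongr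
  have : cnt (a + b + d) S ≤ cnt (a + b + d) T + cnt (a + b + d) U := by
    rw [cnt, cnt, cnt, ← Finset.sum_add_distrib]
    refine Finset.sum_le_sum fun u _ => ?_
    have := h (CG.glue _ u c0)
    split_ifs <;> simp_all
  exact_mod_cast this

lemma mu_mono {S T : C → Prop} (hS : LC S) (hT : LC T) (h : ∀ c, S c → T c) : mu S ≤ mu T := by
  have h1 := mu_le_add hS hT (LC.const False) fun c hc => Or.inl (h c hc)
  have h2 : mu (fun _ => False) = 0 := by
    rw [mu_eq (m := 0) (fun _ _ _ => rfl), dens, cnt]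
    simp
  linarith

lemma mu_add {S T : C → Prop} (hS : LC S) (hT : LC T) (h : ∀ c, S c → ¬ T c) :
    mu (fun c => S c ∨ T c) = mu S + mu T := by
  classical
  obtain ⟨a, ha⟩ := hS
  obtain ⟨b, hb⟩ := hT
  have hab : DF (a + b) (fun c => S c ∨ T c) := fun c c' hc => by
    simp only [ha.mono (show a ≤ a + b by omega) c c' hc,
      hb.mono (show b ≤ a + b by omega) c c' hc]
  rw [mu_eq (ha.mono (show a ≤ a + b by omega)), mu_eq (hb.mono (show b ≤ a + b by omega)),
    mu_eq hab, dens, dens, dens, ← add_div]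
  congr 1
  have : cnt (a + b) (fun c => S c ∨ T c) = cnt (a + b) S + cnt (a + b) T := by
    rw [cnt, cnt, cnt, ← Finset.sum_add_distrib]
    refine Finset.sum_congr rfl fun u _ => ?_
    have := h (CG.glue _ u c0)
    by_cases h1 : S (CG.glue _ u c0) <;> by_cases h2 : T (CG.glue _ u c0) <;> simp_all
  rw [this]; push_cast; rfl

lemma mu_top : mu (fun _ => True) = 1 := by
  rw [mu_eq (m := 0) (fun _ _ _ => rfl), dens, cnt]
  simp

lemma mu_pos {S : C → Prop} (hS : LC S) {c : C} (hc : S c) : 0 < mu S := by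
  classical
  obtain ⟨m, hm⟩ := hS
  rw [mu_eq hm, dens]
  have : 0 < cnt m S := by
    rw [cnt]
    refine Finset.sum_pos' (fun _ _ => by positivity) ⟨tk m c, Finset.mem_univ _, ?_⟩
    rw [hm.glue c, if_pos hc]
    exact one_pos
  positivity

/-- The cylinders of level `n` have measure at most `2^{-n}`. -/
lemma mu_N_le (n j : ℕ) : mu (fun c => N n c = j) ≤ 1 / 2 ^ n := by
  classical
  have hd : DF n (fun c => N n c = j) := fun c c' h => by simp only [N_congr h]
  rw [mu_eq hd, dens]
  gcongr
  have : cnt n (fun c => N n c = j) ≤ 1 := by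
    have h0 : cnt n (fun c => N n c = j) =
        (Finset.univ.filter fun u : B n => N n (CG.glue n u c0) = j).card := by
      rw [cnt, Finset.card_filter]
      exact Finset.sum_congr rfl fun _ _ => by congr
    rw [h0, Finset.card_le_one]
    intro u hu v hv
    rw [Finset.mem_filter] at hu hv
    have h3 := N_inj (hu.2.trans hv.2.symm)
    funext i
    have := h3 i i.2
    rwa [glue_of_lt i.2, glue_of_lt i.2] at this
  exact_mod_cast this

/-! ### The group -/

variable (Γ : Type) [Group Γ]

/-- The group of locally constant functions. -/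
def Gr : Subgroup (C → Γ) where
  carrier := {f | LC f}
  mul_mem' hf hg := hf.comp₂ hg (· * ·)
  one_mem' := LC.const 1
  inv_mem' hf := hf.comp (·⁻¹)

variable {Γ}

lemma lcf (f : Gr Γ) : LC (f : C → Γ) := f.2

lemma lcne (f g : Gr Γ) : LC (fun c => (f : C → Γ) c ≠ (g : C → Γ) c) :=
  (lcf f).comp₂ (lcf g) (· ≠ ·)

noncomputable instance : MetricSpace (Gr Γ) where
  dist f g := mu fun c => (f : C → Γ) c ≠ (g : C → Γ) c
  dist_self f := by
    have : (fun c => (f : C → Γ) c ≠ (f : C → Γ) c) = fun _ => False := by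
      funext c; simp
    change mu _ = 0
    rw [this, mu_eq (m := 0) (fun _ _ _ => rfl), dens, cnt]
    simp
  dist_comm f g := by
    congr 1
    funext c
    simp only [ne_comm]
  dist_triangle f g h := mu_le_add (lcne f h) (lcne f g) (lcne g h) fun c hc => by
    by_contra h1
    rw [not_or, not_not, not_not] at h1
    exact hc (h1.1.trans h1.2)
  eq_of_dist_eq_zero {f g} h := by
    apply Subtype.ext
    funext c
    by_contra hc
    exact (mu_pos (lcne f g) hc).ne' h

lemma dist_def (f g : Gr Γ) : dist f g = mu fun c => (f : C → Γ) c ≠ (g : C → Γ) c := rfl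

lemma dist_mul_left' (h f g : Gr Γ) : dist (h * f) (h * g) = dist f g := by
  rw [dist_def, dist_def]
  congr 1
  funext c
  simp

lemma dist_mul_right' (h f g : Gr Γ) : dist (f * h) (g * h) = dist f g := by
  rw [dist_def, dist_def]
  congr 1
  funext c
  simp

lemma dist_le_one (f g : Gr Γ) : dist f g ≤ 1 := by
  rw [dist_def, ← mu_top]
  exact mu_mono (lcne f g) (LC.const True) fun _ _ => trivial

lemma dist_inv' (f g : Gr Γ) : dist f⁻¹ g⁻¹ = dist f g := by
  rw [dist_def, dist_def]
  congr 1
  funext c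
  simp

instance : IsTopologicalGroup (Gr Γ) where
  continuous_mul := by
    rw [Metric.continuous_iff]
    rintro ⟨a, b⟩ ε hε
    refine ⟨ε / 2, half_pos hε, ?_⟩
    rintro ⟨a', b'⟩ h
    rw [Prod.dist_eq, max_lt_iff] at h
    simp only at h ⊢
    have h1 := dist_triangle (a' * b') (a * b') (a * b)
    rw [dist_mul_right', dist_mul_left'] at h1
    linarith [h.1, h.2]
  continuous_inv := by
    rw [Metric.continuous_iff]
    intro b ε hε
    exact ⟨ε, hε, fun a h => by rwa [dist_inv']⟩

/-! ### Coarse boundedness -/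

open Classical in
/-- Restriction of `f` to the first cylinders. -/
noncomputable def tr (n : ℕ) (f : Gr Γ) (j : ℕ) : Gr Γ :=
  ⟨fun c => if N n c < j then (f : C → Γ) c else 1,
    LC.comp₂ (f := fun c => N n c) (g := (f : C → Γ)) ⟨n, fun _ _ h => N_congr h⟩ (lcf f)
      (fun k γ => if k < j then γ else 1)⟩

lemma tr_zero (n : ℕ) (f : Gr Γ) : tr n f 0 = 1 := by
  apply Subtype.ext
  funext c
  simp [tr]

lemma tr_top (n : ℕ) (f : Gr Γ) : tr n f (2 ^ n) = f := by
  apply Subtype.ext
  funext c
  simp [tr, N_lt]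

lemma dist_tr (n : ℕ) (f : Gr Γ) (j : ℕ) : dist (tr n f j) (tr n f (j + 1)) ≤ 1 / 2 ^ n := by
  refine le_trans ?_ (mu_N_le n j)
  rw [dist_def]
  refine mu_mono (lcne _ _) ⟨n, fun c c' h => by simp only [N_congr h]⟩ fun c hc => ?_
  by_contra h
  apply hc
  change (if N n c < j then (f : C → Γ) c else 1) = (if N n c < j + 1 then (f : C → Γ) c else 1)
  rcases lt_or_gt_of_ne h with h | h
  · rw [if_pos h, if_pos (by omega)]
  · rw [if_neg (by omega), if_neg (by omega)]

/-- Every left-invariant metric for which small elements (in measure) are small is bounded. -/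
theorem bounded (ρ : Gr Γ → Gr Γ → ℝ) (hself : ∀ x, ρ x x = 0)
    (htri : ∀ x y z, ρ x z ≤ ρ x y + ρ y z) (hleft : ∀ x y z, ρ (x * y) (x * z) = ρ y z)
    {ε : ℝ} (hε : 0 < ε) (hsmall : ∀ x, dist 1 x < ε → ρ 1 x < 1) :
    ∃ R : ℝ, ∀ x, ρ 1 x ≤ R := by
  obtain ⟨n, hn⟩ := exists_pow_lt_of_lt_one hε (show (1 / 2 : ℝ) < 1 by norm_num)
  rw [one_div_pow] at hn
  refine ⟨2 ^ n, fun f => ?_⟩
  have key : ∀ j : ℕ, ρ 1 (tr n f j) ≤ j := by
    intro j
    induction j with
    | zero => rw [tr_zero, hself]; simp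
    | succ j ih =>
      have h1 := htri 1 (tr n f j) (tr n f (j + 1))
      have h2 : ρ (tr n f j) (tr n f (j + 1)) < 1 := by
        have h3 : tr n f (j + 1) = tr n f j * ((tr n f j)⁻¹ * tr n f (j + 1)) := by group
        have h4 : ρ (tr n f j) (tr n f (j + 1)) = ρ 1 ((tr n f j)⁻¹ * tr n f (j + 1)) := by
          conv_lhs => rw [h3]
          have := hleft (tr n f j) 1 ((tr n f j)⁻¹ * tr n f (j + 1))
          rwa [mul_one] at this
        rw [h4]
        apply hsmall
        have h5 := dist_mul_left' (tr n f j) 1 ((tr n f j)⁻¹ * tr n f (j + 1))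
        rw [mul_one, ← h3] at h5
        rw [← h5]
        exact (dist_tr n f j).trans_lt hn
      push_cast
      linarith
  have := key (2 ^ n)
  rw [tr_top] at this
  push_cast at this
  exact this

end Pool.Agent.R643.OB
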