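import Mathlib
import Pool.Agent.R643.OBGrp

/-!
A non-amenable metrisable group with a maximal metric and a cocycle of linear growth.
-/

set_option linter.unusedSectionVars false

open Set Filter Topology MeasureTheory

namespace Pool.Agent.R643.OB

open Pool.Agent.R643.CG

/-! ### Definitions -/

/-- `d` is a compatible left-invariant metric on the topological group `G`. -/
structure IsCompatible (G : Type) [Group G] [TopologicalSpace G] (d : G → G → ℝ) : Prop where
  self : ∀ x, d x x = 0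
  eq_of : ∀ x y, d x y = 0 → x = y
  symm : ∀ x y, d x y = d y x
  triangle : ∀ x y z, d x z ≤ d x y + d y z
  left_inv : ∀ g x y, d (g * x) (g * y) = d x y
  nhds : ∀ (x : G) (s : Set G), s ∈ 𝓝 x ↔ ∃ ε > 0, {y | d x y < ε} ⊆ s

/-- `d` is a maximal compatible left-invariant metric. -/
def IsMaximal (G : Type) [Group G] [TopologicalSpace G] (d : G → G → ℝ) : Prop :=
  IsCompatible G d ∧ ∀ ρ : G → G → ℝ, IsCompatible G ρ → ∃ K : ℝ, ∀ x y, ρ x y ≤ K * d x y + K

/-- `G` is amenable: every continuous action on a nonempty compact Hausdorff space has an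
invariant Borel probability measure. -/
def IsAmenableTop (G : Type) [Group G] [TopologicalSpace G] : Prop :=
  ∀ (X : Type) [TopologicalSpace X] [CompactSpace X] [T2Space X] [Nonempty X]
    [MeasurableSpace X] [BorelSpace X] [MulAction G X] [ContinuousSMul G X],
    ∃ P : Measure X, IsProbabilityMeasure P ∧ ∀ g : G, P.map (fun x => g • x) = P

/-- `π` and `b` define a continuous affine isometric action `g ξ = π(g) ξ + b(g)` of `G` on `H`. -/
structure IsAffineAction (G : Type) [Group G] [TopologicalSpace G] (H : Type)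
    [NormedAddCommGroup H] [InnerProductSpace ℝ H] (π : G →* (H ≃ₗᵢ[ℝ] H)) (b : G → H) : Prop where
  cocycle : ∀ g h, b (g * h) = π g (b h) + b g
  cont : Continuous fun p : G × H => π p.1 p.2 + b p.1

/-! ### The free group -/

/-- Finitely additive invariant probability measures. -/
def HasMean (G : Type) [Group G] : Prop :=
  ∃ m : Set G → ℝ, (∀ A, 0 ≤ m A) ∧ m Set.univ = 1 ∧
    (∀ A B, Disjoint A B → m (A ∪ B) = m A + m B) ∧ ∀ (g : G) (A : Set G), m ((g * ·) '' A) = m A

theorem not_hasMean : ¬ HasMean (FreeGroup (Fin 2)) := by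
  rintro ⟨m, h0, h1, hadd, hinv⟩
  have mono : ∀ A B : Set (FreeGroup (Fin 2)), A ⊆ B → m A ≤ m B := by
    intro A B hAB
    have := hadd A (B \ A) Set.disjoint_sdiff_right
    rw [Set.union_sdiff_cancel hAB] at this
    linarith [h0 (B \ A)]
  have key : ∀ w : Fin 2 × Bool, 1 ≤ m (FreeGroup.startsWith w) +
      m (FreeGroup.startsWith (w.1, !w.2)) := by
    intro w
    have e1 : m Set.univ = m (FreeGroup.startsWith (w.1, !w.2)) +
        m (FreeGroup.startsWith (w.1, !w.2))ᶜ := by
      rw [← hadd _ _ disjoint_compl_right, Set.union_compl_self]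
    have e2 : (FreeGroup.mk [w] * ·) '' (FreeGroup.startsWith (w.1, !w.2))ᶜ ⊆
        FreeGroup.startsWith w := by
      rintro _ ⟨g, hg, rfl⟩
      exact FreeGroup.startsWith_mk_mul g hg
    have e3 := mono _ _ e2
    rw [hinv] at e3
    linarith
  have k0 := key (0, true)
  have k1 := key (1, true)
  have d : ∀ v w : Fin 2 × Bool, v ≠ w → Disjoint (FreeGroup.startsWith v)
      (FreeGroup.startsWith w) := fun v w h => FreeGroup.startsWith.disjoint_iff_ne.2 h
  have u1 := hadd (FreeGroup.startsWith ((0 : Fin 2), true)) (FreeGroup.startsWith (0, !true))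
    (d _ _ (by decide))
  have u2 := hadd (FreeGroup.startsWith ((1 : Fin 2), true)) (FreeGroup.startsWith (1, !true))
    (d _ _ (by decide))
  have u3 := hadd (FreeGroup.startsWith ((0 : Fin 2), true) ∪ FreeGroup.startsWith (0, !true))
    (FreeGroup.startsWith ((1 : Fin 2), true) ∪ FreeGroup.startsWith (1, !true)) (by
      rw [Set.disjoint_union_left, Set.disjoint_union_right, Set.disjoint_union_right]
      exact ⟨⟨d _ _ (by decide), d _ _ (by decide)⟩, d _ _ (by decide), d _ _ (by decide)⟩)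
  have u4 := mono (FreeGroup.startsWith ((0 : Fin 2), true) ∪ FreeGroup.startsWith (0, !true) ∪
    (FreeGroup.startsWith ((1 : Fin 2), true) ∪ FreeGroup.startsWith (1, !true))) Set.univ
    (Set.subset_univ _)
  rw [h1, u3, u1, u2] at u4
  simp only [] at k0 k1
  linarith

/-! ### The compact space -/

variable {Γ : Type} [Group Γ]

/-- The sets over the Cantor set with locally constant fibres in `Γ`. -/
abbrev Alg (Γ : Type) := {D : C → Set Γ // LC D}

/-- The set over a set of the Cantor set. -/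
def cyl {S : C → Prop} (hS : LC S) : Alg Γ := ⟨fun c => {_γ | S c}, hS.comp fun p => {_γ | p}⟩

/-- Intersection. -/
def inter (D E : Alg Γ) : Alg Γ := ⟨fun c => D.1 c ∩ E.1 c, D.2.comp₂ E.2 (· ∩ ·)⟩

/-- Union. -/
def uni (D E : Alg Γ) : Alg Γ := ⟨fun c => D.1 c ∪ E.1 c, D.2.comp₂ E.2 (· ∪ ·)⟩

/-- The finitely additive measures which project to the uniform measure. -/
structure IsState (m : Alg Γ → ℝ) : Prop where
  nonneg : ∀ D, 0 ≤ m D
  add : ∀ D E : Alg Γ, (∀ c, Disjoint (D.1 c) (E.1 c)) → m (uni D E) = m D + m E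
  proj : ∀ (S : C → Prop) (hS : LC S), m (cyl hS) = mu S

lemma IsState.mono {m : Alg Γ → ℝ} (h : IsState m) {D E : Alg Γ} (hDE : ∀ c, D.1 c ⊆ E.1 c) :
    m D ≤ m E := by
  have h1 : E = uni D ⟨fun c => E.1 c \ D.1 c, E.2.comp₂ D.2 (· \ ·)⟩ := by
    apply Subtype.ext
    funext c
    exact (Set.union_sdiff_cancel (hDE c)).symm
  rw [h1, h.add]
  · linarith [h.nonneg ⟨fun c => E.1 c \ D.1 c, E.2.comp₂ D.2 (· \ ·)⟩]
  · intro c
    exact Set.disjoint_sdiff_right

lemma IsState.le_one {m : Alg Γ → ℝ} (h : IsState m) (D : Alg Γ) : m D ≤ 1 := by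
  rw [← mu_top, ← h.proj _ (LC.const True)]
  exact h.mono fun c γ _ => trivial

lemma IsState.diff_le {m : Alg Γ → ℝ} (h : IsState m) (D E : Alg Γ) {S : C → Prop} (hS : LC S)
    (hDE : ∀ c, ¬ S c → D.1 c = E.1 c) : |m D - m E| ≤ mu S := by
  have hS' : LC (fun c => ¬ S c) := hS.comp Not
  have key : ∀ D : Alg Γ, m D = m (inter D (cyl hS)) + m (inter D (cyl hS')) := by
    intro D
    rw [← h.add]
    · congr 1
      apply Subtype.ext
      funext c
      ext γ
      simp only [uni, inter, cyl, mem_union, mem_inter_iff, mem_ofPred_eq]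
      tauto
    · intro c
      rw [Set.disjoint_left]
      rintro γ ⟨_, h1⟩ ⟨_, h2⟩
      exact h2 h1
  have h1 : inter D (cyl hS') = inter E (cyl hS') := by
    apply Subtype.ext
    funext c
    ext γ
    simp only [inter, cyl, mem_inter_iff, mem_ofPred_eq]
    constructor
    · rintro ⟨h1, h2⟩
      exact ⟨hDE c h2 ▸ h1, h2⟩
    · rintro ⟨h1, h2⟩
      exact ⟨(hDE c h2).symm ▸ h1, h2⟩
  have h2 : ∀ D : Alg Γ, m (inter D (cyl hS)) ≤ mu S := fun D => by
    rw [← h.proj S hS]
    exact h.mono fun c γ hγ => hγ.2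
  rw [key D, key E, h1, abs_le]
  constructor
  · linarith [h.nonneg (inter D (cyl hS)), h2 E]
  · linarith [h.nonneg (inter E (cyl hS)), h2 D]

/-- The compact space of states. -/
abbrev St (Γ : Type) [Group Γ] := {m : Alg Γ → ℝ // IsState m}

lemma isClosed_states : IsClosed {m : Alg Γ → ℝ | IsState m} := by
  have : {m : Alg Γ → ℝ | IsState m} = (⋂ D : Alg Γ, {m : Alg Γ → ℝ | 0 ≤ m D}) ∩
      ((⋂ D : Alg Γ, ⋂ E : Alg Γ, ⋂ _ : ∀ c, Disjoint (D.1 c) (E.1 c),
        {m : Alg Γ → ℝ | m (uni D E) = m D + m E}) ∩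
      (⋂ S : C → Prop, ⋂ hS : LC S, {m : Alg Γ → ℝ | m (cyl hS) = mu S})) := by
    ext m
    simp only [mem_inter_iff, mem_iInter, mem_ofPred_eq]
    exact ⟨fun h => ⟨h.nonneg, h.add, h.proj⟩, fun h => ⟨h.1, h.2.1, h.2.2⟩⟩
  rw [this]
  refine IsClosed.inter ?_ (IsClosed.inter ?_ ?_)
  · exact isClosed_iInter fun D => isClosed_le continuous_const (continuous_apply D)
  · exact isClosed_iInter fun D => isClosed_iInter fun E => isClosed_iInter fun _ =>
      isClosed_eq (continuous_apply _) ((continuous_apply D).add (continuous_apply E))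
  · exact isClosed_iInter fun S => isClosed_iInter fun hS =>
      isClosed_eq (continuous_apply _) continuous_const

instance : CompactSpace (St Γ) := by
  have h1 : IsCompact (Set.pi Set.univ fun _ : Alg Γ => Icc (0 : ℝ) 1) :=
    isCompact_univ_pi fun _ => isCompact_Icc
  have h2 : IsCompact {m : Alg Γ → ℝ | IsState m} := by
    refine h1.of_isClosed_subset isClosed_states ?_
    intro m hm D _
    exact ⟨hm.nonneg D, hm.le_one D⟩
  exact isCompact_iff_compactSpace.1 h2

instance : Nonempty (St Γ) := by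
  refine ⟨⟨fun D => mu fun c => (1 : Γ) ∈ D.1 c, ⟨fun D => mu_nonneg _, ?_, ?_⟩⟩⟩
  · intro D E hDE
    rw [← mu_add (D.2.comp fun s => (1 : Γ) ∈ s) (E.2.comp fun s => (1 : Γ) ∈ s)]
    · rfl
    · intro c h1 h2
      exact Set.disjoint_left.1 (hDE c) h1 h2
  · intro S hS
    rfl

/-- The action on sets. -/
def pull (g : Gr Γ) (D : Alg Γ) : Alg Γ :=
  ⟨fun c => {γ | (g : C → Γ) c * γ ∈ D.1 c},
    (lcf g).comp₂ D.2 fun a s => {γ | a * γ ∈ s}⟩

lemma isState_pull {m : Alg Γ → ℝ} (h : IsState m) (g : Gr Γ) :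
    IsState fun D => m (pull g D) where
  nonneg D := h.nonneg _
  add D E hDE := by
    rw [← h.add]
    · rfl
    · intro c
      rw [Set.disjoint_left]
      intro γ h1 h2
      exact Set.disjoint_left.1 (hDE c) h1 h2
  proj S hS := by
    rw [← h.proj S hS]
    rfl

instance : MulAction (Gr Γ) (St Γ) where
  smul g m := ⟨fun D => m.1 (pull g D), isState_pull m.2 g⟩
  one_smul m := by
    apply Subtype.ext
    funext D
    exact congrArg m.1 (Subtype.ext (funext fun c => by
      ext γ
      simp [pull]))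
  mul_smul g h m := by
    apply Subtype.ext
    funext D
    exact congrArg m.1 (Subtype.ext (funext fun c => by
      ext γ
      simp [pull, mul_assoc]))

lemma smul_apply (g : Gr Γ) (m : St Γ) (D : Alg Γ) : (g • m).1 D = m.1 (pull g D) := rfl

instance : ContinuousSMul (Gr Γ) (St Γ) where
  continuous_smul := by
    refine Continuous.subtype_mk (continuous_pi fun D => ?_) _
    change Continuous fun p : Gr Γ × St Γ => p.2.1 (pull p.1 D)
    rw [continuous_iff_continuousAt]
    rintro ⟨g, m⟩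
    have h1 : Tendsto (fun p : Gr Γ × St Γ => p.2.1 (pull g D)) (𝓝 (g, m)) (𝓝 (m.1 (pull g D))) := by
      have : Continuous fun p : Gr Γ × St Γ => p.2.1 (pull g D) :=
        (continuous_apply (pull g D)).comp (continuous_subtype_val.comp continuous_snd)
      exact this.tendsto (g, m)
    have h2 : Tendsto (fun p : Gr Γ × St Γ => p.2.1 (pull p.1 D) - p.2.1 (pull g D))
        (𝓝 (g, m)) (𝓝 0) := by
      have h3 : Tendsto (fun p : Gr Γ × St Γ => dist p.1 g) (𝓝 (g, m)) (𝓝 0) := by
        have : Continuous fun p : Gr Γ × St Γ => dist p.1 g := by fun_prop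
        have h4 := this.tendsto (g, m)
        simpa using h4
      refine squeeze_zero_norm (fun p => ?_) h3
      rw [Real.norm_eq_abs]
      refine p.2.2.diff_le _ _ (lcne p.1 g) fun c hc => ?_
      rw [not_not] at hc
      simp only [pull, hc]
    have h5 := h2.add h1
    simp only [sub_add_cancel, zero_add] at h5
    exact h5

/-- The constant functions. -/
def cst (γ : Γ) : Gr Γ := ⟨fun _ => γ, LC.const γ⟩

theorem hasMean_of_amenable {G : Type} [Group G] [TopologicalSpace G] (φ : G →* Gr Γ)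
    (hφ : Continuous φ) (hsurj : Function.Surjective φ) (h : IsAmenableTop G) : HasMean Γ := by
  let _ : MeasurableSpace (St Γ) := borel _
  have : BorelSpace (St Γ) := ⟨rfl⟩
  let _ : MulAction G (St Γ) := MulAction.compHom (St Γ) φ
  have : ContinuousSMul G (St Γ) := ⟨by
    have : Continuous fun p : G × St Γ => (φ p.1) • p.2 :=
      continuous_smul.comp ((hφ.comp continuous_fst).prodMk continuous_snd)
    exact this⟩
  obtain ⟨P, hP, hinv⟩ := h (St Γ)
  have hinv' : ∀ (g : Gr Γ), P.map (fun x : St Γ => g • x) = P := by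
    intro g
    obtain ⟨g', rfl⟩ := hsurj g
    exact hinv g'
  have hev : ∀ D : Alg Γ, Continuous fun m : St Γ => m.1 D := fun D =>
    (continuous_apply D).comp continuous_subtype_val
  have hint : ∀ D : Alg Γ, Integrable (fun m : St Γ => m.1 D) P := fun D =>
    Integrable.of_bound (hev D).aestronglyMeasurable 1 (Eventually.of_forall fun m => by
      rw [Real.norm_eq_abs, abs_of_nonneg (m.2.nonneg D)]
      exact m.2.le_one D)
  have hcl : ∀ A : Set Γ, LC (fun _ : C => A) := fun A => LC.const A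
  refine ⟨fun A => ∫ m : St Γ, m.1 ⟨fun _ => A, hcl A⟩ ∂P, ?_, ?_, ?_, ?_⟩
  · intro A
    exact integral_nonneg fun m => m.2.nonneg _
  · have : ∀ m : St Γ, m.1 ⟨fun _ => Set.univ, hcl _⟩ = 1 := by
      intro m
      rw [← mu_top, ← m.2.proj _ (LC.const True)]
      rfl
    simp only [this]
    simp
  · intro A B hAB
    have h3 : ∀ m : St Γ, m.1 ⟨fun _ => A ∪ B, hcl _⟩ =
        m.1 ⟨fun _ => A, hcl A⟩ + m.1 ⟨fun _ => B, hcl B⟩ := fun m =>
      m.2.add ⟨fun _ => A, hcl A⟩ ⟨fun _ => B, hcl B⟩ fun _ => hAB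
    beta_reduce
    simp only [h3]
    exact integral_add (hint _) (hint _)
  · intro γ A
    have h1 : ∫ m : St Γ, m.1 ⟨fun _ => (γ * ·) '' A, hcl _⟩ ∂P =
        ∫ m : St Γ, m.1 ⟨fun _ => (γ * ·) '' A, hcl _⟩ ∂(P.map (fun x : St Γ => cst γ • x)) := by
      rw [hinv']
    beta_reduce
    rw [h1, integral_map]
    · congr 1
      funext m
      rw [smul_apply]
      refine congrArg m.1 (Subtype.ext (funext fun c => ?_))
      ext x
      simp [pull, cst]
    · exact (continuous_const_smul (cst γ)).aemeasurable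
    · exact (hev _).aestronglyMeasurable

/-! ### The counterexample -/

/-- The group. -/
abbrev GG := Gr (FreeGroup (Fin 2)) × Multiplicative ℤ

/-- The metric. -/
noncomputable def dd (x y : GG) : ℝ :=
  dist x.1 y.1 + |((Multiplicative.toAdd x.2 : ℤ) : ℝ) - ((Multiplicative.toAdd y.2 : ℤ) : ℝ)|

lemma abs_lt_one_iff (x y : Multiplicative ℤ) :
    |((Multiplicative.toAdd x : ℤ) : ℝ) - ((Multiplicative.toAdd y : ℤ) : ℝ)| < 1 ↔ x = y := by
  constructor
  · intro h
    rw [← Int.cast_sub, ← Int.cast_abs] at h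
    have h1 : |Multiplicative.toAdd x - Multiplicative.toAdd y| < 1 := by exact_mod_cast h
    rw [Int.abs_lt_one_iff, sub_eq_zero] at h1
    exact Multiplicative.toAdd.injective h1
  · rintro rfl
    simp

lemma compatible_dd : IsCompatible GG dd where
  self x := by simp [dd]
  eq_of x y h := by
    have h1 : 0 ≤ dist x.1 y.1 := dist_nonneg
    have h2 := abs_nonneg
      (((Multiplicative.toAdd x.2 : ℤ) : ℝ) - ((Multiplicative.toAdd y.2 : ℤ) : ℝ))
    rw [dd] at h
    have h3 : dist x.1 y.1 = 0 := by linarith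
    refine Prod.ext (eq_of_dist_eq_zero h3) ((abs_lt_one_iff _ _).1 ?_)
    linarith
  symm x y := by rw [dd, dd, dist_comm, abs_sub_comm]
  triangle x y z := by
    rw [dd, dd, dd]
    have h1 := dist_triangle x.1 y.1 z.1
    have h2 := abs_sub_le ((Multiplicative.toAdd x.2 : ℤ) : ℝ)
      ((Multiplicative.toAdd y.2 : ℤ) : ℝ) ((Multiplicative.toAdd z.2 : ℤ) : ℝ)
    linarith
  left_inv g x y := by
    rw [dd, dd, Prod.fst_mul, Prod.fst_mul, dist_mul_left', Prod.snd_mul, Prod.snd_mul,
      toAdd_mul, toAdd_mul]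
    push_cast
    rw [add_sub_add_left_eq_sub]
  nhds x s := by
    constructor
    · intro hs
      rw [mem_nhds_prod_iff] at hs
      obtain ⟨u, hu, v, hv, huv⟩ := hs
      obtain ⟨ε, hε, hball⟩ := Metric.mem_nhds_iff.1 hu
      refine ⟨min ε 1, lt_min hε one_pos, fun y hy => huv ?_⟩
      have h1 : dd x y < ε := lt_of_lt_of_le hy (min_le_left _ _)
      have h2 : dd x y < 1 := lt_of_lt_of_le hy (min_le_right _ _)
      rw [dd] at h1 h2
      have h3 : 0 ≤ dist x.1 y.1 := dist_nonneg
      have h4 := abs_nonneg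
        (((Multiplicative.toAdd x.2 : ℤ) : ℝ) - ((Multiplicative.toAdd y.2 : ℤ) : ℝ))
      have h5 : x.2 = y.2 := (abs_lt_one_iff _ _).1 (by linarith)
      refine ⟨hball ?_, ?_⟩
      · rw [Metric.mem_ball, dist_comm]; linarith
      · rw [← h5]; exact mem_of_mem_nhds hv
    · rintro ⟨ε, hε, h⟩
      rw [mem_nhds_prod_iff]
      refine ⟨Metric.ball x.1 ε, Metric.ball_mem_nhds _ hε, {x.2}, by simp, ?_⟩
      rintro ⟨a, b⟩ ⟨ha, hb⟩
      apply h
      rw [mem_singleton_iff] at hb
      simp only at ha hb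
      rw [mem_ofPred_eq, dd, hb, Prod.snd]
      rw [Metric.mem_ball, dist_comm] at ha
      simpa using ha

theorem maximal_dd : IsMaximal GG dd := by
  refine ⟨compatible_dd, fun ρ hρ => ?_⟩
  obtain ⟨ε, hε, hball⟩ := (compatible_dd.nhds 1 {y | ρ 1 y < 1}).1
    ((hρ.nhds 1 _).2 ⟨1, one_pos, le_rfl⟩)
  obtain ⟨R, hR⟩ := bounded (Γ := FreeGroup (Fin 2)) (fun x y => ρ (x, 1) (y, 1))
    (fun x => hρ.self _) (fun x y z => hρ.triangle _ _ _)
    (fun x y z => by
      have := hρ.left_inv (x, 1) (y, 1) (z, 1)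
      simpa using this) hε (fun x hx => by
      have : ((x, 1) : GG) ∈ {y : GG | ρ 1 y < 1} := hball (by
        rw [mem_ofPred_eq, dd]
        simpa using hx)
      exact this)
  -- the powers of the generator
  have hpow : ∀ n : ℕ, ρ 1 ((1, Multiplicative.ofAdd (n : ℤ)) : GG) ≤
      n * ρ 1 ((1, Multiplicative.ofAdd (1 : ℤ)) : GG) := by
    intro n
    induction n with
    | zero =>
      have : ((1, Multiplicative.ofAdd ((0 : ℕ) : ℤ)) : GG) = 1 := rfl
      rw [this, hρ.self]; simp
    | succ n ih =>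
      have h1 := hρ.triangle 1 ((1, Multiplicative.ofAdd (n : ℤ)) : GG)
        ((1, Multiplicative.ofAdd ((n + 1 : ℕ) : ℤ)) : GG)
      have h2 : ρ ((1, Multiplicative.ofAdd (n : ℤ)) : GG)
          ((1, Multiplicative.ofAdd ((n + 1 : ℕ) : ℤ)) : GG) =
          ρ 1 ((1, Multiplicative.ofAdd (1 : ℤ)) : GG) := by
        rw [← hρ.left_inv ((1, Multiplicative.ofAdd (n : ℤ)) : GG) 1]
        congr 1
      rw [h2] at h1
      push_cast at h1 ih ⊢
      linarith
  have hinv : ∀ x : GG, ρ 1 x⁻¹ = ρ 1 x := by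
    intro x
    rw [← hρ.left_inv x 1 x⁻¹, mul_one, mul_inv_cancel, hρ.symm]
  set L := ρ 1 ((1, Multiplicative.ofAdd (1 : ℤ)) : GG) with hL
  have hL0 : 0 ≤ L := by
    have h1 := hρ.triangle 1 ((1, Multiplicative.ofAdd (1 : ℤ)) : GG) 1
    rw [hρ.self, hρ.symm _ 1] at h1
    linarith
  have hR0 : 0 ≤ R := by
    have := hR 1
    have h1 : ρ ((1, 1) : GG) ((1, 1) : GG) = 0 := hρ.self _
    linarith
  have hz : ∀ z : Multiplicative ℤ, ρ 1 ((1, z) : GG) ≤ |((Multiplicative.toAdd z : ℤ) : ℝ)| * L := by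
    intro z
    obtain ⟨n, hn | hn⟩ := Int.eq_nat_or_neg (Multiplicative.toAdd z)
    · have : z = Multiplicative.ofAdd (n : ℤ) := by
        rw [← hn]; rfl
      rw [this, toAdd_ofAdd]
      have := hpow n
      push_cast
      rw [Nat.abs_cast]
      exact this
    · have : z = (Multiplicative.ofAdd (n : ℤ))⁻¹ := by
        rw [← ofAdd_neg, ← hn]; rfl
      have h1 : ((1, z) : GG) = ((1, Multiplicative.ofAdd (n : ℤ)) : GG)⁻¹ := by
        rw [this]; simp
      rw [h1, hinv, hn]
      have := hpow n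
      push_cast
      rw [abs_neg, Nat.abs_cast]
      exact this
  have hone : ∀ x : GG, ρ 1 x ≤ (R + L) * dd 1 x + (R + L) := by
    intro x
    have h1 := hρ.triangle 1 ((x.1, 1) : GG) x
    have h2 : ρ ((x.1, 1) : GG) x = ρ 1 ((1, x.2) : GG) := by
      rw [← hρ.left_inv ((x.1, 1) : GG) 1]
      congr 1
      · simp
      · simp
    have h3 := hz x.2
    have h4 := hR x.1
    have h5 : |((Multiplicative.toAdd x.2 : ℤ) : ℝ)| ≤ dd 1 x := by
      rw [dd]
      have h6 : 0 ≤ dist (1 : GG).1 x.1 := dist_nonneg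
      have h7 : |((Multiplicative.toAdd (1 : GG).2 : ℤ) : ℝ) - ((Multiplicative.toAdd x.2 : ℤ) : ℝ)| =
          |((Multiplicative.toAdd x.2 : ℤ) : ℝ)| := by
        rw [abs_sub_comm]; simp
      linarith
    have h8 : |((Multiplicative.toAdd x.2 : ℤ) : ℝ)| * L ≤ dd 1 x * L :=
      mul_le_mul_of_nonneg_right h5 hL0
    have h9 : 0 ≤ dd 1 x := le_trans (abs_nonneg _) h5
    rw [h2] at h1
    have h10 : ρ 1 ((x.1, 1) : GG) ≤ R := h4
    nlinarith [mul_nonneg hR0 h9]
  refine ⟨R + L, fun x y => ?_⟩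
  have h1 := hρ.left_inv x⁻¹ x y
  have h2 := compatible_dd.left_inv x⁻¹ x y
  rw [inv_mul_cancel] at h1 h2
  rw [← h1, ← h2]
  exact hone _

theorem not_amenable_GG : ¬ IsAmenableTop GG := fun h =>
  not_hasMean (hasMean_of_amenable (MonoidHom.fst _ _) continuous_fst Prod.fst_surjective h)

/-- The cocycle. -/
def bb (x : GG) : ℝ := ((Multiplicative.toAdd x.2 : ℤ) : ℝ)

theorem affine_bb : IsAffineAction GG ℝ 1 bb where
  cocycle g h := by
    simp only [bb, Prod.snd_mul, toAdd_mul, MonoidHom.one_apply]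
    push_cast
    simp [add_comm]
  cont := by
    have h1 : Continuous bb := by
      have : Continuous fun z : Multiplicative ℤ => ((Multiplicative.toAdd z : ℤ) : ℝ) :=
        continuous_of_discreteTopology
      exact this.comp continuous_snd
    exact continuous_snd.add (h1.comp continuous_fst)

theorem growth_bb (x : GG) : dd x 1 - 1 ≤ ‖bb x‖ := by
  rw [dd, bb, Real.norm_eq_abs]
  have h1 := dist_le_one x.1 (1 : GG).1
  simp only [Prod.snd_one, toAdd_one, Int.cast_zero, sub_zero]
  linarith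

end Pool.Agent.R643.OB
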