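import Mathlib

/-!
Orbital chromatic roots, analytic part: the two explicit sums over set partitions (setoids) of
`Fin m` and their signs.
-/

open Polynomial Finset Filter Topology

namespace Pool.Agent.R643.OC

noncomputable section
open Classical

/-- `x (x-1) ... (x-k+1)` -/
def dsc (k : ℕ) (x : ℝ) : ℝ := ∏ j ∈ range k, (x - j)

/-- `y (y+1) ... (y+n-1)` -/
def asc (n : ℕ) (y : ℝ) : ℝ := ∏ j ∈ range n, (y + j)

variable {m : ℕ}

instance instFintypeSetoidFin : Fintype (Setoid (Fin m)) :=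
  Fintype.ofInjective (fun s : Setoid (Fin m) => (fun p : Fin m × Fin m => s.r p.1 p.2))
    (by
      intro s t h
      ext a b
      have := congrFun h (a, b)
      simp only at this
      exact iff_of_eq this)

/-- number of classes -/
def cls (s : Setoid (Fin m)) : ℕ := Nat.card (Quotient s)

/-- number of related ordered pairs -/
def rel (s : Setoid (Fin m)) : ℕ := (univ.filter fun p : Fin m × Fin m => s.r p.1 p.2).card

def ya (x : ℝ) (s : Setoid (Fin m)) : ℝ :=
  ∏ p : Fin m × Fin m, if s.r p.1 p.2 then (x - 1) * (x - 2) else (x - 1) * (x - 2) + 1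

def yb (x : ℝ) (s : Setoid (Fin m)) : ℝ :=
  ∏ p : Fin m × Fin m, if s.r p.1 p.2 then (x - 1) else (x - 2)

def PF (m N : ℕ) (x : ℝ) : ℝ := ∑ s : Setoid (Fin m), dsc (cls s) x * (ya x s ^ N * yb x s ^ N)

def QF (m N : ℕ) (x : ℝ) : ℝ :=
  ∑ s : Setoid (Fin m), dsc (cls s) x * (asc N (ya x s) * asc N (yb x s))

/-! ### combinatorics of setoids -/

theorem card_split (s : Setoid (Fin m)) :
    (univ.filter fun p : Fin m × Fin m => ¬ s.r p.1 p.2).card = m * m - rel s := by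
  have h := Finset.card_filter_add_card_filter_not (s := (univ : Finset (Fin m × Fin m)))
    (fun p : Fin m × Fin m => s.r p.1 p.2)
  have h2 : (univ : Finset (Fin m × Fin m)).card = m * m := by simp
  unfold rel
  omega

theorem rel_le (s : Setoid (Fin m)) : rel s ≤ m * m := by
  have h2 : (univ : Finset (Fin m × Fin m)).card = m * m := by simp
  rw [← h2]
  exact Finset.card_le_card (Finset.filter_subset _ _)

theorem rel_top : rel (⊤ : Setoid (Fin m)) = m * m := by
  have h2 : (univ : Finset (Fin m × Fin m)).card = m * m := by simp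
  unfold rel
  rw [← h2]
  congr 1
  ext p
  simp only [mem_filter, mem_univ, true_and, iff_true]
  trivial

theorem rel_lt_of_ne_top {s : Setoid (Fin m)} (h : s ≠ ⊤) : rel s < m * m := by
  have h2 : (univ : Finset (Fin m × Fin m)).card = m * m := by simp
  rw [← h2]
  apply Finset.card_lt_card
  rw [Finset.filter_ssubset]
  by_contra hc
  push Not at hc
  apply h
  ext a b
  constructor
  · intro _; trivial
  · intro _
    exact hc (a, b) (mem_univ _)

theorem diag_card : (univ.filter fun p : Fin m × Fin m => p.1 = p.2).card = m := by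
  have : (univ.filter fun p : Fin m × Fin m => p.1 = p.2) = univ.image (fun i : Fin m => (i, i)) := by
    ext p
    simp only [mem_filter, mem_univ, true_and, mem_image]
    constructor
    · intro h
      exact ⟨p.1, by ext <;> simp [h]⟩
    · rintro ⟨i, rfl⟩
      rfl
  rw [this, Finset.card_image_of_injective]
  · simp
  · intro i j h
    exact (Prod.mk.inj h).1

theorem rel_bot : rel (⊥ : Setoid (Fin m)) = m := by
  have h : rel (⊥ : Setoid (Fin m)) = (univ.filter fun p : Fin m × Fin m => p.1 = p.2).card := by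
    unfold rel
    congr 1
    ext p
    simp only [mem_filter, mem_univ, true_and]
    exact Iff.rfl
  rw [h, diag_card]

theorem lt_rel_of_ne_bot {s : Setoid (Fin m)} (h : s ≠ ⊥) : m < rel s := by
  unfold rel
  conv_lhs => rw [← diag_card (m := m)]
  apply Finset.card_lt_card
  rw [Finset.ssubset_iff_subset_ne]
  constructor
  · intro p hp
    simp only [mem_filter, mem_univ, true_and] at hp ⊢
    rw [hp]
  · intro hc
    apply h
    ext a b
    have : (a, b) ∈ (univ.filter fun p : Fin m × Fin m => p.1 = p.2) ↔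
      (a, b) ∈ (univ.filter fun p : Fin m × Fin m => s.r p.1 p.2) := by rw [hc]
    simp only [mem_filter, mem_univ, true_and] at this
    constructor
    · intro h1
      exact this.2 h1
    · intro h1
      exact this.1 h1

theorem cls_le (s : Setoid (Fin m)) : cls s ≤ m := by
  unfold cls
  have h := Nat.card_le_card_of_surjective (Quotient.mk s : Fin m → Quotient s)
    Quotient.mk_surjective
  simpa using h

theorem cls_pos (hm : 0 < m) (s : Setoid (Fin m)) : 0 < cls s := by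
  unfold cls
  have : Nonempty (Quotient s) := ⟨Quotient.mk s ⟨0, hm⟩⟩
  exact Nat.card_pos

theorem cls_top (hm : 0 < m) : cls (⊤ : Setoid (Fin m)) = 1 := by
  unfold cls
  have : Nonempty (Quotient (⊤ : Setoid (Fin m))) := ⟨Quotient.mk _ ⟨0, hm⟩⟩
  have : Subsingleton (Quotient (⊤ : Setoid (Fin m))) := by
    constructor
    intro a b
    induction a using Quotient.inductionOn
    induction b using Quotient.inductionOn
    exact Quotient.sound trivial
  exact Nat.card_unique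

theorem cls_bot : cls (⊥ : Setoid (Fin m)) = m := by
  unfold cls
  have e : Fin m ≃ Quotient (⊥ : Setoid (Fin m)) :=
    Equiv.ofBijective (Quotient.mk _) ⟨by
      intro a b h
      exact Quotient.exact h, Quotient.mk_surjective⟩
  rw [← Nat.card_congr e]
  simp

theorem ya_eq (x : ℝ) (s : Setoid (Fin m)) :
    ya x s = ((x - 1) * (x - 2)) ^ rel s * ((x - 1) * (x - 2) + 1) ^ (m * m - rel s) := by
  unfold ya
  rw [Finset.prod_ite, Finset.prod_const, Finset.prod_const, card_split]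
  rfl

theorem yb_eq (x : ℝ) (s : Setoid (Fin m)) :
    yb x s = (x - 1) ^ rel s * (x - 2) ^ (m * m - rel s) := by
  unfold yb
  rw [Finset.prod_ite, Finset.prod_const, Finset.prod_const, card_split]
  rfl

theorem ya_pos {x : ℝ} (hx : 3 ≤ x) (s : Setoid (Fin m)) : 0 < ya x s := by
  rw [ya_eq]
  have h1 : 0 < x - 1 := by linarith
  have h2 : 0 < x - 2 := by linarith
  positivity

theorem yb_pos {x : ℝ} (hx : 3 ≤ x) (s : Setoid (Fin m)) : 0 < yb x s := by
  rw [yb_eq]
  have h1 : 0 < x - 1 := by linarith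
  have h2 : 0 < x - 2 := by linarith
  positivity

/-! ### signs of the falling factorial -/

theorem dsc_nonneg {k : ℕ} {x : ℝ} (h : (k : ℝ) ≤ x) : 0 ≤ dsc k x := by
  unfold dsc
  apply Finset.prod_nonneg
  intro j hj
  have : (j : ℝ) ≤ k := by exact_mod_cast (Finset.mem_range.1 hj).le
  linarith

theorem dsc_one (x : ℝ) : dsc 1 x = x := by
  unfold dsc
  simp

theorem abs_dsc_le {k m : ℕ} {x : ℝ} (hk : k ≤ m) (hm : 0 < m) (h0 : 0 ≤ x) (h : x ≤ m) :
    |dsc k x| ≤ (m : ℝ) ^ m := by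
  unfold dsc
  rw [Finset.abs_prod]
  have h1 : ∏ j ∈ range k, |x - (j : ℝ)| ≤ ∏ _j ∈ range k, (m : ℝ) := by
    apply Finset.prod_le_prod
    · intro i _
      exact abs_nonneg _
    · intro j hj
      have h2 : (j : ℝ) ≤ m := by
        have := Finset.mem_range.1 hj
        exact_mod_cast (by omega : j ≤ m)
      have h3 : (0 : ℝ) ≤ j := Nat.cast_nonneg j
      rw [abs_le]
      constructor <;> linarith
  refine h1.trans ?_
  rw [Finset.prod_const, Finset.card_range]
  have : (1 : ℝ) ≤ m := by exact_mod_cast hm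
  exact pow_le_pow_right₀ this hk

/-! ### the chromatic polynomial is positive on `[3, ∞)` -/

theorem ratio_le {x M : ℝ} (hx : 3 ≤ x) (hM : x ≤ M) :
    ((x - 1) * (x - 2) + 1) * (x - 2) ≤ (1 - 1 / M ^ 2) * ((x - 1) * (x - 2) * (x - 1)) := by
  have hM0 : 0 < M := by linarith
  have h1 : (1 : ℝ) / M ^ 2 ≤ (x - 2) / (x - 1) ^ 2 := by
    rw [div_le_div_iff₀ (by positivity) (by nlinarith)]
    have : (x - 1) ^ 2 ≤ M ^ 2 := by nlinarith
    nlinarith [sq_nonneg M]
  have h2 : 0 < x - 2 := by linarith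
  have h3 : 0 < x - 1 := by linarith
  have h4 : (1 - (x - 2) / (x - 1) ^ 2) * ((x - 1) * (x - 2) * (x - 1)) =
      ((x - 1) * (x - 2) + 1) * (x - 2) := by
    field_simp
    ring
  rw [← h4]
  apply mul_le_mul_of_nonneg_right _ (by positivity)
  linarith

theorem yab_le {x M : ℝ} (hx : 3 ≤ x) (hM : x ≤ M) {s : Setoid (Fin m)} (hs : s ≠ ⊤) :
    ya x s * yb x s ≤ (1 - 1 / M ^ 2) * (ya x (⊤ : Setoid (Fin m)) * yb x (⊤ : Setoid (Fin m))) := by
  have hM0 : 0 < M := by linarith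
  have hr := rel_lt_of_ne_top hs
  obtain ⟨f, hf⟩ : ∃ f, m * m - rel s = f + 1 := ⟨m * m - rel s - 1, by omega⟩
  have hE : m * m = rel s + (f + 1) := by omega
  have h2 : 0 < x - 2 := by linarith
  have h3 : 0 < x - 1 := by linarith
  set ρ : ℝ := 1 - 1 / M ^ 2 with hρ
  have hρ1 : ρ ≤ 1 := by
    rw [hρ]
    have : 0 < 1 / M ^ 2 := by positivity
    linarith
  have hρ0 : 0 ≤ ρ := by
    rw [hρ]
    have : 1 / M ^ 2 ≤ 1 := by
      rw [div_le_one (by positivity)]
      nlinarith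
    linarith
  have hrat := ratio_le hx hM
  rw [← hρ] at hrat
  set A : ℝ := ((x - 1) * (x - 2) + 1) * (x - 2) with hA
  set B : ℝ := (x - 1) * (x - 2) * (x - 1) with hB
  have hA0 : 0 ≤ A := by rw [hA]; positivity
  have hB0 : 0 < B := by rw [hB]; positivity
  have e1 : ya x s * yb x s = B ^ rel s * A ^ (f + 1) := by
    rw [ya_eq, yb_eq, hf, hA, hB]
    rw [mul_pow ((x - 1) * (x - 2)) (x - 1), mul_pow ((x - 1) * (x - 2) + 1) (x - 2)]
    ring
  have e2 : ya x (⊤ : Setoid (Fin m)) * yb x (⊤ : Setoid (Fin m)) = B ^ rel s * B ^ (f + 1) := by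
    rw [ya_eq, yb_eq, rel_top, Nat.sub_self, pow_zero, pow_zero, mul_one, mul_one, ← mul_pow, ← hB,
      hE, pow_add]
  rw [e1, e2]
  have h5 : A ^ (f + 1) ≤ ρ * B ^ (f + 1) := by
    calc A ^ (f + 1) ≤ (ρ * B) ^ (f + 1) := pow_le_pow_left₀ hA0 hrat _
      _ = ρ ^ (f + 1) * B ^ (f + 1) := by rw [mul_pow]
      _ ≤ ρ * B ^ (f + 1) := by
          apply mul_le_mul_of_nonneg_right _ (by positivity)
          calc ρ ^ (f + 1) ≤ ρ ^ 1 := pow_le_pow_of_le_one hρ0 hρ1 (by omega)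
            _ = ρ := pow_one ρ
  calc B ^ rel s * A ^ (f + 1) ≤ B ^ rel s * (ρ * B ^ (f + 1)) :=
        mul_le_mul_of_nonneg_left h5 (by positivity)
    _ = ρ * (B ^ rel s * B ^ (f + 1)) := by ring

theorem PF_pos_large (hm : 0 < m) (N : ℕ) {x : ℝ} (hx : 3 ≤ x) (hmx : (m : ℝ) ≤ x) :
    0 < PF m N x := by
  unfold PF
  apply Finset.sum_pos'
  · intro s _
    have h1 : (cls s : ℝ) ≤ x := le_trans (by exact_mod_cast cls_le s) hmx
    exact mul_nonneg (dsc_nonneg h1) (mul_nonneg (pow_nonneg (ya_pos hx s).le _)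
      (pow_nonneg (yb_pos hx s).le _))
  · refine ⟨⊤, mem_univ _, ?_⟩
    rw [cls_top hm, dsc_one]
    exact mul_pos (by linarith) (mul_pos (pow_pos (ya_pos hx _) _) (pow_pos (yb_pos hx _) _))

theorem PF_pos (hm : 3 ≤ m) : ∃ N0 : ℕ, ∀ N, N0 ≤ N → ∀ x : ℝ, 3 ≤ x → 0 < PF m N x := by
  have hm0 : 0 < m := by omega
  have hmR : (3 : ℝ) ≤ m := by exact_mod_cast hm
  set ρ : ℝ := 1 - 1 / (m : ℝ) ^ 2 with hρ
  have hρ1 : ρ < 1 := by
    rw [hρ]
    have : 0 < 1 / (m : ℝ) ^ 2 := by positivity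
    linarith
  have hρ0 : 0 ≤ ρ := by
    rw [hρ]
    have : 1 / (m : ℝ) ^ 2 ≤ 1 := by
      rw [div_le_one (by positivity)]
      nlinarith
    linarith
  set C : ℝ := (Fintype.card (Setoid (Fin m)) : ℝ) * (m : ℝ) ^ m with hC
  have hC0 : 0 ≤ C := by positivity
  have ht : Tendsto (fun N : ℕ => C * ρ ^ N) atTop (𝓝 (C * 0)) :=
    (tendsto_pow_atTop_nhds_zero_of_lt_one hρ0 hρ1).const_mul C
  rw [mul_zero] at ht
  obtain ⟨N0, hN0⟩ := Filter.eventually_atTop.1 (ht.eventually (gt_mem_nhds (by norm_num : (0:ℝ) < 3)))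
  refine ⟨N0, fun N hN x hx => ?_⟩
  by_cases hmx : (m : ℝ) ≤ x
  · exact PF_pos_large hm0 N hx hmx
  push Not at hmx
  have hxm : x ≤ m := hmx.le
  set T : ℝ := ya x (⊤ : Setoid (Fin m)) * yb x (⊤ : Setoid (Fin m)) with hT
  have hT0 : 0 < T := mul_pos (ya_pos hx _) (yb_pos hx _)
  unfold PF
  rw [← Finset.add_sum_erase univ _ (mem_univ (⊤ : Setoid (Fin m)))]
  rw [cls_top hm0, dsc_one, ← mul_pow, ← hT]
  have hbound : ∀ s ∈ univ.erase (⊤ : Setoid (Fin m)),
      -((m : ℝ) ^ m * (ρ ^ N * T ^ N)) ≤ dsc (cls s) x * (ya x s ^ N * yb x s ^ N) := by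
    intro s hs
    have hs' : s ≠ ⊤ := (Finset.mem_erase.1 hs).1
    have h1 := abs_dsc_le (cls_le s) hm0 (by linarith : (0:ℝ) ≤ x) hxm
    have h2 : 0 ≤ ya x s * yb x s := (mul_pos (ya_pos hx _) (yb_pos hx _)).le
    have h3 : (ya x s * yb x s) ^ N ≤ (ρ * T) ^ N := pow_le_pow_left₀ h2 (yab_le hx hxm hs') N
    rw [← mul_pow, ← mul_pow]
    have h4 : |dsc (cls s) x * (ya x s * yb x s) ^ N| ≤ (m : ℝ) ^ m * (ρ * T) ^ N := by
      rw [abs_mul, abs_of_nonneg (pow_nonneg h2 N)]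
      exact mul_le_mul h1 h3 (pow_nonneg h2 N) (by positivity)
    exact (abs_le.1 h4).1
  have hsum := Finset.sum_le_sum hbound
  rw [Finset.sum_const, nsmul_eq_mul] at hsum
  have hcard : ((univ.erase (⊤ : Setoid (Fin m))).card : ℝ) ≤ Fintype.card (Setoid (Fin m)) := by
    exact_mod_cast (Finset.card_le_card (Finset.erase_subset _ _)).trans (le_of_eq Finset.card_univ)
  have hk : C * ρ ^ N < 3 := hN0 N hN
  have hTN : 0 < T ^ N := pow_pos hT0 N
  have hρN : 0 ≤ ρ ^ N := pow_nonneg hρ0 N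
  have h6 : ((univ.erase (⊤ : Setoid (Fin m))).card : ℝ) * ((m : ℝ) ^ m * (ρ ^ N * T ^ N)) ≤
      (C * ρ ^ N) * T ^ N := by
    rw [hC]
    have : 0 ≤ (m : ℝ) ^ m * (ρ ^ N * T ^ N) := by positivity
    calc ((univ.erase (⊤ : Setoid (Fin m))).card : ℝ) * ((m : ℝ) ^ m * (ρ ^ N * T ^ N))
        ≤ (Fintype.card (Setoid (Fin m)) : ℝ) * ((m : ℝ) ^ m * (ρ ^ N * T ^ N)) :=
          mul_le_mul_of_nonneg_right hcard this
      _ = _ := by ring
  have h7 : (C * ρ ^ N) * T ^ N < 3 * T ^ N := mul_lt_mul_of_pos_right hk hTN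
  have h8 : 3 * T ^ N ≤ x * T ^ N := mul_le_mul_of_nonneg_right hx hTN.le
  nlinarith [hsum, h6, h7, h8]

/-! ### the orbital polynomial -/

theorem asc_pos {y : ℝ} (hy : 0 < y) (n : ℕ) : 0 < asc n y := by
  unfold asc
  apply Finset.prod_pos
  intro j _
  positivity

theorem QF_pos_large (hm : 0 < m) (N : ℕ) {x : ℝ} (hx : 3 ≤ x) (hmx : (m : ℝ) ≤ x) :
    0 < QF m N x := by
  unfold QF
  apply Finset.sum_pos'
  · intro s _
    have h1 : (cls s : ℝ) ≤ x := le_trans (by exact_mod_cast cls_le s) hmx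
    exact mul_nonneg (dsc_nonneg h1) (mul_nonneg (asc_pos (ya_pos hx s) _).le
      (asc_pos (yb_pos hx s) _).le)
  · refine ⟨⊤, mem_univ _, ?_⟩
    rw [cls_top hm, dsc_one]
    exact mul_pos (by linarith) (mul_pos (asc_pos (ya_pos hx _) _) (asc_pos (yb_pos hx _) _))

theorem asc_succ_eq {y : ℝ} (hy : 0 < y) {n : ℕ} (hn : 0 < n) :
    asc (n + 1) y = (n : ℝ) ^ y * (n.factorial : ℝ) / Real.GammaSeq y n := by
  have h1 : Real.GammaSeq y n = (n : ℝ) ^ y * (n.factorial : ℝ) / asc (n + 1) y := rfl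
  have h2 := asc_pos hy (n + 1)
  have h3 : (0 : ℝ) < (n : ℝ) ^ y * (n.factorial : ℝ) := by positivity
  rw [h1]
  field_simp

theorem ratio_tendsto {a0 b0 a1 b1 : ℝ} (ha0 : 0 < a0) (hb0 : 0 < b0) (ha1 : 0 < a1) (hb1 : 0 < b1)
    (h : a1 + b1 < a0 + b0) :
    Tendsto (fun n : ℕ => (asc n a1 * asc n b1) / (asc n a0 * asc n b0)) atTop (𝓝 0) := by
  rw [← Filter.tendsto_add_atTop_iff_nat 1]
  have hG : ∀ {y : ℝ}, 0 < y → Tendsto (Real.GammaSeq y) atTop (𝓝 (Real.Gamma y)) :=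
    fun {y} _ => Real.GammaSeq_tendsto_Gamma y
  have hpos : ∀ {y : ℝ}, 0 < y → Real.Gamma y ≠ 0 := fun hy => (Real.Gamma_pos_of_pos hy).ne'
  have h1 : Tendsto (fun n : ℕ => ((Real.GammaSeq a0 n * Real.GammaSeq b0 n) /
      (Real.GammaSeq a1 n * Real.GammaSeq b1 n))) atTop
      (𝓝 ((Real.Gamma a0 * Real.Gamma b0) / (Real.Gamma a1 * Real.Gamma b1))) :=
    ((hG ha0).mul (hG hb0)).div ((hG ha1).mul (hG hb1)) (mul_ne_zero (hpos ha1) (hpos hb1))
  have h2 : Tendsto (fun n : ℕ => (n : ℝ) ^ (-((a0 + b0) - (a1 + b1)))) atTop (𝓝 0) :=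
    (tendsto_rpow_neg_atTop (by linarith)).comp tendsto_natCast_atTop_atTop
  have h3 := h2.mul h1
  rw [zero_mul] at h3
  refine h3.congr' ?_
  filter_upwards [Filter.eventually_gt_atTop 0] with n hn
  have hnR : (0 : ℝ) < n := by exact_mod_cast hn
  have hgs : ∀ {y : ℝ}, 0 < y → 0 < Real.GammaSeq y n := by
    intro y hy
    have h1 : Real.GammaSeq y n = (n : ℝ) ^ y * (n.factorial : ℝ) / asc (n + 1) y := rfl
    rw [h1]
    have := asc_pos hy (n + 1)
    positivity
  rw [asc_succ_eq ha0 hn, asc_succ_eq hb0 hn, asc_succ_eq ha1 hn, asc_succ_eq hb1 hn]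
  have e0 := hgs ha0
  have e1 := hgs hb0
  have e2 := hgs ha1
  have e3 := hgs hb1
  have e4 : (n : ℝ) ^ (-((a0 + b0) - (a1 + b1))) =
      ((n : ℝ) ^ a1 * (n : ℝ) ^ b1) / ((n : ℝ) ^ a0 * (n : ℝ) ^ b0) := by
    rw [← Real.rpow_add hnR, ← Real.rpow_add hnR, ← Real.rpow_sub hnR]
    congr 1
    ring
  rw [e4]
  have f0 : (0 : ℝ) < (n : ℝ) ^ a0 := by positivity
  have f1 : (0 : ℝ) < (n : ℝ) ^ b0 := by positivity
  have f2 : (0 : ℝ) < (n.factorial : ℝ) := by positivity
  field_simp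

theorem sum_lt {x : ℝ} (hx : 4 ≤ x) (hm : 2 ≤ m) {s : Setoid (Fin m)} (hs : s ≠ ⊥) :
    ya x s + yb x s < ya x (⊥ : Setoid (Fin m)) + yb x (⊥ : Setoid (Fin m)) := by
  have hr := lt_rel_of_ne_bot hs
  have hle := rel_le s
  rw [ya_eq, yb_eq, ya_eq, yb_eq, rel_bot]
  obtain ⟨f, hf⟩ : ∃ f, rel s = m + (f + 1) := ⟨rel s - m - 1, by omega⟩
  obtain ⟨g, hg⟩ : ∃ g, m * m - rel s = g := ⟨_, rfl⟩
  have hE : m * m - m = g + f + 1 := by omega
  have hEm : m + (f + 1) + g = m * m := by omega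
  rw [hg, hf, hE]
  set u : ℝ := x - 1 with hu
  set v : ℝ := x - 2 with hv
  have hu3 : 3 ≤ u := by rw [hu]; linarith
  have hv2 : 2 ≤ v := by rw [hv]; linarith
  have huv : u = v + 1 := by rw [hu, hv]; ring
  set a : ℝ := u * v with ha
  have ha0 : 0 < a := by rw [ha]; positivity
  -- main difference of the first products
  have h1 : (a + 1) ^ f + a ^ (f + 1) ≤ (a + 1) ^ (f + 1) := by
    have : a ^ f ≤ (a + 1) ^ f := pow_le_pow_left₀ ha0.le (by linarith) f
    calc (a + 1) ^ f + a ^ (f + 1) = (a + 1) ^ f + a * a ^ f := by ring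
      _ ≤ (a + 1) ^ f + a * (a + 1) ^ f := by
          have := mul_le_mul_of_nonneg_left this ha0.le
          linarith
      _ = (a + 1) ^ (f + 1) := by ring
  have h2 : a ^ (m + (f + 1)) * (a + 1) ^ g + a ^ m * (a + 1) ^ (g + f) ≤
      a ^ m * (a + 1) ^ (g + f + 1) := by
    have : a ^ m * (a + 1) ^ g * ((a + 1) ^ f + a ^ (f + 1)) ≤
        a ^ m * (a + 1) ^ g * (a + 1) ^ (f + 1) := mul_le_mul_of_nonneg_left h1 (by positivity)
    calc a ^ (m + (f + 1)) * (a + 1) ^ g + a ^ m * (a + 1) ^ (g + f)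
        = a ^ m * (a + 1) ^ g * ((a + 1) ^ f + a ^ (f + 1)) := by ring
      _ ≤ a ^ m * (a + 1) ^ g * (a + 1) ^ (f + 1) := this
      _ = a ^ m * (a + 1) ^ (g + f + 1) := by ring
  have h3 : u ^ (m + (f + 1)) * v ^ g ≤ u ^ (m + (f + 1) + g) := by
    rw [pow_add u (m + (f + 1)) g]
    apply mul_le_mul_of_nonneg_left _ (by positivity)
    exact pow_le_pow_left₀ (by linarith) (by linarith) g
  have h4 : u ^ (m + (f + 1) + g) < a ^ m * (a + 1) ^ (g + f) := by
    have h5 : a ^ (m + (g + f)) ≤ a ^ m * (a + 1) ^ (g + f) := by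
      rw [pow_add]
      apply mul_le_mul_of_nonneg_left _ (by positivity)
      exact pow_le_pow_left₀ ha0.le (by linarith) _
    have h6 : u ^ (m + (f + 1) + g) < a ^ (m + (g + f)) := by
      have h7 : a ^ (m + (g + f)) = u ^ (m + (g + f)) * v ^ (m + (g + f)) := by rw [ha, mul_pow]
      have h8 : u ^ (m + (f + 1) + g) = u ^ (m + (g + f)) * u := by
        rw [← pow_succ]
        congr 1
        omega
      rw [h7, h8]
      apply mul_lt_mul_of_pos_left _ (by positivity)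
      have h9 : v ^ 2 ≤ v ^ (m + (g + f)) := pow_le_pow_right₀ (by linarith) (by omega)
      have h10 : u < v ^ 2 := by
        rw [huv]
        nlinarith
      linarith
    linarith
  have h11 : 0 < u ^ m * v ^ (g + f + 1) := by positivity
  linarith

theorem dsc_neg (hm : 2 ≤ m) : dsc m ((m : ℝ) - 3 / 2) < 0 := by
  obtain ⟨k, rfl⟩ : ∃ k, m = k + 1 := ⟨m - 1, by omega⟩
  unfold dsc
  rw [Finset.prod_range_succ]
  apply mul_neg_of_pos_of_neg
  · apply Finset.prod_pos
    intro j hj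
    have : (j : ℝ) + 1 ≤ k := by exact_mod_cast (Finset.mem_range.1 hj)
    push_cast
    linarith
  · push_cast
    linarith

theorem QF_neg (hm : 6 ≤ m) : ∀ᶠ N : ℕ in atTop, QF m N ((m : ℝ) - 3 / 2) < 0 := by
  set x : ℝ := (m : ℝ) - 3 / 2 with hx
  have hmR : (6 : ℝ) ≤ m := by exact_mod_cast hm
  have hx4 : 4 ≤ x := by rw [hx]; linarith
  have hx3 : 3 ≤ x := by linarith
  have hlim : Tendsto (fun N : ℕ => QF m N x /
      (asc N (ya x (⊥ : Setoid (Fin m))) * asc N (yb x (⊥ : Setoid (Fin m))))) atTop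
      (𝓝 (∑ s : Setoid (Fin m), if s = ⊥ then dsc m x else 0)) := by
    have hfun : ∀ N : ℕ, QF m N x /
      (asc N (ya x (⊥ : Setoid (Fin m))) * asc N (yb x (⊥ : Setoid (Fin m)))) =
      ∑ s : Setoid (Fin m), dsc (cls s) x * ((asc N (ya x s) * asc N (yb x s)) /
        (asc N (ya x (⊥ : Setoid (Fin m))) * asc N (yb x (⊥ : Setoid (Fin m))))) := by
      intro N
      unfold QF
      rw [Finset.sum_div]
      apply Finset.sum_congr rfl
      intro s _
      rw [mul_div_assoc]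
    simp_rw [hfun]
    apply tendsto_finsetSum
    intro s _
    by_cases hs : s = ⊥
    · rw [if_pos hs, hs, cls_bot]
      have : ∀ N : ℕ, dsc m x * ((asc N (ya x (⊥ : Setoid (Fin m))) * asc N (yb x (⊥ : Setoid (Fin m)))) /
        (asc N (ya x (⊥ : Setoid (Fin m))) * asc N (yb x (⊥ : Setoid (Fin m))))) = dsc m x := by
        intro N
        rw [div_self, mul_one]
        exact (mul_pos (asc_pos (ya_pos hx3 _) _) (asc_pos (yb_pos hx3 _) _)).ne'
      simp_rw [this]
      exact tendsto_const_nhds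
    · rw [if_neg hs]
      have h1 := ratio_tendsto (ya_pos hx3 (⊥ : Setoid (Fin m))) (yb_pos hx3 (⊥ : Setoid (Fin m)))
        (ya_pos hx3 s) (yb_pos hx3 s) (sum_lt hx4 (by omega) hs)
      have h2 := h1.const_mul (dsc (cls s) x)
      rw [mul_zero] at h2
      exact h2
  rw [Finset.sum_ite_eq' univ (⊥ : Setoid (Fin m)) (fun _ => dsc m x), if_pos (mem_univ _)] at hlim
  have hneg : dsc m x < 0 := dsc_neg (by omega)
  filter_upwards [hlim.eventually (gt_mem_nhds hneg)] with N hN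
  have hp : 0 < asc N (ya x (⊥ : Setoid (Fin m))) * asc N (yb x (⊥ : Setoid (Fin m))) :=
    mul_pos (asc_pos (ya_pos hx3 _) _) (asc_pos (yb_pos hx3 _) _)
  rw [div_lt_iff₀ hp, zero_mul] at hN
  exact hN

end

end Pool.Agent.R643.OC
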