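import Mathlib
import Pool.Agent.R643.OCAna

/-!
Orbital chromatic roots, counting part: the graph, the group, the numbers of colourings and of
orbits of colourings.
-/

open Polynomial Finset

namespace Pool.Agent.R643.OC

noncomputable section
open Classical

/-! ### functions on `Fin N` up to permutation of the argument -/

/-- the symmetric power element given by a function -/
def symOf {N : ℕ} {α : Type*} (f : Fin N → α) : Sym α N :=
  ⟨(univ : Finset (Fin N)).val.map f, by simp⟩

theorem symOf_surjective {N : ℕ} {α : Type*} : Function.Surjective (symOf (N := N) (α := α)) := by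
  rintro ⟨s, hs⟩
  induction s using Quotient.inductionOn with
  | h l =>
    have hl : l.length = N := by simpa using hs
    subst hl
    refine ⟨l.get, ?_⟩
    apply Subtype.ext
    show (univ : Finset (Fin l.length)).val.map l.get = (l : Multiset α)
    rw [Fin.univ_val_map, List.ofFn_get]

theorem symOf_eq_iff {N : ℕ} {α : Type*} (f g : Fin N → α) :
    symOf f = symOf g ↔ ∃ σ : Equiv.Perm (Fin N), ∀ t, g t = f (σ t) := by
  constructor
  · intro h
    have h' : (univ : Finset (Fin N)).val.map f = (univ : Finset (Fin N)).val.map g :=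
      congrArg Subtype.val h
    have hc : ∀ a : α, Nonempty ({t // g t = a} ≃ {t // f t = a}) := by
      intro a
      have h1 := congrArg (Multiset.count a) h'
      rw [Multiset.count_map, Multiset.count_map] at h1
      have h2 : ∀ k : Fin N → α, Fintype.card {t // k t = a} =
          Multiset.card (Multiset.filter (fun b => a = k b) (univ : Finset (Fin N)).val) := by
        intro k
        rw [Fintype.card_subtype]
        have : (univ.filter fun t => k t = a) = univ.filter fun t => a = k t := by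
          ext t
          simp [eq_comm]
        rw [this]
        rfl
      apply Fintype.card_eq.1
      rw [h2, h2, h1]
    refine ⟨Equiv.ofFiberEquiv (fun a => (hc a).some), fun t => ?_⟩
    exact (Equiv.ofFiberEquiv_map (fun a => (hc a).some) t).symm
  · rintro ⟨σ, hσ⟩
    apply Subtype.ext
    show (univ : Finset (Fin N)).val.map f = (univ : Finset (Fin N)).val.map g
    have : g = f ∘ σ := funext hσ
    rw [this, ← Multiset.map_map, Multiset.map_univ_val_equiv]

/-! ### casts of factorial-type numbers -/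

theorem dsc_cast (q k : ℕ) : dsc k (q : ℝ) = (q.descFactorial k : ℝ) := by
  induction k with
  | zero => simp [dsc]
  | succ k ih =>
    have h1 : dsc (k + 1) (q : ℝ) = dsc k (q : ℝ) * ((q : ℝ) - k) := by
      unfold dsc
      rw [Finset.prod_range_succ]
    rw [h1, ih, Nat.descFactorial_succ]
    by_cases h : k ≤ q
    · push_cast [Nat.cast_sub h]
      ring
    · push Not at h
      rw [Nat.descFactorial_of_lt h]
      simp

theorem asc_cast (y n : ℕ) : asc n (y : ℝ) = (n.factorial : ℝ) * (y.multichoose n : ℝ) := by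
  have h1 : asc n (y : ℝ) = (y.ascFactorial n : ℝ) := by
    induction n with
    | zero => simp [asc]
    | succ n ih =>
      have h2 : asc (n + 1) (y : ℝ) = asc n (y : ℝ) * ((y : ℝ) + n) := by
        unfold asc
        rw [Finset.prod_range_succ]
      rw [h2, ih, Nat.ascFactorial_succ]
      push_cast
      ring
  rw [h1, Nat.multichoose_eq, Nat.ascFactorial_eq_factorial_mul_choose']
  push_cast
  ring

/-! ### the number of functions with a given kernel -/

theorem card_ker {m : ℕ} (q : ℕ) (s : Setoid (Fin m)) :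
    Nat.card {c : Fin m → Fin q // Setoid.ker c = s} = q.descFactorial (cls s) := by
  have e : (Quotient s ↪ Fin q) ≃ {c : Fin m → Fin q // Setoid.ker c = s} :=
    Equiv.ofBijective (fun f => ⟨fun i => f (Quotient.mk s i), by
      ext a b
      constructor
      · intro h
        exact Quotient.exact (f.injective h)
      · intro h
        exact congrArg f (Quotient.sound h)⟩) (by
      constructor
      · intro f g h
        have h' := congrArg Subtype.val h
        ext x
        induction x using Quotient.inductionOn with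
        | h a => exact congrArg Fin.val (congrFun h' a)
      · rintro ⟨c, hc⟩
        subst hc
        refine ⟨⟨Quotient.lift c (fun a b h => h), ?_⟩, ?_⟩
        · intro x y hxy
          induction x using Quotient.inductionOn with
          | h a =>
            induction y using Quotient.inductionOn with
            | h b => exact Quotient.sound hxy
        · apply Subtype.ext
          rfl)
  rw [← Nat.card_congr e, Nat.card_eq_fintype_card, Fintype.card_embedding_eq]
  simp [cls, Nat.card_eq_fintype_card]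

theorem sum_ker {m : ℕ} (q : ℕ) (F : Setoid (Fin m) → ℝ) :
    ∑ c : Fin m → Fin q, F (Setoid.ker c) = ∑ s : Setoid (Fin m), dsc (cls s) (q : ℝ) * F s := by
  rw [← Finset.sum_fiberwise (univ : Finset (Fin m → Fin q)) (fun c => Setoid.ker c)
    (fun c => F (Setoid.ker c))]
  apply Finset.sum_congr rfl
  intro s _
  have h1 : ∀ c ∈ univ.filter (fun c : Fin m → Fin q => Setoid.ker c = s), F (Setoid.ker c) = F s := by
    intro c hc
    rw [(Finset.mem_filter.1 hc).2]
  rw [Finset.sum_congr rfl h1, Finset.sum_const, nsmul_eq_mul, dsc_cast, ← card_ker,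
    Nat.card_eq_fintype_card, Fintype.card_subtype]

/-! ### extension counts -/

theorem card_one {q : ℕ} (a b : Fin q) :
    (Nat.card {x : Fin q // x ≠ a ∧ x ≠ b} : ℝ) = if a = b then (q : ℝ) - 1 else (q : ℝ) - 2 := by
  rw [Nat.card_eq_fintype_card, Fintype.card_subtype]
  have h1 : (univ.filter fun x : Fin q => x ≠ a ∧ x ≠ b) = ({a, b} : Finset (Fin q))ᶜ := by
    ext x
    simp
  rw [h1, Finset.card_compl, Fintype.card_fin]
  have hle : ({a, b} : Finset (Fin q)).card ≤ q := by
    have := Finset.card_le_univ ({a, b} : Finset (Fin q))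
    simpa using this
  rw [Nat.cast_sub hle]
  by_cases hab : a = b
  · subst hab
    simp
  · rw [if_neg hab, Finset.card_pair hab]
    norm_num

theorem card_two {q : ℕ} (a b : Fin q) :
    (Nat.card {x : Fin q × Fin q // x.1 ≠ a ∧ x.2 ≠ b ∧ x.1 ≠ x.2} : ℝ) =
      if a = b then ((q : ℝ) - 1) * ((q : ℝ) - 2) else ((q : ℝ) - 1) * ((q : ℝ) - 2) + 1 := by
  have e : {x : Fin q × Fin q // x.1 ≠ a ∧ x.2 ≠ b ∧ x.1 ≠ x.2} ≃
      (Σ u : {u : Fin q // u ≠ a}, {v : Fin q // v ≠ b ∧ v ≠ u.1}) :=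
    { toFun := fun x => ⟨⟨x.1.1, x.2.1⟩, ⟨x.1.2, x.2.2.1, fun h => x.2.2.2 h.symm⟩⟩
      invFun := fun y => ⟨(y.1.1, y.2.1), y.1.2, y.2.2.1, fun h => y.2.2.2 h.symm⟩
      left_inv := fun x => rfl
      right_inv := fun y => rfl }
  rw [Nat.card_congr e, Nat.card_sigma]
  push_cast
  have h1 : ∀ u : {u : Fin q // u ≠ a}, (Nat.card {v : Fin q // v ≠ b ∧ v ≠ u.1} : ℝ) =
      ((q : ℝ) - 2) + if b = u.1 then 1 else 0 := by
    intro u
    rw [card_one]
    split_ifs <;> ring
  rw [Finset.sum_congr rfl (fun u _ => h1 u), Finset.sum_add_distrib, Finset.sum_const, nsmul_eq_mul]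
  have h2 : ((univ : Finset {u : Fin q // u ≠ a}).card : ℝ) = (q : ℝ) - 1 := by
    have := card_one a a
    rw [if_pos rfl, Nat.card_eq_fintype_card] at this
    rw [← this, Finset.card_univ]
    congr 1
    apply Fintype.card_congr
    exact Equiv.subtypeEquivRight (fun x => by simp)
  rw [h2]
  have h3 : ∑ u : {u : Fin q // u ≠ a}, (if b = u.1 then (1 : ℝ) else 0) = if a = b then 0 else 1 := by
    by_cases hab : a = b
    · rw [if_pos hab]
      apply Finset.sum_eq_zero
      intro u _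
      rw [if_neg]
      intro h
      exact u.2 (by rw [← h, hab])
    · rw [if_neg hab]
      rw [Finset.sum_eq_single (⟨b, fun h => hab h.symm⟩ : {u : Fin q // u ≠ a})]
      · simp
      · intro u _ hu
        rw [if_neg]
        intro h
        exact hu (Subtype.ext h.symm)
      · intro h
        exact absurd (mem_univ _) h
  rw [h3]
  split_ifs <;> ring

/-! ### the graph -/

/-- vertices: `m` base vertices, `N` copies of all middle vertices of paths of length two, `N`
copies of all inner vertices of paths of length three, one path for each ordered pair of base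
vertices -/
abbrev Vx (m N : ℕ) : Type :=
  Fin m ⊕ ((Fin N × (Fin m × Fin m)) ⊕ (Fin N × (Fin m × Fin m) × Bool))

variable {m N : ℕ}

def dir : Vx m N → Vx m N → Prop
  | Sum.inl i, Sum.inr (Sum.inl (_, p)) => i = p.1 ∨ i = p.2
  | Sum.inl i, Sum.inr (Sum.inr (_, p, false)) => i = p.1
  | Sum.inl i, Sum.inr (Sum.inr (_, p, true)) => i = p.2
  | Sum.inr (Sum.inr (t, p, false)), Sum.inr (Sum.inr (t', p', true)) => t = t' ∧ p = p'
  | _, _ => False

theorem dir_irrefl (v : Vx m N) : ¬ dir v v := by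
  rcases v with i | ⟨t, p⟩ | ⟨t, p, _ | _⟩ <;> simp [dir]

/-- the graph -/
def Gam (m N : ℕ) : SimpleGraph (Vx m N) where
  Adj a b := dir a b ∨ dir b a
  symm := ⟨fun _ _ h => Or.symm h⟩
  loopless := ⟨fun v h => h.elim (dir_irrefl v) (dir_irrefl v)⟩

/-- move the copies -/
def mv (σ τ : Equiv.Perm (Fin N)) : Vx m N → Vx m N
  | Sum.inl i => Sum.inl i
  | Sum.inr (Sum.inl (t, p)) => Sum.inr (Sum.inl (σ t, p))
  | Sum.inr (Sum.inr (t, p, b)) => Sum.inr (Sum.inr (τ t, p, b))

theorem dir_mv (σ τ : Equiv.Perm (Fin N)) (a b : Vx m N) : dir (mv σ τ a) (mv σ τ b) ↔ dir a b := by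
  rcases a with i | ⟨t, p⟩ | ⟨t, p, _ | _⟩ <;> rcases b with j | ⟨t', p'⟩ | ⟨t', p', _ | _⟩ <;>
    simp [dir, mv]

theorem mv_mv (σ τ σ' τ' : Equiv.Perm (Fin N)) (a : Vx m N) :
    mv σ τ (mv σ' τ' a) = mv (σ * σ') (τ * τ') a := by
  rcases a with i | ⟨t, p⟩ | ⟨t, p, b⟩ <;> rfl

theorem mv_one (a : Vx m N) : mv (1 : Equiv.Perm (Fin N)) 1 a = a := by
  rcases a with i | ⟨t, p⟩ | ⟨t, p, b⟩ <;> rfl

/-- the automorphism moving the copies -/
def autOf (m : ℕ) (σ τ : Equiv.Perm (Fin N)) : Gam m N ≃g Gam m N where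
  toFun := mv σ τ
  invFun := mv σ⁻¹ τ⁻¹
  left_inv := fun a => by rw [mv_mv, inv_mul_cancel, inv_mul_cancel, mv_one]
  right_inv := fun a => by rw [mv_mv, mul_inv_cancel, mul_inv_cancel, mv_one]
  map_rel_iff' := by
    intro a b
    show (dir (mv σ τ a) (mv σ τ b) ∨ dir (mv σ τ b) (mv σ τ a)) ↔ (dir a b ∨ dir b a)
    rw [dir_mv, dir_mv]

/-- the group -/
def Grp (m N : ℕ) : Subgroup (Gam m N ≃g Gam m N) where
  carrier := {g | ∃ σ τ : Equiv.Perm (Fin N), g = autOf m σ τ}
  mul_mem' := by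
    rintro _ _ ⟨σ, τ, rfl⟩ ⟨σ', τ', rfl⟩
    refine ⟨σ * σ', τ * τ', ?_⟩
    ext a : 1
    exact mv_mv σ τ σ' τ' a
  one_mem' := ⟨1, 1, by
    ext a : 1
    exact (mv_one a).symm⟩
  inv_mem' := by
    rintro _ ⟨σ, τ, rfl⟩
    refine ⟨σ⁻¹, τ⁻¹, ?_⟩
    ext a : 1
    rfl

/-- two proper colourings are equivalent if one is obtained from the other by a member of `G` -/
def colSetoid {V : Type} (Γ : SimpleGraph V) (G : Subgroup (Γ ≃g Γ)) (q : ℕ) :
    Setoid (Γ.Coloring (Fin q)) where
  r κ κ' := ∃ g ∈ G, ∀ v, κ' v = κ (g v)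
  iseqv := by
    refine ⟨fun κ => ⟨1, G.one_mem, fun v => rfl⟩, ?_, ?_⟩
    · rintro κ κ' ⟨g, hg, h⟩
      refine ⟨g⁻¹, G.inv_mem hg, fun v => ?_⟩
      rw [h]
      congr 1
      exact (RelIso.apply_symm_apply g v).symm
    · rintro κ κ' κ'' ⟨g, hg, h⟩ ⟨g', hg', h'⟩
      refine ⟨g * g', G.mul_mem hg hg', fun v => ?_⟩
      rw [h', h]
      rfl

/-! ### colourings as data -/

/-- colours of one copy of all middle vertices -/
abbrev Bt {q : ℕ} (c : Fin m → Fin q) : Type :=
  (p : Fin m × Fin m) → {x : Fin q // x ≠ c p.1 ∧ x ≠ c p.2}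

/-- colours of one copy of all inner pairs -/
abbrev At {q : ℕ} (c : Fin m → Fin q) : Type :=
  (p : Fin m × Fin m) → {x : Fin q × Fin q // x.1 ≠ c p.1 ∧ x.2 ≠ c p.2 ∧ x.1 ≠ x.2}

abbrev Dat (m N q : ℕ) : Type := Σ c : Fin m → Fin q, (Fin N → Bt c) × (Fin N → At c)

theorem adj_base_mid (i : Fin m) (t : Fin N) (p : Fin m × Fin m) (h : i = p.1 ∨ i = p.2) :
    (Gam m N).Adj (Sum.inl i) (Sum.inr (Sum.inl (t, p))) := Or.inl h

theorem adj_base_f (t : Fin N) (p : Fin m × Fin m) :
    (Gam m N).Adj (Sum.inl p.1) (Sum.inr (Sum.inr (t, p, false))) := Or.inl rfl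

theorem adj_base_t (t : Fin N) (p : Fin m × Fin m) :
    (Gam m N).Adj (Sum.inl p.2) (Sum.inr (Sum.inr (t, p, true))) := Or.inl rfl

theorem adj_ft (t : Fin N) (p : Fin m × Fin m) :
    (Gam m N).Adj (Sum.inr (Sum.inr (t, p, false))) (Sum.inr (Sum.inr (t, p, true))) :=
  Or.inl ⟨rfl, rfl⟩

def toDat {q : ℕ} (κ : (Gam m N).Coloring (Fin q)) : Dat m N q :=
  ⟨fun i => κ (Sum.inl i),
    fun t p => ⟨κ (Sum.inr (Sum.inl (t, p))),
      (κ.valid (adj_base_mid p.1 t p (Or.inl rfl))).symm,
      (κ.valid (adj_base_mid p.2 t p (Or.inr rfl))).symm⟩,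
    fun t p => ⟨(κ (Sum.inr (Sum.inr (t, p, false))), κ (Sum.inr (Sum.inr (t, p, true)))),
      (κ.valid (adj_base_f t p)).symm, (κ.valid (adj_base_t t p)).symm, κ.valid (adj_ft t p)⟩⟩

/-- the colour function of a datum -/
def colFun {q : ℕ} (d : Dat m N q) : Vx m N → Fin q
  | Sum.inl i => d.1 i
  | Sum.inr (Sum.inl (t, p)) => (d.2.1 t p).1
  | Sum.inr (Sum.inr (t, p, false)) => (d.2.2 t p).1.1
  | Sum.inr (Sum.inr (t, p, true)) => (d.2.2 t p).1.2

theorem colFun_dir {q : ℕ} (d : Dat m N q) (a b : Vx m N) (h : dir a b) : colFun d a ≠ colFun d b := by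
  rcases a with i | ⟨t, p⟩ | ⟨t, p, _ | _⟩ <;> rcases b with j | ⟨t', p'⟩ | ⟨t', p', _ | _⟩ <;>
    simp only [dir] at h
  · rcases h with h | h
    · subst h
      exact (d.2.1 t' p').2.1.symm
    · subst h
      exact (d.2.1 t' p').2.2.symm
  · subst h
    exact (d.2.2 t' p').2.1.symm
  · subst h
    exact (d.2.2 t' p').2.2.1.symm
  · obtain ⟨rfl, rfl⟩ := h
    exact (d.2.2 t p).2.2.2

def ofDat {q : ℕ} (d : Dat m N q) : (Gam m N).Coloring (Fin q) :=
  SimpleGraph.Coloring.mk (colFun d) (by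
    intro v w h
    rcases h with h | h
    · exact colFun_dir d v w h
    · exact (colFun_dir d w v h).symm)

theorem ofDat_toDat {q : ℕ} (κ : (Gam m N).Coloring (Fin q)) : ofDat (toDat κ) = κ := by
  ext v : 1
  rcases v with i | ⟨t, p⟩ | ⟨t, p, _ | _⟩ <;> rfl

theorem toDat_ofDat {q : ℕ} (d : Dat m N q) : toDat (ofDat d) = d := rfl

def datEquiv (m N q : ℕ) : (Gam m N).Coloring (Fin q) ≃ Dat m N q where
  toFun := toDat
  invFun := ofDat
  left_inv := ofDat_toDat
  right_inv := toDat_ofDat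

theorem card_Bt {q : ℕ} (c : Fin m → Fin q) : (Nat.card (Bt c) : ℝ) = yb (q : ℝ) (Setoid.ker c) := by
  rw [Nat.card_pi, Nat.cast_prod]
  unfold yb
  apply Finset.prod_congr rfl
  intro p _
  rw [card_one]
  by_cases h : c p.1 = c p.2
  · rw [if_pos h, if_pos (show (Setoid.ker c).r p.1 p.2 from h)]
  · rw [if_neg h, if_neg (show ¬ (Setoid.ker c).r p.1 p.2 from h)]

theorem card_At {q : ℕ} (c : Fin m → Fin q) : (Nat.card (At c) : ℝ) = ya (q : ℝ) (Setoid.ker c) := by
  rw [Nat.card_pi, Nat.cast_prod]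
  unfold ya
  apply Finset.prod_congr rfl
  intro p _
  rw [card_two]
  by_cases h : c p.1 = c p.2
  · rw [if_pos h, if_pos (show (Setoid.ker c).r p.1 p.2 from h)]
  · rw [if_neg h, if_neg (show ¬ (Setoid.ker c).r p.1 p.2 from h)]

theorem card_col (m N q : ℕ) : (Nat.card ((Gam m N).Coloring (Fin q)) : ℝ) = PF m N q := by
  rw [Nat.card_congr (datEquiv m N q), Nat.card_sigma, Nat.cast_sum]
  unfold PF
  rw [← sum_ker q (fun s => ya (q : ℝ) s ^ N * yb (q : ℝ) s ^ N)]
  apply Finset.sum_congr rfl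
  intro c _
  rw [Nat.card_prod, Nat.card_fun, Nat.card_fun, Nat.card_eq_fintype_card (α := Fin N), Fintype.card_fin]
  push_cast
  rw [card_Bt, card_At, mul_comm]

/-! ### orbits -/

abbrev SDat (m N q : ℕ) : Type := Σ c : Fin m → Fin q, Sym (Bt c) N × Sym (At c) N

def toS {q : ℕ} (κ : (Gam m N).Coloring (Fin q)) : SDat m N q :=
  ⟨(toDat κ).1, symOf (toDat κ).2.1, symOf (toDat κ).2.2⟩

theorem toS_surjective {q : ℕ} : Function.Surjective (toS (m := m) (N := N) (q := q)) := by
  rintro ⟨c, s, t⟩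
  obtain ⟨f, rfl⟩ := symOf_surjective s
  obtain ⟨g, rfl⟩ := symOf_surjective t
  exact ⟨ofDat ⟨c, f, g⟩, rfl⟩

theorem toS_eq_iff {q : ℕ} (κ κ' : (Gam m N).Coloring (Fin q)) :
    toS κ = toS κ' ↔ ∃ g ∈ Grp m N, ∀ v, κ' v = κ (g v) := by
  obtain ⟨d, rfl⟩ : ∃ d, κ = ofDat d := ⟨toDat κ, (ofDat_toDat κ).symm⟩
  obtain ⟨d', rfl⟩ : ∃ d, κ' = ofDat d := ⟨toDat κ', (ofDat_toDat κ').symm⟩
  obtain ⟨c, f, g⟩ := d
  obtain ⟨c', f', g'⟩ := d'
  constructor
  · intro h
    have hc : c = c' := congrArg Sigma.fst h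
    subst hc
    have h2 : (symOf f, symOf g) = (symOf f', symOf g') := eq_of_heq (Sigma.mk.inj h).2
    obtain ⟨σ, hσ⟩ := (symOf_eq_iff f f').1 (congrArg Prod.fst h2)
    obtain ⟨τ, hτ⟩ := (symOf_eq_iff g g').1 (congrArg Prod.snd h2)
    refine ⟨autOf m σ τ, ⟨σ, τ, rfl⟩, ?_⟩
    rintro (i | ⟨t, p⟩ | ⟨t, p, _ | _⟩)
    · rfl
    · show (f' t p).1 = (f (σ t) p).1
      rw [hσ]
    · show (g' t p).1.1 = (g (τ t) p).1.1
      rw [hτ]
    · show (g' t p).1.2 = (g (τ t) p).1.2
      rw [hτ]
  · rintro ⟨_, ⟨σ, τ, rfl⟩, h⟩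
    have hc : c = c' := by
      funext i
      exact (h (Sum.inl i)).symm
    subst hc
    have hf : symOf f = symOf f' := by
      rw [symOf_eq_iff]
      refine ⟨σ, fun t => ?_⟩
      funext p
      exact Subtype.ext (h (Sum.inr (Sum.inl (t, p))))
    have hg : symOf g = symOf g' := by
      rw [symOf_eq_iff]
      refine ⟨τ, fun t => ?_⟩
      funext p
      exact Subtype.ext (Prod.ext (h (Sum.inr (Sum.inr (t, p, false))))
        (h (Sum.inr (Sum.inr (t, p, true)))))
    show (⟨c, symOf f, symOf g⟩ : SDat m N q) = ⟨c, symOf f', symOf g'⟩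
    rw [hf, hg]

theorem card_orb (m N q : ℕ) :
    ((N.factorial : ℝ) * (N.factorial : ℝ)) *
      (Nat.card (Quotient (colSetoid (Gam m N) (Grp m N) q)) : ℝ) = QF m N q := by
  have e : Quotient (colSetoid (Gam m N) (Grp m N) q) ≃ SDat m N q :=
    Equiv.ofBijective (Quotient.lift toS (fun κ κ' h => (toS_eq_iff κ κ').2 h)) (by
      constructor
      · intro x y
        induction x using Quotient.inductionOn with
        | h κ =>
          induction y using Quotient.inductionOn with
          | h κ' =>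
            intro h
            exact Quotient.sound ((toS_eq_iff κ κ').1 h)
      · intro y
        obtain ⟨κ, hκ⟩ := toS_surjective y
        exact ⟨Quotient.mk _ κ, hκ⟩)
  rw [Nat.card_congr e, Nat.card_sigma, Nat.cast_sum, Finset.mul_sum]
  unfold QF
  rw [← sum_ker q (fun s => asc N (ya (q : ℝ) s) * asc N (yb (q : ℝ) s))]
  apply Finset.sum_congr rfl
  intro c _
  rw [Nat.card_prod, Sym.natCard_sym_eq_multichoose, Sym.natCard_sym_eq_multichoose, ← card_Bt,
    ← card_At, asc_cast, asc_cast]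
  push_cast
  ring

end

end Pool.Agent.R643.OC
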