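import Pool.Agent.R643.Weights

set_option autoImplicit false

/-!
# Property (PH') for the free group of rank two
-/

namespace Pool.Agent.R643

/-- The diagonal action on the `ℓ¹` product is proper: for every bounded set `B` only finitely many
elements carry a point of `B` to a point of `B`. -/
def IsProperDiagonal (G : Type) [Group G] {n : ℕ} (X : Fin n → Type) [∀ i, MetricSpace (X i)]
    [∀ i, MulAction G (X i)] : Prop :=
  ∀ B : Set (∀ i, X i), (∃ C : ℝ, ∀ x ∈ B, ∀ y ∈ B, ∑ i, dist (x i) (y i) ≤ C) →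
    {g : G | ∃ x ∈ B, (fun i => g • x i) ∈ B}.Finite

/-- Property (PH') from focal and lineal actions. -/
def HasPHPrime (G : Type) [Group G] : Prop :=
  ∃ (n : ℕ) (X : Fin n → Type) (_ : ∀ i, MetricSpace (X i)) (_ : ∀ i, MulAction G (X i)),
    (∀ i, IsGeodesicSpace (X i) ∧ IsGromovHyperbolic (X i) ∧ IsIsometricAction G (X i) ∧
      IsCobounded G (X i) ∧ (IsFocal G (X i) ∨ IsLineal G (X i))) ∧ IsProperDiagonal G X

/-- Property (PH) from focal and lineal actions: (PH') for a subgroup of finite index. -/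
def HasPH (G : Type) [Group G] : Prop := ∃ G₀ : Subgroup G, G₀.FiniteIndex ∧ HasPHPrime G₀

/-- the action of `ℤ` by translations of the generators -/
def phi : Multiplicative ℤ →* MulAut (FreeGroup ℤ) where
  toFun n := shift n.toAdd
  map_one' := by
    ext g
    exact shift_zero g
  map_mul' m n := by
    ext g
    exact shift_add m.toAdd n.toAdd g

/-- the semidirect product -/
abbrev Sd : Type := FreeGroup ℤ ⋊[phi] Multiplicative ℤ

theorem phi_apply (n : Multiplicative ℤ) (g : FreeGroup ℤ) : phi n g = shift n.toAdd g := rfl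

section

variable {H : Type} [Group H] (e : H ≃* Sd)

/-- the norm data -/
noncomputable def nd (ε : ℤ) (hε : ε * ε = 1) (w : ℤ → ℝ) (hw : ∀ i, 0 < w i)
    (hc : ∀ i, w (i + ε) = (1 / 2) * w i) : NormData H where
  τ h := ε * (e h).right.toAdd
  τ_mul g h := by
    rw [map_mul, SemidirectProduct.mul_right, toAdd_mul]; ring
  t := e.symm (SemidirectProduct.inr (Multiplicative.ofAdd ε))
  τ_t := by
    rw [MulEquiv.apply_symm_apply, SemidirectProduct.right_inr, toAdd_ofAdd, hε]
  u h := nrm w (e h).left
  u_one := by rw [map_one, SemidirectProduct.one_left, nrm_one]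
  u_nonneg k _ := nrm_nonneg hw _
  u_inv k hk := by
    have h0 : ε ≠ 0 := by rintro rfl; simp at hε
    have h1 : (e k).right = 1 := by
      have := (mul_eq_zero.1 hk).resolve_left h0
      exact Multiplicative.toAdd.injective this
    rw [map_inv, SemidirectProduct.inv_left, h1, inv_one, map_one]
    exact nrm_inv w _
  u_mul k l hk hl := by
    have h0 : ε ≠ 0 := by rintro rfl; simp at hε
    have h1 : (e k).right = 1 := by
      have := (mul_eq_zero.1 hk).resolve_left h0
      exact Multiplicative.toAdd.injective this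
    rw [map_mul, SemidirectProduct.mul_left, h1, map_one]
    exact nrm_mul hw _ _
  u_conj k hk := by
    have h0 : ε ≠ 0 := by rintro rfl; simp at hε
    have h1 : (e k).right = 1 := by
      have := (mul_eq_zero.1 hk).resolve_left h0
      exact Multiplicative.toAdd.injective this
    have h2 : (e (e.symm (SemidirectProduct.inr (Multiplicative.ofAdd ε)) * k *
        (e.symm (SemidirectProduct.inr (Multiplicative.ofAdd ε)))⁻¹)).left =
        shift ε (e k).left := by
      rw [map_mul, map_mul, map_inv, MulEquiv.apply_symm_apply, SemidirectProduct.mul_left,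
        SemidirectProduct.mul_left, SemidirectProduct.mul_right, h1]
      simp only [SemidirectProduct.left_inr, SemidirectProduct.right_inr,
        SemidirectProduct.inv_left, one_mul, mul_one, inv_one, map_one]
      rfl
    rw [h2, nrm_shift hw (by norm_num) hc]; ring

theorem w1_pos : ∀ i : ℤ, (0 : ℝ) < (fun i : ℤ => (2 : ℝ) ^ (-i)) i := fun i => by positivity

theorem w2_pos : ∀ i : ℤ, (0 : ℝ) < (fun i : ℤ => (2 : ℝ) ^ i) i := fun i => by positivity

theorem w1_half : ∀ i : ℤ, (fun i : ℤ => (2 : ℝ) ^ (-i)) (i + 1) =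
    1 / 2 * (fun i : ℤ => (2 : ℝ) ^ (-i)) i := fun i => by
  show (2 : ℝ) ^ (-(i + 1)) = 1 / 2 * 2 ^ (-i)
  rw [neg_add, zpow_add₀ (by norm_num), zpow_neg_one]; ring

theorem w2_half : ∀ i : ℤ, (fun i : ℤ => (2 : ℝ) ^ i) (i + -1) =
    1 / 2 * (fun i : ℤ => (2 : ℝ) ^ i) i := fun i => by
  show (2 : ℝ) ^ (i + -1) = 1 / 2 * 2 ^ i
  rw [zpow_add₀ (by norm_num), zpow_neg_one]; ring

/-- the two sets of norm data -/
noncomputable def Nd : Fin 2 → NormData H := ![
  nd e 1 (by norm_num) (fun i => (2 : ℝ) ^ (-i)) w1_pos w1_half,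
  nd e (-1) (by norm_num) (fun i => (2 : ℝ) ^ i) w2_pos w2_half]

theorem nd_focal_elt (ε : ℤ) (hε : ε * ε = 1) (w : ℤ → ℝ) (hw : ∀ i, 0 < w i)
    (hc : ∀ i, w (i + ε) = (1 / 2) * w i) : ∃ k : H, (nd e ε hε w hw hc).τ k = 0 ∧
      0 < (nd e ε hε w hw hc).u (k * ((nd e ε hε w hw hc).t * k * (nd e ε hε w hw hc).t⁻¹)⁻¹) := by
  refine ⟨e.symm (SemidirectProduct.inl (FreeGroup.of 0)), ?_, ?_⟩
  · show ε * (e _).right.toAdd = 0
    rw [MulEquiv.apply_symm_apply, SemidirectProduct.right_inl]; simp
  · show 0 < nrm w (e _).left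
    apply nrm_pos hw
    have h2 : (e (e.symm (SemidirectProduct.inl (FreeGroup.of 0)) *
        (e.symm (SemidirectProduct.inr (Multiplicative.ofAdd ε)) *
          e.symm (SemidirectProduct.inl (FreeGroup.of 0)) *
        (e.symm (SemidirectProduct.inr (Multiplicative.ofAdd ε)))⁻¹)⁻¹)).left =
        FreeGroup.of 0 * (FreeGroup.of ε)⁻¹ := by
      have h3 : (SemidirectProduct.inr (Multiplicative.ofAdd ε) *
          SemidirectProduct.inl (FreeGroup.of 0) *
          (SemidirectProduct.inr (Multiplicative.ofAdd ε))⁻¹ : Sd) =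
          SemidirectProduct.inl (FreeGroup.of ε) := by
        rw [← map_inv, ← SemidirectProduct.inl_aut, phi_apply, toAdd_ofAdd, shift_of, zero_add]
      rw [map_mul, map_inv, map_mul, map_mul, map_inv, MulEquiv.apply_symm_apply,
        MulEquiv.apply_symm_apply, h3, ← map_inv, ← map_mul, SemidirectProduct.left_inl]
    show (e (e.symm (SemidirectProduct.inl (FreeGroup.of 0)) *
        (e.symm (SemidirectProduct.inr (Multiplicative.ofAdd ε)) *
          e.symm (SemidirectProduct.inl (FreeGroup.of 0)) *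
        (e.symm (SemidirectProduct.inr (Multiplicative.ofAdd ε)))⁻¹)⁻¹)).left ≠ 1
    rw [h2]
    intro h
    have h4 := mul_inv_eq_one.1 h
    have h5 := FreeGroup.of_injective h4
    rw [← h5] at hε
    simp at hε

include e in
/-- **Property (PH') from two focal actions.** -/
theorem hasPHPrime : HasPHPrime H := by
  classical
  refine ⟨2, fun i => Rz (Nd e i).metric, fun i => inferInstance,
    fun i => rzAction (Nd e i).metric_inv, ?_, ?_⟩
  · intro i
    let _ : MulAction H (Rz (Nd e i).metric) := rzAction (Nd e i).metric_inv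
    have hiso : IsIsometricAction H (Rz (Nd e i).metric) := fun g x y =>
      rz_isometry (Nd e i).metric_inv g x y
    have hvx : ∀ g h : H, g • vx (Nd e i).metric h = vx (Nd e i).metric (g • h) := fun g h =>
      rz_smul_vx (Nd e i).metric_inv g h
    refine ⟨fun x y => geodesic_Rz x y, ⟨5 + 4, ?_⟩, hiso, ?_, Or.inl ?_⟩
    · refine hyperbolic_Rz (M := (Nd e i).metric) (δ := 5) ?_
      intro x y z w
      have := (Nd e i).four x y z w
      have h2 : (((Nd e i).metric.D x y : ℤ) : ℝ) + ((Nd e i).metric.D z w : ℤ) ≤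
        max ((((Nd e i).metric.D x z : ℤ) : ℝ) + ((Nd e i).metric.D y w : ℤ))
          ((((Nd e i).metric.D x w : ℤ) : ℝ) + ((Nd e i).metric.D y z : ℤ)) + 10 := by
        exact_mod_cast this
      norm_num
      push_cast at h2
      exact h2
    · refine ⟨vx _ 1, 1, fun x => ?_⟩
      obtain ⟨v, hv⟩ := near_vx x
      refine ⟨v, ?_⟩
      rw [hvx, smul_eq_mul, mul_one]
      exact hv
    · have hex : ∃ k : H, (Nd e i).τ k = 0 ∧
          0 < (Nd e i).u (k * ((Nd e i).t * k * (Nd e i).t⁻¹)⁻¹) := by
        have hall : ∀ i : Fin 2, ∃ k : H, (Nd e i).τ k = 0 ∧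
            0 < (Nd e i).u (k * ((Nd e i).t * k * (Nd e i).t⁻¹)⁻¹) := by
          rw [Fin.forall_fin_two]
          exact ⟨nd_focal_elt e 1 (by norm_num) _ w1_pos w1_half,
            nd_focal_elt e (-1) (by norm_num) _ w2_pos w2_half⟩
        exact hall i
      obtain ⟨k, hk1, hk2⟩ := hex
      refine (Nd e i).focal (vx _ 1) ?_ hk1 hk2
      intro g h
      rw [hvx, hvx, smul_eq_mul, smul_eq_mul, mul_one, mul_one, dist_vx]
  · -- properness
    intro B hB
    obtain ⟨C, hC⟩ := hB
    rcases B.eq_empty_or_nonempty with hemp | ⟨x0, hx0⟩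
    · convert Set.finite_empty
      ext g
      simp [hemp]
    let _ : ∀ i, MulAction H (Rz (Nd e i).metric) := fun i => rzAction (Nd e i).metric_inv
    have hiso : ∀ i, IsIsometricAction H (Rz (Nd e i).metric) := fun i g x y =>
      rz_isometry (Nd e i).metric_inv g x y
    have hvx : ∀ i, ∀ g h : H, g • vx (Nd e i).metric h = vx (Nd e i).metric (g • h) :=
      fun i g h => rz_smul_vx (Nd e i).metric_inv g h
    have hle : ∀ x ∈ B, ∀ y ∈ B, ∀ i, dist (x i) (y i) ≤ C := by
      intro x hx y hy i
      exact (Finset.single_le_sum (f := fun i => dist (x i) (y i))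
        (fun j _ => dist_nonneg) (Finset.mem_univ i)).trans (hC x hx y hy)
    -- bounds for the displacement of the base vertices
    obtain ⟨R, hR⟩ : ∃ R : ℕ, ∀ i, 2 * (dist (vx (Nd e i).metric 1) (x0 i) + C) + C ≤ R := by
      obtain ⟨R0, h0⟩ := exists_nat_ge (2 * (dist (vx (Nd e 0).metric 1) (x0 0) + C) + C)
      obtain ⟨R1, h1⟩ := exists_nat_ge (2 * (dist (vx (Nd e 1).metric 1) (x0 1) + C) + C)
      refine ⟨max R0 R1, fun i => ?_⟩
      fin_cases i
      · exact h0.trans (by exact_mod_cast le_max_left _ _)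
      · exact h1.trans (by exact_mod_cast le_max_right _ _)
    have hdisp : ∀ g ∈ {g : H | ∃ x ∈ B, (fun i => g • x i) ∈ B}, ∀ i,
        (Nd e i).metric.D 1 g ≤ R := by
      rintro g ⟨x, hx, hgx⟩ i
      have h1 : dist (x i) (g • x i) ≤ C := hle x hx _ hgx i
      have h2 : dist (x i) (x0 i) ≤ C := hle x hx x0 hx0 i
      set o := vx (Nd e i).metric 1 with ho
      have h3 : dist o (g • o) ≤ dist o (x i) + dist (x i) (g • x i) + dist (g • x i) (g • o) := by
        have t1 := dist_triangle o (x i) (g • o)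
        have t2 := dist_triangle (x i) (g • x i) (g • o)
        linarith
      rw [hiso i g (x i) o] at h3
      have h4 : dist o (x i) ≤ dist o (x0 i) + dist (x i) (x0 i) := by
        have t1 := dist_triangle o (x0 i) (x i)
        rw [dist_comm (x0 i) (x i)] at t1
        exact t1
      have h5 : dist (x i) o = dist o (x i) := dist_comm _ _
      have h6 : dist o (g • o) = (Nd e i).metric.D 1 g := by
        rw [ho, hvx, dist_vx, smul_eq_mul, mul_one]
      have h7 := hR i
      have h8 : ((Nd e i).metric.D 1 g : ℝ) ≤ R := by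
        rw [← h6]; linarith
      exact_mod_cast h8
    -- the finite set
    refine Set.Finite.subset (((finite_nrm ((R : ℝ) * 2 ^ R)).prod
      (Set.finite_Icc (-(R : ℤ)) R)).image
      (fun p : FreeGroup ℤ × ℤ => e.symm ⟨p.1, Multiplicative.ofAdd p.2⟩)) ?_
    intro g hg
    refine ⟨((e g).left, (e g).right.toAdd), ⟨⟨?_, ?_⟩, ?_⟩, ?_⟩
    · have h1 := (Nd e 0).bound g (hdisp g hg 0)
      have h2 : (Nd e 0).u ((Nd e 0).κ g) = nrm (fun i => (2 : ℝ) ^ (-i)) (e g).left := by
        show nrm (fun i => (2 : ℝ) ^ (-i)) (e (g * _)).left = _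
        congr 1
        rw [map_mul, SemidirectProduct.mul_left]
        have h3 : (e ((e.symm (SemidirectProduct.inr (Multiplicative.ofAdd 1)) : H) ^
            (1 * (e g).right.toAdd))⁻¹).left = 1 := by
          rw [map_inv, map_zpow, MulEquiv.apply_symm_apply, ← map_zpow, ← map_inv,
            SemidirectProduct.left_inr]
        erw [h3]
        rw [map_one, mul_one]
      rw [h2] at h1
      exact h1
    · have h1 := (Nd e 1).bound g (hdisp g hg 1)
      have h2 : (Nd e 1).u ((Nd e 1).κ g) = nrm (fun i => (2 : ℝ) ^ i) (e g).left := by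
        show nrm (fun i => (2 : ℝ) ^ i) (e (g * _)).left = _
        congr 1
        rw [map_mul, SemidirectProduct.mul_left]
        have h3 : (e ((e.symm (SemidirectProduct.inr (Multiplicative.ofAdd (-1))) : H) ^
            (-1 * (e g).right.toAdd))⁻¹).left = 1 := by
          rw [map_inv, map_zpow, MulEquiv.apply_symm_apply, ← map_zpow, ← map_inv,
            SemidirectProduct.left_inr]
        erw [h3]
        rw [map_one, mul_one]
      rw [h2] at h1
      exact h1
    · have h1 := (Nd e 0).τ_le 1 g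
      rw [(Nd e 0).τ_one, sub_zero] at h1
      have h2 : (Nd e 0).τ g = (e g).right.toAdd := by
        show 1 * (e g).right.toAdd = _
        rw [one_mul]
      rw [h2] at h1
      have h3 : ((Nd e 0).metric.D 1 g : ℤ) ≤ R := by exact_mod_cast hdisp g hg 0
      exact abs_le.1 (h1.trans h3)
    · show e.symm ⟨(e g).left, Multiplicative.ofAdd (e g).right.toAdd⟩ = g
      rw [ofAdd_toAdd]
      exact e.symm_apply_apply g

end

end Pool.Agent.R643
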