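import Mathlib

/-!
Piecewise projective homeomorphisms of the circle `ℝ ∪ {∞}`: basic definitions.
-/

open OnePoint Set Filter Topology Matrix
open scoped Topology

namespace Pool.Agent.R643.PP

/-- The circle `ℝ ∪ {∞}`. -/
abbrev Circ := OnePoint ℝ

/-- The homeomorphism group of the circle. -/
abbrev Homeo := Circ ≃ₜ Circ

/-- The Moebius map `t ↦ (a t + b) / (c t + d)` of a matrix in `SL₂(ℤ)`, acting on `ℝ ∪ {∞}`. -/
noncomputable def mob (M : SpecialLinearGroup (Fin 2) ℤ) (x : Circ) : Circ :=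
  (SpecialLinearGroup.mapGL ℝ M) • x

/-- The position of a point in the linear order `ℝ` followed by `∞`. -/
noncomputable def pos (x : Circ) : WithTop ℝ := x.elim ⊤ (fun t => (t : WithTop ℝ))

/-- `a, b, c` are distinct and in counterclockwise cyclic order on `ℝ ∪ {∞}`. -/
def Cyc (a b c : Circ) : Prop :=
  (pos a < pos b ∧ pos b < pos c) ∨ (pos b < pos c ∧ pos c < pos a) ∨
    (pos c < pos a ∧ pos a < pos b)

/-- Orientation-preserving homeomorphisms. -/
def OrientationPreserving (f : Homeo) : Prop :=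
  ∀ a b c, Cyc a b c ↔ Cyc (f a) (f b) (f c)

/-- The points of `ℚ ∪ {∞}`. -/
def IsRat (x : Circ) : Prop := x = ∞ ∨ ∃ q : ℚ, x = ((q : ℝ) : Circ)

/-- `f` is piecewise `PSL₂(ℤ)`: there is a finite set `B ⊆ ℚ ∪ {∞}` of breakpoints such that on
each arc which contains no breakpoint, `f` agrees with a Moebius map with matrix in `SL₂(ℤ)`. -/
def PiecewiseMobius (f : Homeo) : Prop :=
  ∃ B : Finset Circ, (∀ b ∈ B, IsRat b) ∧
    ∀ A : Set Circ, IsPreconnected A → (∀ b ∈ B, b ∉ A) →
      ∃ M : SpecialLinearGroup (Fin 2) ℤ, ∀ x ∈ A, f x = mob M x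

/-! ### The action -/

lemma mob_one (x : Circ) : mob 1 x = x := by simp [mob]

lemma mob_mul (M N : SpecialLinearGroup (Fin 2) ℤ) (x : Circ) :
    mob (M * N) x = mob M (mob N x) := by simp [mob, mul_smul]

lemma mob_inv_mob (M : SpecialLinearGroup (Fin 2) ℤ) (x : Circ) : mob M⁻¹ (mob M x) = x := by
  rw [← mob_mul, inv_mul_cancel, mob_one]

lemma mob_mob_inv (M : SpecialLinearGroup (Fin 2) ℤ) (x : Circ) : mob M (mob M⁻¹ x) = x := by
  rw [← mob_mul, mul_inv_cancel, mob_one]

lemma mob_coe (M : SpecialLinearGroup (Fin 2) ℤ) (t : ℝ) :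
    mob M (t : Circ) = if (M 1 0 : ℝ) * t + M 1 1 = 0 then (∞ : Circ)
      else (((M 0 0 * t + M 0 1) / (M 1 0 * t + M 1 1) : ℝ) : Circ) := by
  simp only [mob, smul_some_eq_ite]
  simp

lemma mob_infty (M : SpecialLinearGroup (Fin 2) ℤ) :
    mob M ∞ = if (M 1 0 : ℝ) = 0 then (∞ : Circ) else (((M 0 0 : ℝ) / M 1 0 : ℝ) : Circ) := by
  simp only [mob, smul_infty_eq_ite]
  simp

lemma isRat_infty : IsRat ∞ := Or.inl rfl

lemma isRat_coe (q : ℚ) : IsRat (((q : ℝ)) : Circ) := Or.inr ⟨q, rfl⟩

lemma IsRat.mob {x : Circ} (hx : IsRat x) (M : SpecialLinearGroup (Fin 2) ℤ) :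
    IsRat (mob M x) := by
  rcases hx with rfl | ⟨q, rfl⟩
  · rw [mob_infty]
    split_ifs with h
    · exact isRat_infty
    · exact Or.inr ⟨(M 0 0 : ℚ) / M 1 0, by push_cast; rfl⟩
  · rw [mob_coe]
    split_ifs with h
    · exact isRat_infty
    · exact Or.inr ⟨((M 0 0 : ℚ) * q + M 0 1) / (M 1 0 * q + M 1 1), by push_cast; rfl⟩

lemma isRat_mob_iff {x : Circ} (M : SpecialLinearGroup (Fin 2) ℤ) :
    IsRat (mob M x) ↔ IsRat x :=
  ⟨fun h => by simpa [mob_inv_mob] using h.mob M⁻¹, fun h => h.mob M⟩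

/-- The permutation given by a matrix. -/
noncomputable def mobEquiv (M : SpecialLinearGroup (Fin 2) ℤ) : Circ ≃ Circ where
  toFun := mob M
  invFun := mob M⁻¹
  left_inv := mob_inv_mob M
  right_inv := mob_mob_inv M

lemma continuous_mob_T : Continuous (mob ModularGroup.T) := by
  have h : mob ModularGroup.T = OnePoint.map (fun t : ℝ => t + 1) := by
    funext x
    induction x using OnePoint.rec with
    | infty => rw [mob_infty]; simp [ModularGroup.T]
    | coe t => rw [mob_coe]; simp [ModularGroup.T]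
  rw [h]
  refine OnePoint.continuous_map (by fun_prop) ?_
  rw [Filter.coclosedCompact_eq_cocompact]
  exact (Homeomorph.addRight (1 : ℝ)).isClosedEmbedding.tendsto_cocompact

lemma mob_S_coe (t : ℝ) : mob ModularGroup.S (t : Circ) =
    if t = 0 then (∞ : Circ) else ((-t⁻¹ : ℝ) : Circ) := by
  rw [mob_coe]; simp [ModularGroup.S, neg_div]

lemma mob_S_infty : mob ModularGroup.S ∞ = ((0 : ℝ) : Circ) := by
  rw [mob_infty]; simp [ModularGroup.S]

lemma continuous_mob_S : Continuous (mob ModularGroup.S) := by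
  rw [continuous_iff_continuousAt]
  intro x
  induction x using OnePoint.rec with
  | infty =>
    rw [OnePoint.continuousAt_infty', mob_S_infty, Filter.coclosedCompact_eq_cocompact]
    have h1 : Tendsto (fun t : ℝ => -t⁻¹) (cocompact ℝ) (𝓝 0) := by
      have := (tendsto_inv₀_cobounded (α := ℝ)).neg
      rw [← Metric.cobounded_eq_cocompact]
      simpa using this
    have h2 : Tendsto (fun t : ℝ => ((-t⁻¹ : ℝ) : Circ)) (cocompact ℝ) (𝓝 ((0 : ℝ) : Circ)) :=
      (OnePoint.continuous_coe.tendsto 0).comp h1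
    refine h2.congr' ?_
    have : ∀ᶠ t in cocompact ℝ, t ≠ 0 := by
      rw [← Metric.cobounded_eq_cocompact]
      exact Bornology.eventually_ne_cobounded 0
    filter_upwards [this] with t ht
    rw [Function.comp_apply, mob_S_coe, if_neg ht]
  | coe t =>
    rw [OnePoint.continuousAt_coe]
    by_cases ht : t = 0
    · subst ht
      rw [ContinuousAt, Function.comp_apply, mob_S_coe, if_pos rfl]
      rw [← pure_sup_nhdsNE, Filter.tendsto_sup]
      constructor
      · rw [tendsto_pure_left]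
        intro s hs
        rw [Function.comp_apply, mob_S_coe, if_pos rfl]
        exact mem_of_mem_nhds hs
      · have h1 : Tendsto (fun t : ℝ => -t⁻¹) (𝓝[≠] 0) (cocompact ℝ) := by
          rw [← Metric.cobounded_eq_cocompact]
          exact Filter.tendsto_neg_cobounded.comp (tendsto_inv₀_nhdsNE_zero (α := ℝ))
        have h2 : Tendsto (fun t : ℝ => ((-t⁻¹ : ℝ) : Circ)) (𝓝[≠] 0) (𝓝 ∞) := by
          refine Tendsto.comp ?_ h1
          rw [← Filter.coclosedCompact_eq_cocompact]
          exact tendsto_coe_infty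
        refine h2.congr' ?_
        filter_upwards [self_mem_nhdsWithin] with t ht
        rw [Function.comp_apply, mob_S_coe, if_neg (show t ≠ 0 from ht)]
    · have h1 : ContinuousAt (fun t : ℝ => ((-t⁻¹ : ℝ) : Circ)) t :=
        OnePoint.continuous_coe.continuousAt.comp (continuousAt_inv₀ ht).neg
      refine h1.congr ?_
      filter_upwards [isOpen_ne.mem_nhds ht] with u hu
      rw [Function.comp_apply, mob_S_coe, if_neg hu]

lemma continuous_mob (M : SpecialLinearGroup (Fin 2) ℤ) : Continuous (mob M) := by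
  have hM : M ∈ Subgroup.closure {ModularGroup.S, ModularGroup.T} := by
    rw [SpecialLinearGroup.SL2Z_generators]; trivial
  induction hM using Subgroup.closure_induction with
  | mem x hx =>
    rcases hx with rfl | rfl
    · exact continuous_mob_S
    · exact continuous_mob_T
  | one => exact continuous_id.congr fun x => (mob_one x).symm
  | mul x y _ _ hx hy => exact (hx.comp hy).congr fun z => (mob_mul x y z).symm
  | inv x _ hx =>
    have h := Continuous.homeoOfEquivCompactToT2 (f := mobEquiv x) hx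
    have h2 := (Continuous.homeoOfEquivCompactToT2 (f := mobEquiv x) hx).symm.continuous
    exact h2

/-- The homeomorphism given by a matrix. -/
noncomputable def mobHomeo (M : SpecialLinearGroup (Fin 2) ℤ) : Homeo where
  toEquiv := mobEquiv M
  continuous_toFun := continuous_mob M
  continuous_invFun := continuous_mob M⁻¹

lemma mobHomeo_apply (M : SpecialLinearGroup (Fin 2) ℤ) (x : Circ) : mobHomeo M x = mob M x := rfl

lemma mobHomeo_inv (M : SpecialLinearGroup (Fin 2) ℤ) : (mobHomeo M)⁻¹ = mobHomeo M⁻¹ :=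
  Homeomorph.ext fun _ => rfl

/-! ### Rational points -/

lemma preconnected_coe {s : Set ℝ} (hs : s.OrdConnected) :
    IsPreconnected ((↑) '' s : Set Circ) :=
  hs.isPreconnected.image _ OnePoint.continuous_coe.continuousOn

lemma exists_gt_avoid (B : Finset Circ) (t : ℝ) :
    ∃ u > t, ∀ b ∈ B, b ∉ ((↑) '' Ioo t u : Set Circ) := by
  classical
  induction B using Finset.induction with
  | empty => exact ⟨t + 1, by linarith, by simp⟩
  | insert b B hb ih =>
    obtain ⟨u, hu, h⟩ := ih
    by_cases hbt : ∃ r : ℝ, b = (r : Circ) ∧ t < r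
    · obtain ⟨r, rfl, hr⟩ := hbt
      refine ⟨min u r, lt_min hu hr, ?_⟩
      intro c hc
      rw [Finset.mem_insert] at hc
      rcases hc with rfl | hc
      · rintro ⟨s, ⟨hs1, hs2⟩, hs3⟩
        rw [OnePoint.coe_eq_coe] at hs3
        subst hs3
        exact absurd (hs2.trans_le (min_le_right _ _)) (lt_irrefl _)
      · rintro ⟨s, ⟨hs1, hs2⟩, hs3⟩
        exact h c hc ⟨s, ⟨hs1, hs2.trans_le (min_le_left _ _)⟩, hs3⟩
    · refine ⟨u, hu, ?_⟩
      intro c hc
      rw [Finset.mem_insert] at hc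
      rcases hc with rfl | hc
      · rintro ⟨s, ⟨hs1, hs2⟩, hs3⟩
        exact hbt ⟨s, hs3.symm, hs1⟩
      · exact h c hc

lemma exists_Ioi_avoid (B : Finset Circ) :
    ∃ R : ℝ, ∀ b ∈ B, b ∉ ((↑) '' Ioi R : Set Circ) := by
  classical
  induction B using Finset.induction with
  | empty => exact ⟨0, by simp⟩
  | insert b B hb ih =>
    obtain ⟨u, h⟩ := ih
    induction b using OnePoint.rec with
    | infty =>
      refine ⟨u, fun c hc => ?_⟩
      rw [Finset.mem_insert] at hc
      rcases hc with rfl | hc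
      · rintro ⟨s, hs, hs3⟩
        exact OnePoint.coe_ne_infty _ hs3
      · exact h c hc
    | coe r =>
      refine ⟨max u r, fun c hc => ?_⟩
      rw [Finset.mem_insert] at hc
      rcases hc with rfl | hc
      · rintro ⟨s, hs, hs3⟩
        rw [OnePoint.coe_eq_coe] at hs3
        subst hs3
        exact absurd ((le_max_right _ _).trans_lt (mem_Ioi.1 hs)) (lt_irrefl _)
      · rintro ⟨s, hs, hs3⟩
        exact h c hc ⟨s, mem_Ioi.2 ((le_max_left _ _).trans_lt (mem_Ioi.1 hs)), hs3⟩

lemma PiecewiseMobius.pointwise {f : Homeo} (hf : PiecewiseMobius f) (x : Circ) :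
    ∃ M : SpecialLinearGroup (Fin 2) ℤ, f x = mob M x := by
  obtain ⟨B, -, hB⟩ := hf
  induction x using OnePoint.rec with
  | infty =>
    obtain ⟨R, hR⟩ := exists_Ioi_avoid B
    obtain ⟨M, hM⟩ := hB _ (preconnected_coe (ordConnected_Ioi (a := R))) hR
    refine ⟨M, ?_⟩
    have hcl : (∞ : Circ) ∈ closure ((↑) '' Ioi R : Set Circ) := by
      have h1 : Tendsto ((↑) : ℝ → Circ) atTop (𝓝 ∞) := by
        refine Tendsto.mono_left (tendsto_coe_infty (X := ℝ)) ?_
        rw [Filter.coclosedCompact_eq_cocompact]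
        exact atTop_le_cocompact
      refine mem_closure_of_tendsto h1 ?_
      filter_upwards [Ioi_mem_atTop R] with t ht
      exact ⟨t, ht, rfl⟩
    exact closure_minimal (s := ((↑) '' Ioi R : Set Circ)) (t := {x | f x = mob M x})
      (fun x hx => hM x hx) (isClosed_eq f.continuous (continuous_mob M)) hcl
  | coe t =>
    obtain ⟨u, hu, hR⟩ := exists_gt_avoid B t
    obtain ⟨M, hM⟩ := hB _ (preconnected_coe (ordConnected_Ioo (a := t) (b := u))) hR
    refine ⟨M, ?_⟩
    have hcl : (t : Circ) ∈ closure ((↑) '' Ioo t u : Set Circ) := by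
      refine image_closure_subset_closure_image OnePoint.continuous_coe ⟨t, ?_, rfl⟩
      rw [closure_Ioo hu.ne]
      exact ⟨le_rfl, hu.le⟩
    exact closure_minimal (s := ((↑) '' Ioo t u : Set Circ)) (t := {x | f x = mob M x})
      (fun x hx => hM x hx) (isClosed_eq f.continuous (continuous_mob M)) hcl

lemma PiecewiseMobius.isRat_iff {f : Homeo} (hf : PiecewiseMobius f) (x : Circ) :
    IsRat (f x) ↔ IsRat x := by
  obtain ⟨M, hM⟩ := hf.pointwise x
  rw [hM, isRat_mob_iff]

lemma PiecewiseMobius.mul {f g : Homeo} (hf : PiecewiseMobius f) (hg : PiecewiseMobius g) :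
    PiecewiseMobius (f * g) := by
  classical
  obtain ⟨Bf, hBf, hf'⟩ := id hf
  obtain ⟨Bg, hBg, hg'⟩ := id hg
  refine ⟨Bg ∪ Bf.image g.symm, ?_, ?_⟩
  · intro b hb
    rw [Finset.mem_union, Finset.mem_image] at hb
    rcases hb with hb | ⟨c, hc, rfl⟩
    · exact hBg b hb
    · rw [← hg.isRat_iff, Homeomorph.apply_symm_apply]
      exact hBf c hc
  · intro A hA hAB
    obtain ⟨N, hN⟩ := hg' A hA (fun b hb => hAB b (Finset.mem_union_left _ hb))
    obtain ⟨M, hM⟩ := hf' (g '' A) (hA.image _ g.continuous.continuousOn) (by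
      rintro b hb ⟨a, ha, rfl⟩
      refine hAB a (Finset.mem_union_right _ (Finset.mem_image.2 ⟨g a, hb, ?_⟩)) ha
      simp)
    refine ⟨M * N, fun x hx => ?_⟩
    rw [Homeomorph.mul_apply, hM _ ⟨x, hx, rfl⟩, hN x hx, mob_mul]

lemma PiecewiseMobius.inv {f : Homeo} (hf : PiecewiseMobius f) : PiecewiseMobius f⁻¹ := by
  classical
  obtain ⟨B, hB, hf'⟩ := id hf
  refine ⟨B.image f, ?_, ?_⟩
  · intro b hb
    rw [Finset.mem_image] at hb
    obtain ⟨c, hc, rfl⟩ := hb
    rw [hf.isRat_iff]
    exact hB c hc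
  · intro A hA hAB
    obtain ⟨M, hM⟩ := hf' (f.symm '' A) (hA.image _ f.symm.continuous.continuousOn) (by
      rintro b hb ⟨a, ha, rfl⟩
      refine hAB a (Finset.mem_image.2 ⟨f.symm a, hb, ?_⟩) ha
      simp)
    refine ⟨M⁻¹, fun x hx => ?_⟩
    have := hM (f.symm x) ⟨x, hx, rfl⟩
    rw [Homeomorph.apply_symm_apply] at this
    rw [this, mob_inv_mob, ← this]
    rfl

lemma OrientationPreserving.mul {f g : Homeo} (hf : OrientationPreserving f)
    (hg : OrientationPreserving g) : OrientationPreserving (f * g) := by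
  intro a b c
  rw [hg a b c, hf (g a) (g b) (g c)]
  rfl

lemma OrientationPreserving.inv {f : Homeo} (hf : OrientationPreserving f) :
    OrientationPreserving f⁻¹ := by
  intro a b c
  have := hf (f.symm a) (f.symm b) (f.symm c)
  simp only [Homeomorph.apply_symm_apply] at this
  rw [← this]
  rfl

/-- Thompson's group `T`: the orientation-preserving piecewise `PSL₂(ℤ)` homeomorphisms
of the circle. -/
def T : Subgroup Homeo where
  carrier := {f | OrientationPreserving f ∧ PiecewiseMobius f}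
  one_mem' := ⟨fun _ _ _ => Iff.rfl, ∅, by simp, fun A _ _ => ⟨1, fun x _ => (mob_one x).symm⟩⟩
  mul_mem' := fun hf hg => ⟨hf.1.mul hg.1, hf.2.mul hg.2⟩
  inv_mem' := fun hf => ⟨hf.1.inv, hf.2.inv⟩

lemma mem_T {f : Homeo} : f ∈ T ↔ OrientationPreserving f ∧ PiecewiseMobius f := Iff.rfl

end Pool.Agent.R643.PP
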