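import Mathlib
import Pool.Agent.R643.PPDefs

/-!
Order automorphisms of the line and their extensions to the circle.
-/

open OnePoint Set Filter Topology Matrix

namespace Pool.Agent.R643.PP

/-- The group of increasing bijections of the line. -/
abbrev Line := ℝ ≃o ℝ

/-- The extension of an increasing bijection of `ℝ` to the circle (fixing `∞`). -/
noncomputable def E : Line →* Homeo where
  toFun g := g.toHomeomorph.onePointCongr
  map_one' := by
    refine Homeomorph.ext fun x => ?_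
    induction x using OnePoint.rec with
    | infty => rfl
    | coe t => rfl
  map_mul' f g := by
    refine Homeomorph.ext fun x => ?_
    induction x using OnePoint.rec with
    | infty => rfl
    | coe t => rfl

@[simp] lemma E_coe (g : Line) (t : ℝ) : E g (t : Circ) = ((g t : ℝ) : Circ) := rfl

@[simp] lemma E_infty (g : Line) : E g ∞ = ∞ := rfl

lemma pos_coe (t : ℝ) : pos (t : Circ) = (t : WithTop ℝ) := rfl

lemma pos_infty : pos ∞ = ⊤ := rfl

lemma pos_E_lt (g : Line) (x y : Circ) : pos (E g x) < pos (E g y) ↔ pos x < pos y := by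
  induction x using OnePoint.rec with
  | infty => simp [pos_infty]
  | coe t =>
    induction y using OnePoint.rec with
    | infty => simp [pos_infty, pos_coe]
    | coe u =>
      simp [pos_coe]

lemma orientationPreserving_E (g : Line) : OrientationPreserving (E g) := by
  intro a b c
  simp only [Cyc, pos_E_lt]

/-- Increasing bijections of the line which are piecewise `PSL₂(ℤ)`. -/
def PM (g : Line) : Prop :=
  ∃ B : Finset ℚ, ∀ I : Set ℝ, I.OrdConnected → (∀ b ∈ B, (b : ℝ) ∉ I) →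
    ∃ M : SpecialLinearGroup (Fin 2) ℤ, ∀ t ∈ I, ((g t : ℝ) : Circ) = mob M t

lemma PM.piecewise {g : Line} (hg : PM g) : PiecewiseMobius (E g) := by
  classical
  obtain ⟨B, hB⟩ := hg
  refine ⟨insert ∞ (B.image fun q : ℚ => ((q : ℝ) : Circ)), ?_, ?_⟩
  · intro b hb
    rw [Finset.mem_insert, Finset.mem_image] at hb
    rcases hb with rfl | ⟨q, -, rfl⟩
    · exact isRat_infty
    · exact isRat_coe q
  · intro A hA hAB
    have hinf : ∞ ∉ A := hAB _ (Finset.mem_insert_self _ _)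
    have hAI : A = ((↑) '' (((↑) : ℝ → Circ) ⁻¹' A) : Set Circ) := by
      rw [image_preimage_eq_of_subset]
      intro x hx
      induction x using OnePoint.rec with
      | infty => exact absurd hx hinf
      | coe t => exact ⟨t, rfl⟩
    have hI : IsPreconnected (((↑) : ℝ → Circ) ⁻¹' A) := by
      rw [← OnePoint.isOpenEmbedding_coe.isInducing.isPreconnected_image, ← hAI]
      exact hA
    obtain ⟨M, hM⟩ := hB _ hI.ordConnected (fun b hb hbA =>
      hAB _ (Finset.mem_insert_of_mem (Finset.mem_image_of_mem _ hb)) hbA)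
    refine ⟨M, ?_⟩
    intro x hx
    induction x using OnePoint.rec with
    | infty => exact absurd hx hinf
    | coe t => exact hM t hx

lemma PM.of_piecewise {g : Line} (hg : PiecewiseMobius (E g)) : PM g := by
  classical
  obtain ⟨B, hB, h⟩ := hg
  have hinj : Function.Injective (fun q : ℚ => ((q : ℝ) : Circ)) := fun a b hab => by
    have := OnePoint.coe_injective hab
    exact_mod_cast this
  refine ⟨B.preimage (fun q : ℚ => ((q : ℝ) : Circ)) hinj.injOn, ?_⟩
  intro I hI hIB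
  obtain ⟨M, hM⟩ := h _ (preconnected_coe hI) (by
    rintro b hb ⟨t, ht, htb⟩
    rcases hB b hb with rfl | ⟨q, rfl⟩
    · exact OnePoint.coe_ne_infty _ htb
    · have := OnePoint.coe_injective htb
      subst this
      exact hIB q (Finset.mem_preimage.2 hb) ht)
  exact ⟨M, fun t ht => hM _ ⟨t, ht, rfl⟩⟩

lemma PM.mem_T {g : Line} (hg : PM g) : E g ∈ T := ⟨orientationPreserving_E g, hg.piecewise⟩

lemma pM_iff {g : Line} : PM g ↔ E g ∈ T := ⟨PM.mem_T, fun h => PM.of_piecewise h.2⟩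

/-- The subgroup of piecewise `PSL₂(ℤ)` maps of the line. -/
noncomputable def F : Subgroup Line := T.comap E

lemma mem_F {g : Line} : g ∈ F ↔ PM g := pM_iff.symm

lemma ordConnected_cases {I : Set ℝ} (hI : I.OrdConnected) {b : ℝ} (hb : b ∉ I) :
    (∀ t ∈ I, t < b) ∨ (∀ t ∈ I, b < t) := by
  by_contra h
  push Not at h
  obtain ⟨⟨s, hs, hsb⟩, ⟨u, hu, hub⟩⟩ := h
  exact hb (hI.out hu hs ⟨hub, hsb⟩)

/-! ### The translation -/

/-- The translation `t ↦ t + 1`. -/
noncomputable def tau : Line := OrderIso.addRight 1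

@[simp] lemma tau_apply (t : ℝ) : tau t = t + 1 := rfl

@[simp] lemma tau_inv_apply (t : ℝ) : tau⁻¹ t = t - 1 := by
  have : tau (tau⁻¹ t) = t := by
    rw [← RelIso.mul_apply, mul_inv_cancel]; rfl
  rw [tau_apply] at this
  linarith

lemma E_tau : E tau = mobHomeo ModularGroup.T := by
  refine Homeomorph.ext fun x => ?_
  rw [mobHomeo_apply]
  induction x using OnePoint.rec with
  | infty => rw [mob_infty]; simp [ModularGroup.T]
  | coe t => rw [mob_coe]; simp [ModularGroup.T]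

lemma tau_mem : tau ∈ F := by
  rw [mem_F]
  exact ⟨∅, fun I _ _ => ⟨ModularGroup.T, fun t _ => by rw [mob_coe]; simp [ModularGroup.T]⟩⟩

@[simp] lemma tau_pow_apply (n : ℕ) (t : ℝ) : (tau ^ n) t = t + n := by
  induction n with
  | zero => simp
  | succ n ih => rw [pow_succ', RelIso.mul_apply, ih, tau_apply]; push_cast; ring

@[simp] lemma tau_zpow_apply (n : ℤ) (t : ℝ) : (tau ^ n) t = t + n := by
  cases n with
  | ofNat n => simp
  | negSucc n =>
    have h : (tau ^ (n + 1)) ((tau ^ (Int.negSucc n)) t) = t := by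
      rw [← RelIso.mul_apply, zpow_negSucc, mul_inv_cancel]; rfl
    rw [tau_pow_apply] at h
    rw [Int.cast_negSucc]
    push_cast at h ⊢
    linarith

/-! ### The element `x₀` -/

/-- The underlying function of `x₀`. -/
noncomputable def xFun (t : ℝ) : ℝ :=
  if t ≤ 0 then t else if t ≤ 1 / 2 then t / (1 - t) else if t ≤ 1 then 3 - 1 / t else t + 1

/-- Its inverse. -/
noncomputable def xInv (t : ℝ) : ℝ :=
  if t ≤ 0 then t else if t ≤ 1 then t / (1 + t) else if t ≤ 2 then 1 / (3 - t) else t - 1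

lemma xFun_1 {t : ℝ} (h : t ≤ 0) : xFun t = t := by rw [xFun, if_pos h]

lemma xFun_2 {t : ℝ} (h : 0 ≤ t) (h' : t ≤ 1 / 2) : xFun t = t / (1 - t) := by
  rcases h.eq_or_lt with rfl | h
  · simp [xFun]
  · rw [xFun, if_neg (not_le.2 h), if_pos h']

lemma xFun_3 {t : ℝ} (h : 1 / 2 ≤ t) (h' : t ≤ 1) : xFun t = 3 - 1 / t := by
  rcases h.eq_or_lt with h | h
  · rw [xFun_2 (by linarith) h.ge, ← h]; norm_num
  · rw [xFun, if_neg (by linarith), if_neg (not_le.2 h), if_pos h']

lemma xFun_4 {t : ℝ} (h : 1 ≤ t) : xFun t = t + 1 := by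
  rcases h.eq_or_lt with h | h
  · rw [xFun_3 (by linarith) h.ge, ← h]; norm_num
  · rw [xFun, if_neg (by linarith), if_neg (by linarith), if_neg (not_le.2 h)]

lemma xInv_1 {t : ℝ} (h : t ≤ 0) : xInv t = t := by rw [xInv, if_pos h]

lemma xInv_2 {t : ℝ} (h : 0 ≤ t) (h' : t ≤ 1) : xInv t = t / (1 + t) := by
  rcases h.eq_or_lt with rfl | h
  · simp [xInv]
  · rw [xInv, if_neg (not_le.2 h), if_pos h']

lemma xInv_3 {t : ℝ} (h : 1 ≤ t) (h' : t ≤ 2) : xInv t = 1 / (3 - t) := by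
  rcases h.eq_or_lt with h | h
  · rw [xInv_2 (by linarith) h.ge, ← h]; norm_num
  · rw [xInv, if_neg (by linarith), if_neg (not_le.2 h), if_pos h']

lemma xInv_4 {t : ℝ} (h : 2 ≤ t) : xInv t = t - 1 := by
  rcases h.eq_or_lt with h | h
  · rw [xInv_3 (by linarith) h.ge, ← h]; norm_num
  · rw [xInv, if_neg (by linarith), if_neg (by linarith), if_neg (not_le.2 h)]

lemma xFun_mono : Monotone xFun := by
  have h1 : MonotoneOn xFun (Iic 0) := fun a ha b hb hab => by
    rw [xFun_1 ha, xFun_1 hb]; exact hab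
  have h2 : MonotoneOn xFun (Icc 0 (1 / 2)) := fun a ha b hb hab => by
    rw [xFun_2 ha.1 ha.2, xFun_2 hb.1 hb.2, div_le_div_iff₀ (by linarith [ha.2]) (by linarith [hb.2])]
    nlinarith
  have h3 : MonotoneOn xFun (Icc (1 / 2) 1) := fun a ha b hb hab => by
    rw [xFun_3 ha.1 ha.2, xFun_3 hb.1 hb.2]
    have := one_div_le_one_div_of_le (by linarith [ha.1] : 0 < a) hab
    linarith
  have h4 : MonotoneOn xFun (Ici 1) := fun a ha b hb hab => by
    rw [xFun_4 ha, xFun_4 hb]; linarith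
  have h12 : MonotoneOn xFun (Iic 0 ∪ Icc 0 (1 / 2)) :=
    h1.union_right h2 ⟨mem_Iic.2 le_rfl, fun _ h => h⟩ ⟨⟨le_rfl, by norm_num⟩, fun _ h => h.1⟩
  rw [Iic_union_Icc_eq_Iic (by norm_num)] at h12
  have h123 : MonotoneOn xFun (Iic (1 / 2) ∪ Icc (1 / 2) 1) :=
    h12.union_right h3 ⟨mem_Iic.2 le_rfl, fun _ h => h⟩ ⟨⟨le_rfl, by norm_num⟩, fun _ h => h.1⟩
  rw [Iic_union_Icc_eq_Iic (by norm_num)] at h123
  exact h123.Iic_union_Ici h4

lemma xInv_mono : Monotone xInv := by
  have h1 : MonotoneOn xInv (Iic 0) := fun a ha b hb hab => by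
    rw [xInv_1 ha, xInv_1 hb]; exact hab
  have h2 : MonotoneOn xInv (Icc 0 1) := fun a ha b hb hab => by
    rw [xInv_2 ha.1 ha.2, xInv_2 hb.1 hb.2, div_le_div_iff₀ (by linarith [ha.1]) (by linarith [hb.1])]
    nlinarith
  have h3 : MonotoneOn xInv (Icc 1 2) := fun a ha b hb hab => by
    rw [xInv_3 ha.1 ha.2, xInv_3 hb.1 hb.2]
    exact one_div_le_one_div_of_le (by linarith [hb.2]) (by linarith)
  have h4 : MonotoneOn xInv (Ici 2) := fun a ha b hb hab => by
    rw [xInv_4 ha, xInv_4 hb]; linarith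
  have h12 : MonotoneOn xInv (Iic 0 ∪ Icc 0 1) :=
    h1.union_right h2 ⟨mem_Iic.2 le_rfl, fun _ h => h⟩ ⟨⟨le_rfl, by norm_num⟩, fun _ h => h.1⟩
  rw [Iic_union_Icc_eq_Iic (by norm_num)] at h12
  have h123 : MonotoneOn xInv (Iic 1 ∪ Icc 1 2) :=
    h12.union_right h3 ⟨mem_Iic.2 le_rfl, fun _ h => h⟩ ⟨⟨le_rfl, by norm_num⟩, fun _ h => h.1⟩
  rw [Iic_union_Icc_eq_Iic (by norm_num)] at h123
  exact h123.Iic_union_Ici h4

lemma xInv_xFun (t : ℝ) : xInv (xFun t) = t := by
  rcases le_total t 0 with h | h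
  · rw [xFun_1 h, xInv_1 h]
  rcases le_total t (1 / 2) with h' | h'
  · have h1 : 0 < 1 - t := by linarith
    rw [xFun_2 h h', xInv_2 (by positivity) (by rw [div_le_one h1]; linarith)]
    field_simp; ring
  rcases le_total t 1 with h1 | h1
  · have ht : 0 < t := by linarith
    have h2 : 1 / t ≤ 2 := by rw [div_le_iff₀ ht]; linarith
    have h3 : 1 ≤ 1 / t := by rw [le_div_iff₀ ht]; linarith
    rw [xFun_3 h' h1, xInv_3 (by linarith) (by linarith)]
    field_simp; ring
  · rw [xFun_4 h1, xInv_4 (by linarith)]; ring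

lemma xFun_xInv (t : ℝ) : xFun (xInv t) = t := by
  rcases le_total t 0 with h | h
  · rw [xInv_1 h, xFun_1 h]
  rcases le_total t 1 with h' | h'
  · have h1 : 0 < 1 + t := by linarith
    rw [xInv_2 h h', xFun_2 (by positivity) (by rw [div_le_iff₀ h1]; linarith)]
    field_simp; ring
  rcases le_total t 2 with h1 | h1
  · have ht : 0 < 3 - t := by linarith
    rw [xInv_3 h' h1, xFun_3 (by rw [le_div_iff₀ ht]; linarith) (by rw [div_le_iff₀ ht]; linarith)]
    field_simp; ring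
  · rw [xInv_4 h1, xFun_4 (by linarith)]; ring

/-- The element `x₀`. -/
noncomputable def x0 : Line :=
  Equiv.toOrderIso ⟨xFun, xInv, xInv_xFun, xFun_xInv⟩ xFun_mono xInv_mono

@[simp] lemma x0_apply (t : ℝ) : x0 t = xFun t := rfl

@[simp] lemma x0_inv_apply (t : ℝ) : x0⁻¹ t = xInv t := rfl

/-- The matrix `(1 0; -1 1)`. -/
def K1 : SpecialLinearGroup (Fin 2) ℤ := ⟨!![1, 0; -1, 1], by simp [det_fin_two]⟩

/-- The matrix `(3 -1; 1 0)`. -/
def K2 : SpecialLinearGroup (Fin 2) ℤ := ⟨!![3, -1; 1, 0], by simp [det_fin_two]⟩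

lemma mob_K1 {t : ℝ} (h : t ≠ 1) : mob K1 t = ((t / (1 - t) : ℝ) : Circ) := by
  have h1 : 1 - t ≠ 0 := sub_ne_zero.2 (Ne.symm h)
  have h2 : -t + 1 = 1 - t := by ring
  rw [mob_coe]
  simp [K1, h2, h1]

lemma mob_K2 {t : ℝ} (h : t ≠ 0) : mob K2 t = ((3 - 1 / t : ℝ) : Circ) := by
  rw [mob_coe]
  have h2 : (3 * t + -1) / t = 3 - 1 / t := by field_simp; ring
  simp only [K2]
  simp [h]
  rw [h2]; simp

lemma mob_T (t : ℝ) : mob ModularGroup.T t = ((t + 1 : ℝ) : Circ) := by
  rw [mob_coe]; simp [ModularGroup.T]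

lemma x0_mem : x0 ∈ F := by
  rw [mem_F]
  refine ⟨{0, 1 / 2, 1}, fun I hI hB => ?_⟩
  have h0 : (0 : ℝ) ∉ I := by simpa using hB 0 (by simp)
  have h1 : (1 / 2 : ℝ) ∉ I := by simpa using hB (1 / 2) (by simp)
  have h2 : (1 : ℝ) ∉ I := by simpa using hB 1 (by simp)
  rcases ordConnected_cases hI h0 with h | h
  · exact ⟨1, fun t ht => by rw [mob_one, x0_apply, xFun_1 (h t ht).le]⟩
  rcases ordConnected_cases hI h1 with h' | h'
  · exact ⟨K1, fun t ht => by
      rw [mob_K1 (by linarith [h' t ht]), x0_apply, xFun_2 (h t ht).le (h' t ht).le]⟩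
  rcases ordConnected_cases hI h2 with h'' | h''
  · exact ⟨K2, fun t ht => by
      rw [mob_K2 (by linarith [h t ht]), x0_apply, xFun_3 (h' t ht).le (h'' t ht).le]⟩
  · exact ⟨ModularGroup.T, fun t ht => by
      rw [mob_T, x0_apply, xFun_4 (h'' t ht).le]⟩

/-- The elements `x_k = τ^k x₀ τ^{-k}`. -/
noncomputable def x (k : ℤ) : Line := tau ^ k * x0 * tau ^ (-k)

lemma x_apply (k : ℤ) (t : ℝ) : x k t = xFun (t - k) + k := by
  rw [x, RelIso.mul_apply, RelIso.mul_apply, tau_zpow_apply, tau_zpow_apply, x0_apply]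
  push_cast
  rw [← sub_eq_add_neg]

lemma x_zero : x 0 = x0 := by simp [x]

lemma x_mem (k : ℤ) : x k ∈ F :=
  F.mul_mem (F.mul_mem (F.zpow_mem tau_mem _) x0_mem) (F.zpow_mem tau_mem _)

lemma x_of_le {k : ℤ} {t : ℝ} (h : t ≤ k) : x k t = t := by
  rw [x_apply, xFun_1 (by linarith)]; ring

lemma x_of_ge {k : ℤ} {t : ℝ} (h : k + 1 ≤ t) : x k t = t + 1 := by
  rw [x_apply, xFun_4 (by linarith)]; ring

lemma x_inv_apply (k : ℤ) (t : ℝ) : (x k)⁻¹ t = xInv (t - k) + k := by
  have : (x k)⁻¹ = tau ^ k * x0⁻¹ * tau ^ (-k) := by rw [x]; group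
  rw [this, RelIso.mul_apply, RelIso.mul_apply, tau_zpow_apply, tau_zpow_apply, x0_inv_apply]
  push_cast
  rw [← sub_eq_add_neg]

end Pool.Agent.R643.PP
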