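import Mathlib
import Pool.Agent.R643.PPLine

/-!
The elements of Thompson's group `T` supported on `[0, ∞]` lie in the group generated by the `x_k`.
-/

open OnePoint Set Filter Topology Matrix

namespace Pool.Agent.R643.PP

/-- The group generated by `x_k`, `k ≥ 0`. -/
noncomputable def P : Subgroup Line := Subgroup.closure (Set.range fun k : ℕ => x k)

lemma x_mem_P (k : ℕ) : x k ∈ P := Subgroup.subset_closure ⟨k, rfl⟩

lemma P_le_F : P ≤ F := by
  rw [P, Subgroup.closure_le]
  rintro _ ⟨k, rfl⟩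
  exact x_mem k

lemma P_neg {g : Line} (hg : g ∈ P) : ∀ t ≤ 0, g t = t := by
  induction hg using Subgroup.closure_induction with
  | mem g hg =>
    obtain ⟨k, rfl⟩ := hg
    intro t ht
    exact x_of_le (by push_cast; linarith [(Nat.cast_nonneg k : (0 : ℝ) ≤ k)])
  | one => intro t _; rfl
  | mul a b _ _ ha hb => intro t ht; rw [RelIso.mul_apply, hb t ht, ha t ht]
  | inv a _ ha =>
    intro t ht
    have h : a (a⁻¹ t) = t := by rw [← RelIso.mul_apply, mul_inv_cancel]; rfl
    have h2 : a⁻¹ (a t) = t := by rw [← RelIso.mul_apply, inv_mul_cancel]; rfl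
    rw [ha t ht] at h2
    exact h2

/-! ### Chains -/

/-- A homeomorphism given on `[j, j+1]` by a Farey chain `p j / q j`. -/
structure Chain (g : Line) (p q : ℕ → ℤ) (c : ℤ) : Prop where
  qpos : ∀ j, 0 < q j
  det : ∀ j, p (j + 1) * q j - p j * q (j + 1) = 1
  form : ∀ (j : ℕ) (u : ℝ), 0 ≤ u → u ≤ 1 →
    g (j + u) = (p j + u * (p (j + 1) - p j)) / (q j + u * (q (j + 1) - q j))
  neg : ∀ t ≤ 0, g t = t
  ev : ∃ n, ∀ j ≥ n, q j = 1 ∧ p j = j + c

lemma Chain.zero {g : Line} {p q : ℕ → ℤ} {c : ℤ} (h : Chain g p q c) : p 0 = 0 ∧ q 0 = 1 := by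
  have h0 := h.form 0 0 le_rfl zero_le_one
  rw [Nat.cast_zero, add_zero, h.neg 0 le_rfl] at h0
  simp only [zero_mul, add_zero] at h0
  have hq : (q 0 : ℝ) ≠ 0 := by exact_mod_cast (h.qpos 0).ne'
  have hp : (p 0 : ℝ) = 0 := by
    rcases div_eq_zero_iff.1 h0.symm with h1 | h1
    · exact h1
    · exact absurd h1 hq
  have hp' : p 0 = 0 := by exact_mod_cast hp
  refine ⟨hp', ?_⟩
  have hd := h.det 0
  rw [hp', zero_mul, sub_zero, zero_add] at hd
  have := h.qpos 0
  exact (Int.eq_one_or_neg_one_of_mul_eq_one' hd).elim (fun h => h.2) (fun h => by omega)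

lemma Chain.le {g : Line} {p q : ℕ → ℤ} {c : ℤ} (h : Chain g p q c) (j : ℕ) :
    p j ≤ j * q j := by
  induction j with
  | zero => rw [h.zero.1]; simp
  | succ j ih =>
    have h1 := h.det j
    have h2 := h.qpos j
    have h3 := h.qpos (j + 1)
    push_cast
    have h4 : 1 ≤ q j * q (j + 1) := by
      have := mul_pos h2 h3; omega
    have h5 : p j * q (j + 1) ≤ j * q j * q (j + 1) := mul_le_mul_of_nonneg_right ih h3.le
    have h6 : p (j + 1) * q j ≤ ((j + 1) * q (j + 1)) * q j := by nlinarith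
    exact le_of_mul_le_mul_right h6 h2

lemma Chain.c_le {g : Line} {p q : ℕ → ℤ} {c : ℤ} (h : Chain g p q c) : c ≤ 0 := by
  obtain ⟨n, hn⟩ := h.ev
  have h1 := h.le n
  rw [(hn n le_rfl).1, (hn n le_rfl).2] at h1
  linarith

lemma Chain.eq_one {g : Line} {p q : ℕ → ℤ} {c : ℤ} (h : Chain g p q c)
    (hq : ∀ j, q j = 1) : g = 1 := by
  have hp : ∀ j : ℕ, p j = j := by
    intro j
    induction j with
    | zero => rw [h.zero.1]; simp
    | succ j ih =>
      have := h.det j
      rw [hq, hq, ih] at this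
      push_cast; linarith
  ext t
  rcases le_total t 0 with ht | ht
  · rw [h.neg t ht]; rfl
  · have h1 := h.form ⌊t⌋₊ (t - ⌊t⌋₊) (sub_nonneg.2 (Nat.floor_le ht))
      (by linarith [Nat.lt_floor_add_one t])
    rw [hp, hp, hq, hq] at h1
    push_cast at h1
    rw [add_sub_cancel] at h1
    rw [h1]
    simp

lemma Chain.exists_mediant {g : Line} {p q : ℕ → ℤ} {c : ℤ} (h : Chain g p q c)
    (hq : ¬ ∀ j, q j = 1) : ∃ j : ℕ, p (j + 1) = p j + p (j + 2) ∧ q (j + 1) = q j + q (j + 2) := by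
  obtain ⟨n, hn⟩ := h.ev
  push Not at hq
  obtain ⟨i, hi⟩ := hq
  have hi2 : 2 ≤ q i := by have := h.qpos i; omega
  -- a maximal value, at the largest index
  have hfin : ∃ j, (∀ i, q i ≤ q j) ∧ 2 ≤ q j ∧ q (j + 1) < q j := by
    obtain ⟨m, hm, hmax⟩ := Finset.exists_max_image (Finset.range (n + i + 1)) q
      ⟨i, Finset.mem_range.2 (by omega)⟩
    have hall : ∀ k, q k ≤ q m := by
      intro k
      by_cases hk : k < n + i + 1
      · exact hmax k (Finset.mem_range.2 hk)
      · rw [(hn k (by omega)).1]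
        exact h.qpos m
    have hm2 : 2 ≤ q m := hi2.trans (hall i)
    have hex : ∃ k, q (m + k) < q m := ⟨n, by rw [(hn (m + n) (by omega)).1]; omega⟩
    classical
    have hk := Nat.find_spec hex
    have hk0 : Nat.find hex ≠ 0 := by
      intro h0; rw [h0] at hk; simp at hk
    obtain ⟨k, hk1⟩ := Nat.exists_eq_succ_of_ne_zero hk0
    have hk2 : ¬ q (m + k) < q m := Nat.find_min hex (by omega)
    have heq : q (m + k) = q m := le_antisymm (hall _) (not_lt.1 hk2)
    refine ⟨m + k, fun i => heq ▸ hall i, heq ▸ hm2, ?_⟩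
    rw [hk1] at hk
    rw [heq]
    exact hk
  obtain ⟨j, hj1, hj2, hj3⟩ := hfin
  have hj0 : j ≠ 0 := by
    rintro rfl; rw [h.zero.2] at hj2; omega
  obtain ⟨k, rfl⟩ := Nat.exists_eq_succ_of_ne_zero hj0
  refine ⟨k, ?_⟩
  have d1 := h.det k
  have d2 := h.det (k + 1)
  have e : (p k + p (k + 2)) * q (k + 1) = p (k + 1) * (q k + q (k + 2)) := by
    have : p (k + 1 + 1) = p (k + 2) := rfl
    have : q (k + 1 + 1) = q (k + 2) := rfl
    linarith
  have hcop : IsCoprime (q (k + 1)) (p (k + 1)) := ⟨-p k, q k, by linarith⟩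
  have hdvd : q (k + 1) ∣ q k + q (k + 2) :=
    hcop.dvd_of_dvd_mul_left ⟨p k + p (k + 2), by linarith⟩
  obtain ⟨m, hm⟩ := hdvd
  have q1 := h.qpos k
  have q2 := h.qpos (k + 1)
  have q3 := h.qpos (k + 2)
  have hj1' := hj1 k
  have hj3' : q (k + 2) < q (k + 1) := hj3
  simp only [Nat.succ_eq_add_one] at hj1'
  have hm1 : m = 1 := by
    have m0 : 0 < m := by
      by_contra hneg
      have := mul_nonpos_of_nonneg_of_nonpos q2.le (not_lt.1 hneg)
      omega
    have m2 : m < 2 := by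
      by_contra hneg
      have : q (k + 1) * 2 ≤ q (k + 1) * m := mul_le_mul_of_nonneg_left (not_lt.1 hneg) q2.le
      omega
    omega
  rw [hm1, mul_one] at hm
  refine ⟨?_, hm.symm⟩
  rw [hm] at e
  have : p k + p (k + 2) = p (k + 1) := mul_right_cancel₀ q2.ne' e
  exact this.symm

lemma Chain.step {g : Line} {p q : ℕ → ℤ} {c : ℤ} (h : Chain g p q c) {j : ℕ}
    (hp : p (j + 1) = p j + p (j + 2)) (hq : q (j + 1) = q j + q (j + 2)) :
    Chain (g * x j) (fun i => if i ≤ j then p i else p (i + 1))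
      (fun i => if i ≤ j then q i else q (i + 1)) (c + 1) where
  qpos i := by split_ifs <;> exact h.qpos _
  det i := by
    rcases lt_trichotomy i j with hi | rfl | hi
    · simp only [if_pos hi.le, if_pos (Nat.succ_le_of_lt hi)]
      exact h.det i
    · simp only [le_refl, if_true, if_neg (Nat.not_succ_le_self i)]
      have := h.det (i + 1)
      rw [hp, hq] at this
      linarith
    · simp only [if_neg (not_le.2 hi), if_neg (not_le.2 (hi.trans (Nat.lt_succ_self i)))]
      exact h.det (i + 1)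
  form i u hu hu1 := by
    rw [RelIso.mul_apply]
    rcases lt_trichotomy i j with hi | rfl | hi
    · simp only [if_pos hi.le, if_pos (Nat.succ_le_of_lt hi)]
      have : (i : ℝ) + u ≤ ((j : ℤ) : ℝ) := by
        have : (i : ℝ) + 1 ≤ j := by exact_mod_cast hi
        push_cast; linarith
      rw [x_of_le this]
      exact h.form i u hu hu1
    · simp only [le_refl, if_true, if_neg (Nat.not_succ_le_self i)]
      rw [x_apply]
      have e1 : (i : ℝ) + u - ((i : ℤ) : ℝ) = u := by push_cast; ring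
      rw [e1]
      have q1 : (0 : ℝ) < q i := by exact_mod_cast h.qpos i
      have q3 : (0 : ℝ) < q (i + 2) := by exact_mod_cast h.qpos (i + 2)
      have q2 : (q (i + 1) : ℝ) = q i + q (i + 2) := by exact_mod_cast hq
      have p2 : (p (i + 1) : ℝ) = p i + p (i + 2) := by exact_mod_cast hp
      have hden : 0 < (q i : ℝ) + u * (q (i + 2) - q i) := by
        rcases hu.eq_or_lt with hu0 | hu0
        · rw [← hu0]; linarith
        · have h1 := mul_pos hu0 q3
          have h2 := mul_nonneg (sub_nonneg.2 hu1) q1.le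
          nlinarith
      rcases le_total u (1 / 2) with hu2 | hu2
      · have h1u : 0 < 1 - u := by linarith
        have hv1 : u / (1 - u) ≤ 1 := by rw [div_le_one h1u]; linarith
        have hv0 : 0 ≤ u / (1 - u) := by positivity
        rw [xFun_2 hu hu2]
        have := h.form i (u / (1 - u)) hv0 hv1
        push_cast
        rw [add_comm, this, p2, q2]
        have hden2 : 0 < (q i : ℝ) + u / (1 - u) * (q i + q (i + 2) - q i) := by
          have : 0 ≤ u / (1 - u) * (q i + q (i + 2) - q i : ℝ) :=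
            mul_nonneg hv0 (by linarith)
          linarith
        rw [div_eq_div_iff hden2.ne' hden.ne']
        field_simp
        ring
      · have hu0 : 0 < u := by linarith
        have hi1 : 1 ≤ 1 / u := by rw [le_div_iff₀ hu0]; linarith
        have hi2 : 1 / u ≤ 2 := by rw [div_le_iff₀ hu0]; linarith
        rw [xFun_3 hu2 hu1]
        have := h.form (i + 1) (2 - 1 / u) (by linarith) (by linarith)
        push_cast at this ⊢
        have e2 : 3 - 1 / u + (i : ℝ) = (i : ℝ) + 1 + (2 - 1 / u) := by ring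
        rw [e2, this]
        have p3 : (p (i + 1 + 1) : ℝ) = p (i + 2) := rfl
        have q4 : (q (i + 1 + 1) : ℝ) = q (i + 2) := rfl
        rw [p3, q4, p2, q2]
        have hden2 : 0 < ((q i : ℝ) + q (i + 2)) + (2 - 1 / u) * (q (i + 2) - (q i + q (i + 2))) := by
          have : (2 - 1 / u) * (q (i + 2) - (q i + q (i + 2)) : ℝ) = -((2 - 1 / u) * q i) := by ring
          rw [this]
          nlinarith
        rw [div_eq_div_iff hden2.ne' hden.ne']
        field_simp
        ring
    · simp only [if_neg (not_le.2 hi), if_neg (not_le.2 (hi.trans (Nat.lt_succ_self i)))]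
      have : ((j : ℤ) : ℝ) + 1 ≤ i + u := by
        have : (j : ℝ) + 1 ≤ i := by exact_mod_cast hi
        push_cast; linarith
      rw [x_of_ge this]
      have := h.form (i + 1) u hu hu1
      push_cast at this
      rw [show (i : ℝ) + u + 1 = i + 1 + u by ring, this]
  neg t ht := by
    rw [RelIso.mul_apply, x_of_le, h.neg t ht]
    push_cast
    linarith [(Nat.cast_nonneg j : (0 : ℝ) ≤ j)]
  ev := by
    obtain ⟨n, hn⟩ := h.ev
    refine ⟨n + j + 1, fun i hi => ?_⟩
    have h1 : ¬ i ≤ j := by omega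
    simp only [if_neg h1]
    obtain ⟨h2, h3⟩ := hn (i + 1) (by omega)
    refine ⟨h2, ?_⟩
    rw [h3]; push_cast; ring

lemma Chain.mem_P (m : ℕ) : ∀ {g : Line} {p q : ℕ → ℤ} {c : ℤ}, Chain g p q c → -c ≤ m → g ∈ P := by
  induction m with
  | zero =>
    intro g p q c h hc
    by_cases hq : ∀ j, q j = 1
    · rw [h.eq_one hq]; exact P.one_mem
    · obtain ⟨j, hp, hq⟩ := h.exists_mediant hq
      have := (h.step hp hq).c_le
      push_cast at hc
      omega
  | succ m ih =>
    intro g p q c h hc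
    by_cases hq : ∀ j, q j = 1
    · rw [h.eq_one hq]; exact P.one_mem
    · obtain ⟨j, hp, hq⟩ := h.exists_mediant hq
      have := ih (h.step hp hq) (by push_cast at hc ⊢; omega)
      have h2 : g = (g * x j) * (x j)⁻¹ := by group
      rw [h2]
      exact P.mul_mem this (P.inv_mem (x_mem_P j))

/-! ### Maps which are Moebius on the intervals `[j, j+1]` -/

/-- `g` is Moebius on every interval `[j, j+1]`, `j ≥ 0`. -/
def OnUnits (g : Line) : Prop :=
  ∀ j : ℕ, ∃ M : SpecialLinearGroup (Fin 2) ℤ, ∀ t ∈ Icc (j : ℝ) (j + 1),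
    ((g t : ℝ) : Circ) = mob M t

lemma mob_neg (M : SpecialLinearGroup (Fin 2) ℤ) (t : ℝ) : mob (-M) t = mob M t := by
  rw [mob_coe, mob_coe]
  have h1 : ((-M) 1 0 : ℝ) * t + ((-M) 1 1 : ℤ) = -((M 1 0 : ℝ) * t + (M 1 1 : ℤ)) := by
    simp [SpecialLinearGroup.coe_neg]; ring
  have h2 : ((-M) 0 0 : ℝ) * t + ((-M) 0 1 : ℤ) = -((M 0 0 : ℝ) * t + (M 0 1 : ℤ)) := by
    simp [SpecialLinearGroup.coe_neg]; ring
  by_cases h : (M 1 0 : ℝ) * t + (M 1 1 : ℤ) = 0
  · rw [if_pos h, if_pos (by rw [h1, h, neg_zero])]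
  · rw [if_neg h, if_neg (by rw [h1, neg_eq_zero]; exact h), h1, h2, neg_div_neg_eq]

lemma OnUnits.data {g : Line} (hg : OnUnits g) (j : ℕ) :
    ∃ a b c d : ℤ, a * d - b * c = 1 ∧ 0 < c * j + d ∧ 0 < c * (j + 1) + d ∧
      ∀ t ∈ Icc (j : ℝ) (j + 1), g t = (a * t + b) / (c * t + d) := by
  obtain ⟨M, hM⟩ := hg j
  have key : ∀ M : SpecialLinearGroup (Fin 2) ℤ,
      (∀ t ∈ Icc (j : ℝ) (j + 1), ((g t : ℝ) : Circ) = mob M t) → 0 < M 1 0 * (j : ℤ) + M 1 1 →
      ∃ a b c d : ℤ, a * d - b * c = 1 ∧ 0 < c * j + d ∧ 0 < c * (j + 1) + d ∧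
      ∀ t ∈ Icc (j : ℝ) (j + 1), g t = (a * t + b) / (c * t + d) := by
    intro M hM hpos
    have hne : ∀ t ∈ Icc (j : ℝ) (j + 1), (M 1 0 : ℝ) * t + M 1 1 ≠ 0 := by
      intro t ht h0
      have := hM t ht
      rw [mob_coe, if_pos h0] at this
      exact OnePoint.coe_ne_infty _ this
    refine ⟨M 0 0, M 0 1, M 1 0, M 1 1, ?_, hpos, ?_, ?_⟩
    · have := M.2
      rw [det_fin_two] at this
      exact this
    · by_contra hneg
      have hneg' : (M 1 0 : ℝ) * (j + 1) + M 1 1 ≤ 0 := by exact_mod_cast not_lt.1 hneg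
      have hpos' : (0 : ℝ) < M 1 0 * j + M 1 1 := by exact_mod_cast hpos
      have hcont : ContinuousOn (fun t : ℝ => (M 1 0 : ℝ) * t + M 1 1) (Icc (j : ℝ) (j + 1)) := by
        fun_prop
      obtain ⟨t, ht, ht0⟩ := intermediate_value_Icc' (by linarith : (j : ℝ) ≤ j + 1) hcont
        ⟨hneg', hpos'.le⟩
      exact hne t ht ht0
    · intro t ht
      have := hM t ht
      rw [mob_coe, if_neg (hne t ht)] at this
      exact OnePoint.coe_injective this
  rcases lt_trichotomy 0 (M 1 0 * (j : ℤ) + M 1 1) with h | h | h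
  · exact key M hM h
  · exfalso
    have := hM j ⟨le_rfl, by linarith⟩
    rw [mob_coe, if_pos (by exact_mod_cast h.symm)] at this
    exact OnePoint.coe_ne_infty _ this
  · refine key (-M) (fun t ht => by rw [mob_neg]; exact hM t ht) ?_
    simp only [SpecialLinearGroup.coe_neg, neg_apply]
    linarith

lemma exists_chain {g : Line} (hneg : ∀ t ≤ 0, g t = t) (hg : OnUnits g) (hF : g ∈ F) :
    ∃ p q c, Chain g p q c := by
  choose a b c d hdet hpos hpos' hform using fun j => hg.data j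
  -- the vectors at `j` from the left and from the right agree
  have hval : ∀ j : ℕ, g j = ((a j * j + b j : ℤ) : ℝ) / ((c j * j + d j : ℤ) : ℝ) := by
    intro j; rw [hform j j ⟨le_rfl, by linarith⟩]; push_cast; ring
  have hval' : ∀ j : ℕ, g (j + 1) = ((a j * (j + 1) + b j : ℤ) : ℝ) /
      ((c j * (j + 1) + d j : ℤ) : ℝ) := by
    intro j; rw [hform j (j + 1) ⟨by linarith, le_rfl⟩]; push_cast; ring
  have hmatch : ∀ j : ℕ, a j * (j + 1) + b j = a (j + 1) * (j + 1 : ℕ) + b (j + 1) ∧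
      c j * (j + 1) + d j = c (j + 1) * (j + 1 : ℕ) + d (j + 1) := by
    intro j
    have e := hval (j + 1)
    have e' := hval' j
    rw [Nat.cast_add, Nat.cast_one] at e
    rw [e'] at e
    have hq : (((a j * (j + 1) + b j : ℤ) : ℚ)) / ((c j * (j + 1) + d j : ℤ) : ℚ) =
        ((a (j + 1) * (j + 1 : ℕ) + b (j + 1) : ℤ) : ℚ) /
          ((c (j + 1) * (j + 1 : ℕ) + d (j + 1) : ℤ) : ℚ) := by
      exact_mod_cast e
    refine Rat.div_int_inj (hpos' j) (hpos (j + 1)) ?_ ?_ hq
    · exact Int.isCoprime_iff_gcd_eq_one.1 ⟨-c j, a j, by linear_combination hdet j⟩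
    · exact Int.isCoprime_iff_gcd_eq_one.1
        ⟨-c (j + 1), a (j + 1), by push_cast; linear_combination hdet (j + 1)⟩
  -- eventually a translation
  obtain ⟨B, hB⟩ := mem_F.1 hF
  obtain ⟨n, hn⟩ : ∃ n : ℕ, ∀ b ∈ B, (b : ℝ) ≤ n := by
    obtain ⟨m, hm⟩ := Finset.exists_le B
    obtain ⟨n, hn⟩ := exists_nat_ge (m : ℝ)
    exact ⟨n, fun b hb => le_trans (by exact_mod_cast hm b hb) hn⟩
  obtain ⟨M, hM⟩ := hB (Ioi (n : ℝ)) ordConnected_Ioi
    (fun b hb hbn => absurd (mem_Ioi.1 hbn) (not_lt.2 (hn b hb)))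
  have hinf : mob M ∞ = ∞ := by
    have h1 : Tendsto ((↑) : ℝ → Circ) atTop (𝓝 ∞) := by
      refine Tendsto.mono_left (tendsto_coe_infty (X := ℝ)) ?_
      rw [Filter.coclosedCompact_eq_cocompact]
      exact atTop_le_cocompact
    have h2 : Tendsto (fun t : ℝ => ((g t : ℝ) : Circ)) atTop (𝓝 ∞) := h1.comp g.tendsto_atTop
    have h3 : Tendsto (fun t : ℝ => mob M t) atTop (𝓝 (mob M ∞)) :=
      ((continuous_mob M).tendsto ∞).comp h1
    have h4 : Tendsto (fun t : ℝ => mob M t) atTop (𝓝 ∞) :=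
      h2.congr' (by filter_upwards [Ioi_mem_atTop (n : ℝ)] with t ht using hM t ht)
    exact tendsto_nhds_unique h3 h4
  have hM0 : M 1 0 = 0 := by
    rw [mob_infty] at hinf
    by_contra h0
    rw [if_neg (by exact_mod_cast h0)] at hinf
    exact OnePoint.coe_ne_infty _ hinf
  have hMdet : M 0 0 * M 1 1 = 1 := by
    have := M.2
    rw [det_fin_two, hM0, mul_zero, sub_zero] at this
    exact this
  have htrans : ∀ t > (n : ℝ), g t = t + ((M 0 0 * M 0 1 : ℤ) : ℝ) := by
    intro t ht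
    have := hM t ht
    rw [mob_coe, hM0] at this
    rcases Int.eq_one_or_neg_one_of_mul_eq_one' hMdet with ⟨h1, h2⟩ | ⟨h1, h2⟩
    · rw [h1, h2] at this
      simp only [Int.cast_zero, zero_mul, zero_add, Int.cast_one, one_ne_zero, if_false, one_mul,
        div_one] at this
      rw [OnePoint.coe_injective this, h1, one_mul]
    · rw [h1, h2] at this
      simp only [Int.cast_zero, zero_mul, zero_add, Int.cast_neg, Int.cast_one, neg_eq_zero,
        one_ne_zero, if_false] at this
      rw [OnePoint.coe_injective this, h1]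
      push_cast
      ring
  refine ⟨fun j => a j * j + b j, fun j => c j * j + d j, M 0 0 * M 0 1, ?_, ?_, ?_, hneg, ?_⟩
  · exact hpos
  · intro j
    rw [← (hmatch j).1, ← (hmatch j).2]
    linear_combination hdet j
  · intro j u hu hu1
    rw [← (hmatch j).1, ← (hmatch j).2, hform j (j + u) ⟨by linarith, by linarith⟩]
    push_cast
    congr 1 <;> ring
  · refine ⟨n + 1, fun j hj => ?_⟩
    have hj' : (n : ℝ) < j := by exact_mod_cast hj
    have e := hval j
    rw [htrans j hj'] at e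
    have hq : (((j + M 0 0 * M 0 1 : ℤ) : ℚ)) / ((1 : ℤ) : ℚ) =
        ((a j * j + b j : ℤ) : ℚ) / ((c j * j + d j : ℤ) : ℚ) := by
      rw [Int.cast_one, div_one]
      exact_mod_cast e
    have := Rat.div_int_inj one_pos (hpos j) (by simp) (Int.isCoprime_iff_gcd_eq_one.1
      ⟨-c j, a j, by linear_combination hdet j⟩) hq
    exact ⟨this.2.symm, this.1.symm⟩

lemma mem_P_of_onUnits {g : Line} (hneg : ∀ t ≤ 0, g t = t) (hg : OnUnits g) (hF : g ∈ F) :
    g ∈ P := by
  obtain ⟨p, q, c, h⟩ := exists_chain hneg hg hF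
  exact h.mem_P (-c).toNat (Int.self_le_toNat _)

end Pool.Agent.R643.PP
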