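import Mathlib
import Pool.Agent.R643.PPStruct

/-!
Refinements: every element of `F` which is trivial on `(-∞, 0]` lies in `P`.
-/

open OnePoint Set Filter Topology Matrix

namespace Pool.Agent.R643.PP

lemma line_mul_inv_apply (g : Line) (t : ℝ) : g (g⁻¹ t) = t := by
  rw [← RelIso.mul_apply, mul_inv_cancel]; rfl

lemma line_inv_mul_apply (g : Line) (t : ℝ) : g⁻¹ (g t) = t := by
  rw [← RelIso.mul_apply, inv_mul_cancel]; rfl

/-- Refinements of the division of `[0, ∞)` into unit intervals. -/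
structure IsR (p : Line) : Prop where
  mem : p ∈ P
  units : OnUnits p
  nat : ∀ i : ℕ, ∃ j : ℕ, p j = i

lemma IsR.neg {p : Line} (h : IsR p) : ∀ t ≤ 0, p t = t := P_neg h.mem

lemma isR_one : IsR 1 :=
  ⟨P.one_mem, fun j => ⟨1, fun t _ => by rw [mob_one]; rfl⟩, fun i => ⟨i, rfl⟩⟩

/-- `p` maps a unit interval into a unit interval. -/
lemma IsR.unit {p : Line} (h : IsR p) (j : ℕ) : ∃ i : ℕ, ∀ t ∈ Icc (j : ℝ) (j + 1),
    p t ∈ Icc (i : ℝ) (i + 1) := by
  have h0 : 0 ≤ p j := by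
    have := p.monotone (show (0 : ℝ) ≤ j from Nat.cast_nonneg j)
    rwa [h.neg 0 le_rfl] at this
  refine ⟨⌊p j⌋₊, fun t ht => ⟨(Nat.floor_le h0).trans (p.monotone ht.1), ?_⟩⟩
  obtain ⟨k, hk⟩ := h.nat (⌊p j⌋₊ + 1)
  have h1 : p j < p k := by
    rw [hk]; push_cast; exact Nat.lt_floor_add_one _
  have h2 : (j : ℝ) < k := p.lt_iff_lt.1 h1
  have h3 : (j : ℝ) + 1 ≤ k := by exact_mod_cast h2
  have h4 := p.monotone (ht.2.trans h3)
  rw [hk] at h4
  push_cast at h4
  exact h4

lemma OnUnits.comp {g p : Line} (hg : OnUnits g) (hp : IsR p) : OnUnits (g * p) := by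
  intro j
  obtain ⟨i, hi⟩ := hp.unit j
  obtain ⟨M, hM⟩ := hg i
  obtain ⟨N, hN⟩ := hp.units j
  refine ⟨M * N, fun t ht => ?_⟩
  rw [RelIso.mul_apply, hM _ (hi t ht), hN t ht, mob_mul]

lemma IsR.mul {p p' : Line} (h : IsR p) (h' : IsR p') : IsR (p * p') :=
  ⟨P.mul_mem h.mem h'.mem, h.units.comp h', fun i => by
    obtain ⟨j, hj⟩ := h.nat i
    obtain ⟨k, hk⟩ := h'.nat j
    exact ⟨k, by rw [RelIso.mul_apply, hk, hj]⟩⟩

/-- The matrix `(1 0; 1 1)`. -/
def L1 : SpecialLinearGroup (Fin 2) ℤ := ⟨!![1, 0; 1, 1], by simp [det_fin_two]⟩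

/-- The matrix `(0 1; -1 3)`. -/
def L2 : SpecialLinearGroup (Fin 2) ℤ := ⟨!![0, 1; -1, 3], by simp [det_fin_two]⟩

/-- The matrix `(1 k; 0 1)`. -/
def L3 (k : ℤ) : SpecialLinearGroup (Fin 2) ℤ := ⟨!![1, k; 0, 1], by simp [det_fin_two]⟩

lemma mob_L1 {t : ℝ} (h : 0 ≤ t) : mob L1 t = ((t / (1 + t) : ℝ) : Circ) := by
  have h1 : 1 + t ≠ 0 := by positivity
  have h2 : t + 1 = 1 + t := by ring
  rw [mob_coe]
  simp [L1, h2, h1]

lemma mob_L2 {t : ℝ} (h : t < 3) : mob L2 t = ((1 / (3 - t) : ℝ) : Circ) := by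
  have h1 : 3 - t ≠ 0 := by linarith
  have h2 : -t + 3 = 3 - t := by ring
  rw [mob_coe]
  simp [L2, h2, h1]

lemma mob_L3 (k : ℤ) (t : ℝ) : mob (L3 k) t = ((t + k : ℝ) : Circ) := by
  rw [mob_coe]
  simp [L3]

lemma isR_x_inv (k : ℕ) : IsR (x k)⁻¹ where
  mem := P.inv_mem (x_mem_P k)
  units j := by
    rcases lt_trichotomy j k with h | rfl | h
    · refine ⟨1, fun t ht => ?_⟩
      have : (j : ℝ) + 1 ≤ k := by exact_mod_cast h
      rw [mob_one, x_inv_apply, xInv_1 (by push_cast; linarith [ht.2])]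
      congr 1; ring
    · refine ⟨L3 j * L1 * L3 (-j), fun t ht => ?_⟩
      have h1 : 0 ≤ t + ((-(j : ℤ) : ℤ) : ℝ) := by push_cast; linarith [ht.1]
      rw [mob_mul, mob_mul, mob_L3, mob_L1 h1, mob_L3, x_inv_apply,
        xInv_2 (by push_cast; linarith [ht.1]) (by push_cast; linarith [ht.2])]
      congr 1
      push_cast
      ring_nf
    · rcases (Nat.succ_le_of_lt h).eq_or_lt with h' | h'
      · subst h'
        refine ⟨L3 k * L2 * L3 (-k), fun t ht => ?_⟩
        have e : ((k.succ : ℕ) : ℝ) = k + 1 := by push_cast; ring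
        rw [e] at ht
        have h1 : t + ((-(k : ℤ) : ℤ) : ℝ) < 3 := by push_cast; linarith [ht.2]
        rw [mob_mul, mob_mul, mob_L3, mob_L2 h1, mob_L3, x_inv_apply,
          xInv_3 (by push_cast; linarith [ht.1]) (by push_cast; linarith [ht.2])]
        congr 1
        push_cast
        ring_nf
      · refine ⟨L3 (-1), fun t ht => ?_⟩
        have : (k : ℝ) + 1 + 1 ≤ j := by exact_mod_cast h'
        rw [mob_L3, x_inv_apply, xInv_4 (by push_cast; linarith [ht.1])]
        congr 1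
        push_cast; ring
  nat i := by
    rcases le_or_gt i k with h | h
    · refine ⟨i, ?_⟩
      have : (i : ℝ) ≤ k := by exact_mod_cast h
      rw [x_inv_apply, xInv_1 (by push_cast; linarith)]
      ring
    · refine ⟨i + 1, ?_⟩
      have : (k : ℝ) + 1 ≤ i := by exact_mod_cast h
      rw [x_inv_apply, xInv_4 (by push_cast; linarith)]
      push_cast; ring

/-- Every fraction becomes an integer after a refinement. -/
lemma exists_refine_frac (n : ℕ) : ∀ a i : ℕ, a < n → ∃ p : Line, IsR p ∧ ∃ j : ℕ,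
    p j = i + (a : ℝ) / n := by
  induction n using Nat.strong_induction_on with
  | _ n ih =>
    intro a i ha
    have hn : (0 : ℝ) < n := by
      have : 0 < n := by omega
      exact_mod_cast this
    -- it suffices to treat the image under `x_i`
    have red : ∀ r : ℝ, x i (i + (a : ℝ) / n) = r → (∃ p : Line, IsR p ∧ ∃ j : ℕ, p j = r) →
        ∃ p : Line, IsR p ∧ ∃ j : ℕ, p j = i + (a : ℝ) / n := by
      rintro r hr ⟨p, hp, j, hj⟩
      refine ⟨(x i)⁻¹ * p, (isR_x_inv i).mul hp, j, ?_⟩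
      rw [RelIso.mul_apply, hj, ← hr, line_inv_mul_apply]
    rcases Nat.eq_zero_or_pos a with rfl | ha0
    · exact ⟨1, isR_one, i, by simp⟩
    have haR : (0 : ℝ) < a := by exact_mod_cast ha0
    have hx : x i (i + (a : ℝ) / n) = xFun ((a : ℝ) / n) + i := by
      rw [x_apply]; push_cast; ring_nf
    rcases le_total (2 * a) n with h2 | h2
    · have hu : (a : ℝ) / n ≤ 1 / 2 := by
        rw [div_le_div_iff₀ hn two_pos]
        have : (2 * a : ℝ) ≤ n := by exact_mod_cast h2
        linarith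
      have hna : (0 : ℝ) < n - a := by
        have : (a : ℝ) < n := by exact_mod_cast ha
        linarith
      have hval : x i (i + (a : ℝ) / n) = i + (a : ℝ) / (n - a : ℕ) := by
        rw [hx, xFun_2 (by positivity) hu, Nat.cast_sub ha.le]
        have : 1 - (a : ℝ) / n = (n - a) / n := by field_simp
        rw [this]
        field_simp
        ring
      rcases h2.eq_or_lt with h3 | h3
      · refine red _ hval ⟨1, isR_one, i + 1, ?_⟩
        have : n - a = a := by omega
        rw [this, div_self haR.ne']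
        simp
      · exact red _ hval (ih (n - a) (by omega) a i (by omega))
    · rcases h2.eq_or_lt with h3 | h3
      · -- `2 a = n`
        have hu : (a : ℝ) / n = 1 / 2 := by
          rw [h3]; push_cast; field_simp
        refine red (i + 1) ?_ ⟨1, isR_one, i + 1, by simp⟩
        rw [hx, hu, xFun_2 (by norm_num) le_rfl]; norm_num [add_comm]
      · have hu : 1 / 2 ≤ (a : ℝ) / n := by
          rw [div_le_div_iff₀ two_pos hn]
          have : (n : ℝ) ≤ 2 * a := by exact_mod_cast h2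
          linarith
        have hu1 : (a : ℝ) / n ≤ 1 := by
          rw [div_le_one hn]; exact_mod_cast ha.le
        have hval : x i (i + (a : ℝ) / n) = ((i + 1 : ℕ) : ℝ) + ((2 * a - n : ℕ) : ℝ) / a := by
          rw [hx, xFun_3 hu hu1, Nat.cast_sub h2]
          push_cast
          field_simp
          ring
        exact red _ hval (ih a ha (2 * a - n) (i + 1) (by omega))

lemma exists_refine_rat {r : ℚ} (hr : 0 < r) : ∃ p : Line, IsR p ∧ ∃ j : ℕ, p j = r := by
  have hd : 0 < r.den := r.den_pos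
  obtain ⟨p, hp, j, hj⟩ := exists_refine_frac r.den (r.num.toNat % r.den) (r.num.toNat / r.den)
    (Nat.mod_lt _ hd)
  refine ⟨p, hp, j, ?_⟩
  rw [hj]
  have hnum : ((r.num.toNat : ℕ) : ℝ) = (r.num : ℝ) := by
    have : (r.num.toNat : ℤ) = r.num := Int.toNat_of_nonneg (Rat.num_pos.2 hr).le
    exact_mod_cast this
  have hdiv := Nat.div_add_mod r.num.toNat r.den
  have hdR : (0 : ℝ) < r.den := by exact_mod_cast hd
  have h2 : ((r.den * (r.num.toNat / r.den) + r.num.toNat % r.den : ℕ) : ℝ) = r.num := by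
    rw [hdiv, hnum]
  push_cast at h2
  have h3 : (r : ℝ) = r.num / r.den := by exact_mod_cast (Rat.num_div_den r).symm
  rw [h3, ← h2]
  field_simp

lemma F_rat {g : Line} (hg : g ∈ F) (q : ℚ) : ∃ q' : ℚ, g q = q' := by
  have h := (PiecewiseMobius.isRat_iff (mem_F.1 hg).piecewise ((q : ℝ) : Circ)).2 (isRat_coe q)
  rcases h with h | ⟨q', h⟩
  · exact absurd h (OnePoint.coe_ne_infty _)
  · exact ⟨q', OnePoint.coe_injective h⟩

lemma exists_refine_finset (B : Finset ℚ) (hB : ∀ b ∈ B, 0 < b) :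
    ∃ p : Line, IsR p ∧ ∀ b ∈ B, ∃ j : ℕ, p j = b := by
  classical
  induction B using Finset.induction with
  | empty => exact ⟨1, isR_one, by simp⟩
  | insert b B hbB ih =>
    obtain ⟨p, hp, h⟩ := ih fun c hc => hB c (Finset.mem_insert_of_mem hc)
    obtain ⟨r, hr⟩ := F_rat (F.inv_mem (P_le_F hp.mem)) b
    have hpr : p r = b := by rw [← hr, line_mul_inv_apply]
    have hr0 : 0 < r := by
      have hb0 : (0 : ℝ) < b := by exact_mod_cast hB b (Finset.mem_insert_self _ _)
      have : p 0 < p r := by rw [hpr, hp.neg 0 le_rfl]; exact hb0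
      exact_mod_cast p.lt_iff_lt.1 this
    obtain ⟨p', hp', j, hj⟩ := exists_refine_rat hr0
    refine ⟨p * p', hp.mul hp', fun c hc => ?_⟩
    rcases Finset.mem_insert.1 hc with rfl | hc
    · exact ⟨j, by rw [RelIso.mul_apply, hj, hpr]⟩
    · obtain ⟨i, hi⟩ := h c hc
      obtain ⟨k, hk⟩ := hp'.nat i
      exact ⟨k, by rw [RelIso.mul_apply, hk, hi]⟩

/-- The structure theorem. -/
theorem mem_P_of_neg {g : Line} (hg : g ∈ F) (hneg : ∀ t ≤ 0, g t = t) : g ∈ P := by
  classical
  obtain ⟨B, hB⟩ := mem_F.1 hg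
  obtain ⟨p, hp, h⟩ := exists_refine_finset (B.filter (0 < ·)) fun b hb => (Finset.mem_filter.1 hb).2
  have hunits : OnUnits (g * p) := by
    intro j
    obtain ⟨M, hM⟩ := hB (Ioo (p j) (p (j + 1))) ordConnected_Ioo (by
      intro b hb hbI
      have h0 : 0 ≤ p j := by
        have := p.monotone (show (0 : ℝ) ≤ j from Nat.cast_nonneg j)
        rwa [hp.neg 0 le_rfl] at this
      have hb0 : 0 < b := by exact_mod_cast h0.trans_lt hbI.1
      obtain ⟨k, hk⟩ := h b (Finset.mem_filter.2 ⟨hb, hb0⟩)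
      rw [← hk] at hbI
      have h1 : (j : ℝ) < k := p.lt_iff_lt.1 hbI.1
      have h2 : (k : ℝ) < j + 1 := p.lt_iff_lt.1 hbI.2
      have h1' : j < k := by exact_mod_cast h1
      have h2' : k < j + 1 := by exact_mod_cast h2
      omega)
    obtain ⟨N, hN⟩ := hp.units j
    refine ⟨M * N, ?_⟩
    have hopen : ∀ t ∈ Ioo (j : ℝ) (j + 1), (((g * p) t : ℝ) : Circ) = mob (M * N) t := by
      intro t ht
      rw [RelIso.mul_apply, hM _ ⟨p.lt_iff_lt.2 ht.1, p.lt_iff_lt.2 ht.2⟩,
        hN t ⟨ht.1.le, ht.2.le⟩, mob_mul]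
    have hclosed : IsClosed {t : ℝ | (((g * p) t : ℝ) : Circ) = mob (M * N) t} :=
      isClosed_eq (OnePoint.continuous_coe.comp (g * p).continuous)
        ((continuous_mob _).comp OnePoint.continuous_coe)
    intro t ht
    rw [← closure_Ioo (by linarith : (j : ℝ) ≠ j + 1)] at ht
    exact closure_minimal (fun t ht => hopen t ht) hclosed ht
  have h1 : g * p ∈ P := mem_P_of_onUnits
    (fun t ht => by rw [RelIso.mul_apply, hp.neg t ht, hneg t ht]) hunits
    (F.mul_mem hg (P_le_F hp.mem))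
  have h2 : g = (g * p) * p⁻¹ := by group
  rw [h2]
  exact P.mul_mem h1 (P.inv_mem hp.mem)

end Pool.Agent.R643.PP
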