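import Mathlib
import Pool.Agent.R643.PPRefine

/-!
Relations between the explicit elements, and supports.
-/

open OnePoint Set Filter Topology Matrix

namespace Pool.Agent.R643.PP

/-! ### Supports -/

/-- `g` is the identity outside `[a, b]`. -/
def Supp (g : Line) (a b : ℝ) : Prop := ∀ t, (t ≤ a ∨ b ≤ t) → g t = t

lemma Supp.mono {g : Line} {a b a' b' : ℝ} (h : Supp g a b) (ha : a' ≤ a) (hb : b ≤ b') :
    Supp g a' b' := fun t ht => h t (ht.imp (fun h => h.trans ha) (fun h => hb.trans h))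

lemma Supp.mul {g h : Line} {a b : ℝ} (hg : Supp g a b) (hh : Supp h a b) : Supp (g * h) a b :=
  fun t ht => by rw [RelIso.mul_apply, hh t ht, hg t ht]

lemma Supp.inv {g : Line} {a b : ℝ} (hg : Supp g a b) : Supp g⁻¹ a b := fun t ht => by
  have := line_inv_mul_apply g t
  rwa [hg t ht] at this

/-- Conjugation by a power of the translation. -/
noncomputable def sh (k : ℤ) (g : Line) : Line := tau ^ k * g * tau ^ (-k)

lemma sh_apply (k : ℤ) (g : Line) (t : ℝ) : sh k g t = g (t - k) + k := by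
  rw [sh, RelIso.mul_apply, RelIso.mul_apply, tau_zpow_apply, tau_zpow_apply]
  push_cast
  rw [← sub_eq_add_neg]

lemma sh_mul (k : ℤ) (g h : Line) : sh k (g * h) = sh k g * sh k h := by
  simp only [sh]; group

lemma sh_inv (k : ℤ) (g : Line) : sh k g⁻¹ = (sh k g)⁻¹ := by
  simp only [sh]; group

lemma sh_sh (j k : ℤ) (g : Line) : sh j (sh k g) = sh (j + k) g := by
  simp only [sh]; group

lemma sh_zero (g : Line) : sh 0 g = g := by simp [sh]

lemma sh_x (j k : ℤ) : sh j (x k) = x (j + k) := by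
  simp only [sh, x]; group

lemma Supp.sh {g : Line} {a b : ℝ} (h : Supp g a b) (k : ℤ) : Supp (sh k g) (a + k) (b + k) := by
  intro t ht
  rw [sh_apply, h (t - k) (ht.imp (fun h => by linarith) (fun h => by linarith))]
  ring

lemma Supp.maps {g : Line} {a b : ℝ} (h : Supp g a b) {t : ℝ} (ht : t ∈ Icc a b) :
    g t ∈ Icc a b := by
  constructor
  · have := g.monotone ht.1
    rwa [h a (Or.inl le_rfl)] at this
  · have := g.monotone ht.2
    rwa [h b (Or.inr le_rfl)] at this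

/-- Elements with disjoint supports commute. -/
lemma Supp.commute {g h : Line} {a b c d : ℝ} (hg : Supp g a b) (hh : Supp h c d) (hbc : b ≤ c) :
    g * h = h * g := by
  ext t
  rw [RelIso.mul_apply, RelIso.mul_apply]
  rcases le_total t c with ht | ht
  · rw [hh t (Or.inl ht)]
    have : g t ≤ c := by
      have := g.monotone ht
      rwa [hg c (Or.inr hbc)] at this
    rw [hh _ (Or.inl this)]
  · rw [hg t (Or.inr (hbc.trans ht))]
    have : c ≤ h t := by
      have := h.monotone ht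
      rwa [hh c (Or.inl le_rfl)] at this
    rw [hg _ (Or.inr (hbc.trans this))]

/-- If `g` is the translation by `1` on the support of `c` then `g c g⁻¹` is the shift of `c`. -/
lemma conj_eq_shift {g c : Line} {a b : ℝ} (hc : Supp c a b) (hg : ∀ t ∈ Icc a b, g t = t + 1)
    (hab : a ≤ b) : g * c = sh 1 c * g := by
  ext t
  rw [RelIso.mul_apply, RelIso.mul_apply, sh_apply]
  push_cast
  rcases le_total t a with ht | ht
  · rw [hc t (Or.inl ht)]
    have h1 : g t ≤ a + 1 := by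
      have := g.monotone ht
      rwa [hg a ⟨le_rfl, hab⟩] at this
    rw [hc _ (Or.inl (by linarith))]; ring
  rcases le_total t b with ht' | ht'
  · rw [hg t ⟨ht, ht'⟩, hg _ (hc.maps ⟨ht, ht'⟩)]
    congr 2; ring
  · rw [hc t (Or.inr ht')]
    have h1 : b + 1 ≤ g t := by
      have := g.monotone ht'
      rwa [hg b ⟨hab, le_rfl⟩] at this
    rw [hc _ (Or.inr (by linarith))]; ring

/-! ### Relations in `F` -/

lemma x_rel {i j : ℤ} (hij : i < j) : x i * x j = x (j + 1) * x i := by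
  have hij' : (i : ℝ) + 1 ≤ j := by exact_mod_cast hij
  ext t
  rw [RelIso.mul_apply, RelIso.mul_apply]
  rcases le_total t j with ht | ht
  · rw [x_of_le ht]
    have h1 : x i t ≤ ((j + 1 : ℤ) : ℝ) := by
      have := (x i).monotone ht
      rw [x_of_ge hij'] at this
      push_cast; exact this
    rw [x_of_le h1]
  · have h1 : (j : ℝ) ≤ x j t := by
      have := (x j).monotone ht
      rwa [x_of_le le_rfl] at this
    have a : x i (x j t) = x j t + 1 := x_of_ge (by linarith)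
    have b : x i t = t + 1 := x_of_ge (by linarith)
    rw [a, b, x_apply, x_apply]
    push_cast
    ring_nf

/-- The elements `e_k` supported on `[k, k+2]`. -/
noncomputable def e (k : ℤ) : Line := (x (k + 1))⁻¹ * x k

lemma supp_x_inv_mul {i j : ℤ} (hij : i < j) : Supp ((x j)⁻¹ * x i) i (j + 1) := by
  have hij' : (i : ℝ) + 1 ≤ j := by exact_mod_cast hij
  intro t ht
  rw [RelIso.mul_apply]
  rcases ht with ht | ht
  · rw [x_of_le ht, x_inv_apply, xInv_1 (by linarith)]; ring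
  · rw [x_of_ge (by linarith), x_inv_apply, xInv_4 (by linarith)]; ring

lemma supp_e (k : ℤ) : Supp (e k) k (k + 2) := by
  have := supp_x_inv_mul (show k < k + 1 by omega)
  refine this.mono le_rfl ?_
  push_cast; linarith

lemma sh_e (j k : ℤ) : sh j (e k) = e (j + k) := by
  rw [e, sh_mul, sh_inv, sh_x, sh_x, e, add_assoc]

lemma e_mem (k : ℤ) : e k ∈ F := F.mul_mem (F.inv_mem (x_mem _)) (x_mem _)

lemma mul_x_inv_shift {i j : ℤ} {t : ℝ} (h1 : (i : ℝ) + 1 ≤ t) (h2 : t + 1 ≤ j) :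
    ((x j)⁻¹ * x i) t = t + 1 := by
  rw [RelIso.mul_apply, x_of_ge h1, x_inv_apply, xInv_1 (by linarith)]; ring

/-- `G₁ = x₂⁻¹ x₋₁`. -/
noncomputable def G1 : Line := (x 2)⁻¹ * x (-1)

/-- `G₄ = e₋₁`. -/
noncomputable def G4 : Line := (x 0)⁻¹ * x (-1)

lemma supp_G1 : Supp G1 (-1) 3 := by
  have := supp_x_inv_mul (show (-1 : ℤ) < 2 by norm_num)
  exact this.mono (by push_cast; exact le_rfl) (by push_cast; norm_num)

lemma supp_G4 : Supp G4 (-1) 1 := by
  have := supp_x_inv_mul (show (-1 : ℤ) < 0 by norm_num)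
  exact this.mono (by push_cast; exact le_rfl) (by push_cast; norm_num)

/-- `[G₁, G₄] = e₀`. -/
lemma comm_G1_G4 : G1 * G4 * G1⁻¹ * G4⁻¹ = e 0 := by
  have r1 : x (-1) * x 0 = x 1 * x (-1) := x_rel (by norm_num)
  have r2 : x (-1) * x 2 = x 3 * x (-1) := x_rel (by norm_num)
  have r3 : x 1 * x 2 = x 3 * x 1 := x_rel (by norm_num)
  have e1 : G1 * G4 * G1⁻¹ * G4⁻¹ =
      (x 2)⁻¹ * (x (-1) * (x 0)⁻¹ * (x (-1))⁻¹) * (x (-1) * x 2 * (x (-1))⁻¹) * x 0 := by
    simp only [G1, G4]; group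
  have e2 : x (-1) * (x 0)⁻¹ * (x (-1))⁻¹ = (x 1)⁻¹ := by
    rw [eq_inv_iff_mul_eq_one]
    calc x (-1) * (x 0)⁻¹ * (x (-1))⁻¹ * x 1
        = x (-1) * (x 0)⁻¹ * (x (-1))⁻¹ * (x 1 * x (-1)) * (x (-1))⁻¹ := by group
      _ = 1 := by rw [← r1]; group
  have e3 : x (-1) * x 2 * (x (-1))⁻¹ = x 3 := by rw [r2]; group
  have e4 : (x 2)⁻¹ * (x 1)⁻¹ * x 3 = (x 1)⁻¹ := by
    have : (x 2)⁻¹ * (x 1)⁻¹ = (x 1)⁻¹ * (x 3)⁻¹ := by
      rw [← _root_.mul_inv_rev, ← _root_.mul_inv_rev, r3]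
    rw [this]; group
  rw [e1, e2, e3, e4, e]
  norm_num

/-! ### The elements `s` and `c` -/

/-- The formula of the homeomorphism `s`. -/
noncomputable def sFun (t : ℝ) : ℝ :=
  if t ≤ 0 then t else if t ≤ 1 then 2 * t / (1 + t) else if t ≤ 2 then 2 / (3 - t) else t

/-- Its inverse. -/
noncomputable def sInv (t : ℝ) : ℝ :=
  if t ≤ 0 then t else if t ≤ 1 then t / (2 - t) else if t ≤ 2 then 3 - 2 / t else t

lemma sFun_1 {t : ℝ} (h : t ≤ 0) : sFun t = t := by rw [sFun, if_pos h]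

lemma sFun_2 {t : ℝ} (h : 0 ≤ t) (h' : t ≤ 1) : sFun t = 2 * t / (1 + t) := by
  rcases h.eq_or_lt with rfl | h
  · simp [sFun]
  · rw [sFun, if_neg (not_le.2 h), if_pos h']

lemma sFun_3 {t : ℝ} (h : 1 ≤ t) (h' : t ≤ 2) : sFun t = 2 / (3 - t) := by
  rcases h.eq_or_lt with h | h
  · rw [sFun_2 (by linarith) h.ge, ← h]; norm_num
  · rw [sFun, if_neg (by linarith), if_neg (not_le.2 h), if_pos h']

lemma sFun_4 {t : ℝ} (h : 2 ≤ t) : sFun t = t := by
  rcases h.eq_or_lt with h | h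
  · rw [sFun_3 (by linarith) h.ge, ← h]; norm_num
  · rw [sFun, if_neg (by linarith), if_neg (by linarith), if_neg (not_le.2 h)]

lemma sInv_1 {t : ℝ} (h : t ≤ 0) : sInv t = t := by rw [sInv, if_pos h]

lemma sInv_2 {t : ℝ} (h : 0 ≤ t) (h' : t ≤ 1) : sInv t = t / (2 - t) := by
  rcases h.eq_or_lt with rfl | h
  · simp [sInv]
  · rw [sInv, if_neg (not_le.2 h), if_pos h']

lemma sInv_3 {t : ℝ} (h : 1 ≤ t) (h' : t ≤ 2) : sInv t = 3 - 2 / t := by
  rcases h.eq_or_lt with h | h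
  · rw [sInv_2 (by linarith) h.ge, ← h]; norm_num
  · rw [sInv, if_neg (by linarith), if_neg (not_le.2 h), if_pos h']

lemma sInv_4 {t : ℝ} (h : 2 ≤ t) : sInv t = t := by
  rcases h.eq_or_lt with h | h
  · rw [sInv_3 (by linarith) h.ge, ← h]; norm_num
  · rw [sInv, if_neg (by linarith), if_neg (by linarith), if_neg (not_le.2 h)]

lemma sFun_mono : Monotone sFun := by
  have h1 : MonotoneOn sFun (Iic 0) := fun a ha b hb hab => by
    rw [sFun_1 ha, sFun_1 hb]; exact hab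
  have h2 : MonotoneOn sFun (Icc 0 1) := fun a ha b hb hab => by
    rw [sFun_2 ha.1 ha.2, sFun_2 hb.1 hb.2, div_le_div_iff₀ (by linarith [ha.1]) (by linarith [hb.1])]
    nlinarith
  have h3 : MonotoneOn sFun (Icc 1 2) := fun a ha b hb hab => by
    rw [sFun_3 ha.1 ha.2, sFun_3 hb.1 hb.2]
    exact div_le_div_of_nonneg_left (by norm_num) (by linarith [hb.2]) (by linarith)
  have h4 : MonotoneOn sFun (Ici 2) := fun a ha b hb hab => by
    rw [sFun_4 ha, sFun_4 hb]; exact hab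
  have h12 : MonotoneOn sFun (Iic 0 ∪ Icc 0 1) :=
    h1.union_right h2 ⟨mem_Iic.2 le_rfl, fun _ h => h⟩ ⟨⟨le_rfl, by norm_num⟩, fun _ h => h.1⟩
  rw [Iic_union_Icc_eq_Iic (by norm_num)] at h12
  have h123 : MonotoneOn sFun (Iic 1 ∪ Icc 1 2) :=
    h12.union_right h3 ⟨mem_Iic.2 le_rfl, fun _ h => h⟩ ⟨⟨le_rfl, by norm_num⟩, fun _ h => h.1⟩
  rw [Iic_union_Icc_eq_Iic (by norm_num)] at h123
  exact h123.Iic_union_Ici h4

lemma sInv_mono : Monotone sInv := by
  have h1 : MonotoneOn sInv (Iic 0) := fun a ha b hb hab => by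
    rw [sInv_1 ha, sInv_1 hb]; exact hab
  have h2 : MonotoneOn sInv (Icc 0 1) := fun a ha b hb hab => by
    rw [sInv_2 ha.1 ha.2, sInv_2 hb.1 hb.2, div_le_div_iff₀ (by linarith [ha.2]) (by linarith [hb.2])]
    nlinarith
  have h3 : MonotoneOn sInv (Icc 1 2) := fun a ha b hb hab => by
    rw [sInv_3 ha.1 ha.2, sInv_3 hb.1 hb.2]
    have := div_le_div_of_nonneg_left (by norm_num : (0 : ℝ) ≤ 2) (by linarith [ha.1] : 0 < a) hab
    linarith
  have h4 : MonotoneOn sInv (Ici 2) := fun a ha b hb hab => by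
    rw [sInv_4 ha, sInv_4 hb]; exact hab
  have h12 : MonotoneOn sInv (Iic 0 ∪ Icc 0 1) :=
    h1.union_right h2 ⟨mem_Iic.2 le_rfl, fun _ h => h⟩ ⟨⟨le_rfl, by norm_num⟩, fun _ h => h.1⟩
  rw [Iic_union_Icc_eq_Iic (by norm_num)] at h12
  have h123 : MonotoneOn sInv (Iic 1 ∪ Icc 1 2) :=
    h12.union_right h3 ⟨mem_Iic.2 le_rfl, fun _ h => h⟩ ⟨⟨le_rfl, by norm_num⟩, fun _ h => h.1⟩
  rw [Iic_union_Icc_eq_Iic (by norm_num)] at h123
  exact h123.Iic_union_Ici h4

lemma sInv_sFun (t : ℝ) : sInv (sFun t) = t := by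
  rcases le_total t 0 with h | h
  · rw [sFun_1 h, sInv_1 h]
  rcases le_total t 1 with h' | h'
  · have h1 : 0 < 1 + t := by linarith
    rw [sFun_2 h h', sInv_2 (by positivity) (by rw [div_le_one h1]; linarith)]
    have : 2 - 2 * t / (1 + t) = 2 / (1 + t) := by field_simp; ring
    rw [this]; field_simp
  rcases le_total t 2 with h1 | h1
  · have ht : 0 < 3 - t := by linarith
    rw [sFun_3 h' h1, sInv_3 (by rw [le_div_iff₀ ht]; linarith) (by rw [div_le_iff₀ ht]; linarith)]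
    field_simp; ring
  · rw [sFun_4 h1, sInv_4 h1]

lemma sFun_sInv (t : ℝ) : sFun (sInv t) = t := by
  rcases le_total t 0 with h | h
  · rw [sInv_1 h, sFun_1 h]
  rcases le_total t 1 with h' | h'
  · have h1 : 0 < 2 - t := by linarith
    rw [sInv_2 h h', sFun_2 (by positivity) (by rw [div_le_one h1]; linarith)]
    have : 1 + t / (2 - t) = 2 / (2 - t) := by field_simp; ring
    rw [this]; field_simp
  rcases le_total t 2 with h1 | h1
  · have ht : 0 < t := by linarith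
    have h2 : 1 ≤ 2 / t := by rw [le_div_iff₀ ht]; linarith
    have h3 : 2 / t ≤ 2 := by rw [div_le_iff₀ ht]; linarith
    rw [sInv_3 h' h1, sFun_3 (by linarith) (by linarith)]
    have : 3 - (3 - 2 / t) = 2 / t := by ring
    rw [this]; field_simp
  · rw [sInv_4 h1, sFun_4 h1]

/-- `s`, as an increasing bijection of the line. -/
noncomputable def s0 : Line :=
  Equiv.toOrderIso ⟨sFun, sInv, sInv_sFun, sFun_sInv⟩ sFun_mono sInv_mono

@[simp] lemma s0_apply (t : ℝ) : s0 t = sFun t := rfl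

lemma supp_s0 : Supp s0 0 2 := fun t ht => by
  rcases ht with ht | ht
  · exact sFun_1 ht
  · exact sFun_4 ht

/-- The function of `c`. -/
noncomputable def cFun (t : ℝ) : ℝ := if t ≤ 1 then sFun t else t

/-- Its inverse. -/
noncomputable def cInv (t : ℝ) : ℝ := if t ≤ 1 then sInv t else t

lemma cFun_1 {t : ℝ} (h : t ≤ 1) : cFun t = sFun t := by rw [cFun, if_pos h]

lemma cFun_2 {t : ℝ} (h : 1 ≤ t) : cFun t = t := by
  rcases h.eq_or_lt with h | h
  · rw [cFun_1 h.ge, ← h, sFun_2 (by norm_num) le_rfl]; norm_num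
  · rw [cFun, if_neg (not_le.2 h)]

lemma cInv_1 {t : ℝ} (h : t ≤ 1) : cInv t = sInv t := by rw [cInv, if_pos h]

lemma cInv_2 {t : ℝ} (h : 1 ≤ t) : cInv t = t := by
  rcases h.eq_or_lt with h | h
  · rw [cInv_1 h.ge, ← h, sInv_2 (by norm_num) le_rfl]; norm_num
  · rw [cInv, if_neg (not_le.2 h)]

lemma cFun_mono : Monotone cFun := by
  have h1 : MonotoneOn cFun (Iic 1) := fun a ha b hb hab => by
    rw [cFun_1 ha, cFun_1 hb]; exact sFun_mono hab
  have h2 : MonotoneOn cFun (Ici 1) := fun a ha b hb hab => by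
    rw [cFun_2 ha, cFun_2 hb]; exact hab
  exact h1.Iic_union_Ici h2

lemma cInv_mono : Monotone cInv := by
  have h1 : MonotoneOn cInv (Iic 1) := fun a ha b hb hab => by
    rw [cInv_1 ha, cInv_1 hb]; exact sInv_mono hab
  have h2 : MonotoneOn cInv (Ici 1) := fun a ha b hb hab => by
    rw [cInv_2 ha, cInv_2 hb]; exact hab
  exact h1.Iic_union_Ici h2

lemma sFun_one : sFun 1 = 1 := by rw [sFun_2 (by norm_num) le_rfl]; norm_num

lemma sInv_one : sInv 1 = 1 := by rw [sInv_2 (by norm_num) le_rfl]; norm_num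

lemma cInv_cFun (t : ℝ) : cInv (cFun t) = t := by
  rcases le_total t 1 with h | h
  · have : sFun t ≤ 1 := by
      have := sFun_mono h
      rwa [sFun_one] at this
    rw [cFun_1 h, cInv_1 this, sInv_sFun]
  · rw [cFun_2 h, cInv_2 h]

lemma cFun_cInv (t : ℝ) : cFun (cInv t) = t := by
  rcases le_total t 1 with h | h
  · have : sInv t ≤ 1 := by
      have := sInv_mono h
      rwa [sInv_one] at this
    rw [cInv_1 h, cFun_1 this, sFun_sInv]
  · rw [cInv_2 h, cFun_2 h]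

/-- `c`, supported on `[0,1]`. -/
noncomputable def c0 : Line :=
  Equiv.toOrderIso ⟨cFun, cInv, cInv_cFun, cFun_cInv⟩ cFun_mono cInv_mono

@[simp] lemma c0_apply (t : ℝ) : c0 t = cFun t := rfl

lemma supp_c0 : Supp c0 0 1 := fun t ht => by
  rcases ht with ht | ht
  · rw [c0_apply, cFun_1 (by linarith), sFun_1 ht]
  · exact cFun_2 ht

/-- `s c₁ = c₀`. -/
lemma s0_mul : s0 * sh 1 c0 = c0 := by
  ext t
  rw [RelIso.mul_apply, sh_apply, c0_apply, c0_apply, s0_apply]
  push_cast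
  rcases le_total t 1 with h | h
  · rw [cFun_1 (by linarith : t - 1 ≤ 1), sFun_1 (by linarith : t - 1 ≤ 0), cFun_1 h]
    congr 1; ring
  rw [cFun_2 h]
  rcases le_total t 2 with h' | h'
  · have ht : 0 < t := by linarith
    rw [cFun_1 (by linarith : t - 1 ≤ 1), sFun_2 (t := t - 1) (by linarith) (by linarith)]
    have e1 : 2 * (t - 1) / (1 + (t - 1)) + 1 = 3 - 2 / t := by
      have : 1 + (t - 1) = t := by ring
      rw [this]; field_simp; ring
    have h2 : 1 ≤ 2 / t := by rw [le_div_iff₀ ht]; linarith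
    have h3 : 2 / t ≤ 2 := by rw [div_le_iff₀ ht]; linarith
    rw [e1, sFun_3 (by linarith) (by linarith)]
    have : 3 - (3 - 2 / t) = 2 / t := by ring
    rw [this]; field_simp
  · rw [cFun_2 (by linarith), sFun_4 (by linarith)]; ring

lemma s0_eq : s0 = c0 * (sh 1 c0)⁻¹ := by
  rw [eq_mul_inv_iff_mul_eq, s0_mul]

/-- `G₂ = c₀ c₃⁻¹`. -/
noncomputable def G2 : Line := c0 * (sh 3 c0)⁻¹

lemma supp_G2 : Supp G2 0 4 := by
  refine (supp_c0.mono le_rfl (by norm_num)).mul (Supp.inv ((supp_c0.sh 3).mono ?_ ?_))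
  · push_cast; norm_num
  · push_cast; norm_num

lemma G2_eq : G2 = s0 * sh 1 s0 * sh 2 s0 := by
  rw [s0_eq, sh_mul, sh_mul, sh_inv, sh_inv, sh_sh, sh_sh, G2]
  norm_num

/-- `[G₂, G₁] = s`. -/
lemma comm_G2_G1 : G2 * G1 * G2⁻¹ * G1⁻¹ = s0 := by
  have h1 : G1 * c0 = sh 1 c0 * G1 := by
    refine conj_eq_shift supp_c0 (fun t ht => ?_) (by norm_num)
    exact mul_x_inv_shift (by push_cast; linarith [ht.1])
      (by push_cast; linarith [ht.2])
  have h2 : G1 * sh 3 c0 = sh 3 c0 * G1 :=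
    supp_G1.commute (supp_c0.sh 3) (by push_cast; norm_num)
  have e1 : G2 * G1 * G2⁻¹ * G1⁻¹ = c0 * (sh 3 c0)⁻¹ * (G1 * sh 3 c0 * G1⁻¹) *
      (G1 * c0 * G1⁻¹)⁻¹ := by
    simp only [G2]; group
  rw [e1, h1, h2, s0_eq]
  group

end Pool.Agent.R643.PP
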