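import Mathlib
import Pool.Agent.R643.PPRel

/-!
The torsion element `rot` of Thompson's group `T`, and extraction of the pieces of elements of `T`.
-/

open OnePoint Set Filter Topology Matrix

namespace Pool.Agent.R643.PP

lemma homeo_mul_inv_apply (g : Homeo) (z : Circ) : g (g⁻¹ z) = z := by
  rw [← Homeomorph.mul_apply, mul_inv_cancel]; rfl

lemma homeo_inv_mul_apply (g : Homeo) (z : Circ) : g⁻¹ (g z) = z := by
  rw [← Homeomorph.mul_apply, inv_mul_cancel]; rfl

/-! ### Orientation -/

/-- A map with one cut, increasing on both sides, preserves the cyclic order. -/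
lemma cyc_of_cut {f : Circ → Circ} (L : Set Circ)
    (hL : ∀ a b, pos a < pos b → b ∈ L → a ∈ L)
    (h1 : ∀ a b, a ∈ L → b ∈ L → pos a < pos b → pos (f a) < pos (f b))
    (h2 : ∀ a b, a ∉ L → b ∉ L → pos a < pos b → pos (f a) < pos (f b))
    (h3 : ∀ a b, a ∈ L → b ∉ L → pos (f b) < pos (f a)) {a b c : Circ} (h : Cyc a b c) :
    Cyc (f a) (f b) (f c) := by
  have key : ∀ a b c : Circ, pos a < pos b → pos b < pos c → Cyc (f a) (f b) (f c) := by
    intro a b c hab hbc
    by_cases hc : c ∈ L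
    · have hb := hL b c hbc hc
      have ha := hL a b hab hb
      exact Or.inl ⟨h1 a b ha hb hab, h1 b c hb hc hbc⟩
    by_cases hb : b ∈ L
    · have ha := hL a b hab hb
      exact Or.inr (Or.inr ⟨h3 a c ha hc, h1 a b ha hb hab⟩)
    by_cases ha : a ∈ L
    · exact Or.inr (Or.inl ⟨h2 b c hb hc hbc, h3 a c ha hc⟩)
    · exact Or.inl ⟨h2 a b ha hb hab, h2 b c hb hc hbc⟩
  rcases h with ⟨h, h'⟩ | ⟨h, h'⟩ | ⟨h, h'⟩
  · exact key a b c h h'
  · rcases key b c a h h' with h | h | h
    · exact Or.inr (Or.inl h)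
    · exact Or.inr (Or.inr h)
    · exact Or.inl h
  · rcases key c a b h h' with h | h | h
    · exact Or.inr (Or.inr h)
    · exact Or.inl h
    · exact Or.inr (Or.inl h)

lemma cyc_mob_S {a b c : Circ} (h : Cyc a b c) :
    Cyc (mob ModularGroup.S a) (mob ModularGroup.S b) (mob ModularGroup.S c) := by
  refine cyc_of_cut {z | pos z ≤ ((0 : ℝ) : WithTop ℝ)} ?_ ?_ ?_ ?_ h
  · intro a b hab hb
    exact hab.le.trans hb
  · intro a b ha hb hab
    induction a using OnePoint.rec with
    | infty => simp [pos_infty] at ha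
    | coe a =>
      induction b using OnePoint.rec with
      | infty => simp [pos_infty] at hb
      | coe b =>
        simp only [mem_ofPred_eq, pos_coe, WithTop.coe_le_coe] at ha hb
        rw [pos_coe, pos_coe, WithTop.coe_lt_coe] at hab
        rw [mob_S_coe, mob_S_coe, if_neg (by linarith : a ≠ 0)]
        split_ifs with hb0
        · rw [pos_coe, pos_infty]; exact WithTop.coe_lt_top _
        · rw [pos_coe, pos_coe, WithTop.coe_lt_coe]
          have hb' : b < 0 := lt_of_le_of_ne hb hb0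
          have := (inv_lt_inv_of_neg hb' (hab.trans hb')).2 hab
          linarith
  · intro a b ha hb hab
    induction a using OnePoint.rec with
    | infty => rw [pos_infty] at hab; exact absurd hab not_top_lt
    | coe a =>
      simp only [mem_ofPred_eq, pos_coe, WithTop.coe_le_coe, not_le] at ha
      rw [mob_S_coe, if_neg ha.ne', pos_coe]
      induction b using OnePoint.rec with
      | infty =>
        rw [mob_S_infty, pos_coe, WithTop.coe_lt_coe]
        have := inv_pos.2 ha
        linarith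
      | coe b =>
        simp only [mem_ofPred_eq, pos_coe, WithTop.coe_le_coe, not_le] at hb
        rw [pos_coe, pos_coe, WithTop.coe_lt_coe] at hab
        rw [mob_S_coe, if_neg hb.ne', pos_coe, WithTop.coe_lt_coe]
        have := (inv_lt_inv₀ hb ha).2 hab
        linarith
  · intro a b ha hb
    induction a using OnePoint.rec with
    | infty => simp [pos_infty] at ha
    | coe a =>
      simp only [mem_ofPred_eq, pos_coe, WithTop.coe_le_coe] at ha
      have hb1 : pos (mob ModularGroup.S b) ≤ ((0 : ℝ) : WithTop ℝ) := by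
        induction b using OnePoint.rec with
        | infty => rw [mob_S_infty, pos_coe]
        | coe b =>
          simp only [mem_ofPred_eq, pos_coe, WithTop.coe_le_coe, not_le] at hb
          rw [mob_S_coe, if_neg hb.ne', pos_coe, WithTop.coe_le_coe]
          have := inv_pos.2 hb
          linarith
      refine hb1.trans_lt ?_
      rw [mob_S_coe]
      split_ifs with h0
      · rw [pos_infty]; exact WithTop.coe_lt_top _
      · rw [pos_coe, WithTop.coe_lt_coe]
        have : a⁻¹ < 0 := inv_lt_zero.2 (lt_of_le_of_ne ha h0)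
        linarith

lemma mobHomeo_S_mem : mobHomeo ModularGroup.S ∈ T := by
  refine ⟨fun a b c => ⟨fun h => cyc_mob_S h, fun h => ?_⟩, ∅, by simp,
    fun A _ _ => ⟨ModularGroup.S, fun x _ => rfl⟩⟩
  have hSS : ∀ z, mob ModularGroup.S (mob ModularGroup.S z) = z := by
    intro z
    induction z using OnePoint.rec with
    | infty => rw [mob_S_infty, mob_S_coe, if_pos rfl]
    | coe t =>
      rw [mob_S_coe]
      split_ifs with h
      · rw [mob_S_infty, h]
      · rw [mob_S_coe, if_neg (by simpa using h)]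
        congr 1
        simp
  have := cyc_mob_S h
  simpa only [mobHomeo_apply, hSS] using this

/-- `μ(t) = 1 / (1 - t)`. -/
noncomputable def mu : Homeo := mobHomeo ModularGroup.S * (E tau)⁻¹

lemma E_mem_T {g : Line} (hg : g ∈ F) : E g ∈ T := hg

lemma mu_mem : mu ∈ T := T.mul_mem mobHomeo_S_mem (T.inv_mem (E_mem_T tau_mem))

lemma E_inv_coe (g : Line) (t : ℝ) : (E g)⁻¹ (t : Circ) = ((g⁻¹ t : ℝ) : Circ) := by
  rw [← map_inv, E_coe]

lemma E_inv_infty (g : Line) : (E g)⁻¹ ∞ = ∞ := by
  rw [← map_inv, E_infty]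

lemma mu_coe {t : ℝ} (ht : t ≠ 1) : mu (t : Circ) = ((1 / (1 - t) : ℝ) : Circ) := by
  have h1 : t - 1 ≠ 0 := sub_ne_zero.2 ht
  rw [mu, Homeomorph.mul_apply, E_inv_coe, tau_inv_apply, mobHomeo_apply, mob_S_coe, if_neg h1]
  congr 1
  rw [← neg_sub t 1, one_div, inv_neg]

lemma mu_one : mu ((1 : ℝ) : Circ) = ∞ := by
  rw [mu, Homeomorph.mul_apply, E_inv_coe, tau_inv_apply, mobHomeo_apply, mob_S_coe,
    if_pos (by norm_num)]

lemma mu_infty : mu ∞ = ((0 : ℝ) : Circ) := by
  rw [mu, Homeomorph.mul_apply, E_inv_infty, mobHomeo_apply, mob_S_infty]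

/-! ### The relation between `μ` and the `x_k` -/

/-- `W = x₀⁻¹ x₁⁻¹ x₀²`. -/
noncomputable def W : Line := (x 0)⁻¹ * (x 1)⁻¹ * x 0 * x 0

lemma W_of_le {t : ℝ} (h : t ≤ 0) : W t = t := by
  have a0 : x 0 t = t := x_of_le (by push_cast; exact h)
  have a2 : (x 1)⁻¹ t = t := by
    rw [x_inv_apply, xInv_1 (by push_cast; linarith)]; ring
  have a3 : (x 0)⁻¹ t = t := by
    rw [x_inv_apply, xInv_1 (by push_cast; linarith)]; ring
  simp only [W, RelIso.mul_apply]
  rw [a0, a0, a2, a3]

lemma W_of_ge {t : ℝ} (h : 1 ≤ t) : W t = t := by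
  have a0 : x 0 t = t + 1 := x_of_ge (by push_cast; linarith)
  have a1 : x 0 (t + 1) = t + 1 + 1 := x_of_ge (by push_cast; linarith)
  have a2 : (x 1)⁻¹ (t + 1 + 1) = t + 1 := by
    rw [x_inv_apply, xInv_4 (by push_cast; linarith)]; push_cast; ring
  have a3 : (x 0)⁻¹ (t + 1) = t := by
    rw [x_inv_apply, xInv_4 (by push_cast; linarith)]; push_cast; ring
  simp only [W, RelIso.mul_apply]
  rw [a0, a1, a2, a3]

lemma W_1 {t : ℝ} (h : 0 ≤ t) (h' : t ≤ 1 / 3) : W t = t / (1 - t) := by
  have h1 : 0 < 1 - t := by linarith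
  have h2 : 0 < 1 - 2 * t := by linarith
  have a0 : x 0 t = t / (1 - t) := by
    rw [x_apply]; push_cast; rw [sub_zero, add_zero, xFun_2 h (by linarith)]
  have a1 : x 0 (t / (1 - t)) = t / (1 - 2 * t) := by
    rw [x_apply]; push_cast
    rw [sub_zero, add_zero, xFun_2 (by positivity) (by rw [div_le_div_iff₀ h1 two_pos]; linarith)]
    have : 1 - t / (1 - t) = (1 - 2 * t) / (1 - t) := by
      rw [eq_div_iff h1.ne', sub_mul, div_mul_cancel₀ _ h1.ne']; ring
    rw [this, div_div_div_cancel_right₀ h1.ne']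
  have b1 : t / (1 - 2 * t) ≤ 1 := by rw [div_le_one h2]; linarith
  have a2 : (x 1)⁻¹ (t / (1 - 2 * t)) = t / (1 - 2 * t) := by
    rw [x_inv_apply, xInv_1 (by push_cast; linarith)]; ring
  have a3 : (x 0)⁻¹ (t / (1 - 2 * t)) = t / (1 - t) := by
    rw [x_inv_apply]; push_cast
    rw [sub_zero, add_zero, xInv_2 (by positivity) b1]
    have : 1 + t / (1 - 2 * t) = (1 - t) / (1 - 2 * t) := by
      rw [eq_div_iff h2.ne', add_mul, div_mul_cancel₀ _ h2.ne']; ring
    rw [this, div_div_div_cancel_right₀ h2.ne']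
  simp only [W, RelIso.mul_apply]
  rw [a0, a1, a2, a3]

lemma W_2 {t : ℝ} (h : 1 / 3 ≤ t) (h' : t ≤ 1 / 2) : W t = (4 * t - 1) / (5 * t - 1) := by
  have ht : 0 < t := by linarith
  have h1 : 0 < 1 - t := by linarith
  have h2 : 0 < 4 * t - 1 := by linarith
  have h3 : 0 < 5 * t - 1 := by linarith
  have a0 : x 0 t = t / (1 - t) := by
    rw [x_apply]; push_cast; rw [sub_zero, add_zero, xFun_2 (by linarith) h']
  have a1 : x 0 (t / (1 - t)) = 4 - 1 / t := by
    rw [x_apply]; push_cast
    rw [sub_zero, add_zero, xFun_3 (by rw [div_le_div_iff₀ two_pos h1]; linarith)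
      (by rw [div_le_one h1]; linarith)]
    field_simp; ring
  have b1 : 1 / t ≤ 3 := by rw [div_le_iff₀ ht]; linarith
  have b2 : 2 ≤ 1 / t := by rw [le_div_iff₀ ht]; linarith
  have a2 : (x 1)⁻¹ (4 - 1 / t) = (7 * t - 2) / (4 * t - 1) := by
    rw [x_inv_apply]; push_cast
    rw [xInv_2 (by linarith) (by linarith)]
    have : 1 + (4 - 1 / t - 1) = (4 * t - 1) / t := by field_simp; ring
    rw [this]; field_simp; ring
  have a3 : (x 0)⁻¹ ((7 * t - 2) / (4 * t - 1)) = (4 * t - 1) / (5 * t - 1) := by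
    rw [x_inv_apply]; push_cast
    rw [sub_zero, add_zero, xInv_3 (by rw [le_div_iff₀ h2]; linarith)
      (by rw [div_le_iff₀ h2]; linarith)]
    have : 3 - (7 * t - 2) / (4 * t - 1) = (5 * t - 1) / (4 * t - 1) := by
      rw [eq_div_iff h2.ne', sub_mul, div_mul_cancel₀ _ h2.ne']; ring
    rw [this, one_div_div]
  simp only [W, RelIso.mul_apply]
  rw [a0, a1, a2, a3]

lemma W_3 {t : ℝ} (h : 1 / 2 ≤ t) (h' : t ≤ 1) : W t = 1 / (2 - t) := by
  have ht : 0 < t := by linarith
  have h1 : 0 < 2 - t := by linarith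
  have b1 : 1 / t ≤ 2 := by rw [div_le_iff₀ ht]; linarith
  have b2 : 1 ≤ 1 / t := by rw [le_div_iff₀ ht]; linarith
  have a0 : x 0 t = 3 - 1 / t := by
    rw [x_apply]; push_cast; rw [sub_zero, add_zero, xFun_3 h h']
  have a1 : x 0 (3 - 1 / t) = 4 - 1 / t := by
    rw [x_apply]; push_cast
    rw [sub_zero, add_zero, xFun_4 (by linarith)]; ring
  have a2 : (x 1)⁻¹ (4 - 1 / t) = t + 1 := by
    rw [x_inv_apply]; push_cast
    rw [xInv_3 (by linarith) (by linarith)]
    have : 3 - (4 - 1 / t - 1) = 1 / t := by ring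
    rw [this, one_div_one_div]
  have a3 : (x 0)⁻¹ (t + 1) = 1 / (2 - t) := by
    rw [x_inv_apply]; push_cast
    rw [sub_zero, add_zero, xInv_3 (by linarith) (by linarith)]
    congr 1; ring
  simp only [W, RelIso.mul_apply]
  rw [a0, a1, a2, a3]

lemma mu_rel : E (x 1) * mu = mu * E W := by
  refine Homeomorph.ext fun z => ?_
  rw [Homeomorph.mul_apply, Homeomorph.mul_apply]
  induction z using OnePoint.rec with
  | infty =>
    rw [E_infty, mu_infty, E_coe, x_of_le (by norm_num)]
  | coe t =>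
    rw [E_coe]
    rcases le_total t 0 with h | h
    · have h1 : 0 < 1 - t := by linarith
      have b1 : 1 / (1 - t) ≤ 1 := by rw [div_le_one h1]; linarith
      rw [W_of_le h, mu_coe (by linarith), E_coe, x_of_le (by push_cast; linarith)]
    rcases le_total 1 t with h' | h'
    · rw [W_of_ge h']
      rcases h'.eq_or_lt with rfl | h1
      · rw [mu_one, E_infty]
      · have b1 : 1 / (1 - t) ≤ 0 := by
          apply div_nonpos_of_nonneg_of_nonpos zero_le_one; linarith
        rw [mu_coe h1.ne', E_coe, x_of_le (by push_cast; linarith)]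
    rcases h'.eq_or_lt with rfl | h1
    · rw [W_of_ge le_rfl, mu_one, E_infty]
    have h2 : 0 < 1 - t := by linarith
    rcases le_total t (1 / 3) with h3 | h3
    · have h4 : 0 < 1 - 2 * t := by linarith
      have e1 : t / (1 - t) ≠ 1 := by
        intro h5; rw [div_eq_iff h2.ne'] at h5; linarith
      rw [W_1 h h3, mu_coe h1.ne, mu_coe e1, E_coe, x_apply]
      push_cast
      have e2 : 1 / (1 - t) - 1 = t / (1 - t) := by field_simp; ring
      rw [e2, xFun_2 (by positivity) (by rw [div_le_div_iff₀ h2 two_pos]; linarith)]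
      congr 1
      have e3 : 1 - t / (1 - t) = (1 - 2 * t) / (1 - t) := by
        rw [eq_div_iff h2.ne', sub_mul, div_mul_cancel₀ _ h2.ne']; ring
      rw [e3, div_div_div_cancel_right₀ h2.ne', one_div_div, eq_div_iff h4.ne', add_mul,
        div_mul_cancel₀ _ h4.ne']
      ring
    rcases le_total t (1 / 2) with h4 | h4
    · have ht : 0 < t := by linarith
      have h5 : 0 < 5 * t - 1 := by linarith
      have e1 : (4 * t - 1) / (5 * t - 1) ≠ 1 := by
        intro h6; rw [div_eq_iff h5.ne'] at h6; linarith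
      rw [W_2 h3 h4, mu_coe h1.ne, mu_coe e1, E_coe, x_apply]
      push_cast
      have e2 : 1 / (1 - t) - 1 = t / (1 - t) := by field_simp; ring
      rw [e2, xFun_3 (by rw [div_le_div_iff₀ two_pos h2]; linarith)
        (by rw [div_le_one h2]; linarith)]
      congr 1
      have e3 : 1 - (4 * t - 1) / (5 * t - 1) = t / (5 * t - 1) := by
        rw [eq_div_iff h5.ne', sub_mul, div_mul_cancel₀ _ h5.ne']; ring
      rw [e3]; field_simp; ring
    · have ht : 0 < t := by linarith
      have h5 : 0 < 2 - t := by linarith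
      have e1 : 1 / (2 - t) ≠ 1 := by
        intro h6; rw [div_eq_iff h5.ne'] at h6; linarith
      rw [W_3 h4 h', mu_coe h1.ne, mu_coe e1, E_coe, x_apply]
      push_cast
      have e2 : 1 / (1 - t) - 1 = t / (1 - t) := by field_simp; ring
      rw [e2, xFun_4 (by rw [le_div_iff₀ h2]; linarith)]
      congr 1
      have e3 : 1 - 1 / (2 - t) = (1 - t) / (2 - t) := by field_simp; ring
      rw [e3]; field_simp; ring

/-! ### The rotation -/

/-- `pp n = x_{n-1} ⋯ x₁ x₀`. -/
noncomputable def pp : ℕ → Line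
  | 0 => 1
  | n + 1 => x n * pp n

lemma pp_mem (n : ℕ) : pp n ∈ F := by
  induction n with
  | zero => exact F.one_mem
  | succ n ih => exact F.mul_mem (x_mem _) ih

lemma pp_neg (n : ℕ) {t : ℝ} (ht : t ≤ 0) : pp n t = t := by
  induction n with
  | zero => rfl
  | succ n ih =>
    rw [pp, RelIso.mul_apply, ih, x_of_le]
    push_cast
    linarith [(Nat.cast_nonneg n : (0 : ℝ) ≤ n)]

lemma pp_ge (n : ℕ) {t : ℝ} (ht : (n : ℝ) ≤ t) :
    pp n (t / (t + 1)) = n + (t - n) / (1 + (t - n)) := by
  induction n with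
  | zero =>
    simp only [pp, RelIso.one_apply]
    push_cast
    rw [zero_add, sub_zero, add_comm]
  | succ n ih =>
    push_cast at ht ⊢
    rw [pp, RelIso.mul_apply, ih (by linarith), x_apply]
    push_cast
    have h1 : 0 < 1 + (t - n) := by linarith
    have h2 : 0 < t - n := by linarith
    rw [add_sub_cancel_left, xFun_3 (by rw [div_le_div_iff₀ two_pos h1]; linarith)
      (by rw [div_le_one h1]; linarith)]
    have h3 : (0 : ℝ) < 1 + (t - (n + 1)) := by linarith
    have e3 : 1 + (t - (n + 1)) = t - n := by ring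
    rw [e3]
    field_simp
    ring

lemma pp_le (n : ℕ) {t : ℝ} (h0 : 0 ≤ t) (ht : t ≤ n) : pp n (t / (t + 1)) = t := by
  induction n with
  | zero =>
    have : t = 0 := le_antisymm (by simpa using ht) h0
    subst this
    simp [pp]
  | succ n ih =>
    push_cast at ht
    rw [pp, RelIso.mul_apply]
    rcases le_total t n with h | h
    · rw [ih h, x_of_le (by push_cast; exact h)]
    · have h1 : 0 < 1 + (t - n) := by linarith
      rw [pp_ge n h, x_apply]
      push_cast
      rw [add_sub_cancel_left, xFun_2 (div_nonneg (by linarith) h1.le)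
        (by rw [div_le_div_iff₀ h1 two_pos]; linarith)]
      have : 1 - (t - n) / (1 + (t - n)) = 1 / (1 + (t - n)) := by field_simp; ring
      rw [this]; field_simp; ring

/-- The torsion element `rot`. -/
noncomputable def rot (n : ℕ) : Homeo := mu * (E (pp n))⁻¹

lemma rot_mem (n : ℕ) : rot n ∈ T := T.mul_mem mu_mem (T.inv_mem (E_mem_T (pp_mem n)))

lemma rot_infty (n : ℕ) : rot n ∞ = ((0 : ℝ) : Circ) := by
  rw [rot, Homeomorph.mul_apply, E_inv_infty, mu_infty]

lemma rot_neg (n : ℕ) {t : ℝ} (ht : t ≤ 0) : rot n t = ((1 / (1 - t) : ℝ) : Circ) := by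
  have h1 : (pp n)⁻¹ t = t := by
    have := line_inv_mul_apply (pp n) t
    rwa [pp_neg n ht] at this
  rw [rot, Homeomorph.mul_apply, E_inv_coe, h1, mu_coe (by linarith)]

lemma rot_apply (n : ℕ) {t : ℝ} (h0 : 0 ≤ t) (ht : t ≤ n) : rot n t = ((t + 1 : ℝ) : Circ) := by
  have h1 : (pp n)⁻¹ t = t / (t + 1) := by
    have := line_inv_mul_apply (pp n) (t / (t + 1))
    rwa [pp_le n h0 ht] at this
  have h2 : 0 < t + 1 := by linarith
  have h3 : t / (t + 1) ≠ 1 := by
    intro h; rw [div_eq_iff h2.ne'] at h; linarith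
  rw [rot, Homeomorph.mul_apply, E_inv_coe, h1, mu_coe h3]
  congr 1
  have : 1 - t / (t + 1) = 1 / (t + 1) := by field_simp; ring
  rw [this, one_div_one_div]

lemma pp_rel (n : ℕ) : x 0 * pp (n + 2) = x (n + 2) * pp (n + 2) * W := by
  induction n with
  | zero =>
    have r : x 0 * x 1 = x 2 * x 0 := x_rel (by norm_num)
    have e : pp (0 + 2) = x 1 * x 0 := by
      simp only [pp]; push_cast; rw [mul_one]
    rw [e, W]
    calc x 0 * (x 1 * x 0) = (x 0 * x 1) * x 0 := by group
      _ = x 2 * x 0 * x 0 := by rw [r]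
      _ = _ := by push_cast; group
  | succ n ih =>
    have r : x 0 * x ((n : ℤ) + 2) = x ((n : ℤ) + 2 + 1) * x 0 := x_rel (by omega)
    have e : pp (n + 1 + 2) = x ((n : ℤ) + 2) * pp (n + 2) := by
      rw [show n + 1 + 2 = (n + 2) + 1 by ring, pp]; push_cast; rfl
    rw [e]
    calc x 0 * (x ((n : ℤ) + 2) * pp (n + 2)) = (x 0 * x ((n : ℤ) + 2)) * pp (n + 2) := by group
      _ = x ((n : ℤ) + 2 + 1) * (x 0 * pp (n + 2)) := by rw [r]; group
      _ = x ((n : ℤ) + 2 + 1) * (x (n + 2) * pp (n + 2) * W) := by rw [ih]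
      _ = _ := by push_cast; rw [show (n : ℤ) + 1 + 2 = n + 2 + 1 by ring]; group

/-- `x₁ rot = rot x_n⁻¹ x₀`. -/
lemma rot_rel (n : ℕ) :
    E (x 1) * rot (n + 2) = rot (n + 2) * E ((x (n + 2))⁻¹ * x 0) := by
  have h : W * (pp (n + 2))⁻¹ = (pp (n + 2))⁻¹ * ((x (n + 2))⁻¹ * x 0) := by
    have := pp_rel n
    have h2 : x 0 = x (n + 2) * pp (n + 2) * W * (pp (n + 2))⁻¹ := by
      rw [← this]; group
    calc W * (pp (n + 2))⁻¹ = (pp (n + 2))⁻¹ * ((x (n + 2))⁻¹ *
          (x (n + 2) * pp (n + 2) * W * (pp (n + 2))⁻¹)) := by group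
      _ = _ := by rw [← h2]
  rw [rot, ← mul_assoc, mu_rel, mul_assoc, mul_assoc, ← map_inv, ← map_mul, ← map_mul, h]

/-! ### Extraction -/

/-- Elements of `T` which fix `∞` come from `F`. -/
lemma exists_of_fix {f : Homeo} (hf : f ∈ T) (hinf : f ∞ = ∞) : ∃ g ∈ F, E g = f := by
  have hne : ∀ t : ℝ, ∃ u : ℝ, f t = u := by
    intro t
    have : f t ≠ ∞ := by
      intro h
      exact OnePoint.coe_ne_infty t (f.injective (h.trans hinf.symm))
    obtain ⟨u, hu⟩ := OnePoint.ne_infty_iff_exists.1 this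
    exact ⟨u, hu.symm⟩
  choose g hg using hne
  have hmono : StrictMono g := by
    intro a b hab
    have h1 : Cyc (a : Circ) b ∞ := Or.inl
      ⟨by rw [pos_coe, pos_coe]; exact_mod_cast hab, by rw [pos_coe, pos_infty]; exact WithTop.coe_lt_top _⟩
    have h2 := (hf.1 _ _ _).1 h1
    rw [hinf, hg, hg] at h2
    rcases h2 with h | h | h
    · have := h.1
      rw [pos_coe, pos_coe] at this
      exact_mod_cast this
    · exact absurd h.2 (by rw [pos_infty]; exact not_top_lt)
    · exact absurd h.1 (by rw [pos_infty]; exact not_top_lt)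
  have hsurj : Function.Surjective g := by
    intro u
    obtain ⟨z, hz⟩ := f.surjective (u : Circ)
    induction z using OnePoint.rec with
    | infty => rw [hinf] at hz; exact absurd hz (OnePoint.infty_ne_coe u)
    | coe t => exact ⟨t, OnePoint.coe_injective ((hg t).symm.trans hz)⟩
  have hE : E (hmono.orderIsoOfSurjective g hsurj) = f := by
    refine Homeomorph.ext fun z => ?_
    induction z using OnePoint.rec with
    | infty => rw [E_infty, hinf]
    | coe t => rw [E_coe, hg]; rfl
  refine ⟨_, ?_, hE⟩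
  change E _ ∈ T
  rw [hE]; exact hf

/-- Splitting off the part on the positive side. -/
lemma exists_split {g : Line} (hg : g ∈ F) (h0 : g 0 = 0) :
    ∃ h ∈ F, (∀ t ≤ 0, h t = t) ∧ ∀ t, 0 ≤ t → h t = g t := by
  classical
  have hmono : Monotone (fun t : ℝ => if t ≤ 0 then t else g t) := by
    have h1 : MonotoneOn (fun t : ℝ => if t ≤ 0 then t else g t) (Iic 0) := fun a ha b hb hab => by
      simp only [if_pos (mem_Iic.1 ha), if_pos (mem_Iic.1 hb)]; exact hab
    have hval : ∀ t : ℝ, 0 ≤ t → (if t ≤ 0 then t else g t) = g t := by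
      intro t ht
      split_ifs with h
      · rw [le_antisymm h ht, h0]
      · rfl
    have h2 : MonotoneOn (fun t : ℝ => if t ≤ 0 then t else g t) (Ici 0) := fun a ha b hb hab => by
      simp only [hval a ha, hval b hb]; exact g.monotone hab
    exact h1.Iic_union_Ici h2
  have h0' : g⁻¹ 0 = 0 := by
    have := line_inv_mul_apply g 0
    rwa [h0] at this
  have hmono' : Monotone (fun t : ℝ => if t ≤ 0 then t else g⁻¹ t) := by
    have h1 : MonotoneOn (fun t : ℝ => if t ≤ 0 then t else g⁻¹ t) (Iic 0) := fun a ha b hb hab => by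
      simp only [if_pos (mem_Iic.1 ha), if_pos (mem_Iic.1 hb)]; exact hab
    have hval : ∀ t : ℝ, 0 ≤ t → (if t ≤ 0 then t else g⁻¹ t) = g⁻¹ t := by
      intro t ht
      split_ifs with h
      · rw [le_antisymm h ht, h0']
      · rfl
    have h2 : MonotoneOn (fun t : ℝ => if t ≤ 0 then t else g⁻¹ t) (Ici 0) := fun a ha b hb hab => by
      simp only [hval a ha, hval b hb]; exact (g⁻¹).monotone hab
    exact h1.Iic_union_Ici h2
  have hl : ∀ t : ℝ, (if (if t ≤ 0 then t else g t) ≤ 0 then (if t ≤ 0 then t else g t)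
      else g⁻¹ (if t ≤ 0 then t else g t)) = t := by
    intro t
    by_cases h : t ≤ 0
    · simp only [if_pos h]
    · have : ¬ g t ≤ 0 := by
        rw [not_le] at h ⊢
        have := g.strictMono h
        rwa [h0] at this
      simp only [if_neg h, if_neg this, line_inv_mul_apply]
  have hr : ∀ t : ℝ, (if (if t ≤ 0 then t else g⁻¹ t) ≤ 0 then (if t ≤ 0 then t else g⁻¹ t)
      else g (if t ≤ 0 then t else g⁻¹ t)) = t := by
    intro t
    by_cases h : t ≤ 0
    · simp only [if_pos h]
    · have : ¬ g⁻¹ t ≤ 0 := by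
        rw [not_le] at h ⊢
        have := (g⁻¹).strictMono h
        rwa [h0'] at this
      simp only [if_neg h, if_neg this, line_mul_inv_apply]
  let h : Line := Equiv.toOrderIso ⟨fun t : ℝ => if t ≤ 0 then t else g t,
    fun t : ℝ => if t ≤ 0 then t else g⁻¹ t, hl, hr⟩ hmono hmono'
  have hh : ∀ t, h t = if t ≤ 0 then t else g t := fun _ => rfl
  refine ⟨h, ?_, fun t ht => by rw [hh, if_pos ht], ?_⟩
  · rw [mem_F]
    obtain ⟨B, hB⟩ := mem_F.1 hg
    refine ⟨insert 0 B, fun I hI hIB => ?_⟩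
    have h0I : (0 : ℝ) ∉ I := by simpa using hIB 0 (Finset.mem_insert_self _ _)
    rcases ordConnected_cases hI h0I with h1 | h1
    · exact ⟨1, fun t ht => by rw [mob_one, hh, if_pos (h1 t ht).le]⟩
    · obtain ⟨M, hM⟩ := hB I hI fun b hb => hIB b (Finset.mem_insert_of_mem hb)
      exact ⟨M, fun t ht => by rw [hh, if_neg (not_le.2 (h1 t ht)), hM t ht]⟩
  · intro t ht
    rw [hh]
    split_ifs with h1
    · rw [le_antisymm h1 ht, h0]
    · rfl

end Pool.Agent.R643.PP
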