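import Mathlib
import Pool.Agent.R643.PPRot

/-!
The group `S = ⟨T, s⟩` is generated by two elements.
-/

open OnePoint Set Filter Topology Matrix

namespace Pool.Agent.R643.PP

/-! ### Conjugation by the rotation -/

lemma rot_conj {n : ℕ} {g : Line} {a b : ℝ} (hg : Supp g a b) (ha : 0 ≤ a) (hb : b ≤ n) :
    rot n * E g = E (sh 1 g) * rot n := by
  have hs : Supp (sh 1 g) (a + 1) (b + 1) := by simpa using hg.sh 1
  have hn : (0 : ℝ) ≤ n := Nat.cast_nonneg n
  refine Homeomorph.ext fun z => ?_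
  rw [Homeomorph.mul_apply, Homeomorph.mul_apply]
  induction z using OnePoint.rec with
  | infty => rw [E_infty, rot_infty, E_coe, hs 0 (Or.inl (by linarith))]
  | coe t =>
    rw [E_coe]
    rcases le_total t 0 with h | h
    · have h1 : 0 < 1 - t := by linarith
      have h2 : 1 / (1 - t) ≤ 1 := by rw [div_le_one h1]; linarith
      rw [hg t (Or.inl (by linarith)), rot_neg n h, E_coe, hs _ (Or.inl (by linarith))]
    rcases le_total t n with h' | h'
    · have h0 : Supp g 0 n := hg.mono ha hb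
      have h1 := h0.maps ⟨h, h'⟩
      rw [rot_apply n h1.1 h1.2, rot_apply n h h', E_coe, sh_apply]
      push_cast
      rw [add_sub_cancel_right]
    · rw [hg t (Or.inr (by linarith))]
      have key : ∀ z : Circ, rot n t = z → E (sh 1 g) z = z := by
        intro z hz
        induction z using OnePoint.rec with
        | infty => rfl
        | coe u =>
          rw [E_coe]
          by_cases hu : u ≤ a + 1
          · rw [hs u (Or.inl hu)]
          by_cases hu' : b + 1 ≤ u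
          · rw [hs u (Or.inr hu')]
          exfalso
          rw [not_le] at hu hu'
          have h1 : rot n ((u - 1 : ℝ) : Circ) = ((u - 1 + 1 : ℝ) : Circ) :=
            rot_apply n (by linarith) (by linarith)
          rw [sub_add_cancel] at h1
          have h2 := (rot n).injective (hz.trans h1.symm)
          rw [OnePoint.coe_eq_coe] at h2
          linarith
      exact (key _ rfl).symm

lemma mem_shift {n : ℕ} {H : Subgroup Homeo} (hR : rot n ∈ H) {g : Line} {a b : ℝ}
    (hg : Supp g a b) (ha : 0 ≤ a) (k : ℕ) (hb : b + k ≤ n + 1) :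
    E (sh k g) ∈ H ↔ E g ∈ H := by
  induction k with
  | zero => rw [Nat.cast_zero, sh_zero]
  | succ k ih =>
    push_cast at hb
    rw [← ih (by linarith)]
    have hs : Supp (sh k g) (a + k) (b + k) := by simpa using hg.sh k
    have hk : (0 : ℝ) ≤ k := Nat.cast_nonneg k
    have h := rot_conj hs (by linarith) (by linarith : b + (k : ℝ) ≤ n)
    rw [sh_sh] at h
    have e1 : (1 : ℤ) + k = ((k + 1 : ℕ) : ℤ) := by push_cast; ring
    rw [e1] at h
    constructor
    · intro h1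
      have h2 : E (sh k g) = (rot n)⁻¹ * (E (sh ((k + 1 : ℕ) : ℤ) g) * rot n) := by
        rw [← h]; group
      rw [h2]
      exact H.mul_mem (H.inv_mem hR) (H.mul_mem h1 hR)
    · intro h1
      have h2 : E (sh ((k + 1 : ℕ) : ℤ) g) = rot n * E (sh k g) * (rot n)⁻¹ := by
        rw [h]; group
      rw [h2]
      exact H.mul_mem (H.mul_mem hR h1) (H.inv_mem hR)

/-! ### Commutators -/

lemma comm_aux {G : Type*} [Group G] {b z a w : G} (h2 : Commute z a) (h3 : Commute z w)
    (h4 : Commute w b) :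
    (b * z) * (a * w) * (b * z)⁻¹ * (a * w)⁻¹ = b * a * b⁻¹ * a⁻¹ := by
  have e1 : z * (a * w) * z⁻¹ = a * w := by
    rw [(h2.mul_right h3).eq]; group
  have e2 : w * b⁻¹ * w⁻¹ = b⁻¹ := by
    rw [h4.inv_right.eq]; group
  calc (b * z) * (a * w) * (b * z)⁻¹ * (a * w)⁻¹
      = b * (z * (a * w) * z⁻¹) * b⁻¹ * w⁻¹ * a⁻¹ := by group
    _ = b * a * (w * b⁻¹ * w⁻¹) * a⁻¹ := by rw [e1]; group
    _ = _ := by rw [e2]

/-- The second generator, before shifting. -/
noncomputable def Psi (m : ℤ) : Line := sh m G1 * sh (m + 10) G2 * sh (m + 30) G4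

lemma sh_Psi (k m : ℤ) : sh k (Psi m) = Psi (k + m) := by
  rw [Psi, sh_mul, sh_mul, sh_sh, sh_sh, sh_sh, Psi, ← add_assoc, ← add_assoc]

lemma supp_Psi (m : ℤ) : Supp (Psi m) (m - 1) (m + 31) := by
  have h1 := supp_G1.sh m
  have h2 := supp_G2.sh (m + 10)
  have h3 := supp_G4.sh (m + 30)
  push_cast at h2 h3
  exact ((h1.mono (by linarith) (by linarith)).mul (h2.mono (by linarith) (by linarith))).mul
    (h3.mono (by linarith) (by linarith))

lemma sG1 (m : ℤ) : Supp (sh m G1) (m - 1) (m + 3) := (supp_G1.sh m).mono (by linarith) (by linarith)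

lemma sG2 (m : ℤ) : Supp (sh m G2) m (m + 4) := (supp_G2.sh m).mono (by linarith) (by linarith)

lemma sG4 (m : ℤ) : Supp (sh m G4) (m - 1) (m + 1) := (supp_G4.sh m).mono (by linarith) (by linarith)

lemma Supp.comm {g h : Line} {a b c d : ℝ} (hg : Supp g a b) (hh : Supp h c d)
    (hbc : b ≤ c ∨ d ≤ a) : Commute g h := by
  rcases hbc with hbc | hbc
  · exact hg.commute hh hbc
  · exact (hh.commute hg hbc).symm

lemma comm_30_40 : Psi 30 * Psi 40 * (Psi 30)⁻¹ * (Psi 40)⁻¹ = sh 40 s0 := by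
  have c1 : Commute (sh 30 G1) (sh 40 G2) :=
    (sG1 30).comm (sG2 40) (Or.inl (by push_cast; norm_num))
  have c2 : Commute (sh 30 G1) (sh 40 G1) :=
    (sG1 30).comm (sG1 40) (Or.inl (by push_cast; norm_num))
  have c3 : Commute (sh 60 G4) (sh 40 G1) :=
    (sG4 60).comm (sG1 40) (Or.inr (by push_cast; norm_num))
  have c4 : Commute (sh 30 G1) (sh 50 G2) :=
    (sG1 30).comm (sG2 50) (Or.inl (by push_cast; norm_num))
  have c5 : Commute (sh 30 G1) (sh 70 G4) :=
    (sG1 30).comm (sG4 70) (Or.inl (by push_cast; norm_num))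
  have c6 : Commute (sh 60 G4) (sh 50 G2) :=
    (sG4 60).comm (sG2 50) (Or.inr (by push_cast; norm_num))
  have c7 : Commute (sh 60 G4) (sh 70 G4) :=
    (sG4 60).comm (sG4 70) (Or.inl (by push_cast; norm_num))
  have c8 : Commute (sh 50 G2) (sh 40 G2) :=
    (sG2 50).comm (sG2 40) (Or.inr (by push_cast; norm_num))
  have c9 : Commute (sh 70 G4) (sh 40 G2) :=
    (sG4 70).comm (sG2 40) (Or.inr (by push_cast; norm_num))
  have e1 : Psi 30 = sh 40 G2 * (sh 30 G1 * sh 60 G4) := by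
    have : Psi 30 = sh 30 G1 * sh 40 G2 * sh 60 G4 := by rw [Psi]; norm_num
    rw [this, c1.eq, mul_assoc]
  have e2 : Psi 40 = sh 40 G1 * (sh 50 G2 * sh 70 G4) := by
    have : Psi 40 = sh 40 G1 * sh 50 G2 * sh 70 G4 := by rw [Psi]; norm_num
    rw [this, mul_assoc]
  rw [e1, e2, comm_aux (c2.mul_left c3) ((c4.mul_right c5).mul_left (c6.mul_right c7))
    (c8.mul_left c9), ← comm_G2_G1]
  simp only [sh_mul, sh_inv]

lemma comm_40_10 : Psi 40 * Psi 10 * (Psi 40)⁻¹ * (Psi 10)⁻¹ = e 40 := by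
  have c1 : Commute (sh 10 G1) (sh 40 G4) :=
    (sG1 10).comm (sG4 40) (Or.inl (by push_cast; norm_num))
  have c1' : Commute (sh 20 G2) (sh 40 G4) :=
    (sG2 20).comm (sG4 40) (Or.inl (by push_cast; norm_num))
  have c2 : Commute (sh 50 G2) (sh 40 G4) :=
    (sG2 50).comm (sG4 40) (Or.inr (by push_cast; norm_num))
  have c3 : Commute (sh 70 G4) (sh 40 G4) :=
    (sG4 70).comm (sG4 40) (Or.inr (by push_cast; norm_num))
  have c4 : Commute (sh 50 G2) (sh 10 G1) :=
    (sG2 50).comm (sG1 10) (Or.inr (by push_cast; norm_num))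
  have c5 : Commute (sh 50 G2) (sh 20 G2) :=
    (sG2 50).comm (sG2 20) (Or.inr (by push_cast; norm_num))
  have c6 : Commute (sh 70 G4) (sh 10 G1) :=
    (sG4 70).comm (sG1 10) (Or.inr (by push_cast; norm_num))
  have c7 : Commute (sh 70 G4) (sh 20 G2) :=
    (sG4 70).comm (sG2 20) (Or.inr (by push_cast; norm_num))
  have c8 : Commute (sh 10 G1) (sh 40 G1) :=
    (sG1 10).comm (sG1 40) (Or.inl (by push_cast; norm_num))
  have c9 : Commute (sh 20 G2) (sh 40 G1) :=
    (sG2 20).comm (sG1 40) (Or.inl (by push_cast; norm_num))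
  have e1 : Psi 10 = sh 40 G4 * (sh 10 G1 * sh 20 G2) := by
    have : Psi 10 = sh 10 G1 * sh 20 G2 * sh 40 G4 := by rw [Psi]; norm_num
    rw [this, (c1.mul_left c1').eq]
  have e2 : Psi 40 = sh 40 G1 * (sh 50 G2 * sh 70 G4) := by
    have : Psi 40 = sh 40 G1 * sh 50 G2 * sh 70 G4 := by rw [Psi]; norm_num
    rw [this, mul_assoc]
  have e3 : e 40 = sh 40 (G1 * G4 * G1⁻¹ * G4⁻¹) := by
    rw [comm_G1_G4, sh_e, add_zero]
  rw [e1, e2, comm_aux (c2.mul_left c3) ((c4.mul_right c5).mul_left (c6.mul_right c7))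
    (c8.mul_left c9), e3]
  simp only [sh_mul, sh_inv]

/-! ### The group generated by the two elements -/

/-- The group generated by the two elements. -/
noncomputable def G0 : Subgroup Homeo := Subgroup.closure {rot 100, E (Psi 40)}

lemma rot_mem_G0 : rot 100 ∈ G0 := Subgroup.subset_closure (by simp)

lemma psi_mem_G0 : E (Psi 40) ∈ G0 := Subgroup.subset_closure (by simp)

lemma psi_30_mem : E (Psi 30) ∈ G0 := by
  have h := mem_shift (n := 100) rot_mem_G0 (g := Psi 30) (supp_Psi 30) (by push_cast; norm_num) 10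
    (by push_cast; norm_num)
  rw [sh_Psi] at h
  exact h.1 (by simpa using psi_mem_G0)

lemma psi_10_mem : E (Psi 10) ∈ G0 := by
  have h := mem_shift (n := 100) rot_mem_G0 (g := Psi 10) (supp_Psi 10) (by push_cast; norm_num) 30
    (by push_cast; norm_num)
  rw [sh_Psi] at h
  exact h.1 (by simpa using psi_mem_G0)

lemma s0_mem_G0 : E s0 ∈ G0 := by
  have h : E (sh 40 s0) ∈ G0 := by
    rw [← comm_30_40]
    simp only [map_mul, map_inv]
    exact G0.mul_mem (G0.mul_mem (G0.mul_mem psi_30_mem psi_mem_G0) (G0.inv_mem psi_30_mem))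
      (G0.inv_mem psi_mem_G0)
  have h2 := mem_shift (n := 100) rot_mem_G0 (g := s0) supp_s0 le_rfl 40 (by push_cast; norm_num)
  exact h2.1 (by simpa using h)

lemma e_0_mem : E (e 0) ∈ G0 := by
  have h : E (e 40) ∈ G0 := by
    rw [← comm_40_10]
    simp only [map_mul, map_inv]
    exact G0.mul_mem (G0.mul_mem (G0.mul_mem psi_mem_G0 psi_10_mem) (G0.inv_mem psi_mem_G0))
      (G0.inv_mem psi_10_mem)
  have h2 := mem_shift (n := 100) rot_mem_G0 (g := e 0) (supp_e 0) (by push_cast; norm_num) 40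
    (by push_cast; norm_num)
  rw [sh_e] at h2
  exact h2.1 (by simpa using h)

lemma e_mem_G0 (m : ℕ) (hm : m ≤ 99) : E (e m) ∈ G0 := by
  have h2 := mem_shift (n := 100) rot_mem_G0 (g := e 0) (supp_e 0) (by push_cast; norm_num) m
    (by
      have : (m : ℝ) ≤ 99 := by exact_mod_cast hm
      push_cast; linarith)
  rw [sh_e, add_zero] at h2
  exact h2.2 e_0_mem

lemma x_quot_mem (m : ℕ) (hm : m ≤ 100) : E ((x m)⁻¹ * x 0) ∈ G0 := by
  induction m with
  | zero => simp [G0.one_mem]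
  | succ m ih =>
    have h1 : (x ((m + 1 : ℕ) : ℤ))⁻¹ * x 0 = e m * ((x m)⁻¹ * x 0) := by
      rw [e]; push_cast; group
    rw [h1, map_mul]
    exact G0.mul_mem (e_mem_G0 m (by omega)) (ih (by omega))

lemma x_one_mem : E (x 1) ∈ G0 := by
  have h := rot_rel 98
  have h1 := x_quot_mem 100 le_rfl
  have h2 : E (x 1) = rot 100 * E ((x ((100 : ℕ) : ℤ))⁻¹ * x 0) * (rot 100)⁻¹ := by
    rw [eq_mul_inv_iff_mul_eq]
    have e1 : (((98 : ℕ) : ℤ) + 2) = ((100 : ℕ) : ℤ) := by norm_num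
    rw [e1] at h
    exact h
  rw [h2]
  exact G0.mul_mem (G0.mul_mem rot_mem_G0 h1) (G0.inv_mem rot_mem_G0)

lemma x_zero_mem : E (x 0) ∈ G0 := by
  have h : x 0 = x 1 * e 0 := by rw [e]; norm_num
  rw [h, map_mul]
  exact G0.mul_mem x_one_mem e_0_mem

lemma x_mem_G0 (j : ℕ) : E (x j) ∈ G0 := by
  induction j with
  | zero => exact x_zero_mem
  | succ j ih =>
    rcases Nat.eq_zero_or_pos j with rfl | hj
    · simpa using x_one_mem
    · have h : x ((j + 1 : ℕ) : ℤ) = x 0 * x j * (x 0)⁻¹ := by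
        rw [x_rel (by exact_mod_cast hj)]; push_cast; group
      rw [h, map_mul, map_mul, map_inv]
      exact G0.mul_mem (G0.mul_mem x_zero_mem ih) (G0.inv_mem x_zero_mem)

lemma P_le_G0 : P ≤ G0.comap E := by
  rw [P, Subgroup.closure_le]
  rintro _ ⟨k, rfl⟩
  exact x_mem_G0 k

lemma pos_mem {g : Line} (hg : g ∈ F) (hneg : ∀ t ≤ 0, g t = t) : E g ∈ G0 :=
  P_le_G0 (mem_P_of_neg hg hneg)

/-- Elements which are trivial to the right of `100` are conjugate by the rotation to elements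
which are trivial on the negative side. -/
lemma neg_mem {g : Line} (hg : g ∈ F) {m : ℝ} (hm : m ≤ 100) (hpos : ∀ t, m ≤ t → g t = t) :
    E g ∈ G0 := by
  have hcase : ∀ u : ℝ, (∀ v : ℝ, rot 100 u = v → v ≤ 0) → m ≤ u := by
    intro u hu
    by_contra h
    rw [not_le] at h
    rcases le_total u 0 with h1 | h1
    · have h2 := hu _ (rot_neg 100 h1)
      have : 0 < 1 / (1 - u) := by
        apply one_div_pos.2; linarith
      linarith
    · have h2 := hu _ (rot_apply 100 h1 (by push_cast; linarith))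
      linarith
  have hinfty : (rot 100 * E g * (rot 100)⁻¹) ∞ = ∞ := by
    rw [Homeomorph.mul_apply, Homeomorph.mul_apply]
    have h1 : E g ((rot 100)⁻¹ ∞) = (rot 100)⁻¹ ∞ := by
      have h2 := homeo_mul_inv_apply (rot 100) ∞
      revert h2
      generalize (rot 100)⁻¹ ∞ = z
      intro h2
      induction z using OnePoint.rec with
      | infty => rfl
      | coe u =>
        rw [E_coe, hpos u (hcase u fun v hv => ?_)]
        rw [h2] at hv
        exact absurd hv (OnePoint.infty_ne_coe v)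
    rw [h1, homeo_mul_inv_apply]
  have hneg : ∀ t : ℝ, t ≤ 0 → (rot 100 * E g * (rot 100)⁻¹) (t : Circ) = t := by
    intro t ht
    rw [Homeomorph.mul_apply, Homeomorph.mul_apply]
    have h1 : E g ((rot 100)⁻¹ t) = (rot 100)⁻¹ t := by
      have h2 := homeo_mul_inv_apply (rot 100) t
      revert h2
      generalize (rot 100)⁻¹ (t : Circ) = z
      intro h2
      induction z using OnePoint.rec with
      | infty => rfl
      | coe u =>
        rw [E_coe, hpos u (hcase u fun v hv => ?_)]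
        rw [h2, OnePoint.coe_eq_coe] at hv
        rw [← hv]; exact ht
    rw [h1, homeo_mul_inv_apply]
  have hT : rot 100 * E g * (rot 100)⁻¹ ∈ T :=
    T.mul_mem (T.mul_mem (rot_mem 100) (E_mem_T hg)) (T.inv_mem (rot_mem 100))
  obtain ⟨h, hh, hE⟩ := exists_of_fix hT hinfty
  have h1 : E h ∈ G0 := by
    refine pos_mem hh fun t ht => ?_
    have := hneg t ht
    rw [← hE, E_coe, OnePoint.coe_eq_coe] at this
    exact this
  rw [hE] at h1
  have h2 : E g = (rot 100)⁻¹ * (rot 100 * E g * (rot 100)⁻¹) * rot 100 := by group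
  rw [h2]
  exact G0.mul_mem (G0.mul_mem (G0.inv_mem rot_mem_G0) h1) rot_mem_G0

lemma tau_mem_G0 : E tau ∈ G0 := by
  have h : E (tau * (x 0)⁻¹) ∈ G0 := by
    refine neg_mem (F.mul_mem tau_mem (F.inv_mem (x_mem 0))) (m := 2) (by norm_num) fun t ht => ?_
    rw [RelIso.mul_apply, x_inv_apply, xInv_4 (by push_cast; linarith), tau_apply]
    push_cast; ring
  have h2 : E tau = E (tau * (x 0)⁻¹) * E (x 0) := by
    rw [← map_mul]; congr 1; group
  rw [h2]
  exact G0.mul_mem h x_zero_mem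

lemma tau_zpow_mem (k : ℤ) : E (tau ^ k) ∈ G0 := by
  rw [map_zpow]; exact G0.zpow_mem tau_mem_G0 k

/-- Moving a rational point to `0`. -/
lemma exists_move (q : ℚ) : ∃ u ∈ F, E u ∈ G0 ∧ u q = 0 := by
  obtain ⟨k, hk⟩ := exists_nat_gt (-q)
  have hq : 0 < q + k := by linarith
  obtain ⟨p, hp, j, hj⟩ := exists_refine_rat hq
  have hpF : p ∈ F := P_le_F hp.mem
  refine ⟨tau ^ (-(j : ℤ)) * p⁻¹ * tau ^ (k : ℤ), ?_, ?_, ?_⟩
  · exact F.mul_mem (F.mul_mem (F.zpow_mem tau_mem _) (F.inv_mem hpF)) (F.zpow_mem tau_mem _)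
  · rw [map_mul, map_mul, map_inv]
    exact G0.mul_mem (G0.mul_mem (tau_zpow_mem _) (G0.inv_mem (P_le_G0 hp.mem))) (tau_zpow_mem _)
  · rw [RelIso.mul_apply, RelIso.mul_apply, tau_zpow_apply, tau_zpow_apply]
    have h1 : p⁻¹ ((q : ℝ) + ((k : ℤ) : ℝ)) = j := by
      have := line_inv_mul_apply p (j : ℝ)
      rw [hj] at this
      rw [← this]; push_cast; rfl
    rw [h1]
    push_cast; ring

lemma F_le_G0 {g : Line} (hg : g ∈ F) : E g ∈ G0 := by
  obtain ⟨q, hq⟩ := F_rat hg 0
  rw [Rat.cast_zero] at hq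
  obtain ⟨u, hu, huG, hu0⟩ := exists_move q
  have hF : u * g ∈ F := F.mul_mem hu hg
  have h0 : (u * g) 0 = 0 := by rw [RelIso.mul_apply, hq, hu0]
  obtain ⟨h, hh, hneg, hpos⟩ := exists_split hF h0
  have h1 : E h ∈ G0 := pos_mem hh hneg
  have h2 : E (u * g * h⁻¹) ∈ G0 := by
    refine neg_mem (F.mul_mem hF (F.inv_mem hh)) (m := 0) (by norm_num) fun t ht => ?_
    rw [RelIso.mul_apply]
    have h3 : 0 ≤ h⁻¹ t := by
      by_contra h4
      rw [not_le] at h4
      have h5 := hneg _ h4.le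
      rw [line_mul_inv_apply] at h5
      linarith
    rw [← hpos _ h3, line_mul_inv_apply]
  have h3 : E g = (E u)⁻¹ * E (u * g * h⁻¹) * E h := by
    rw [← map_inv, ← map_mul, ← map_mul]; congr 1; group
  rw [h3]
  exact G0.mul_mem (G0.mul_mem (G0.inv_mem huG) h2) h1

lemma T_le_G0 : T ≤ G0 := by
  intro f hf
  by_cases hinf : f ∞ = ∞
  · obtain ⟨g, hg, rfl⟩ := exists_of_fix hf hinf
    exact F_le_G0 hg
  · have h1 : IsRat (f ∞) := (hf.2.isRat_iff ∞).2 isRat_infty
    rcases h1 with h1 | ⟨q, hq⟩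
    · exact absurd h1 hinf
    obtain ⟨u, hu, huG, hu0⟩ := exists_move q
    have h2 : ((rot 100)⁻¹ * E u * f) ∞ = ∞ := by
      rw [Homeomorph.mul_apply, Homeomorph.mul_apply, hq, E_coe, hu0, ← rot_infty 100,
        homeo_inv_mul_apply]
    have h3 : (rot 100)⁻¹ * E u * f ∈ T :=
      T.mul_mem (T.mul_mem (T.inv_mem (rot_mem 100)) (E_mem_T hu)) hf
    obtain ⟨g, hg, hE⟩ := exists_of_fix h3 h2
    have h4 : f = (E u)⁻¹ * rot 100 * E g := by rw [hE]; group
    rw [h4]
    exact G0.mul_mem (G0.mul_mem (G0.inv_mem huG) rot_mem_G0) (F_le_G0 hg)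

lemma sh_mem_aux {H : Subgroup Homeo} (hT : T ≤ H) {g : Line} (hg : E g ∈ H) (k : ℤ) :
    E (sh k g) ∈ H := by
  have h : ∀ j : ℤ, E (tau ^ j) ∈ H := fun j => hT (E_mem_T (F.zpow_mem tau_mem j))
  rw [sh, map_mul, map_mul]
  exact H.mul_mem (H.mul_mem (h _) hg) (h _)

lemma G0_le {H : Subgroup Homeo} (hT : T ≤ H) (hs : E s0 ∈ H) : G0 ≤ H := by
  rw [G0, Subgroup.closure_le]
  rintro f (rfl | rfl)
  · exact hT (rot_mem 100)
  · have h1 : E G1 ∈ H := hT (E_mem_T (F.mul_mem (F.inv_mem (x_mem _)) (x_mem _)))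
    have h4 : E G4 ∈ H := hT (E_mem_T (F.mul_mem (F.inv_mem (x_mem _)) (x_mem _)))
    have h2 : E G2 ∈ H := by
      rw [G2_eq, map_mul, map_mul]
      exact H.mul_mem (H.mul_mem hs (sh_mem_aux hT hs 1)) (sh_mem_aux hT hs 2)
    change E (Psi 40) ∈ H
    rw [Psi, map_mul, map_mul]
    exact H.mul_mem (H.mul_mem (sh_mem_aux hT h1 _) (sh_mem_aux hT h2 _)) (sh_mem_aux hT h4 _)

/-- The group generated by `T` and `s` is generated by two elements. -/
theorem two_generated : G0 = Subgroup.closure ((T : Set Homeo) ∪ {E s0}) := by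
  apply le_antisymm
  · refine G0_le (fun f hf => Subgroup.subset_closure (Or.inl hf)) (Subgroup.subset_closure ?_)
    exact Or.inr rfl
  · rw [Subgroup.closure_le]
    rintro f (hf | rfl)
    · exact T_le_G0 hf
    · exact s0_mem_G0

end Pool.Agent.R643.PP
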