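import Mathlib

set_option autoImplicit false

/-!
# Free `ℚ`-groups
-/

namespace Pool.Agent.R643

universe u v w

/-- A `ℚ`-group: every element has exactly one `n`-th root for every `n ≥ 1`. -/
def IsQGroup (G : Type u) [Group G] : Prop :=
  ∀ (g : G) (n : ℕ), 1 ≤ n → ∃! x : G, x ^ n = g

/-- The map `ι : X → F` exhibits `F` as the free `ℚ`-group on `X`: `F` is a `ℚ`-group and every map
from `X` to a `ℚ`-group `H` extends uniquely to a homomorphism `F → H`. -/
def IsFreeQGroup {X : Type u} {F : Type v} [Group F] (ι : X → F) : Prop :=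
  IsQGroup F ∧ ∀ (H : Type w) [Group H], IsQGroup H → ∀ f : X → H,
    ∃! φ : F →* H, ∀ x, φ (ι x) = f x

/-! ### Construction of the free `ℚ`-group -/

/-- formal expressions -/
inductive QTerm (X : Type u) : Type u
  | of (x : X) : QTerm X
  | one : QTerm X
  | mul (s t : QTerm X) : QTerm X
  | inv (s : QTerm X) : QTerm X
  | root (n : ℕ) (s : QTerm X) : QTerm X

/-- formal powers -/
def QTerm.pow {X : Type u} (s : QTerm X) : ℕ → QTerm X
  | 0 => QTerm.one
  | n + 1 => QTerm.mul (QTerm.pow s n) s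

/-- the congruence generated by the axioms -/
inductive QRel {X : Type u} : QTerm X → QTerm X → Prop
  | refl (s : QTerm X) : QRel s s
  | symm {s t : QTerm X} : QRel s t → QRel t s
  | trans {s t r : QTerm X} : QRel s t → QRel t r → QRel s r
  | mul_congr {s t s' t' : QTerm X} : QRel s t → QRel s' t' → QRel (s.mul s') (t.mul t')
  | inv_congr {s t : QTerm X} : QRel s t → QRel s.inv t.inv
  | root_congr (n : ℕ) {s t : QTerm X} : QRel s t → QRel (s.root n) (t.root n)
  | one_mul (s : QTerm X) : QRel (QTerm.one.mul s) s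
  | mul_assoc (s t r : QTerm X) : QRel ((s.mul t).mul r) (s.mul (t.mul r))
  | inv_mul (s : QTerm X) : QRel (s.inv.mul s) QTerm.one
  | root_pow (n : ℕ) (s : QTerm X) : QRel ((s.root n).pow (n + 1)) s
  | pow_root (n : ℕ) (s : QTerm X) : QRel ((s.pow (n + 1)).root n) s

/-- the setoid -/
def qSetoid (X : Type u) : Setoid (QTerm X) := ⟨QRel, QRel.refl, QRel.symm, QRel.trans⟩

/-- the free `ℚ`-group -/
def FQ (X : Type u) : Type u := Quotient (qSetoid X)

namespace FQ

variable {X : Type u}

/-- class of a term -/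
def mk (s : QTerm X) : FQ X := Quotient.mk (qSetoid X) s

theorem sound {s t : QTerm X} (h : QRel s t) : mk s = mk t := Quotient.sound h

theorem exact {s t : QTerm X} (h : mk s = mk t) : QRel s t := Quotient.exact (s := qSetoid X) h

theorem surj (g : FQ X) : ∃ s, mk s = g := Quotient.exists_rep g

instance : Mul (FQ X) :=
  ⟨fun g k => Quotient.liftOn₂ g k (fun s t => mk (s.mul t))
    (fun _ _ _ _ h1 h2 => sound (QRel.mul_congr h1 h2))⟩

instance : Inv (FQ X) :=
  ⟨fun g => Quotient.liftOn g (fun s => mk s.inv) (fun _ _ h1 => sound (QRel.inv_congr h1))⟩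

instance : One (FQ X) := ⟨mk QTerm.one⟩

theorem mk_mul (s t : QTerm X) : mk s * mk t = mk (s.mul t) := rfl

theorem mk_inv (s : QTerm X) : (mk s)⁻¹ = mk s.inv := rfl

theorem mk_one : (1 : FQ X) = mk QTerm.one := rfl

instance : Group (FQ X) := Group.ofLeftAxioms
  (by
    intro a b c
    obtain ⟨a, rfl⟩ := surj a
    obtain ⟨b, rfl⟩ := surj b
    obtain ⟨c, rfl⟩ := surj c
    exact sound (QRel.mul_assoc a b c))
  (by
    intro a
    obtain ⟨a, rfl⟩ := surj a
    exact sound (QRel.one_mul a))
  (by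
    intro a
    obtain ⟨a, rfl⟩ := surj a
    exact sound (QRel.inv_mul a))

theorem mk_pow (s : QTerm X) (n : ℕ) : (mk s) ^ n = mk (s.pow n) := by
  induction n with
  | zero => rw [pow_zero]; rfl
  | succ n ih => rw [pow_succ, ih]; rfl

theorem isQGroup : IsQGroup (FQ X) := by
  intro g n hn
  obtain ⟨m, rfl⟩ : ∃ m, n = m + 1 := ⟨n - 1, by omega⟩
  obtain ⟨s, rfl⟩ := surj g
  refine ⟨mk (s.root m), ?_, ?_⟩
  · show (mk (s.root m)) ^ (m + 1) = mk s
    rw [mk_pow]
    exact sound (QRel.root_pow m s)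
  · intro y hy
    obtain ⟨t, rfl⟩ := surj y
    have h1 : QRel (t.pow (m + 1)) s := exact (by rw [← mk_pow]; exact hy)
    exact sound (((QRel.root_congr m h1).symm.trans (QRel.pow_root m t)).symm)

/-- evaluation of a term -/
noncomputable def eval {H : Type w} [Group H] (hH : IsQGroup H) (f : X → H) : QTerm X → H
  | QTerm.of x => f x
  | QTerm.one => 1
  | QTerm.mul s t => eval hH f s * eval hH f t
  | QTerm.inv s => (eval hH f s)⁻¹
  | QTerm.root n s => (hH (eval hH f s) (n + 1) (Nat.le_add_left 1 n)).choose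

theorem eval_root {H : Type w} [Group H] (hH : IsQGroup H) (f : X → H) (n : ℕ) (s : QTerm X) :
    eval hH f (s.root n) ^ (n + 1) = eval hH f s :=
  (hH (eval hH f s) (n + 1) (Nat.le_add_left 1 n)).choose_spec.1

theorem eval_pow {H : Type w} [Group H] (hH : IsQGroup H) (f : X → H) (n : ℕ) (s : QTerm X) :
    eval hH f (s.pow n) = eval hH f s ^ n := by
  induction n with
  | zero => rw [pow_zero]; rfl
  | succ n ih => rw [pow_succ, ← ih]; rfl

theorem root_unique {H : Type w} [Group H] (hH : IsQGroup H) {x y : H} {n : ℕ}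
    (h : x ^ (n + 1) = y ^ (n + 1)) : x = y :=
  (hH (y ^ (n + 1)) (n + 1) (Nat.le_add_left 1 n)).unique h rfl

theorem eval_rel {H : Type w} [Group H] (hH : IsQGroup H) (f : X → H) {s t : QTerm X}
    (h : QRel s t) : eval hH f s = eval hH f t := by
  induction h with
  | refl s => rfl
  | symm _ ih => exact ih.symm
  | trans _ _ ih1 ih2 => exact ih1.trans ih2
  | mul_congr _ _ ih1 ih2 => simp only [eval, ih1, ih2]
  | inv_congr _ ih => simp only [eval, ih]
  | root_congr n _ ih =>
    apply root_unique hH (n := n)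
    rw [eval_root, eval_root, ih]
  | one_mul s => simp only [eval, _root_.one_mul]
  | mul_assoc s t r => simp only [eval, _root_.mul_assoc]
  | inv_mul s => simp only [eval, inv_mul_cancel]
  | root_pow n s => rw [eval_pow, eval_root]
  | pow_root n s =>
    apply root_unique hH (n := n)
    rw [eval_root, eval_pow]

/-- the extension of a map to a homomorphism -/
noncomputable def lift {H : Type w} [Group H] (hH : IsQGroup H) (f : X → H) : FQ X →* H where
  toFun g := Quotient.liftOn g (eval hH f) (fun _ _ h => eval_rel hH f h)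
  map_one' := rfl
  map_mul' g k := by
    obtain ⟨s, rfl⟩ := surj g
    obtain ⟨t, rfl⟩ := surj k
    rfl

theorem isFree : IsFreeQGroup.{u, u, w} (fun x : X => mk (QTerm.of x)) := by
  refine ⟨isQGroup, ?_⟩
  intro H _ hH f
  refine ⟨lift hH f, fun x => rfl, ?_⟩
  intro φ hφ
  ext g
  obtain ⟨s, rfl⟩ := surj g
  show φ (mk s) = eval hH f s
  induction s with
  | of x => exact hφ x
  | one =>
    rw [← mk_one, map_one]; rfl
  | mul s t ih1 ih2 => rw [← mk_mul, map_mul, ih1, ih2]; rfl
  | inv s ih => rw [← mk_inv, map_inv, ih]; rfl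
  | root n s ih =>
    apply root_unique hH (n := n)
    rw [eval_root, ← map_pow, mk_pow, sound (QRel.root_pow n s), ih]

end FQ

/-! ### A noncommutative `ℚ`-group -/

/-- the Heisenberg group over `ℚ` -/
@[ext] structure Heis : Type where
  a : ℚ
  b : ℚ
  c : ℚ

namespace Heis

instance : Mul Heis := ⟨fun x y => ⟨x.a + y.a, x.b + y.b, x.c + y.c + x.a * y.b⟩⟩
instance : One Heis := ⟨⟨0, 0, 0⟩⟩
instance : Inv Heis := ⟨fun x => ⟨-x.a, -x.b, -x.c + x.a * x.b⟩⟩

theorem mul_def (x y : Heis) : x * y = ⟨x.a + y.a, x.b + y.b, x.c + y.c + x.a * y.b⟩ := rfl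
theorem one_def : (1 : Heis) = ⟨0, 0, 0⟩ := rfl
theorem inv_def (x : Heis) : x⁻¹ = ⟨-x.a, -x.b, -x.c + x.a * x.b⟩ := rfl

instance : Group Heis := Group.ofLeftAxioms
  (by intro x y z; simp only [mul_def]; ext <;> simp <;> ring)
  (by intro x; simp only [mul_def, one_def]; ext <;> simp)
  (by intro x; simp only [mul_def, one_def, inv_def]; ext <;> simp)

theorem pow_def (x : Heis) (n : ℕ) :
    x ^ n = ⟨n * x.a, n * x.b, n * x.c + (n * (n - 1) / 2) * (x.a * x.b)⟩ := by
  induction n with
  | zero => rw [pow_zero, one_def]; ext <;> simp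
  | succ n ih =>
    rw [pow_succ, ih, mul_def]
    ext
    · simp; ring
    · simp; ring
    · simp; ring

theorem isQGroup : IsQGroup Heis := by
  intro g n hn
  have hn0 : (n : ℚ) ≠ 0 := by
    have : n ≠ 0 := by omega
    exact_mod_cast this
  refine ⟨⟨g.a / n, g.b / n, (g.c - (n * (n - 1) / 2) * ((g.a / n) * (g.b / n))) / n⟩, ?_, ?_⟩
  · show _ ^ n = g
    rw [pow_def]
    ext
    · simp; field_simp
    · simp; field_simp
    · simp; field_simp; ring
  · intro y hy
    have hy' : y ^ n = g := hy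
    rw [← hy', pow_def]
    ext
    · simp; field_simp
    · simp; field_simp
    · simp; field_simp; ring

end Heis

theorem IsQGroup.of_equiv {G : Type u} {H : Type v} [Group G] [Group H] (e : G ≃* H)
    (h : IsQGroup G) : IsQGroup H := by
  intro g n hn
  obtain ⟨x, hx, hu⟩ := h (e.symm g) n hn
  refine ⟨e x, ?_, ?_⟩
  · show e x ^ n = g
    rw [← map_pow, show x ^ n = e.symm g from hx, MulEquiv.apply_symm_apply]
  · intro y hy
    have hy' : y ^ n = g := hy
    have : e.symm y = x := hu _ (show e.symm y ^ n = e.symm g by rw [← map_pow, hy'])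
    rw [← this, MulEquiv.apply_symm_apply]

/-- A free `ℚ`-group on a set with at least two elements is not commutative. -/
theorem IsFreeQGroup.not_comm {X : Type u} {F : Type v} [Group F] {ι : X → F}
    (h : IsFreeQGroup.{u, v, w} ι) {x y : X} (hxy : x ≠ y) : ι x * ι y ≠ ι y * ι x := by
  classical
  intro hcomm
  let e : Heis ≃* ULift.{w} Heis := (MulEquiv.ulift).symm
  obtain ⟨φ, hφ, -⟩ := h.2 (ULift.{w} Heis) (Heis.isQGroup.of_equiv e)
    (fun z => if z = x then e ⟨1, 0, 0⟩ else e ⟨0, 1, 0⟩)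
  have h1 := congrArg φ hcomm
  rw [map_mul, map_mul, hφ, hφ, if_pos rfl, if_neg hxy.symm, ← map_mul, ← map_mul] at h1
  have h2 := e.injective h1
  rw [Heis.mul_def, Heis.mul_def] at h2
  have h3 := congrArg Heis.c h2
  norm_num at h3

end Pool.Agent.R643
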