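import Mathlib

set_option autoImplicit false

/-!
# Geometric realisation of an integer valued path metric
-/

namespace Pool.Agent.R643

universe u v

/-! ### Geodesics -/

/-- there is a geodesic from `x` to `y` -/
def Geo {X : Type u} [PseudoMetricSpace X] (x y : X) : Prop :=
  ∃ γ : ℝ → X, γ 0 = x ∧ γ (dist x y) = y ∧
    ∀ s ∈ Set.Icc (0 : ℝ) (dist x y), ∀ t ∈ Set.Icc (0 : ℝ) (dist x y), dist (γ s) (γ t) = |s - t|

theorem Geo.refl {X : Type u} [PseudoMetricSpace X] (x : X) : Geo x x := by
  refine ⟨fun _ => x, rfl, rfl, ?_⟩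
  intro s hs t ht
  rw [dist_self] at hs ht
  have h1 : s = 0 := le_antisymm hs.2 hs.1
  have h2 : t = 0 := le_antisymm ht.2 ht.1
  rw [h1, h2]; simp

theorem Geo.trans {X : Type u} [PseudoMetricSpace X] {x y z : X} (h1 : Geo x y) (h2 : Geo y z)
    (h : dist x z = dist x y + dist y z) : Geo x z := by
  obtain ⟨γ, a1, a2, a3⟩ := h1
  obtain ⟨η, b1, b2, b3⟩ := h2
  set p := dist x y with hp
  set q := dist y z with hq
  have hp0 : 0 ≤ p := dist_nonneg
  have hq0 : 0 ≤ q := dist_nonneg
  refine ⟨fun s => if s ≤ p then γ s else η (s - p), ?_, ?_, ?_⟩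
  · show (if (0 : ℝ) ≤ p then γ 0 else η (0 - p)) = x
    rw [if_pos hp0, a1]
  · show (if dist x z ≤ p then γ (dist x z) else η (dist x z - p)) = z
    rw [h]
    by_cases hle : p + q ≤ p
    · have hq' : q = 0 := by linarith
      rw [if_pos hle, hq', add_zero, a2]
      rw [hq'] at b2
      rw [← b1, b2]
    · rw [if_neg hle, add_sub_cancel_left, b2]
  · have key : ∀ s t, 0 ≤ s → s ≤ p → p < t → t ≤ p + q → dist (γ s) (η (t - p)) = t - s := by
      intro s t hs0 hs ht ht'
      have e1 : dist x (γ s) = s := by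
        rw [← a1, a3 0 ⟨le_rfl, hp0⟩ s ⟨hs0, hs⟩, zero_sub, abs_neg, abs_of_nonneg hs0]
      have e2 : dist (γ s) y = p - s := by
        conv_lhs => rw [← a2]
        rw [a3 s ⟨hs0, hs⟩ p ⟨hp0, le_rfl⟩, abs_of_nonpos (by linarith)]; ring
      have e3 : dist y (η (t - p)) = t - p := by
        conv_lhs => rw [← b1]
        rw [b3 0 ⟨le_rfl, hq0⟩ (t - p) ⟨by linarith, by linarith⟩, zero_sub, abs_neg,
          abs_of_nonneg (by linarith)]
      have e4 : dist (η (t - p)) z = q - (t - p) := by
        conv_lhs => rw [← b2]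
        rw [b3 (t - p) ⟨by linarith, by linarith⟩ q ⟨hq0, le_rfl⟩, abs_of_nonpos (by linarith)]
        ring
      have t1 := dist_triangle (γ s) y (η (t - p))
      have t2 := dist_triangle x (γ s) z
      have t3 := dist_triangle (γ s) (η (t - p)) z
      linarith
    intro s hs t ht
    rw [h] at hs ht
    show dist (if s ≤ p then γ s else η (s - p)) (if t ≤ p then γ t else η (t - p)) = |s - t|
    by_cases h1 : s ≤ p <;> by_cases h2 : t ≤ p
    · rw [if_pos h1, if_pos h2, a3 s ⟨hs.1, h1⟩ t ⟨ht.1, h2⟩]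
    · push Not at h2
      rw [if_pos h1, if_neg (not_le.2 h2), key s t hs.1 h1 h2 ht.2, abs_of_nonpos (by linarith)]
      ring
    · push Not at h1
      rw [if_neg (not_le.2 h1), if_pos h2, dist_comm, key t s ht.1 h2 h1 hs.2,
        abs_of_nonneg (by linarith)]
    · push Not at h1 h2
      rw [if_neg (not_le.2 h1), if_neg (not_le.2 h2), b3 _ ⟨by linarith, by linarith [hs.2]⟩ _
        ⟨by linarith, by linarith [ht.2]⟩]
      congr 1; ring

/-! ### The realisation -/

/-- an integer valued path metric -/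
structure GraphMetric (V : Type u) where
  D : V → V → ℕ
  self : ∀ x, D x x = 0
  eq_of : ∀ x y, D x y = 0 → x = y
  symm : ∀ x y, D x y = D y x
  tri : ∀ x y z, D x z ≤ D x y + D y z
  step : ∀ x y, x ≠ y → ∃ z, D x z = 1 ∧ D x y = D z y + 1
  nbr : ∀ x, ∃ y, D x y = 1

variable {V : Type u} (M : GraphMetric V)

/-- points on (oriented) edges -/
structure Pre where
  a : V
  b : V
  t : ℝ
  adj : M.D a b = 1
  t0 : 0 ≤ t
  t1 : t ≤ 1

namespace Pre

variable {M}

/-- distance to a vertex -/
noncomputable def phi (p : Pre M) (z : V) : ℝ := min (p.t + M.D p.a z) (1 - p.t + M.D p.b z)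

theorem phi_a (p : Pre M) : p.phi p.a = p.t := by
  unfold phi
  rw [M.self, M.symm p.b p.a, p.adj]
  have := p.t1
  rw [min_eq_left]
  · simp
  · push_cast; linarith

theorem phi_b (p : Pre M) : p.phi p.b = 1 - p.t := by
  unfold phi
  rw [M.self, p.adj]
  have := p.t0
  rw [min_eq_right]
  · simp
  · push_cast; linarith

theorem phi_nonneg (p : Pre M) (z : V) : 0 ≤ p.phi z := by
  have := p.t0
  have := p.t1
  exact le_min (by positivity) (by have : (0 : ℝ) ≤ M.D p.b z := by positivity
                                   linarith)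

theorem phi_le (p : Pre M) (z w : V) : p.phi w ≤ p.phi z + M.D z w := by
  unfold phi
  have h1 : (M.D p.a w : ℝ) ≤ M.D p.a z + M.D z w := by exact_mod_cast M.tri _ _ _
  have h2 : (M.D p.b w : ℝ) ≤ M.D p.b z + M.D z w := by exact_mod_cast M.tri _ _ _
  rcases le_total (p.t + M.D p.a z) (1 - p.t + M.D p.b z) with h | h
  · rw [min_eq_left h]
    exact (min_le_left _ _).trans (by linarith)
  · rw [min_eq_right h]
    exact (min_le_right _ _).trans (by linarith)

/-- the vertices are at distance at most `phi + phi` -/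
theorem D_le (p : Pre M) (z w : V) : (M.D z w : ℝ) ≤ p.phi z + p.phi w := by
  unfold phi
  have h1 : (M.D z w : ℝ) ≤ M.D p.a z + M.D p.a w := by
    have := M.tri z p.a w
    rw [M.symm z p.a] at this
    exact_mod_cast this
  have h2 : (M.D z w : ℝ) ≤ M.D p.b z + M.D p.b w := by
    have := M.tri z p.b w
    rw [M.symm z p.b] at this
    exact_mod_cast this
  have h3 : (M.D p.a z : ℝ) ≤ 1 + M.D p.b z := by
    have := M.tri p.a p.b z
    rw [p.adj] at this
    exact_mod_cast this
  have h4 : (M.D p.b z : ℝ) ≤ 1 + M.D p.a z := by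
    have := M.tri p.b p.a z
    rw [M.symm p.b p.a, p.adj] at this
    exact_mod_cast this
  have h0 := p.t0
  have h0' := p.t1
  rcases min_choice (p.t + (M.D p.a z : ℝ)) (1 - p.t + M.D p.b z) with h | h <;>
  rcases min_choice (p.t + (M.D p.a w : ℝ)) (1 - p.t + M.D p.b w) with h' | h' <;>
  rw [h, h'] <;> linarith

/-- length of the shortest path through a vertex -/
noncomputable def via (p q : Pre M) : ℝ := min (p.phi q.a + q.t) (p.phi q.b + (1 - q.t))

theorem via_symm (p q : Pre M) : via p q = via q p := by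
  unfold via phi
  rw [M.symm q.a p.a, M.symm q.a p.b, M.symm q.b p.a, M.symm q.b p.b]
  apply le_antisymm
  · refine le_min ?_ ?_
    · rw [← sub_le_iff_le_add]
      refine le_min ?_ ?_
      · rw [sub_le_iff_le_add]
        refine (min_le_left _ _).trans ?_
        linarith [min_le_left (p.t + (M.D p.a q.a : ℝ)) (1 - p.t + M.D p.b q.a)]
      · rw [sub_le_iff_le_add]
        refine (min_le_right _ _).trans ?_
        linarith [min_le_left (p.t + (M.D p.a q.b : ℝ)) (1 - p.t + M.D p.b q.b)]
    · rw [← sub_le_iff_le_add]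
      refine le_min ?_ ?_
      · rw [sub_le_iff_le_add]
        refine (min_le_left _ _).trans ?_
        linarith [min_le_right (p.t + (M.D p.a q.a : ℝ)) (1 - p.t + M.D p.b q.a)]
      · rw [sub_le_iff_le_add]
        refine (min_le_right _ _).trans ?_
        linarith [min_le_right (p.t + (M.D p.a q.b : ℝ)) (1 - p.t + M.D p.b q.b)]
  · refine le_min ?_ ?_
    · rw [← sub_le_iff_le_add]
      refine le_min ?_ ?_
      · rw [sub_le_iff_le_add]
        refine (min_le_left _ _).trans ?_
        linarith [min_le_left (q.t + (M.D p.a q.a : ℝ)) (1 - q.t + M.D p.a q.b)]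
      · rw [sub_le_iff_le_add]
        refine (min_le_right _ _).trans ?_
        linarith [min_le_left (q.t + (M.D p.b q.a : ℝ)) (1 - q.t + M.D p.b q.b)]
    · rw [← sub_le_iff_le_add]
      refine le_min ?_ ?_
      · rw [sub_le_iff_le_add]
        refine (min_le_left _ _).trans ?_
        linarith [min_le_right (q.t + (M.D p.a q.a : ℝ)) (1 - q.t + M.D p.a q.b)]
      · rw [sub_le_iff_le_add]
        refine (min_le_right _ _).trans ?_
        linarith [min_le_right (q.t + (M.D p.b q.a : ℝ)) (1 - q.t + M.D p.b q.b)]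

theorem via_le_phi (p q : Pre M) (z : V) : via p q ≤ p.phi z + q.phi z := by
  unfold via
  have h1 := p.phi_le z q.a
  have h2 := p.phi_le z q.b
  rw [M.symm z q.a] at h1
  rw [M.symm z q.b] at h2
  have h3 : q.phi z = q.t + M.D q.a z ∨ q.phi z = 1 - q.t + M.D q.b z := min_choice _ _
  rcases h3 with h | h
  · rw [h]
    exact (min_le_left _ _).trans (by linarith)
  · rw [h]
    exact (min_le_right _ _).trans (by linarith)

theorem exists_via (p q : Pre M) : ∃ z, via p q = p.phi z + q.phi z := by
  unfold via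
  rcases min_choice (p.phi q.a + q.t) (p.phi q.b + (1 - q.t)) with h | h
  · exact ⟨q.a, by rw [h, q.phi_a]⟩
  · exact ⟨q.b, by rw [h, q.phi_b]⟩

theorem via_nonneg (p q : Pre M) : 0 ≤ via p q := by
  obtain ⟨z, hz⟩ := exists_via p q
  rw [hz]
  exact add_nonneg (p.phi_nonneg z) (q.phi_nonneg z)

theorem via_tri (p q r : Pre M) : via p r ≤ via p q + via q r := by
  obtain ⟨z, hz⟩ := exists_via p q
  obtain ⟨w, hw⟩ := exists_via q r
  have h1 := via_le_phi p r w
  have h2 := p.phi_le z w
  have h3 := q.D_le z w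
  linarith

/-- on the same edge -/
theorem phi_same (p q : Pre M) (h : p.a = q.a ∧ p.b = q.b) (z : V) :
    p.phi z ≤ q.phi z + |p.t - q.t| := by
  unfold phi
  rw [h.1, h.2]
  have h1 := abs_le.1 (le_refl |p.t - q.t|)
  rcases min_choice (q.t + (M.D q.a z : ℝ)) (1 - q.t + M.D q.b z) with h' | h'
  · rw [h']
    exact (min_le_left _ _).trans (by linarith [h1.2])
  · rw [h']
    exact (min_le_right _ _).trans (by linarith [h1.1])

theorem same_le_via (p q : Pre M) (h : p.a = q.a ∧ p.b = q.b) : |p.t - q.t| ≤ via p q := by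
  have h0 := p.t0
  have h1 := p.t1
  have h2 := q.t0
  have h3 := q.t1
  unfold via
  rw [← h.1, ← h.2, p.phi_a, p.phi_b, abs_le]
  constructor
  · rcases min_choice (p.t + q.t) (1 - p.t + (1 - q.t)) with h' | h' <;> rw [h'] <;> linarith
  · refine le_min ?_ ?_ <;> linarith

open Classical in
/-- the distance -/
noncomputable def pd (p q : Pre M) : ℝ := if p.a = q.a ∧ p.b = q.b then |p.t - q.t| else via p q

theorem pd_same {p q : Pre M} (h : p.a = q.a ∧ p.b = q.b) : pd p q = |p.t - q.t| := if_pos h

theorem pd_diff {p q : Pre M} (h : ¬ (p.a = q.a ∧ p.b = q.b)) : pd p q = via p q := if_neg h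

theorem pd_le_via (p q : Pre M) : pd p q ≤ via p q := by
  by_cases h : p.a = q.a ∧ p.b = q.b
  · rw [pd_same h]; exact same_le_via p q h
  · rw [pd_diff h]

noncomputable instance : PseudoMetricSpace (Pre M) where
  dist := pd
  dist_self p := by rw [pd_same ⟨rfl, rfl⟩]; simp
  dist_comm p q := by
    by_cases h : p.a = q.a ∧ p.b = q.b
    · rw [pd_same h, pd_same ⟨h.1.symm, h.2.symm⟩, abs_sub_comm]
    · rw [pd_diff h, pd_diff (fun h' => h ⟨h'.1.symm, h'.2.symm⟩), via_symm]
  dist_triangle p q r := by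
    by_cases h1 : p.a = q.a ∧ p.b = q.b
    · by_cases h2 : q.a = r.a ∧ q.b = r.b
      · rw [pd_same h1, pd_same h2, pd_same ⟨h1.1.trans h2.1, h1.2.trans h2.2⟩]
        exact abs_sub_le _ _ _
      · rw [pd_same h1, pd_diff h2]
        refine (pd_le_via p r).trans ?_
        obtain ⟨z, hz⟩ := exists_via q r
        have h3 := via_le_phi p r z
        have h4 := phi_same p q h1 z
        linarith
    · by_cases h2 : q.a = r.a ∧ q.b = r.b
      · rw [pd_diff h1, pd_same h2]
        refine (pd_le_via p r).trans ?_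
        obtain ⟨z, hz⟩ := exists_via p q
        have h3 := via_le_phi p r z
        have h4 := phi_same r q ⟨h2.1.symm, h2.2.symm⟩ z
        rw [abs_sub_comm] at h4
        linarith
      · rw [pd_diff h1, pd_diff h2]
        exact (pd_le_via p r).trans (via_tri p q r)

theorem dist_def (p q : Pre M) : dist p q = pd p q := rfl

end Pre

end Pool.Agent.R643
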