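import Pool.Agent.R643.Realize

set_option autoImplicit false

/-!
# The realisation is geodesic, and group actions extend
-/

namespace Pool.Agent.R643

universe u v

variable {V : Type u} {M : GraphMetric V}

open SeparationQuotient

/-- a neighbour -/
noncomputable def GraphMetric.n (M : GraphMetric V) (x : V) : V := (M.nbr x).choose

theorem GraphMetric.n_spec (M : GraphMetric V) (x : V) : M.D x (M.n x) = 1 :=
  (M.nbr x).choose_spec

/-- a vertex as a point -/
noncomputable def vp (M : GraphMetric V) (v : V) : Pre M :=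
  ⟨v, M.n v, 0, M.n_spec v, le_rfl, zero_le_one⟩

theorem phi_vp (v z : V) : (vp M v).phi z = M.D v z := by
  unfold Pre.phi
  show min ((0 : ℝ) + M.D v z) (1 - 0 + M.D (M.n v) z) = M.D v z
  rw [zero_add, sub_zero]
  apply min_eq_left
  have := M.tri v (M.n v) z
  rw [M.n_spec] at this
  exact_mod_cast this

theorem dist_vp (v : V) (p : Pre M) : dist (vp M v) p = p.phi v := by
  rw [Pre.dist_def]
  by_cases h : (vp M v).a = p.a ∧ (vp M v).b = p.b
  · rw [Pre.pd_same h]
    have e : v = p.a := h.1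
    rw [e, p.phi_a]
    show |0 - p.t| = p.t
    rw [zero_sub, abs_neg, abs_of_nonneg p.t0]
  · rw [Pre.pd_diff h, Pre.via_symm]
    unfold Pre.via
    show min (p.phi v + 0) (p.phi (M.n v) + (1 - 0)) = p.phi v
    rw [add_zero, sub_zero]
    apply min_eq_left
    have := p.phi_le (M.n v) v
    rw [M.symm, M.n_spec] at this
    simpa using this

theorem dist_vp_vp (v w : V) : dist (vp M v) (vp M w) = M.D v w := by
  rw [dist_vp, phi_vp, M.symm]

/-- the realisation -/
abbrev Rz (M : GraphMetric V) : Type u := SeparationQuotient (Pre M)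

/-- a vertex of the realisation -/
noncomputable def vx (M : GraphMetric V) (v : V) : Rz M := mk (vp M v)

theorem dist_vx_mk (v : V) (p : Pre M) : dist (vx M v) (mk p) = p.phi v := by
  unfold vx
  rw [dist_mk, dist_vp]

theorem dist_vx (v w : V) : dist (vx M v) (vx M w) = M.D v w := by
  unfold vx
  rw [dist_mk, dist_vp_vp]

theorem mk_zero {a b : V} (h : M.D a b = 1) : (mk (⟨a, b, 0, h, le_rfl, zero_le_one⟩ : Pre M)) =
    vx M a := by
  symm
  rw [← dist_eq_zero, dist_vx_mk]
  exact Pre.phi_a _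

theorem mk_one {a b : V} (h : M.D a b = 1) : (mk (⟨a, b, 1, h, zero_le_one, le_rfl⟩ : Pre M)) =
    vx M b := by
  symm
  rw [← dist_eq_zero, dist_vx_mk]
  have := Pre.phi_b (⟨a, b, 1, h, zero_le_one, le_rfl⟩ : Pre M)
  rw [this]
  simp

theorem clamp_mem (t : ℝ) : 0 ≤ max 0 (min 1 t) ∧ max 0 (min 1 t) ≤ 1 :=
  ⟨le_max_left _ _, max_le zero_le_one (min_le_left _ _)⟩

theorem clamp_eq {t : ℝ} (h0 : 0 ≤ t) (h1 : t ≤ 1) : max 0 (min 1 t) = t := by
  rw [min_eq_right h1, max_eq_right h0]

/-- a point on an edge -/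
noncomputable def ed {a b : V} (h : M.D a b = 1) (t : ℝ) : Pre M :=
  ⟨a, b, max 0 (min 1 t), h, (clamp_mem t).1, (clamp_mem t).2⟩

theorem ed_eq (p : Pre M) : ed p.adj p.t = p := by
  unfold ed
  cases p with
  | mk a b t adj t0 t1 =>
    simp only [Pre.mk.injEq, true_and]
    exact clamp_eq t0 t1

theorem dist_ed {a b : V} (h : M.D a b = 1) {s t : ℝ} (hs0 : 0 ≤ s) (hs1 : s ≤ 1) (ht0 : 0 ≤ t)
    (ht1 : t ≤ 1) : dist (ed h s) (ed h t) = |s - t| := by
  rw [Pre.dist_def, Pre.pd_same (p := ed h s) (q := ed h t) ⟨rfl, rfl⟩]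
  show |max 0 (min 1 s) - max 0 (min 1 t)| = |s - t|
  rw [clamp_eq hs0 hs1, clamp_eq ht0 ht1]

/-- geodesics along an edge -/
theorem geo_edge {a b : V} (h : M.D a b = 1) {s t : ℝ} (hs0 : 0 ≤ s) (hs1 : s ≤ 1) (ht0 : 0 ≤ t)
    (ht1 : t ≤ 1) : Geo (mk (ed h s)) (mk (ed h t)) := by
  have hd : dist (mk (ed h s)) (mk (ed h t)) = |s - t| := by rw [dist_mk, dist_ed h hs0 hs1 ht0 ht1]
  rcases le_total s t with hst | hst
  · rw [abs_of_nonpos (by linarith)] at hd
    refine ⟨fun r => mk (ed h (s + r)), by simp, ?_, ?_⟩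
    · show mk (ed h (s + dist (mk (ed h s)) (mk (ed h t)))) = _
      rw [hd]; congr 2; ring
    · rw [hd]
      intro x hx y hy
      rw [dist_mk, dist_ed h (by linarith [hx.1]) (by linarith [hx.2]) (by linarith [hy.1])
        (by linarith [hy.2])]
      congr 1; ring
  · rw [abs_of_nonneg (by linarith)] at hd
    refine ⟨fun r => mk (ed h (s - r)), by simp, ?_, ?_⟩
    · show mk (ed h (s - dist (mk (ed h s)) (mk (ed h t)))) = _
      rw [hd]; congr 2; ring
    · rw [hd]
      intro x hx y hy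
      rw [dist_mk, dist_ed h (by linarith [hx.2]) (by linarith [hx.1]) (by linarith [hy.2])
        (by linarith [hy.1]), ← abs_neg]
      congr 1; ring

theorem geo_same (p q : Pre M) (h : p.a = q.a ∧ p.b = q.b) : Geo (mk p) (mk q) := by
  have h1 : M.D p.a p.b = 1 := p.adj
  have e1 : ed h1 p.t = p := ed_eq p
  have e2 : ed h1 q.t = q := by
    obtain ⟨a, b, t, adj, t0, t1⟩ := q
    obtain ⟨a', b', t', adj', t0', t1'⟩ := p
    obtain ⟨rfl, rfl⟩ := h
    unfold ed
    simp only [Pre.mk.injEq, true_and]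
    exact clamp_eq t0 t1
  have := geo_edge h1 p.t0 p.t1 q.t0 q.t1
  rwa [e1, e2] at this

theorem geo_to_a (p : Pre M) : Geo (mk p) (vx M p.a) := by
  rw [← mk_zero p.adj]
  exact geo_same _ _ ⟨rfl, rfl⟩

theorem geo_to_b (p : Pre M) : Geo (mk p) (vx M p.b) := by
  rw [← mk_one p.adj]
  exact geo_same _ _ ⟨rfl, rfl⟩

theorem geo_from_a (p : Pre M) : Geo (vx M p.a) (mk p) := by
  rw [← mk_zero p.adj]
  exact geo_same _ _ ⟨rfl, rfl⟩

theorem geo_from_b (p : Pre M) : Geo (vx M p.b) (mk p) := by
  rw [← mk_one p.adj]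
  exact geo_same _ _ ⟨rfl, rfl⟩

theorem geo_vx (v w : V) : Geo (vx M v) (vx M w) := by
  generalize hn : M.D v w = n
  induction n generalizing v with
  | zero => rw [M.eq_of v w hn]; exact Geo.refl _
  | succ n ih =>
    have hne : v ≠ w := by
      rintro rfl
      rw [M.self] at hn
      omega
    obtain ⟨z, hz1, hz2⟩ := M.step v w hne
    have h1 : Geo (vx M v) (vx M z) := by
      rw [← mk_zero hz1, ← mk_one hz1]
      exact geo_same _ _ ⟨rfl, rfl⟩
    refine h1.trans (ih z (by omega)) ?_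
    rw [dist_vx, dist_vx, dist_vx, hz1, hz2]
    push_cast; ring

/-- **The realisation is a geodesic space.** -/
theorem geodesic_Rz (x y : Rz M) : Geo x y := by
  obtain ⟨p, rfl⟩ := surjective_mk x
  obtain ⟨q, rfl⟩ := surjective_mk y
  by_cases h : p.a = q.a ∧ p.b = q.b
  · exact geo_same p q h
  have hd : dist (mk p) (mk q) = Pre.via p q := by rw [dist_mk, Pre.dist_def, Pre.pd_diff h]
  -- from `p` to a vertex
  have key : ∀ z : V, Geo (mk p) (vx M z) := by
    intro z
    have e0 : dist (mk p) (vx M z) = p.phi z := by rw [dist_comm, dist_vx_mk]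
    have ea : dist (mk p) (vx M p.a) = p.t := by rw [dist_comm, dist_vx_mk, p.phi_a]
    have eb : dist (mk p) (vx M p.b) = 1 - p.t := by rw [dist_comm, dist_vx_mk, p.phi_b]
    rcases min_choice (p.t + (M.D p.a z : ℝ)) (1 - p.t + M.D p.b z) with h' | h'
    · refine (geo_to_a p).trans (geo_vx p.a z) ?_
      rw [e0, ea, dist_vx]
      exact h'
    · refine (geo_to_b p).trans (geo_vx p.b z) ?_
      rw [e0, eb, dist_vx]
      exact h'
  have e1 : ∀ z, dist (mk p) (vx M z) = p.phi z := fun z => by rw [dist_comm, dist_vx_mk]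
  rcases min_choice (p.phi q.a + q.t) (p.phi q.b + (1 - q.t)) with h' | h'
  · refine (key q.a).trans (geo_from_a q) ?_
    rw [hd, e1, dist_vx_mk, q.phi_a]
    exact h'
  · refine (key q.b).trans (geo_from_b q) ?_
    rw [hd, e1, dist_vx_mk, q.phi_b]
    exact h'

/-- every point is close to a vertex -/
theorem near_vx (x : Rz M) : ∃ v, dist x (vx M v) ≤ 1 := by
  obtain ⟨p, rfl⟩ := surjective_mk x
  exact ⟨p.a, by rw [dist_comm, dist_vx_mk, p.phi_a]; exact p.t1⟩

/-- hyperbolicity passes to the realisation -/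
theorem hyperbolic_Rz {δ : ℝ} (h : ∀ x y z w : V, (M.D x y : ℝ) + M.D z w ≤
    max ((M.D x z : ℝ) + M.D y w) (M.D x w + M.D y z) + 2 * δ) (x y z w : Rz M) :
    dist x y + dist z w ≤ max (dist x z + dist y w) (dist x w + dist y z) + 2 * (δ + 4) := by
  obtain ⟨a, ha⟩ := near_vx x
  obtain ⟨b, hb⟩ := near_vx y
  obtain ⟨c, hc⟩ := near_vx z
  obtain ⟨e, he⟩ := near_vx w
  have up : ∀ (x y : Rz M) (a b : V), dist x (vx M a) ≤ 1 → dist y (vx M b) ≤ 1 →
      dist x y ≤ M.D a b + 2 ∧ (M.D a b : ℝ) ≤ dist x y + 2 := by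
    intro x y a b h1 h2
    have t1 := dist_triangle x (vx M a) y
    have t2 := dist_triangle (vx M a) (vx M b) y
    have t3 := dist_triangle (vx M a) x (vx M b)
    have t4 := dist_triangle x y (vx M b)
    rw [dist_vx] at t2 t3
    rw [dist_comm (vx M b) y] at t2
    rw [dist_comm (vx M a) x] at t3
    constructor <;> linarith
  have h1 := h a b c e
  have u1 := (up x y a b ha hb).1
  have u2 := (up z w c e hc he).1
  have u3 := (up x z a c ha hc).2
  have u4 := (up y w b e hb he).2
  have u5 := (up x w a e ha he).2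
  have u6 := (up y z b c hb hc).2
  rcases le_total ((M.D a c : ℝ) + M.D b e) (M.D a e + M.D b c) with h2 | h2
  · rw [max_eq_right h2] at h1
    have := le_max_right (dist x z + dist y w) (dist x w + dist y z)
    linarith
  · rw [max_eq_left h2] at h1
    have := le_max_left (dist x z + dist y w) (dist x w + dist y z)
    linarith

/-! ### Group actions -/

section act

variable {G : Type v} [Group G] [MulAction G V]

/-- action on the points of the edges -/
def preSmul (hinv : ∀ (g : G) (x y : V), M.D (g • x) (g • y) = M.D x y) (g : G) (p : Pre M) :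
    Pre M :=
  ⟨g • p.a, g • p.b, p.t, by rw [hinv]; exact p.adj, p.t0, p.t1⟩

theorem phi_preSmul (hinv : ∀ (g : G) (x y : V), M.D (g • x) (g • y) = M.D x y) (g : G)
    (p : Pre M) (z : V) : (preSmul hinv g p).phi (g • z) = p.phi z := by
  unfold Pre.phi preSmul
  simp only [hinv]

theorem dist_preSmul (hinv : ∀ (g : G) (x y : V), M.D (g • x) (g • y) = M.D x y) (g : G)
    (p q : Pre M) : dist (preSmul hinv g p) (preSmul hinv g q) = dist p q := by
  rw [Pre.dist_def, Pre.dist_def]
  by_cases h : p.a = q.a ∧ p.b = q.b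
  · have h' : (preSmul hinv g p).a = (preSmul hinv g q).a ∧
        (preSmul hinv g p).b = (preSmul hinv g q).b := by
      constructor
      · show g • p.a = g • q.a
        rw [h.1]
      · show g • p.b = g • q.b
        rw [h.2]
    rw [Pre.pd_same h, Pre.pd_same h']
    rfl
  · have h' : ¬ ((preSmul hinv g p).a = (preSmul hinv g q).a ∧
        (preSmul hinv g p).b = (preSmul hinv g q).b) := by
      rintro ⟨h1, h2⟩
      exact h ⟨smul_left_cancel g h1, smul_left_cancel g h2⟩
    rw [Pre.pd_diff h, Pre.pd_diff h']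
    unfold Pre.via
    have e1 := phi_preSmul hinv g p q.a
    have e2 := phi_preSmul hinv g p q.b
    show min ((preSmul hinv g p).phi (g • q.a) + q.t) ((preSmul hinv g p).phi (g • q.b) +
      (1 - q.t)) = _
    rw [e1, e2]

/-- the action on the realisation -/
@[reducible] noncomputable def rzAction
    (hinv : ∀ (g : G) (x y : V), M.D (g • x) (g • y) = M.D x y) : MulAction G (Rz M) where
  smul g := SeparationQuotient.lift (fun p => mk (preSmul hinv g p)) (by
    intro p q hpq
    rw [Metric.inseparable_iff] at hpq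
    rw [← dist_eq_zero, dist_mk, dist_preSmul, hpq])
  one_smul x := by
    obtain ⟨p, rfl⟩ := surjective_mk x
    show mk (preSmul hinv 1 p) = mk p
    congr 1
    unfold preSmul
    cases p
    simp
  mul_smul g k x := by
    obtain ⟨p, rfl⟩ := surjective_mk x
    show mk (preSmul hinv (g * k) p) = mk (preSmul hinv g (preSmul hinv k p))
    congr 1
    unfold preSmul
    cases p
    simp [mul_smul]

theorem rz_isometry (hinv : ∀ (g : G) (x y : V), M.D (g • x) (g • y) = M.D x y) (g : G)
    (x y : Rz M) : dist ((rzAction hinv).toSMul.smul g x) ((rzAction hinv).toSMul.smul g y) =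
      dist x y := by
  obtain ⟨p, rfl⟩ := surjective_mk x
  obtain ⟨q, rfl⟩ := surjective_mk y
  show dist (mk (preSmul hinv g p)) (mk (preSmul hinv g q)) = _
  rw [dist_mk, dist_mk, dist_preSmul]

theorem rz_smul_vx (hinv : ∀ (g : G) (x y : V), M.D (g • x) (g • y) = M.D x y) (g : G) (v : V) :
    (rzAction hinv).toSMul.smul g (vx M v) = vx M (g • v) := by
  show mk (preSmul hinv g (vp M v)) = vx M (g • v)
  symm
  rw [← dist_eq_zero, dist_vx_mk, phi_preSmul, phi_vp, M.self]
  simp

end act

end Pool.Agent.R643
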