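import Pool.Agent.R643.Axis

set_option autoImplicit false

/-!
# A group acting freely on a tree in which every element is a fifth power is commutative
-/

namespace Pool.Agent.R643

universe u v w

namespace FreeAct

variable {K : Type u} [CommRing K] [LinearOrder K] [IsStrictOrderedRing K] {X : Type v}
  {d : X → X → K} {G : Type w} [Group G] [MulAction G X]

/-- Two axes with the points `p`, `q` realising the bridge, oriented coherently. -/
structure Cfg (d : X → X → K) (a b : G) (p q : X) : Prop where
  ha : a ≠ 1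
  hb : b ≠ 1
  pa : d p (a • a • p) = 2 * d p (a • p)
  qb : d q (b • b • q) = 2 * d q (b • q)
  u1 : d (b⁻¹ • q) (a • p) = d (b⁻¹ • q) q + d q p + d p (a • p)
  u2 : d (a⁻¹ • p) (b • q) = d (a⁻¹ • p) p + d p q + d q (b • q)

theorem Cfg.inv (A : FreeAct d G) {a b : G} {p q : X} (c : Cfg d a b p q) :
    Cfg d a⁻¹ b⁻¹ p q where
  ha := inv_ne_one.2 c.ha
  hb := inv_ne_one.2 c.hb
  pa := A.axis_inv c.pa
  qb := A.axis_inv c.qb
  u1 := by
    rw [inv_inv]
    have h := A.zh
    have := c.u2
    rw [h.symm (b • q), h.symm (b • q), this, h.symm (a⁻¹ • p), h.symm q p]; ring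
  u2 := by
    rw [inv_inv]
    have h := A.zh
    have := c.u1
    rw [h.symm (a • p), h.symm (a • p), this, h.symm (b⁻¹ • q), h.symm q p]; ring

theorem Cfg.swap (A : FreeAct d G) {a b : G} {p q : X} (c : Cfg d a b p q) :
    Cfg d b⁻¹ a⁻¹ q p where
  ha := inv_ne_one.2 c.hb
  hb := inv_ne_one.2 c.ha
  pa := A.axis_inv c.qb
  qb := A.axis_inv c.pa
  u1 := by
    rw [inv_inv]
    have h := A.zh
    have := c.u1
    rw [h.symm (a • p), h.symm (a • p), this, h.symm (b⁻¹ • q), h.symm q p]; ring
  u2 := by
    rw [inv_inv]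
    have h := A.zh
    have := c.u2
    rw [h.symm (b • q), h.symm (b • q), this, h.symm (a⁻¹ • p), h.symm q p]; ring

/-- the product of two coherently oriented elements -/
theorem Cfg.mul (A : FreeAct d G) {a b : G} {p q : X} (c : Cfg d a b p q) :
    d p ((a * b) • (a * b) • p) = 2 * d p ((a * b) • p) ∧
    d p ((a * b) • p) = d p (a • p) + d q (b • q) + 2 * d p q ∧
    d p ((a * b) • p) = d p (a • p) + d (a • p) ((a * b) • p) ∧
    d q ((a * b) • (a * b) • q) = 2 * d q ((a * b) • q) ∧
    d q ((a * b) • q) = d p (a • p) + d q (b • q) + 2 * d p q ∧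
    d q ((a * b) • q) = d q p + d p ((a * b) • q) := by
  have h := A.zh
  have la := A.hyp_pos c.ha p
  have lb := A.hyp_pos c.hb q
  have sqp := h.symm q p
  -- names for the points
  have e1 : d p (a • b • q) = d p (a • p) + d p q + d q (b • q) := by
    have := c.u2
    rw [A.inv_left, A.inv_left] at this
    exact this
  have e2 : d q (b • a • p) = d q (b • q) + d q p + d p (a • p) := by
    have := c.u1
    rw [A.inv_left, A.inv_left] at this
    exact this
  have f1 : d (a • p) (a • q) = d p q := A.iso _ _ _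
  have f2 : d (a • q) (a • b • q) = d q (b • q) := A.iso _ _ _
  have f3 : d (a • b • q) (a • b • p) = d p q := by rw [A.iso, A.iso, h.symm]
  have f4 : d (a • b • p) (a • b • a • p) = d p (a • p) := by rw [A.iso, A.iso]
  have f5 : d (a • q) (a • b • a • p) = d q (b • q) + d q p + d p (a • p) := by
    rw [A.iso, e2]
  -- p, ap, aq, abq in order
  have g1 : d p (a • q) = d p (a • p) + d p q := by
    have t1 := h.tri p (a • p) (a • q)
    have t2 := h.tri p (a • q) (a • b • q)
    linarith
  have g2 : d (a • q) (a • b • p) = d q (b • q) + d q p := by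
    have t1 := h.tri (a • q) (a • b • q) (a • b • p)
    have t2 := h.tri (a • q) (a • b • p) (a • b • a • p)
    linarith
  have g3 : d (a • b • q) (a • b • a • p) = d p q + d p (a • p) := by
    have t1 := h.tri (a • b • q) (a • b • p) (a • b • a • p)
    have t2 := h.tri (a • q) (a • b • q) (a • b • a • p)
    linarith
  have g4 : d (a • p) (a • b • q) = d p q + d q (b • q) := by
    have t1 := h.tri (a • p) (a • q) (a • b • q)
    have t2 := h.tri p (a • p) (a • b • q)
    linarith
  -- long path
  have L1 : d p (a • b • a • p) = d p (a • b • q) + d (a • b • q) (a • b • a • p) :=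
    h.cat (y := a • q) (by linarith) (by linarith) (by linarith)
  have L2 : d p (a • b • p) = d p (a • b • q) + d (a • b • q) (a • b • p) :=
    h.cat (y := a • q) (by linarith) (by linarith) (by linarith)
  have m1 : (a * b) • p = a • b • p := mul_smul _ _ _
  have m2 : (a * b) • q = a • b • q := mul_smul _ _ _
  have K1 : d p (a • b • p) = d p (a • p) + d q (b • q) + 2 * d p q := by linarith
  have K3 : d p (a • b • p) = d p (a • p) + d (a • p) (a • b • p) := by
    have t1 := h.tri (a • p) (a • b • q) (a • b • p)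
    have t2 := h.tri p (a • p) (a • b • p)
    linarith
  have K2 : d p (a • b • a • b • p) = 2 * d p (a • b • p) := by
    have r1 : d (a • b • p) (a • b • a • b • p) = d p (a • b • p) := by rw [A.iso, A.iso]
    have r2 : d (a • b • a • p) (a • b • a • b • p) = d (a • p) (a • b • p) := by
      rw [A.iso, A.iso]
    have := h.cat (x := p) (y := a • b • p) (z := a • b • a • p) (w := a • b • a • b • p)
      (by linarith) (by linarith) (by linarith)
    linarith
  -- for `q`
  have q1 : d q (a • p) = d q p + d p (a • p) := by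
    have t1 := h.tri q p (a • p)
    have t2 := h.tri (b⁻¹ • q) q (a • p)
    have := c.u1
    linarith
  have q2 : d q (a • b • q) = d q (a • p) + d (a • p) (a • b • q) :=
    h.cat (y := p) (by linarith) (by linarith) (by linarith)
  have K5 : d q (a • b • q) = d p (a • p) + d q (b • q) + 2 * d p q := by linarith
  have K6 : d q (a • b • q) = d q p + d p (a • b • q) := by linarith
  have K4 : d q (a • b • a • b • q) = 2 * d q (a • b • q) := by
    -- q .. abq and aq .. abaq
    have r0 : d (a • b • q) (a • b • a • b • q) = d q (a • b • q) := by rw [A.iso, A.iso]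
    have r1 : d (a • b • a • p) (a • b • a • b • q) = d (a • p) (a • b • q) := by
      rw [A.iso, A.iso]
    have r2 : d (a • b • p) (a • b • a • b • q) = d p (a • b • q) := by rw [A.iso, A.iso]
    have r4 : d q (a • q) = d q p + d p (a • q) := by
      have t1 := h.tri q p (a • q)
      have t2 := h.tri q (a • q) (a • b • q)
      linarith
    have r5 : d q (a • b • a • p) = d q (a • b • q) + d (a • b • q) (a • b • a • p) :=
      h.cat (y := a • q) (by linarith) (by linarith) (by linarith)
    have r6 : d q (a • b • a • p) = d q (a • b • p) + d (a • b • p) (a • b • a • p) := by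
      have t1 := h.tri q (a • b • p) (a • b • a • p)
      have t2 := h.tri q (a • b • q) (a • b • p)
      linarith
    have := h.cat (x := q) (y := a • b • p) (z := a • b • a • p) (w := a • b • a • b • q)
      (by linarith) (by linarith) (by linarith)
    linarith
  simp only [m1, m2] at *
  refine ⟨?_, K1, K3, ?_, K5, K6⟩
  · simpa only [mul_smul] using K2
  · simpa only [mul_smul] using K4

/-- translating along the axis -/
theorem trans (A : FreeAct d G) {g k : G} {n : ℕ} (hn : 1 ≤ n) (hgk : g ^ n = k) (hk : k ≠ 1)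
    {p x : X} (hp : d p (k • k • p) = 2 * d p (k • p))
    (hx : d p x + d x (k • p) = d p (k • p)) (hle : d p (g • p) + d p x ≤ d p (k • p)) :
    d p (g • x) = d p (g • p) + d p x ∧ d p (g • x) + d (g • x) (k • p) = d p (k • p) := by
  have h := A.zh
  obtain ⟨hg, hpg, hl⟩ := A.root_axis hn hgk hk hp
  obtain ⟨m, rfl⟩ : ∃ m, n = m + 1 := ⟨n - 1, by omega⟩
  have e1 : d (g • p) (k • p) = m * d p (g • p) := by
    rw [← hgk, pow_succ', mul_smul, A.iso, A.orbit_axis hg hpg]
  have e2 : g • k • p = k • g • p := by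
    rw [← mul_smul, ← mul_smul, ← hgk, ← pow_succ, ← pow_succ']
  have e3 : d (k • p) (g • k • p) = d p (g • p) := by rw [e2, A.iso]
  have e4 : d (g • p) (g • k • p) = d p (k • p) := A.iso _ _ _
  have e5 : d (g • p) (g • x) = d p x := A.iso _ _ _
  have e6 : d (g • x) (g • k • p) = d x (k • p) := A.iso _ _ _
  push_cast at hl
  have e7 : d (g • x) (k • p) = d (g • p) (k • p) - d (g • p) (g • x) :=
    h.lin (y := g • k • p) (by linarith) (by linarith) (by linarith)
  have t1 := h.tri p (g • p) (g • x)
  have t2 := h.tri p (g • x) (k • p)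
  constructor <;> linarith

/-- the overlap of the axes is long: the elements commute -/
theorem Cfg.comm_of_le (A : FreeAct d G) {a b : G} {p q : X} (c : Cfg d a b p q)
    {g w : G} {n : ℕ} (hn : 1 ≤ n) (hg : g ^ n = a) (hw : w ^ n = a * b) (hab : a * b ≠ 1)
    (hle : d p (g • p) + d p (w • p) ≤ d p (a • p)) : Commute a b := by
  have h := A.zh
  obtain ⟨k2, k1, k3, -, -, -⟩ := c.mul A
  obtain ⟨hg1, hpg, hla⟩ := A.root_axis hn hg c.ha c.pa
  obtain ⟨hw1, hpw, hlc⟩ := A.root_axis hn hw hab k2
  have lb := A.hyp_pos c.hb q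
  have la := A.hyp_pos c.ha p
  have wpos := A.hyp_pos hw1 p
  have gpos := A.hyp_pos hg1 p
  have nδ := h.nn p q
  obtain ⟨m, rfl⟩ : ∃ m, n = m + 1 := ⟨n - 1, by omega⟩
  have hm : (0 : K) ≤ m := Nat.cast_nonneg m
  -- `w p` in `[p, c p]`
  have s1 : d p (w • p) + d (w • p) ((a * b) • p) = d p ((a * b) • p) := by
    have : d (w • p) ((a * b) • p) = m * d p (w • p) := by
      rw [← hw, pow_succ', mul_smul, A.iso, A.orbit_axis hw1 hpw]
    rw [this, hlc]; push_cast; ring
  have s2 : d (w • p) (a • p) = d p (a • p) - d p (w • p) :=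
    h.lin (y := (a * b) • p) (by linarith) (by linarith) (by linarith)
  have s3 : d p (g • p) + d (g • p) (a • p) = d p (a • p) := by
    have : d (g • p) (a • p) = m * d p (g • p) := by
      rw [← hg, pow_succ', mul_smul, A.iso, A.orbit_axis hg1 hpg]
    rw [this, hla]; push_cast; ring
  have s4 : d p (g • p) + d (g • p) ((a * b) • p) = d p ((a * b) • p) := by
    have t1 := h.tri (g • p) (a • p) ((a * b) • p)
    have t2 := h.tri p (g • p) ((a * b) • p)
    linarith
  have T1 := A.trans hn hg c.ha c.pa (x := w • p) (by linarith) (by linarith)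
  have T2 := A.trans hn hw hab k2 (x := g • p) s4 (by linarith)
  have T3 : d p (g • w • p) + d (g • w • p) ((a * b) • p) = d p ((a * b) • p) := by
    have t1 := h.tri (g • w • p) (a • p) ((a * b) • p)
    have t2 := h.tri p (g • w • p) ((a * b) • p)
    linarith
  have heq : g • w • p = w • g • p :=
    h.uniq T3 T2.2 (by rw [T1.1, T2.1]; ring)
  have hcomm : Commute g w := by
    have : (g * w) • p = (w * g) • p := by rw [mul_smul, mul_smul, heq]
    exact A.eq_of_smul this
  have h2 : Commute a (a * b) := by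
    have h4 := hcomm.pow_pow (m + 1) (m + 1)
    rwa [hw, hg] at h4
  have h3 : a * (a * b) = a * (b * a) := by
    have := h2.eq
    rw [this, mul_assoc]
  exact mul_left_cancel h3

/-- square roots are unique -/
theorem sq_inj (A : FreeAct d G) {a g : G} (ha : a * a = g * g) (h1 : g ≠ 1) (p0 : X) : a = g := by
  have h := A.zh
  obtain ⟨p, hp, -⟩ := A.proj h1 p0
  have gpos := A.hyp_pos h1 p
  have e0 : g • g • p = a • a • p := by rw [← mul_smul, ← mul_smul, ha]
  have hsq : a * a ≠ 1 := by
    intro h2
    have : g • g • p = p := by rw [e0, ← mul_smul, h2, one_smul]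
    exact A.free g h1 p this
  have e4 : (a * a) • (a * a) • p = g • g • g • g • p := by
    rw [ha]; simp only [mul_smul]
  have hz : d p ((a * a) • (a * a) • p) = 2 * d p ((a * a) • p) := by
    rw [e4]
    have e5 := A.orbit_axis h1 hp 4
    have e6 : (a * a) • p = g • g • p := by rw [ha, mul_smul]
    have e7 : g ^ 4 • p = g • g • g • g • p := by
      simp only [← mul_smul, pow_succ, pow_zero, one_mul, mul_assoc]
    rw [e7] at e5
    rw [e5, e6, hp]; push_cast; ring
  obtain ⟨ha1, hpa, hl⟩ := A.root_axis (n := 2) (by norm_num) (pow_two a) hsq hz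
  obtain ⟨-, hpg, hl'⟩ := A.root_axis (n := 2) (by norm_num) ((pow_two g).trans ha.symm) hsq hz
  have e5 : d p (a • p) = d p (g • p) := by
    push_cast at hl hl'
    linarith
  have s1 : d p (a • p) + d (a • p) (a • a • p) = d p (a • a • p) := by
    rw [A.iso, hpa]; ring
  have s2 : d p (g • p) + d (g • p) (a • a • p) = d p (a • a • p) := by
    rw [← e0, A.iso, hp]; ring
  have := h.uniq s1 s2 e5
  exact A.eq_of_smul this

/-- two coherently oriented elements commute when fifth roots exist -/
theorem Cfg.comm (A : FreeAct d G) {a b : G} {p q : X} (c : Cfg d a b p q)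
    (hr : ∀ g : G, ∃ x : G, x ^ 5 = g) : Commute a b := by
  have h := A.zh
  by_contra hcon
  have hab : a * b ≠ 1 := by
    intro h1
    apply hcon
    have : b = a⁻¹ := eq_inv_of_mul_eq_one_right h1
    rw [this]
    exact (Commute.refl a).inv_right
  obtain ⟨k2, k1, k3, k2q, k1q, k4q⟩ := c.mul A
  obtain ⟨x, hx⟩ := hr a
  obtain ⟨y, hy⟩ := hr b
  obtain ⟨w, hw⟩ := hr (a * b)
  obtain ⟨w', hw'⟩ := hr (b * a)
  obtain ⟨hx1, hxp, hla⟩ := A.root_axis (by norm_num) hx c.ha c.pa
  obtain ⟨hy1, hyq, hlb⟩ := A.root_axis (by norm_num) hy c.hb c.qb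
  obtain ⟨hw1, hwp, hlc⟩ := A.root_axis (by norm_num) hw hab k2
  obtain ⟨-, hwq, hlcq⟩ := A.root_axis (by norm_num) hw hab k2q
  have hsym := h.symm q p
  have hpos := A.hyp_pos hw1 p
  -- (i)
  have i1 : ¬ d p (x • p) + d p (w • p) ≤ d p (a • p) := fun hle =>
    hcon (c.comm_of_le A (by norm_num) hx hw hab hle)
  -- (ii)
  have i2 : ¬ d q (y • q) + d q (w • q) ≤ d q (b • q) := by
    intro hle
    have e1 : d q (y⁻¹ • q) = d q (y • q) := by rw [A.inv_right, h.symm]
    have e2 : d q (w⁻¹ • q) = d q (w • q) := by rw [A.inv_right, h.symm]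
    have e3 : d q (b⁻¹ • q) = d q (b • q) := by rw [A.inv_right, h.symm]
    have := (c.swap A).comm_of_le A (n := 5) (by norm_num) (g := y⁻¹) (w := w⁻¹)
      (by rw [inv_pow, hy]) (by rw [inv_pow, hw, mul_inv_rev])
      (by rw [← mul_inv_rev]; exact inv_ne_one.2 hab) (by rw [e1, e2, e3]; exact hle)
    exact hcon (Commute.inv_inv_iff.1 this.symm)
  -- (iii)
  have i3 : ¬ d q (w • q) ≤ d q p := by
    intro hle
    have hba : a⁻¹ * b⁻¹ ≠ 1 := by
      intro h1
      apply hcon
      have : b⁻¹ = a := by
        have := eq_inv_of_mul_eq_one_right h1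
        rwa [inv_inv] at this
      rw [← this]
      rw [Commute, SemiconjBy]; simp
    obtain ⟨-, -, -, j2, j1, j4⟩ := (c.inv A).mul A
    obtain ⟨hv1, hvq, hlv⟩ := A.root_axis (n := 5) (g := w'⁻¹) (by norm_num)
      (by rw [inv_pow, hw', mul_inv_rev]) hba j2
    have e1 : d p (a⁻¹ • p) = d p (a • p) := by rw [A.inv_right, h.symm]
    have e3 : d q (b⁻¹ • q) = d q (b • q) := by rw [A.inv_right, h.symm]
    push_cast at hlcq hlv
    have e4 : d q (w • q) = d q (w'⁻¹ • q) := by linarith
    have hwq0 := A.hyp_pos hw1 q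
    -- both lie in `[q, p]`
    have s1 : d q (w • q) + d (w • q) ((a * b) • q) = d q ((a * b) • q) := by
      have : d (w • q) ((a * b) • q) = (4 : ℕ) * d q (w • q) := by
        rw [← hw, pow_succ', mul_smul, A.iso, A.orbit_axis hw1 hwq]
      rw [this]; push_cast; linarith
    have s2 : d q (w'⁻¹ • q) + d (w'⁻¹ • q) ((a⁻¹ * b⁻¹) • q) = d q ((a⁻¹ * b⁻¹) • q) := by
      have : d (w'⁻¹ • q) ((a⁻¹ * b⁻¹) • q) = (4 : ℕ) * d q (w'⁻¹ • q) := by
        rw [show a⁻¹ * b⁻¹ = (w'⁻¹) ^ 5 by rw [inv_pow, hw', mul_inv_rev], pow_succ',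
          mul_smul, A.iso, A.orbit_axis hv1 hvq]
      rw [this]; push_cast; linarith
    have s3 : d (w • q) p = d q p - d q (w • q) :=
      h.lin (y := (a * b) • q) (by linarith) (by linarith) (by linarith)
    have s4 : d (w'⁻¹ • q) p = d q p - d q (w'⁻¹ • q) :=
      h.lin (y := (a⁻¹ * b⁻¹) • q) (by linarith) (by linarith) (by linarith)
    have s5 : w • q = w'⁻¹ • q := h.uniq (x := q) (y := p) (by linarith) (by linarith) e4
    have s6 : w = w'⁻¹ := A.eq_of_smul s5
    have s7 : a * b * (b * a) = 1 := by
      rw [← hw, ← hw', s6, inv_pow, inv_mul_cancel]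
    have s8 : a * a = b⁻¹ * b⁻¹ := by
      have : a * a * (b * b) = 1 := by
        have : a * (a * b * (b * a)) * a⁻¹ = 1 := by rw [s7]; simp
        rw [← this]; group
      rw [← mul_inv_rev]
      exact eq_inv_of_mul_eq_one_left this
    have s9 := A.sq_inj s8 (inv_ne_one.2 c.hb) q
    apply hcon
    rw [s9]
    rw [Commute, SemiconjBy]; simp
  push Not at i1 i2 i3
  push_cast at hla hlb hlc hlcq
  linarith

/-- **A group acting freely on a tree in which every element is a fifth power is commutative.** -/
theorem comm (A : FreeAct d G) [Nonempty X] (hr : ∀ g : G, ∃ x : G, x ^ 5 = g) (a b : G) :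
    Commute a b := by
  have h := A.zh
  by_cases ha : a = 1
  · rw [ha]; exact Commute.one_left b
  by_cases hb : b = 1
  · rw [hb]; exact Commute.one_right a
  obtain ⟨x0⟩ := ‹Nonempty X›
  obtain ⟨p0, hp0, -⟩ := A.proj ha x0
  obtain ⟨q, hq, -, -, hqz⟩ := A.proj hb p0
  obtain ⟨p, hp, -, -, hpz⟩ := A.proj ha q
  have la := A.hyp_pos ha p
  have lb := A.hyp_pos hb q
  -- points of the axes
  have ax : ∀ {g : G} {x : X}, d x (g • g • x) = 2 * d x (g • x) →
      d (g • x) (g • g • g • x) = 2 * d (g • x) (g • g • x) := by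
    intro g x hx
    rw [A.iso, A.iso, hx]
  have ax' : ∀ {g : G} {x : X}, d x (g • g • x) = 2 * d x (g • x) →
      d (g⁻¹ • x) (g • g • g⁻¹ • x) = 2 * d (g⁻¹ • x) (g • g⁻¹ • x) := by
    intro g x hx
    rw [A.inv_left, A.inv_left, smul_inv_smul, hx]
  have b1 : ∀ z, d z (b • b • z) = 2 * d z (b • z) → d p z = d p q + d q z := by
    intro z hz
    have t1 := hqz z hz
    have t2 := hpz p0 hp0
    have t3 := h.tri p0 p z
    have t4 := h.tri p q z
    have s1 := h.symm q p
    have s2 := h.symm p0 q
    have s3 := h.symm p p0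
    linarith
  by_cases hpq : p = q
  · subst hpq
    -- directions at `p`
    have tr : ∀ x y z : X, d x y < d x p + d p y → d y z < d y p + d p z →
        d x z < d x p + d p z := by
      intro x y z h1 h2
      have h3 := h.fp x z y p
      have e1 := h.symm z p
      have e2 := h.symm z y
      have e3 := h.symm p y
      rcases le_max_iff.1 h3 with h3 | h3 <;> linarith
    have sy : ∀ x y : X, d x y < d x p + d p y → d y x < d y p + d p x := by
      intro x y h1
      have e1 := h.symm x y
      have e2 := h.symm x p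
      have e3 := h.symm y p
      linarith
    have na : ∀ {g : G}, d p (g • g • p) = 2 * d p (g • p) →
        ¬ d (g⁻¹ • p) (g • p) < d (g⁻¹ • p) p + d p (g • p) := by
      intro g hg
      rw [A.inv_left, A.inv_left, hg]
      intro h1; linarith
    have le_eq : ∀ x y : X, ¬ d x y < d x p + d p y → d x y = d x p + d p y := fun x y h1 =>
      le_antisymm (h.tri x p y) (not_lt.1 h1)
    by_cases h1 : d (b⁻¹ • p) (a • p) < d (b⁻¹ • p) p + d p (a • p)
    · have c : Cfg d a b⁻¹ p p := by
        refine ⟨ha, inv_ne_one.2 hb, hp, A.axis_inv hq, ?_, ?_⟩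
        · rw [inv_inv, h.self, add_zero]
          apply le_eq
          intro h2
          exact na hq (tr _ _ _ h1 (sy _ _ h2))
        · rw [h.self, add_zero]
          apply le_eq
          intro h2
          exact na hp (tr _ _ _ h2 h1)
      exact Commute.inv_right_iff.1 (c.comm A hr)
    · by_cases h2 : d (a⁻¹ • p) (b • p) < d (a⁻¹ • p) p + d p (b • p)
      · have c : Cfg d a b⁻¹ p p := by
          refine ⟨ha, inv_ne_one.2 hb, hp, A.axis_inv hq, ?_, ?_⟩
          · rw [inv_inv, h.self, add_zero]
            apply le_eq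
            intro h3
            exact na hp (tr _ _ _ h2 h3)
          · rw [h.self, add_zero]
            apply le_eq
            intro h3
            exact na hq (tr _ _ _ (sy _ _ h3) h2)
        exact Commute.inv_right_iff.1 (c.comm A hr)
      · have c : Cfg d a b p p := by
          refine ⟨ha, hb, hp, hq, ?_, ?_⟩
          · rw [h.self, add_zero]; exact le_eq _ _ h1
          · rw [h.self, add_zero]; exact le_eq _ _ h2
        exact c.comm A hr
  · have hpos := h.pos hpq
    have s1 := h.symm p q
    have c : Cfg d a b p q := by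
      refine ⟨ha, hb, hp, hq, ?_, ?_⟩
      · have t1 := b1 _ (ax' hq)
        have t2 := hpz _ (ax hp)
        have s2 := h.symm p (b⁻¹ • q)
        have s3 := h.symm q (b⁻¹ • q)
        have := h.cat (x := b⁻¹ • q) (y := q) (z := p) (w := a • p) (by linarith) t2
          (by linarith)
        linarith
      · have t1 := hpz _ (ax' hp)
        have t2 := b1 _ (ax hq)
        have s2 := h.symm q (a⁻¹ • p)
        have s3 := h.symm p (a⁻¹ • p)
        have := h.cat (x := a⁻¹ • p) (y := p) (z := q) (w := b • q) (by linarith) t2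
          (by linarith)
        linarith
    exact c.comm A hr

end FreeAct

end Pool.Agent.R643
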