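import Pool.Agent.R643.Axis
import Pool.Agent.R643.Emb

set_option autoImplicit false

/-!
# Trees over an ordered abelian group: the four point condition and medians
-/

namespace Pool.Agent.R643

universe u v w

open Set

variable {Λ : Type u} [AddCommGroup Λ] [LinearOrder Λ] {T : Type v}

/-- The set `S` is a segment with endpoints `x` and `y`: the image of an isometric embedding of a
closed interval `[a, b]` of `Λ` which takes `a` to `x` and `b` to `y`. -/
def IsSegment (d : T → T → Λ) (S : Set T) (x y : T) : Prop :=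
  ∃ (a b : Λ) (φ : Λ → T), a ≤ b ∧ φ a = x ∧ φ b = y ∧
    (∀ s ∈ Icc a b, ∀ t ∈ Icc a b, d (φ s) (φ t) = |s - t|) ∧ φ '' Icc a b = S

/-- The space `T` with the distance function `d` is a `Λ`-tree: it is a nonempty `Λ`-metric space,
any two points are joined by a segment, the intersection of two segments with a common endpoint is
a segment, and if two segments meet only in a common endpoint then their union is a segment. -/
structure IsLambdaTree (d : T → T → Λ) : Prop where
  nonempty : Nonempty T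
  eq_zero_iff : ∀ x y, d x y = 0 ↔ x = y
  symm : ∀ x y, d x y = d y x
  triangle : ∀ x y z, d x z ≤ d x y + d y z
  joined : ∀ x y, ∃ S, IsSegment d S x y
  inter : ∀ x y z S S', IsSegment d S x y → IsSegment d S' x z → ∃ u w, IsSegment d (S ∩ S') u w
  union : ∀ x y z S S', IsSegment d S x y → IsSegment d S' x z → S ∩ S' = {x} →
    ∃ u w, IsSegment d (S ∪ S') u w

variable [IsOrderedAddMonoid Λ] {d : T → T → Λ}

/-- the properties of a segment that are used -/
theorem IsSegment.facts {S : Set T} {x y : T} (hS : IsSegment d S x y) :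
    x ∈ S ∧ y ∈ S ∧ 0 ≤ d x y ∧ (∀ p ∈ S, 0 ≤ d x p ∧ d x p + d p y = d x y) ∧
    (∀ p ∈ S, ∀ q ∈ S, d p q = |d x p - d x q|) ∧
    (∀ t, 0 ≤ t → t ≤ d x y → ∃ p ∈ S, d x p = t) := by
  obtain ⟨a, b, φ, hab, rfl, rfl, hiso, rfl⟩ := hS
  have ha : a ∈ Icc a b := ⟨le_refl _, hab⟩
  have hb : b ∈ Icc a b := ⟨hab, le_refl _⟩
  have h0 : d (φ a) (φ b) = b - a := by
    rw [hiso a ha b hb, abs_of_nonpos (by grind)]; grind
  have h1 : ∀ s ∈ Icc a b, d (φ a) (φ s) = s - a := by
    intro s hs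
    rw [hiso a ha s hs, abs_of_nonpos (by grind)]; grind
  refine ⟨⟨a, ha, rfl⟩, ⟨b, hb, rfl⟩, ?_, ?_, ?_, ?_⟩
  · rw [h0]; grind
  · rintro p ⟨s, hs, rfl⟩
    have h2 : d (φ s) (φ b) = b - s := by
      rw [hiso s hs b hb, abs_of_nonpos (by grind)]; grind
    rw [h1 s hs, h2, h0]
    constructor <;> grind
  · rintro p ⟨s, hs, rfl⟩ q ⟨t, ht, rfl⟩
    rw [h1 s hs, h1 t ht, hiso s hs t ht]
    congr 1; grind
  · intro t ht ht'
    rw [h0] at ht'
    have hs : a + t ∈ Icc a b := by constructor <;> grind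
    exact ⟨φ (a + t), ⟨_, hs, rfl⟩, by rw [h1 _ hs]; grind⟩

namespace IsLambdaTree

variable (h : IsLambdaTree d)

include h

theorem inj {S : Set T} {x y : T} (hS : IsSegment d S x y) {p q : T} (hp : p ∈ S) (hq : q ∈ S)
    (he : d x p = d x q) : p = q := by
  rw [← h.eq_zero_iff, hS.facts.2.2.2.2.1 p hp q hq, he, sub_self, abs_zero]

/-- terminal subsegments -/
theorem sub {S : Set T} {x y : T} (hS : IsSegment d S x y) {m : T} (hm : m ∈ S) :
    IsSegment d {p ∈ S | d x m ≤ d x p} m y := by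
  obtain ⟨a, b, φ, hab, rfl, rfl, hiso, rfl⟩ := hS
  obtain ⟨c, hc, rfl⟩ := hm
  have ha : a ∈ Icc a b := ⟨le_refl _, hab⟩
  have h1 : ∀ s ∈ Icc a b, d (φ a) (φ s) = s - a := by
    intro s hs
    rw [hiso a ha s hs, abs_of_nonpos (by grind)]; grind
  refine ⟨c, b, φ, hc.2, rfl, rfl, fun s hs t ht => hiso s ⟨hc.1.trans hs.1, hs.2⟩ t
    ⟨hc.1.trans ht.1, ht.2⟩, ?_⟩
  ext p
  constructor
  · rintro ⟨s, hs, rfl⟩
    have hs' : s ∈ Icc a b := ⟨hc.1.trans hs.1, hs.2⟩
    refine ⟨⟨s, hs', rfl⟩, ?_⟩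
    rw [h1 _ hs', h1 _ hc]
    have := hs.1
    grind
  · rintro ⟨⟨s, hs, rfl⟩, h2⟩
    rw [h1 _ hs, h1 _ hc] at h2
    exact ⟨s, ⟨by grind, hs.2⟩, rfl⟩

/-- intersection of two segments with common initial point -/
theorem int {S S' : Set T} {x y z : T} (hS : IsSegment d S x y) (hS' : IsSegment d S' x z) :
    ∃ m, m ∈ S ∧ m ∈ S' ∧ (∀ p ∈ S, (p ∈ S' ↔ d x p ≤ d x m)) ∧
      (∀ p ∈ S', (p ∈ S ↔ d x p ≤ d x m)) := by
  obtain ⟨u, w, a, b, ψ, hab, -, -, hiso, him⟩ := h.inter x y z S S' hS hS'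
  have hx : x ∈ S ∩ S' := ⟨hS.facts.1, hS'.facts.1⟩
  obtain ⟨t0, ht0, htx⟩ : x ∈ ψ '' Icc a b := by rw [him]; exact hx
  have hd : ∀ s ∈ Icc a b, d x (ψ s) = |t0 - s| := by
    intro s hs
    rw [← htx, hiso t0 ht0 s hs]
  have hmem : ∀ s ∈ Icc a b, ψ s ∈ S ∩ S' := by
    intro s hs
    rw [← him]; exact ⟨s, hs, rfl⟩
  have hend : t0 = a ∨ t0 = b := by
    by_contra hcon
    push Not at hcon
    have e1 : 0 < t0 - a := by
      have := ht0.1
      have := hcon.1
      grind
    have e2 : 0 < b - t0 := by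
      have := ht0.2
      have := hcon.2
      grind
    have e3 : 0 < min (t0 - a) (b - t0) := lt_min e1 e2
    have e4 := min_le_left (t0 - a) (b - t0)
    have e5 := min_le_right (t0 - a) (b - t0)
    set ε := min (t0 - a) (b - t0) with hε
    have m1 : t0 - ε ∈ Icc a b := by constructor <;> grind
    have m2 : t0 + ε ∈ Icc a b := by constructor <;> grind
    have h1 : ψ (t0 - ε) = ψ (t0 + ε) := by
      apply h.inj hS (hmem _ m1).1 (hmem _ m2).1
      rw [hd _ m1, hd _ m2]
      have r1 : t0 - (t0 - ε) = ε := by grind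
      have r2 : t0 - (t0 + ε) = -ε := by grind
      rw [r1, r2, abs_neg]
    have h2 := hiso _ m1 _ m2
    rw [h1, (h.eq_zero_iff _ _).2 rfl] at h2
    have r3 : t0 - ε - (t0 + ε) = -(ε + ε) := by grind
    rw [r3, abs_neg, abs_of_nonneg (by grind)] at h2
    grind
  -- the other endpoint
  obtain ⟨c, hc, hcle, hex⟩ : ∃ c ∈ Icc a b, (∀ s ∈ Icc a b, |t0 - s| ≤ |t0 - c|) ∧
      ∀ t, 0 ≤ t → t ≤ |t0 - c| → ∃ s ∈ Icc a b, |t0 - s| = t := by
    rcases hend with rfl | rfl
    · refine ⟨b, ⟨hab, le_refl _⟩, ?_, ?_⟩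
      · intro s hs
        have := hs.1
        have := hs.2
        rw [abs_of_nonpos (by grind), abs_of_nonpos (by grind)]; grind
      · intro t ht ht'
        rw [abs_of_nonpos (by grind)] at ht'
        refine ⟨t0 + t, ⟨by grind, by grind⟩, ?_⟩
        rw [abs_of_nonpos (by grind)]; grind
    · refine ⟨a, ⟨le_refl _, hab⟩, ?_, ?_⟩
      · intro s hs
        have := hs.1
        have := hs.2
        rw [abs_of_nonneg (by grind), abs_of_nonneg (by grind)]; grind
      · intro t ht ht'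
        rw [abs_of_nonneg (by grind)] at ht'
        refine ⟨t0 - t, ⟨by grind, by grind⟩, ?_⟩
        rw [abs_of_nonneg (by grind)]; grind
  have key : ∀ p, p ∈ S ∩ S' → d x p ≤ d x (ψ c) := by
    intro p hp
    rw [← him] at hp
    obtain ⟨s, hs, rfl⟩ := hp
    rw [hd _ hs, hd _ hc]
    exact hcle s hs
  have key2 : ∀ t, 0 ≤ t → t ≤ d x (ψ c) → ∃ q ∈ S ∩ S', d x q = t := by
    intro t ht ht'
    rw [hd _ hc] at ht'
    obtain ⟨s, hs, hst⟩ := hex t ht ht'
    exact ⟨ψ s, hmem s hs, by rw [hd _ hs, hst]⟩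
  refine ⟨ψ c, (hmem c hc).1, (hmem c hc).2, ?_, ?_⟩
  · intro p hp
    refine ⟨fun hp' => key p ⟨hp, hp'⟩, fun hle => ?_⟩
    obtain ⟨q, hq, hqp⟩ := key2 (d x p) (hS.facts.2.2.2.1 p hp).1 hle
    rw [h.inj hS hp hq.1 hqp.symm]
    exact hq.2
  · intro p hp
    refine ⟨fun hp' => key p ⟨hp', hp⟩, fun hle => ?_⟩
    obtain ⟨q, hq, hqp⟩ := key2 (d x p) (hS'.facts.2.2.2.1 p hp).1 hle
    rw [h.inj hS' hp hq.2 hqp.symm]
    exact hq.1

/-- two segments that meet only in a common endpoint: distances add up -/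
theorem add_of_inter {U V : Set T} {m y z : T} (hU : IsSegment d U m y) (hV : IsSegment d V m z)
    (hUV : U ∩ V = {m}) : d y z = d y m + d m z := by
  obtain ⟨u, w, a, b, ψ, hab, -, -, hiso, him⟩ := h.union m y z U V hU hV hUV
  have fU := hU.facts
  have fV := hV.facts
  have mem : ∀ p, p ∈ U ∪ V → ∃ s ∈ Icc a b, ψ s = p := by
    intro p hp
    rw [← him] at hp
    exact hp
  obtain ⟨t, ht, htm⟩ := mem m (Or.inl fU.1)
  obtain ⟨r, hr, hry⟩ := mem y (Or.inl fU.2.1)
  obtain ⟨s, hs, hsz⟩ := mem z (Or.inr fV.2.1)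
  have e1 : d m y = |t - r| := by rw [← htm, ← hry, hiso t ht r hr]
  have e2 : d m z = |t - s| := by rw [← htm, ← hsz, hiso t ht s hs]
  have e3 : d y z = |r - s| := by rw [← hry, ← hsz, hiso r hr s hs]
  rw [h.symm y m, e1, e2, e3]
  -- helper: the points of the segment `[m, y]` have parameters between `t` and `r`
  have help : ∀ (W : Set T) (y' : T) (r' : Λ), IsSegment d W m y' → W ⊆ U ∪ V → r' ∈ Icc a b →
      ψ r' = y' → ∀ k, 0 ≤ k → k ≤ |t - r'| →
      ∃ p ∈ W, (t ≤ r' → p = ψ (t + k)) ∧ (r' ≤ t → p = ψ (t - k)) := by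
    intro W y' r' hW hsub hr' hy' k hk hk'
    have fW := hW.facts
    have e1' : d m y' = |t - r'| := by rw [← htm, ← hy', hiso t ht r' hr']
    obtain ⟨p, hp, hpk⟩ := fW.2.2.2.2.2 k hk (by rw [e1']; exact hk')
    obtain ⟨c, hc, rfl⟩ := mem p (hsub hp)
    have f1 := (fW.2.2.2.1 _ hp).2
    rw [hpk, e1', ← hy', hiso c hc r' hr'] at f1
    rw [← htm, hiso t ht c hc] at hpk
    refine ⟨_, hp, fun hle => ?_, fun hle => ?_⟩
    · congr 1
      rcases le_total t c with h1 | h1 <;> rcases le_total c r' with h2 | h2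
      · rw [abs_of_nonpos (by grind)] at hpk
        grind
      · rw [abs_of_nonpos (by grind)] at hpk
        grind
      · rw [abs_of_nonneg (by grind)] at hpk
        rw [abs_of_nonpos (by grind : c - r' ≤ 0), abs_of_nonpos (by grind : t - r' ≤ 0)] at f1
        grind
      · rw [abs_of_nonneg (by grind)] at hpk
        rw [abs_of_nonneg (by grind : 0 ≤ c - r'), abs_of_nonpos (by grind : t - r' ≤ 0)] at f1
        grind
    · congr 1
      rcases le_total t c with h1 | h1 <;> rcases le_total c r' with h2 | h2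
      · rw [abs_of_nonpos (by grind)] at hpk
        rw [abs_of_nonpos (by grind : c - r' ≤ 0), abs_of_nonneg (by grind : 0 ≤ t - r')] at f1
        grind
      · rw [abs_of_nonpos (by grind)] at hpk
        rw [abs_of_nonneg (by grind : 0 ≤ c - r'), abs_of_nonneg (by grind : 0 ≤ t - r')] at f1
        grind
      · rw [abs_of_nonneg (by grind)] at hpk
        grind
      · rw [abs_of_nonneg (by grind)] at hpk
        grind
  -- the common part
  have nocom : ∀ k, 0 < k → k ≤ |t - r| → k ≤ |t - s| →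
      ¬ ((t ≤ r ∧ t ≤ s) ∨ (r ≤ t ∧ s ≤ t)) := by
    intro k hk h1 h2 hcase
    obtain ⟨p, hp, hp1, hp2⟩ := help U y r hU subset_union_left hr hry k hk.le h1
    obtain ⟨q, hq, hq1, hq2⟩ := help V z s hV subset_union_right hs hsz k hk.le h2
    have hpq : p = q := by
      rcases hcase with ⟨c1, c2⟩ | ⟨c1, c2⟩
      · rw [hp1 c1, hq1 c2]
      · rw [hp2 c1, hq2 c2]
    have hm : p = m := by
      have : p ∈ U ∩ V := ⟨hp, hpq ▸ hq⟩
      rw [hUV] at this
      exact this
    rcases hcase with ⟨c1, c2⟩ | ⟨c1, c2⟩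
    · rw [abs_of_nonpos (by grind)] at h1
      have hmem : t + k ∈ Icc a b := ⟨by have := ht.1; grind, by have := hr.2; grind⟩
      have := hiso t ht _ hmem
      rw [htm, ← hp1 c1, hm, (h.eq_zero_iff _ _).2 rfl, abs_of_nonpos (by grind)] at this
      grind
    · rw [abs_of_nonneg (by grind)] at h1
      have hmem : t - k ∈ Icc a b := ⟨by have := hr.1; grind, by have := ht.2; grind⟩
      have := hiso t ht _ hmem
      rw [htm, ← hp2 c1, hm, (h.eq_zero_iff _ _).2 rfl, abs_of_nonneg (by grind)] at this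
      grind
  rcases le_total t r with c1 | c1 <;> rcases le_total t s with c2 | c2
  · rcases eq_or_lt_of_le c1 with rfl | c1'
    · simp
    rcases eq_or_lt_of_le c2 with rfl | c2'
    · simp [abs_sub_comm]
    exfalso
    rcases le_total r s with c3 | c3
    · exact nocom (r - t) (by grind) (by rw [abs_of_nonpos (by grind)]; grind)
        (by rw [abs_of_nonpos (by grind)]; grind) (Or.inl ⟨c1, c2⟩)
    · exact nocom (s - t) (by grind) (by rw [abs_of_nonpos (by grind)]; grind)
        (by rw [abs_of_nonpos (by grind)]; grind) (Or.inl ⟨c1, c2⟩)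
  · rw [abs_of_nonneg (by grind), abs_of_nonpos (by grind), abs_of_nonneg (by grind)]
    grind
  · rw [abs_of_nonpos (by grind), abs_of_nonneg (by grind), abs_of_nonpos (by grind)]
    grind
  · rcases eq_or_lt_of_le c1 with rfl | c1'
    · simp
    rcases eq_or_lt_of_le c2 with rfl | c2'
    · simp [abs_sub_comm]
    exfalso
    rcases le_total r s with c3 | c3
    · exact nocom (t - s) (by grind) (by rw [abs_of_nonneg (by grind)]; grind)
        (by rw [abs_of_nonneg (by grind)]) (Or.inr ⟨c1, c2⟩)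
    · exact nocom (t - r) (by grind) (by rw [abs_of_nonneg (by grind)])
        (by rw [abs_of_nonneg (by grind)]; grind) (Or.inr ⟨c1, c2⟩)

/-- medians, with the description of the intersection -/
theorem med {S S' : Set T} {x y z : T} (hS : IsSegment d S x y) (hS' : IsSegment d S' x z) :
    ∃ m, m ∈ S ∧ m ∈ S' ∧ (∀ p ∈ S, (p ∈ S' ↔ d x p ≤ d x m)) ∧
      (∀ p ∈ S', (p ∈ S ↔ d x p ≤ d x m)) ∧
      d x y = d x m + d m y ∧ d x z = d x m + d m z ∧ d y z = d y m + d m z := by
  obtain ⟨m, m1, m2, m3, m4⟩ := h.int hS hS'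
  refine ⟨m, m1, m2, m3, m4, (hS.facts.2.2.2.1 m m1).2.symm, (hS'.facts.2.2.2.1 m m2).2.symm, ?_⟩
  apply h.add_of_inter (h.sub hS m1) (h.sub hS' m2)
  ext p
  constructor
  · rintro ⟨⟨p1, p2⟩, ⟨p3, -⟩⟩
    have := (m3 p p1).1 p3
    exact h.inj hS p1 m1 (le_antisymm this p2)
  · rintro rfl
    exact ⟨⟨m1, le_refl _⟩, ⟨m2, le_refl _⟩⟩

/-- the four point condition -/
theorem four (a b c e : T) : d a b + d c e ≤ max (d a c + d b e) (d a e + d b c) := by
  obtain ⟨Sa, ha⟩ := h.joined e a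
  obtain ⟨Sb, hb⟩ := h.joined e b
  obtain ⟨Sc, hc⟩ := h.joined e c
  obtain ⟨m1, p1, p2, p3, p4, p5, p6, p7⟩ := h.med ha hc
  obtain ⟨m2, q1, q2, q3, q4, q5, q6, q7⟩ := h.med hc hb
  obtain ⟨m3, r1, r2, r3, r4, r5, r6, r7⟩ := h.med ha hb
  have key : min (d e m1) (d e m2) ≤ d e m3 := by
    have n1 := (ha.facts.2.2.2.1 m1 p1).1
    have n2 := (hc.facts.2.2.2.1 m2 q1).1
    have n3 : 0 ≤ d m1 c := by
      have e1 := (hc.facts.2.2.2.1 m1 p2)
      have e2 := hc.facts.2.2.2.2.1 m1 p2 c hc.facts.2.1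
      rw [e2]; exact abs_nonneg _
    obtain ⟨p, hp, hpt⟩ := hc.facts.2.2.2.2.2 (min (d e m1) (d e m2)) (le_min n1 n2)
      ((min_le_left _ _).trans (by grind))
    have s1 : p ∈ Sb := (q3 p hp).2 (by rw [hpt]; exact min_le_right _ _)
    have s2 : p ∈ Sa := (p4 p hp).2 (by rw [hpt]; exact min_le_left _ _)
    have s3 := (r3 p s2).1 s1
    rwa [hpt] at s3
  have y1 := h.symm a m1
  have y2 := h.symm c m2
  have y3 := h.symm a m3
  have z1 := h.symm e a
  have z2 := h.symm e b
  have z3 := h.symm e c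
  have z4 := h.symm c b
  rcases min_le_iff.1 key with k | k
  · apply le_max_of_le_left
    grind
  · apply le_max_of_le_right
    grind

end IsLambdaTree

/-- the real-like metric obtained from an embedding into an ordered ring -/
theorem IsLambdaTree.toZH (h : IsLambdaTree d) {K : Type u} [CommRing K] [LinearOrder K]
    [IsStrictOrderedRing K] {f : Λ →+ K} (hf : StrictMono f) : ZH (fun x y : T => f (d x y)) where
  self x := by simp [(h.eq_zero_iff x x).2 rfl]
  eq_of x y hxy := by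
    rw [← h.eq_zero_iff]
    apply hf.injective
    rw [hxy, map_zero]
  symm x y := by simp only [h.symm x y]
  tri x y z := by
    rw [← map_add]
    exact hf.monotone (h.triangle x y z)
  fp a b c e := by
    simp only [← map_add]
    rw [← hf.monotone.map_max]
    exact hf.monotone (h.four a b c e)
  med x y z := by
    obtain ⟨S, hS⟩ := h.joined x y
    obtain ⟨S', hS'⟩ := h.joined x z
    obtain ⟨m, -, -, -, -, h1, h2, h3⟩ := h.med hS hS'
    refine ⟨m, ?_, ?_, ?_⟩
    · simp only [← map_add, h1]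
    · simp only [← map_add, h2]
    · simp only [← map_add, h3]

end Pool.Agent.R643
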