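import Mathlib
import Pool.Agent.W896.MO.Apsp

set_option autoImplicit false

/-!
# Undirected hard graphs and approximate distances
-/

open Finset

namespace Pool.Agent.R643.UG

open Pool.Agent.H537R2.Apsp (Graph walkWeight dist)
open Pool.Agent.H537R2.Apsr
open Pool.Agent.W896.MO (dists)

variable {c n M N : ℕ}

/-- The numbers `d` are approximate distances of the graph `w`: they are not smaller than the
distances, and they exceed the distance by at most `1` or are smaller than `5/3` of it. -/
def Near (w : Fin N × Fin N → ℕ∞) (d : Fin N × Fin N → ℕ∞) : Prop :=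
  ∀ o, dists w o ≤ d o ∧ (d o ≤ dists w o + 1 ∨ 3 * d o < 5 * dists w o)

/-- `w` is the matrix of a simple undirected bipartite graph, all of whose edges have weight `1`
(`⊤`: no edge). -/
def Simple (w : Fin N × Fin N → ℕ∞) : Prop :=
  (∀ u v, w (u, v) = 1 ∨ w (u, v) = ⊤) ∧ (∀ u v, w (v, u) = w (u, v)) ∧ (∀ v, w (v, v) = ⊤) ∧
    ∃ side : Fin N → Bool, ∀ u v, w (u, v) ≠ ⊤ → side u ≠ side v

theorem near_dists (w : Fin N × Fin N → ℕ∞) : Near w (dists w) := fun _ =>
  ⟨le_rfl, Or.inl le_self_add⟩

/-- The undirected hard graph. -/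
noncomputable def ug (K : ℕ → Fin n → Finset (Fin n)) (e : Vx c n → Fin N)
    (x : Jx c n → Fin M) : Graph N := fun p => min (graph K e x p) (graph K e x p.swap)

/-- The unknown entry which determines an entry of the matrix of the undirected graph. -/
noncomputable def usrc (e : Vx c n → Fin N) (p : Fin N × Fin N) : Option (Jx c n) :=
  match srcN e p with
  | some j => some j
  | none => srcN e p.swap

variable (K : ℕ → Fin n → Finset (Fin n)) (e : Vx c n → Fin N) (x : Jx c n → Fin M)

theorem ug_swap (p : Fin N × Fin N) : ug K e x p.swap = ug K e x p := by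
  unfold ug
  rw [Prod.swap_swap, min_comm]

theorem ug_eq (p : Fin N × Fin N) : ug K e x p = 1 ∨ ug K e x p = ⊤ := by
  unfold ug
  rcases graph_eq K e x p with h | h <;> rcases graph_eq K e x p.swap with h' | h' <;>
    rw [h, h'] <;> simp

theorem srcN_swap {p : Fin N × Fin N} {j : Jx c n} (h : srcN e p = some j) :
    srcN e p.swap = none := by
  unfold srcN at h ⊢
  rw [Prod.fst_swap, Prod.snd_swap]
  cases h1 : dec e p.1 with
  | none =>
    cases h2 : dec e p.2 with
    | none => rfl
    | some b => rfl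
  | some a =>
    cases h2 : dec e p.2 with
    | none => rfl
    | some b =>
      rw [h1, h2] at h
      simp only at h ⊢
      cases a <;> cases b <;> simp_all [cell]

theorem ug_congr (y y' : Jx c n → Fin M) (p : Fin N × Fin N)
    (h : (usrc e p).map y = (usrc e p).map y') : ug K e y p = ug K e y' p := by
  unfold ug
  unfold usrc at h
  cases h1 : srcN e p with
  | some j =>
    rw [h1] at h
    simp only [Option.map_some, Option.some.injEq] at h
    rw [graph_some K e y p j h1, graph_some K e y' p j h1, h,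
      graph_none K e y _ (srcN_swap e h1), graph_none K e y' _ (srcN_swap e h1)]
  | none =>
    rw [h1] at h
    simp only at h
    rw [graph_none K e y p h1, graph_none K e y' p h1]
    cases h2 : srcN e p.swap with
    | some j =>
      rw [h2] at h
      simp only [Option.map_some, Option.some.injEq] at h
      rw [graph_some K e y _ j h2, graph_some K e y' _ j h2, h]
    | none => rw [graph_none K e y _ h2, graph_none K e y' _ h2]

/-- The layer of a vertex. -/
def layer : Vx c n → ℕ
  | .src _ => 0
  | .m0 _ _ => 1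
  | .m1 _ _ => 2
  | .snk _ => 3

/-- There is a directed path from the vertex to the sink with number `j`. -/
def Up : Vx c n → Fin n → Prop
  | .src i, j => Conn K x i j
  | .m0 s v, j => ∃ u, (x (s, (v, u))).1 = 0 ∧ u ∈ K (c - s) j
  | .m1 s u, j => u ∈ K (c - s) j
  | .snk j', j => j' = j

theorem layer_step {a b : Vx c n} (h : wt K x a b ≠ ⊤) : layer b = layer a + 1 := by
  cases a with
  | src i =>
    obtain ⟨s, v, rfl, -⟩ := edge_src K x h
    rfl
  | m0 s v =>
    obtain ⟨u, rfl, -⟩ := edge_m0 K x h
    rfl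
  | m1 s u =>
    obtain ⟨j, rfl, -⟩ := edge_m1 K x h
    rfl
  | snk j => exact (edge_snk K x h).elim

theorem up_step {a b : Vx c n} (h : wt K x a b ≠ ⊤) {j : Fin n} (hb : Up K x b j) :
    Up K x a j := by
  cases a with
  | src i =>
    obtain ⟨s, v, rfl, hv⟩ := edge_src K x h
    obtain ⟨u, h1, h2⟩ := hb
    exact ⟨s, v, u, hv, h1, h2⟩
  | m0 s v =>
    obtain ⟨u, rfl, hu⟩ := edge_m0 K x h
    exact ⟨u, hu, hb⟩
  | m1 s u =>
    obtain ⟨j', rfl, hj⟩ := edge_m1 K x h
    have hb' : j' = j := hb
    rw [← hb']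
    exact hj
  | snk j' => exact (edge_snk K x h).elim

theorem dec_some {e : Vx c n → Fin N} {p q : Fin N} (h : graph K e x (p, q) ≠ ⊤) :
    ∃ a b, p = e a ∧ q = e b ∧ wt K x a b ≠ ⊤ := by
  unfold graph at h
  cases h1 : dec e p with
  | none => simp [h1] at h
  | some a =>
    cases h2 : dec e q with
    | none => simp [h1, h2] at h
    | some b =>
      simp only [h1, h2] at h
      exact ⟨a, b, of_dec h1, of_dec h2, h⟩

theorem ug_simple {e : Vx c n → Fin N} (he : Function.Injective e) : Simple (ug K e x) := by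
  have hside : ∃ side : Fin N → Bool, ∀ u v, ug K e x (u, v) ≠ ⊤ → side u ≠ side v := by
    refine ⟨fun u => match dec e u with
      | some a => decide (layer a % 2 = 0)
      | none => false, fun u v h => ?_⟩
    have h1 : ∃ a b, u = e a ∧ v = e b ∧ (wt K x a b ≠ ⊤ ∨ wt K x b a ≠ ⊤) := by
      unfold ug at h
      by_cases h9 : graph K e x (u, v) = ⊤
      · have h10 : graph K e x (v, u) ≠ ⊤ := by
          intro h'
          apply h
          rw [h9, Prod.swap_prod_mk, h', min_self]
        obtain ⟨b, a, h11, h12, h13⟩ := dec_some K x h10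
        exact ⟨a, b, h12, h11, Or.inr h13⟩
      · obtain ⟨a, b, h11, h12, h13⟩ := dec_some K x h9
        exact ⟨a, b, h11, h12, Or.inl h13⟩
    obtain ⟨a, b, rfl, rfl, h2⟩ := h1
    simp only [dec_eq he]
    intro h3
    rw [decide_eq_decide] at h3
    rcases h2 with h2 | h2 <;> have := layer_step K x h2 <;> omega
  refine ⟨fun u v => ug_eq K e x (u, v), fun u v => ?_, fun v => ?_, hside⟩
  · exact ug_swap K e x (u, v)
  · obtain ⟨side, hs⟩ := hside
    by_contra h
    exact hs v v h rfl

theorem walk_up {e : Vx c n → Fin N} (he : Function.Injective e) (j : Fin n) :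
    ∀ (l : List (Fin N)) (a : Vx c n), l.head? = some (e a) →
    l.getLast? = some (e (.snk j)) → walkWeight (ug K e x) l ≠ ⊤ →
    ∃ k : ℕ, walkWeight (ug K e x) l = k ∧ 3 ≤ k + layer a ∧ (k + layer a) % 2 = 1 ∧
      (k + layer a = 3 → Up K x a j)
  | [], a, h1, _, _ => by simp at h1
  | [p], a, h1, h2, _ => by
    simp only [List.head?_cons, Option.some.injEq] at h1
    simp only [List.getLast?_singleton, Option.some.injEq] at h2
    have h3 : a = .snk j := he (h1.symm.trans h2)
    refine ⟨0, by simp [walkWeight], ?_⟩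
    rw [h3]
    exact ⟨by simp [layer], by simp [layer], fun _ => rfl⟩
  | p :: q :: l, a, h1, h2, h3 => by
    simp only [List.head?_cons, Option.some.injEq] at h1
    simp only [walkWeight] at h3 ⊢
    have h4 : ug K e x (p, q) ≠ ⊤ := fun h => h3 (by rw [h, top_add])
    have h5 : walkWeight (ug K e x) (q :: l) ≠ ⊤ := fun h => h3 (by rw [h, add_top])
    have h6 : (q :: l).getLast? = some (e (.snk j)) := by
      rw [← h2, List.getLast?_cons_cons]
    have h7 : ug K e x (p, q) = 1 := (ug_eq K e x (p, q)).resolve_right h4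
    have h8 : ∃ b, q = e b ∧ (wt K x a b ≠ ⊤ ∨ wt K x b a ≠ ⊤) := by
      unfold ug at h4
      by_cases h9 : graph K e x (p, q) = ⊤
      · have h10 : graph K e x (q, p) ≠ ⊤ := by
          intro h
          apply h4
          rw [h9, Prod.swap_prod_mk, h, min_self]
        obtain ⟨b, a', h11, h12, h13⟩ := dec_some K x h10
        have h14 : a' = a := he (h12.symm.trans h1)
        rw [h14] at h13
        exact ⟨b, h11, Or.inr h13⟩
      · obtain ⟨a', b, h11, h12, h13⟩ := dec_some K x h9
        have h14 : a' = a := he (h11.symm.trans h1)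
        rw [h14] at h13
        exact ⟨b, h12, Or.inl h13⟩
    obtain ⟨b, hb, h9⟩ := h8
    obtain ⟨k, hk1, hk2, hk3, hk4⟩ := walk_up he j (q :: l) b (by simp [hb]) h6 h5
    refine ⟨k + 1, ?_, ?_⟩
    · rw [h7, hk1]
      push_cast
      ring
    · rcases h9 with h9 | h9
      · have h10 := layer_step K x h9
        refine ⟨by omega, by omega, fun h => up_step K x h9 (hk4 (by omega))⟩
      · have h10 := layer_step K x h9
        refine ⟨by omega, by omega, fun h => ?_⟩
        omega

theorem dist_le {e : Vx c n → Fin N} (he : Function.Injective e) {i j : Fin n}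
    (h : Conn K x i j) : dists (ug K e x) (e (.src i), e (.snk j)) ≤ 3 := by
  obtain ⟨s, v, u, h1, h2, h4⟩ := h
  unfold dists Pool.Agent.H537R2.Apsp.dist
  refine (iInf_le _ ⟨[e (.src i), e (.m0 s v), e (.m1 s u), e (.snk j)], by simp,
    by simp⟩).trans ?_
  have e1 : wt K x (.src i) (.m0 s v) = 1 := by simp [wt, cell, fixd, h1]
  have e2 : wt K x (.m0 s v) (.m1 s u) = 1 := by simp [wt, cell, h2]
  have e4 : wt K x (.m1 s u) (.snk j) = 1 := by simp [wt, cell, fixd, h4]
  have h5 : ∀ a b : Vx c n, wt K x a b = 1 → ug K e x (e a, e b) ≤ 1 := by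
    intro a b hab
    unfold ug
    rw [graph_mk K x he, hab]
    exact min_le_left _ _
  simp only [walkWeight]
  calc _ ≤ (1 : ℕ∞) + (1 + (1 + 0)) := by
        gcongr
        · exact h5 _ _ e1
        · exact h5 _ _ e2
        · exact h5 _ _ e4
    _ = 3 := by norm_num

theorem five_le {e : Vx c n → Fin N} (he : Function.Injective e) {i j : Fin n}
    (h : ¬ Conn K x i j) : 5 ≤ dists (ug K e x) (e (.src i), e (.snk j)) := by
  unfold dists Pool.Agent.H537R2.Apsp.dist
  refine le_iInf ?_
  rintro ⟨l, hl1, hl2⟩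
  show 5 ≤ walkWeight (ug K e x) l
  by_cases h1 : walkWeight (ug K e x) l = ⊤
  · rw [h1]
    exact le_top
  · obtain ⟨k, hk1, hk2, hk3, hk4⟩ := walk_up K x he j l (.src i) hl1 hl2 h1
    rw [hk1]
    have h2 : layer (.src i : Vx c n) = 0 := rfl
    rw [h2] at hk2 hk3 hk4
    have h3 : k ≠ 3 := fun h' => h (hk4 (by omega))
    have h4 : 5 ≤ k := by omega
    exact_mod_cast h4

/-- Approximate distances tell if a source and a sink are connected. -/
theorem near_iff {e : Vx c n → Fin N} (he : Function.Injective e)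
    {d : Fin N × Fin N → ℕ∞} (hd : Near (ug K e x) d) (i j : Fin n) :
    5 ≤ d (e (.src i), e (.snk j)) ↔ ¬ Conn K x i j := by
  obtain ⟨h1, h2⟩ := hd (e (.src i), e (.snk j))
  constructor
  · intro h3 h4
    have h5 := dist_le K x he h4
    rcases h2 with h2 | h2
    · have h6 : (5 : ℕ∞) ≤ 3 + 1 := h3.trans (h2.trans (by gcongr))
      norm_num at h6
    · have h6 : (5 : ℕ∞) * dists (ug K e x) (e (.src i), e (.snk j)) ≤ 5 * 3 := by gcongr
      have h7 : (3 : ℕ∞) * 5 ≤ 3 * d (e (.src i), e (.snk j)) := by gcongr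
      have h8 := (h7.trans_lt h2).trans_le h6
      norm_num at h8
  · intro h4
    exact (five_le K x he h4).trans h1

end Pool.Agent.R643.UG
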