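import Mathlib
import Pool.Agent.Y631.TrFine
import Pool.Agent.Y631.TrMv
import Pool.Agent.R643.UGa

set_option autoImplicit false

/-!
# Approximate distances in undirected graphs by circuits of small treewidth: the counting
(adapted from `Pool.Agent.Y631.ApA`)
-/

open Finset

namespace Pool.Agent.R643.UG

open Pool.Agent.H537R2.Apsp (Graph)
open Pool.Agent.H537R2.Apsq (cnt cnt_mono cnt_nonneg cnt_eq Cons)
open Pool.Agent.H537R2.Apsr
open Pool.Agent.W896.MO (dists)
open Pool.Agent.Y631.Tr

variable {α : Type} {c n M N : ℕ}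

/-- The circuit computes approximate distances; the weights are encoded by `inp` and the outputs
are decoded by `dec`. -/
def NetNear (C : Net (Fin N × Fin N) (Fin N × Fin N) α) (inp : ℕ∞ → α) (dec : α → ℕ∞)
    (w : Fin N × Fin N → ℕ∞) : Prop :=
  ∃ y, C.Computes (fun p => inp (w p)) y ∧ Near w (fun o => dec (y o))

open Classical in
/-- One piece. -/
theorem apsp_piece [Fintype α] (K : ℕ → Fin n → Finset (Fin n)) {e : Vx c n → Fin N}
    (he : Function.Injective e) {w N₁ k : ℕ} {β : ℝ} (hβ : β * 2 ^ k ≤ 1)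
    (hleaf : ∀ (Q : Finset (Jx c n)) (ρ : Jx c n → Fin M) (R : Finset (Fin n × Fin n)),
      Q.card ≤ w → N₁ ≤ R.card →
      cnt (fun x : Jx c n → Fin M => Cons Q ρ x ∧ ∀ p ∈ R, ¬ Conn K x p.1 p.2) ≤
        β * cnt (Cons Q ρ))
    (C : Net (Fin N × Fin N) (Fin N × Fin N) α) (inp : ℕ∞ → α) (dec : α → ℕ∞)
    {S B : Finset (Fin C.size)} (hcl : Closed C.Joined S B) (hSw : (C.readSet S).card ≤ w) :
    (univ.filter (fun y : Jx c n → Fin M => NetNear C inp dec (ug K e y) ∧
      N₁ ≤ (univ.filter (fun p : Fin n × Fin n => (C.out (e (.src p.1), e (.snk p.2)) ∈ S ∨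
        C.out (e (.src p.1), e (.snk p.2)) ∈ B) ∧ ¬ Conn K y p.1 p.2)).card)).card * 2 ^ k ≤
      Fintype.card α ^ B.card * Fintype.card (Jx c n → Fin M) := by
  obtain ⟨A, hA⟩ : ∃ A, A = univ.filter (fun y : Jx c n → Fin M =>
    NetNear C inp dec (ug K e y) ∧
      N₁ ≤ (univ.filter (fun p : Fin n × Fin n => (C.out (e (.src p.1), e (.snk p.2)) ∈ S ∨
        C.out (e (.src p.1), e (.snk p.2)) ∈ B) ∧ ¬ Conn K y p.1 p.2)).card) := ⟨_, rfl⟩
  rw [← hA]
  have hex : ∀ y : Jx c n → Fin M, ∃ z : Fin N × Fin N → α, y ∈ A →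
      C.Computes (fun p => inp (ug K e y p)) z ∧ Near (ug K e y) (fun o => dec (z o)) := by
    intro y
    by_cases hy : y ∈ A
    · have h1 := hy
      rw [hA, mem_filter] at h1
      obtain ⟨z, hz⟩ := h1.2.1
      exact ⟨z, fun _ => hz⟩
    · by_cases h0 : A.Nonempty
      · obtain ⟨y', hy'⟩ := h0
        rw [hA, mem_filter] at hy'
        obtain ⟨z, hz⟩ := hy'.2.1
        exact ⟨z, fun h => absurd h hy⟩
      · exact ⟨fun _ => inp 0, fun h => absurd h hy⟩
  choose tg htg using hex
  refine C.piece_fine (fun y p => inp (ug K e y p))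
    (fun y p => (usrc e p).map y) ?_ tg A (fun y hy => (htg y hy).1) hcl (2 ^ k)
    (univ.filter (fun o => C.out o ∈ S ∨ C.out o ∈ B)) (fun o ho => (mem_filter.1 ho).2) ?_
  · intro y y' p h
    change inp (ug K e y p) = inp (ug K e y' p)
    rw [ug_congr K e y y' p h]
  · intro y0 hy0
    obtain ⟨Q, hQ⟩ : ∃ Q : Finset (Jx c n), Q =
      univ.filter (fun j => ∃ p ∈ C.readSet S, usrc e p = some j) := ⟨_, rfl⟩
    obtain ⟨R, hR⟩ : ∃ R : Finset (Fin n × Fin n), R =
      univ.filter (fun p : Fin n × Fin n => (C.out (e (.src p.1), e (.snk p.2)) ∈ S ∨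
        C.out (e (.src p.1), e (.snk p.2)) ∈ B) ∧ ¬ Conn K y0 p.1 p.2) := ⟨_, rfl⟩
    have hQc : Q.card ≤ w := by
      refine le_trans ?_ hSw
      have h4 : Q.image some ⊆ (C.readSet S).image (usrc e) := by
        intro j hj
        obtain ⟨j', hj', rfl⟩ := mem_image.1 hj
        rw [hQ, mem_filter] at hj'
        obtain ⟨-, p, h5, h6⟩ := hj'
        exact mem_image.2 ⟨p, h5, h6⟩
      calc Q.card = (Q.image some).card := (card_image_of_injective _ (Option.some_injective _)).symm
        _ ≤ _ := (card_le_card h4).trans card_image_le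
    have hRc : N₁ ≤ R.card := by
      rw [hA, mem_filter] at hy0
      rw [hR]
      exact hy0.2.2
    have hE : ∀ y' : Jx c n → Fin M,
        (∀ i ∈ C.readSet S, (usrc e i).map y' = (usrc e i).map y0) ↔ Cons Q y0 y' := by
      intro y'
      constructor
      · intro h4 j hj
        rw [hQ, mem_filter] at hj
        obtain ⟨-, p, h5, h6⟩ := hj
        have h7 := h4 p h5
        rw [h6, Option.map_some, Option.map_some, Option.some.injEq] at h7
        exact h7
      · intro h4 p h5
        cases hs : usrc e p with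
        | none => rfl
        | some j =>
          rw [Option.map_some, Option.map_some]
          congr 1
          exact h4 j (by rw [hQ, mem_filter]; exact ⟨mem_univ _, p, h5, hs⟩)
    have hl := hleaf Q y0 R hQc hRc
    have hAc : (Nat.card {y // y ∈ A ∧ (∀ i ∈ C.readSet S, (usrc e i).map y =
        (usrc e i).map y0) ∧ ∀ o ∈ univ.filter (fun o => C.out o ∈ S ∨ C.out o ∈ B),
        tg y o = tg y0 o} : ℝ) ≤
        cnt (fun x : Jx c n → Fin M => Cons Q y0 x ∧ ∀ p ∈ R, ¬ Conn K x p.1 p.2) := by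
      rw [cnt_eq, Nat.card_eq_fintype_card, Fintype.card_subtype]
      norm_cast
      apply card_le_card
      intro y' hy'
      simp only [mem_filter, mem_univ, true_and] at hy' ⊢
      obtain ⟨h3, h4, h5⟩ := hy'
      refine ⟨(hE y').1 h4, ?_⟩
      intro p hp
      rw [hR, mem_filter] at hp
      have h6 := near_iff K y' he (htg y' h3).2 p.1 p.2
      have h7 := near_iff K y0 he (htg y0 hy0).2 p.1 p.2
      rw [← h6]
      have h8 := h7.2 hp.2.2
      rw [← h5 _ hp.2.1] at h8
      exact h8
    have hB : cnt (Cons (n := M) Q y0) =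
        (Nat.card {y : Jx c n → Fin M // ∀ i ∈ C.readSet S, (usrc e i).map y =
          (usrc e i).map y0} : ℝ) := by
      rw [cnt_eq, Nat.card_eq_fintype_card, Fintype.card_subtype]
      norm_cast
      congr 1
      ext y'
      simp only [mem_filter, mem_univ, true_and]
      exact (hE y').symm
    have h5 : (Nat.card {y // y ∈ A ∧ (∀ i ∈ C.readSet S, (usrc e i).map y =
        (usrc e i).map y0) ∧ ∀ o ∈ univ.filter (fun o => C.out o ∈ S ∨ C.out o ∈ B),
        tg y o = tg y0 o} : ℝ) * 2 ^ k ≤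
        (Nat.card {y : Jx c n → Fin M // ∀ i ∈ C.readSet S, (usrc e i).map y =
          (usrc e i).map y0} : ℝ) := by
      rw [← hB]
      calc _ ≤ (β * cnt (Cons (n := M) Q y0)) * (2 : ℝ) ^ k :=
            mul_le_mul_of_nonneg_right (hAc.trans hl) (by positivity)
        _ = (β * 2 ^ k) * cnt (Cons (n := M) Q y0) := by ring
        _ ≤ 1 * cnt (Cons (n := M) Q y0) := mul_le_mul_of_nonneg_right hβ (cnt_nonneg _)
        _ = _ := one_mul _
    exact_mod_cast h5

open Classical in
/-- The counting theorem for circuits of small treewidth. -/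
theorem apsp_net [Fintype α] (hn : 0 < n) (hM : 0 < M) (K : ℕ → Fin n → Finset (Fin n))
    (hK : ∀ s i, (K s i).card ≤ 2 ^ s) (hc : 8 * ((c + 1) * 2 ^ c) ≤ M) {e : Vx c n → Fin N}
    (he : Function.Injective e) {w N₁ k ν t b : ℕ} {β : ℝ} (hβ : β * 2 ^ k ≤ 1)
    (hleaf : ∀ (Q : Finset (Jx c n)) (ρ : Jx c n → Fin M) (R : Finset (Fin n × Fin n)),
      Q.card ≤ w → N₁ ≤ R.card →
      cnt (fun x : Jx c n → Fin M => Cons Q ρ x ∧ ∀ p ∈ R, ¬ Conn K x p.1 p.2) ≤
        β * cnt (Cons Q ρ)) (hN₁ : 1 ≤ N₁)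
    (hN : 2 * (ν * N₁) ≤ n ^ 2)
    (C : Net (Fin N × Fin N) (Fin N × Fin N) α) (inp : ℕ∞ → α) (dec : α → ℕ∞)
    (ht : C.TreewidthLE t) (hν : ∀ l, w * l ≤ 8 * C.reads + w → l ≤ ν) (hν0 : 0 < ν)
    (hb : Fintype.card α ≤ 2 ^ b)
    (hs : 4 * (ν * 2 ^ (b * (2 * (t + 1)))) ≤ 2 ^ k) :
    2 * Nat.card {x : Jx c n → Fin M // NetNear C inp dec (ug K e x)} ≤
      Nat.card (Jx c n → Fin M) := by
  obtain ⟨Gd, hGd⟩ : ∃ Gd : (Jx c n → Fin M) → Prop, ∀ y, Gd y ↔
    2 * (univ.filter (fun p : Fin n × Fin n => Conn K y p.1 p.2)).card ≤ n ^ 2 :=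
      ⟨_, fun _ => Iff.rfl⟩
  obtain ⟨L, hL1, hL2, hL3⟩ := C.exists_pieces2 t ht w
  have hLn := hν _ hL3
  obtain ⟨W, hW⟩ : ∃ W, W = Fintype.card (Jx c n → Fin M) := ⟨_, rfl⟩
  have h1 : (univ.filter (fun y : Jx c n → Fin M =>
      Gd y ∧ NetNear C inp dec (ug K e y))).card * 2 ^ k ≤
      ν * 2 ^ (b * (2 * (t + 1))) * W := by
    obtain ⟨A, hA⟩ : ∃ A : Finset (Fin C.size) × Finset (Fin C.size) →
        Finset (Jx c n → Fin M), ∀ p, A p = univ.filter (fun y : Jx c n → Fin M =>
      NetNear C inp dec (ug K e y) ∧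
      N₁ ≤ (univ.filter (fun q : Fin n × Fin n => (C.out (e (.src q.1), e (.snk q.2)) ∈ p.1 ∨
        C.out (e (.src q.1), e (.snk q.2)) ∈ p.2) ∧ ¬ Conn K y q.1 q.2)).card) :=
      ⟨_, fun _ => rfl⟩
    have h2 : ∀ p ∈ L, (A p).card * 2 ^ k ≤ 2 ^ (b * (2 * (t + 1))) * W := by
      intro p hp
      obtain ⟨hcl, hBc, hSw⟩ := hL1 p hp
      have h3 := apsp_piece K he hβ hleaf C inp dec hcl ((C.card_readSet p.1).trans hSw)
      rw [hA]
      refine h3.trans ?_
      rw [← hW]
      apply Nat.mul_le_mul_right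
      calc Fintype.card α ^ p.2.card ≤ (2 ^ b) ^ p.2.card := Nat.pow_le_pow_left hb _
        _ ≤ (2 ^ b) ^ (2 * (t + 1)) := Nat.pow_le_pow_right (by positivity) hBc
        _ = _ := by rw [← pow_mul]
    have h3 : (univ.filter (fun y : Jx c n → Fin M =>
        Gd y ∧ NetNear C inp dec (ug K e y))).card ≤ (L.map (fun p => (A p).card)).sum := by
      have h4 := cover_sum (fun (p : Finset (Fin C.size) × Finset (Fin C.size))
        (y : Jx c n → Fin M) => y ∈ A p) L (univ.filter (fun y : Jx c n → Fin M =>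
        Gd y ∧ NetNear C inp dec (ug K e y))) ?_
      · refine h4.trans ?_
        apply List.sum_le_sum
        intro p _
        apply card_le_card
        intro y hy
        exact (mem_filter.1 hy).2
      · intro y hy
        rw [mem_filter] at hy
        obtain ⟨-, hy1, hy2⟩ := hy
        by_contra hcon
        push Not at hcon
        have h5 : ∀ p ∈ L, (univ.filter (fun q : Fin n × Fin n =>
            (C.out (e (.src q.1), e (.snk q.2)) ∈ p.1 ∨
            C.out (e (.src q.1), e (.snk q.2)) ∈ p.2) ∧ ¬ Conn K y q.1 q.2)).card + 1 ≤ N₁ := by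
          intro p hp
          have h6 := hcon p hp
          rw [hA, mem_filter] at h6
          by_contra h7
          exact h6 ⟨mem_univ _, hy2, by omega⟩
        have h6 := cover_sum (fun (p : Finset (Fin C.size) × Finset (Fin C.size))
          (q : Fin n × Fin n) => C.out (e (.src q.1), e (.snk q.2)) ∈ p.1 ∨
            C.out (e (.src q.1), e (.snk q.2)) ∈ p.2) L
          (univ.filter (fun q : Fin n × Fin n => ¬ Conn K y q.1 q.2))
          (fun q _ => hL2 _)
        have h7 : (L.map (fun p => ((univ.filter (fun q : Fin n × Fin n =>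
            ¬ Conn K y q.1 q.2)).filter (fun q => C.out (e (.src q.1), e (.snk q.2)) ∈ p.1 ∨
            C.out (e (.src q.1), e (.snk q.2)) ∈ p.2)).card)).sum ≤ L.length * (N₁ - 1) := by
          have h8 := List.sum_le_card_nsmul (L.map (fun p => ((univ.filter
            (fun q : Fin n × Fin n => ¬ Conn K y q.1 q.2)).filter
              (fun q => C.out (e (.src q.1), e (.snk q.2)) ∈ p.1 ∨
            C.out (e (.src q.1), e (.snk q.2)) ∈ p.2)).card)) (N₁ - 1) (by
              intro x hx
              obtain ⟨p, hp, rfl⟩ := List.mem_map.1 hx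
              have h9 := h5 p hp
              have h10 : ((univ.filter (fun q : Fin n × Fin n => ¬ Conn K y q.1 q.2)).filter
                  (fun q => C.out (e (.src q.1), e (.snk q.2)) ∈ p.1 ∨
                    C.out (e (.src q.1), e (.snk q.2)) ∈ p.2)).card ≤
                  (univ.filter (fun q : Fin n × Fin n =>
                    (C.out (e (.src q.1), e (.snk q.2)) ∈ p.1 ∨
                      C.out (e (.src q.1), e (.snk q.2)) ∈ p.2) ∧
                      ¬ Conn K y q.1 q.2)).card := by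
                apply card_le_card
                intro q hq
                rw [mem_filter, mem_filter] at hq
                rw [mem_filter]
                exact ⟨mem_univ _, hq.2, hq.1.2⟩
              omega)
          rw [List.length_map, smul_eq_mul] at h8
          exact h8
        have h8 := (hGd y).1 hy1
        have h9 := Finset.card_filter_add_card_filter_not (s := (univ : Finset (Fin n × Fin n)))
          (fun p => Conn K y p.1 p.2)
        rw [card_univ, Fintype.card_prod, Fintype.card_fin] at h9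
        have h10 : n * n = n ^ 2 := by ring
        have h11 : L.length * (N₁ - 1) + ν ≤ ν * N₁ := by
          calc L.length * (N₁ - 1) + ν ≤ ν * (N₁ - 1) + ν := by
                apply Nat.add_le_add_right
                exact Nat.mul_le_mul_right _ hLn
            _ = ν * (N₁ - 1 + 1) := by ring
            _ = ν * N₁ := by rw [Nat.sub_add_cancel hN₁]
        omega
    calc _ ≤ (L.map (fun p => (A p).card)).sum * 2 ^ k := Nat.mul_le_mul_right _ h3
      _ = (L.map (fun p => (A p).card * 2 ^ k)).sum := by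
          rw [List.sum_map_mul_right]
      _ ≤ L.length * (2 ^ (b * (2 * (t + 1))) * W) := by
          have h8 := List.sum_le_card_nsmul (L.map (fun p => (A p).card * 2 ^ k))
            (2 ^ (b * (2 * (t + 1))) * W) (by
              intro x hx
              obtain ⟨p, hp, rfl⟩ := List.mem_map.1 hx
              exact h2 p hp)
          rw [List.length_map, smul_eq_mul] at h8
          exact h8
      _ ≤ ν * (2 ^ (b * (2 * (t + 1))) * W) := Nat.mul_le_mul_right _ hLn
      _ = _ := by ring
  have h2 : 4 * (univ.filter (fun y => Gd y ∧ NetNear C inp dec (ug K e y))).card ≤ W := by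
    have h3 : 0 < ν * 2 ^ (b * (2 * (t + 1))) := by positivity
    refine Nat.le_of_mul_le_mul_left ?_ h3
    calc ν * 2 ^ (b * (2 * (t + 1))) * (4 * (univ.filter (fun y =>
          Gd y ∧ NetNear C inp dec (ug K e y))).card) =
          (univ.filter (fun y => Gd y ∧ NetNear C inp dec (ug K e y))).card *
            (4 * (ν * 2 ^ (b * (2 * (t + 1))))) := by ring
      _ ≤ _ * 2 ^ k := Nat.mul_le_mul_left _ hs
      _ ≤ _ := h1
  have h3 : 4 * (univ.filter (fun y => ¬ Gd y)).card ≤ W := by
    have h4 := cnt_many (c := c) hn hM K hK hc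
    have h5 : cnt (fun _ : Jx c n → Fin M => True) = W := by
      rw [cnt_eq, hW]
      norm_cast
      rw [filter_true, card_univ]
    rw [h5, cnt_eq] at h4
    have h6 : 4 * (univ.filter (fun x : Jx c n → Fin M =>
      n ^ 2 < 2 * (univ.filter (fun p : Fin n × Fin n => Conn K x p.1 p.2)).card)).card ≤ W := by
      exact_mod_cast h4
    refine le_trans (Nat.mul_le_mul_left _ (card_le_card ?_)) h6
    intro y hy
    simp only [mem_filter, mem_univ, true_and] at hy ⊢
    rw [hGd] at hy
    omega
  have h4 : Nat.card {x : Jx c n → Fin M // NetNear C inp dec (ug K e x)} ≤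
      (univ.filter (fun y => Gd y ∧ NetNear C inp dec (ug K e y))).card +
      (univ.filter (fun y => ¬ Gd y)).card := by
    rw [Nat.card_eq_fintype_card, Fintype.card_subtype]
    refine le_trans (card_le_card ?_) (card_union_le _ _)
    intro y hy
    simp only [mem_filter, mem_univ, true_and, mem_union] at hy ⊢
    by_cases h : Gd y
    · exact Or.inl ⟨h, hy⟩
    · exact Or.inr h
  rw [Nat.card_eq_fintype_card (α := Jx c n → Fin M), ← hW]
  omega

end Pool.Agent.R643.UG
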