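import Pool.Agent.R643.UGd

/-!
# Approximate distances in undirected graphs with a stack: choice of the parameters
(adapted from `Pool.Agent.W896.MO.ApspFinal`)
-/

set_option autoImplicit false

namespace Pool.Agent.R643.UG.St

open Finset
open Pool.Agent.H537R2.Apsp (Graph walkWeight dist)
open Pool.Agent.H537R2.Apsq (cnt cnt_mono cnt_nonneg cnt_eq Cons exists_family)
open Pool.Agent.H537R2.Apsr
open Pool.Agent.W896.MO (Prog num_pieces)
open Pool.Agent.R643.UG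

/-- The bound with explicit parameters. -/
theorem apsp_aux {N L φ ℓ κ S T : ℕ} (hN : 2 ^ L ≤ N) (hℓ : L = ℓ + φ + 3)
    (hφ : L + 1 ≤ 2 ^ φ) (hφ1 : 1 ≤ φ) (hκ : 20 * S ≤ 2 ^ κ)
    (hS3 : 3 ≤ S) (hℓ6 : 6 ≤ ℓ) (h1 : κ + 4 * φ + 20 ≤ 2 * ℓ)
    (hT : T * 2 ^ (κ + 6 * φ + 35) ≤ 2 ^ (4 * ℓ)) (hTN : T < N ^ 4) :
    ∃ (c m : ℕ) (K : ℕ → Fin (2 ^ ℓ) → Finset (Fin (2 ^ ℓ))) (e : Vx c (2 ^ ℓ) → Fin N),
      Function.Injective e ∧
      ∀ P : Prog (Fin N × Fin N) (Fin N × Fin N) ℕ∞, Fintype.card P.State ≤ 2 ^ S →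
      2 * Nat.card {x : Jx c (2 ^ ℓ) → Fin (2 ^ m) //
        ∃ d, P.Computes (ug K e x) d T ∧ Near (ug K e x) d} ≤
        Nat.card (Jx c (2 ^ ℓ) → Fin (2 ^ m)) := by
  classical
  obtain ⟨m, hm⟩ : ∃ m, m + 13 + κ + 2 * φ = 2 * ℓ := ⟨2 * ℓ - 13 - κ - 2 * φ, by omega⟩
  obtain ⟨c, hc⟩ : ∃ c, c + φ + 4 = m := ⟨m - 4 - φ, by omega⟩
  have hφ2 : 2 ^ (φ + 1) = 2 * 2 ^ φ := by rw [pow_succ]; ring
  have hc1 : c + 1 ≤ 2 ^ (φ + 1) := by omega
  choose K hK1 hK2 using exists_family ℓ φ (by omega) hφ1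
  obtain ⟨e, he⟩ := exists_embedding (c := c) (n := 2 ^ ℓ) (N := N) (by
    calc 2 * 2 ^ ℓ + 2 * ((c + 1) * 2 ^ ℓ) = (2 + 2 * (c + 1)) * 2 ^ ℓ := by ring
      _ ≤ (8 * 2 ^ φ) * 2 ^ ℓ := Nat.mul_le_mul_right _ (by omega)
      _ = 2 ^ L := by rw [hℓ, pow_add, pow_add]; ring
      _ ≤ N := hN)
  refine ⟨c, m, K, e, he, ?_⟩
  intro P hσ
  -- we may assume that something is computed
  by_cases hex : ∃ x : Jx c (2 ^ ℓ) → Fin (2 ^ m),
      ∃ d, P.Computes (ug K e x) d T ∧ Near (ug K e x) d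
  swap
  · push Not at hex
    have h2 : Nat.card {x : Jx c (2 ^ ℓ) → Fin (2 ^ m) //
        ∃ d, P.Computes (ug K e x) d T ∧ Near (ug K e x) d} = 0 := by
      rw [Nat.card_eq_zero]
      left
      refine ⟨fun v => ?_⟩
      obtain ⟨d, h3, h4⟩ := v.2
      exact hex v.1 d h3 h4
    rw [h2]
    exact Nat.zero_le _
  obtain ⟨x₀, d₀, hx₀, -⟩ := hex
  have hsN : N ^ 2 ≤ Fintype.card P.State := by
    have h2 := hx₀.card_le
    rwa [Fintype.card_prod, Fintype.card_fin, ← sq] at h2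
  obtain ⟨r, hr⟩ : ∃ r, r = κ + 3 * φ + 5 := ⟨_, rfl⟩
  have hrc : r + c = 2 * ℓ - 12 := by omega
  obtain ⟨y, hy⟩ : ∃ y, y = (ℓ + 1) * 2 ^ (r + 13) := ⟨_, rfl⟩
  obtain ⟨a, ha⟩ : ∃ a, a = 2 ^ (r + c - 2 * φ - 3) := ⟨_, rfl⟩
  have ha4 : 4 * a = 2 ^ (r + c - 2 * φ - 1) := by
    rw [ha, show r + c - 2 * φ - 1 = 2 + (r + c - 2 * φ - 3) by omega, pow_add]
    norm_num
  have hy0 : 1 ≤ y := by rw [hy]; exact Nat.succ_le_of_lt (by positivity)
  have hBn := num_pieces hr hrc (by omega) hy ha h1 hT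
  obtain ⟨β, hβ⟩ : ∃ β : ℝ, β = Real.exp (-((2 : ℝ) ^ (r + c) / 2 ^ (2 * φ + 1 + m))) := ⟨_, rfl⟩
  have hE : ((20 * S : ℕ) : ℝ) ≤ (2 : ℝ) ^ (r + c) / 2 ^ (2 * φ + 1 + m) := by
    rw [le_div_iff₀ (by positivity)]
    have h1 : (2 : ℝ) ^ (r + c) = 2 ^ κ * 2 ^ (2 * φ + 1 + m) := by
      rw [← pow_add, show κ + (2 * φ + 1 + m) = r + c by omega]
    rw [h1]
    have h2 : ((20 * S : ℕ) : ℝ) ≤ 2 ^ κ := by exact_mod_cast hκ
    exact mul_le_mul_of_nonneg_right h2 (by positivity)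
  have hβ1 : β * 2 ^ (20 * S) ≤ 1 := by
    have h2 : ((2 : ℝ) ^ (20 * S)) ≤ Real.exp ((20 * S : ℕ) : ℝ) := by
      have h3 : (2 : ℝ) ≤ Real.exp 1 := by linarith [Real.exp_one_gt_d9]
      calc ((2 : ℝ) ^ (20 * S)) ≤ (Real.exp 1) ^ (20 * S) := pow_le_pow_left₀ (by norm_num) h3 _
        _ = Real.exp ((20 * S : ℕ) : ℝ) := by rw [← Real.exp_nat_mul, mul_one]
    have h3 : β ≤ Real.exp (-((20 * S : ℕ) : ℝ)) := by
      rw [hβ]
      exact Real.exp_le_exp.2 (neg_le_neg hE)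
    calc β * 2 ^ (20 * S) ≤ Real.exp (-((20 * S : ℕ) : ℝ)) * Real.exp ((20 * S : ℕ) : ℝ) :=
          mul_le_mul h3 h2 (by positivity) (Real.exp_pos _).le
      _ = 1 := by rw [← Real.exp_add, neg_add_cancel, Real.exp_zero]
  have hBn' : 2 * ((T / a + 1) * y) ≤ (2 ^ ℓ) ^ 2 := by
    rw [← pow_mul, mul_comm ℓ 2]
    exact hBn
  have hcM : 8 * ((c + 1) * 2 ^ c) ≤ 2 ^ m := by
    calc 8 * ((c + 1) * 2 ^ c) ≤ 8 * (2 ^ (φ + 1) * 2 ^ c) :=
          Nat.mul_le_mul_left _ (Nat.mul_le_mul_right _ hc1)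
      _ = 2 ^ m := by
          rw [← hc, pow_add 2 (c + φ), pow_add 2 c, hφ2]; ring
  have hs : 4 * (Fintype.card P.State * (T * (Fintype.card P.State) ^ 2 + 1) ^ 4) ≤
      2 ^ (20 * S) := by
    obtain ⟨s, hs⟩ : ∃ s, s = Fintype.card P.State := ⟨_, rfl⟩
    rw [← hs] at hsN hσ ⊢
    have hTs : T + 1 ≤ s ^ 2 := by
      have h2 : (N ^ 2) ^ 2 ≤ s ^ 2 := Nat.pow_le_pow_left hsN 2
      rw [← pow_mul] at h2
      norm_num at h2
      omega
    have hs1 : 1 ≤ s ^ 2 := by omega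
    have h2 : T * s ^ 2 + 1 ≤ s ^ 4 := by
      calc T * s ^ 2 + 1 ≤ T * s ^ 2 + s ^ 2 := Nat.add_le_add_left hs1 _
        _ = (T + 1) * s ^ 2 := by ring
        _ ≤ s ^ 2 * s ^ 2 := Nat.mul_le_mul_right _ hTs
        _ = s ^ 4 := by ring
    calc 4 * (s * (T * s ^ 2 + 1) ^ 4) ≤ 2 ^ 2 * (s * (s ^ 4) ^ 4) :=
          Nat.mul_le_mul (by norm_num) (Nat.mul_le_mul_left _ (Nat.pow_le_pow_left h2 4))
      _ = 2 ^ 2 * s ^ 17 := by ring
      _ ≤ 2 ^ (3 * S) * (2 ^ S) ^ 17 := by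
          apply Nat.mul_le_mul _ (Nat.pow_le_pow_left hσ 17)
          exact Nat.pow_le_pow_right (by norm_num) (by omega)
      _ = 2 ^ (20 * S) := by rw [← pow_mul, ← pow_add]; congr 1; ring
  refine apsp_core (by positivity) (by positivity) K hK1 hcM he hβ1 ?_
    (by rw [ha]; exact Nat.one_le_two_pow) hy0 hBn' P hs
  intro Q ρ R hQ hR
  rw [hβ]
  rw [ha4] at hQ
  rw [hy] at hR
  exact leaf K hK2 hℓ6 (by omega) (by omega) Q ρ hQ R hR

/-- The lower bound for deterministic programs, on average. -/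
theorem apsp_det {N S T : ℕ} (hN : 64 ≤ Nat.log 2 N) (hS : Nat.log 2 N ≤ S) (hT : N ^ 2 ≤ T)
    (h2 : 2 ^ 68 * (T * S * (Nat.log 2 N) ^ 10) ≤ N ^ 4) :
    ∃ (c m ℓ : ℕ) (K : ℕ → Fin (2 ^ ℓ) → Finset (Fin (2 ^ ℓ))) (e : Vx c (2 ^ ℓ) → Fin N),
      Function.Injective e ∧
      ∀ P : Prog (Fin N × Fin N) (Fin N × Fin N) ℕ∞, Fintype.card P.State ≤ 2 ^ S →
      2 * Nat.card {x : Jx c (2 ^ ℓ) → Fin (2 ^ m) //
        ∃ d, P.Computes (ug K e x) d T ∧ Near (ug K e x) d} ≤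
        Nat.card (Jx c (2 ^ ℓ) → Fin (2 ^ m)) := by
  set L := Nat.log 2 N with hL
  have hN0 : N ≠ 0 := by
    rintro rfl
    simp at hL
    omega
  have hNL : 2 ^ L ≤ N := Nat.pow_log_le_self 2 hN0
  have hNL' : N < 2 ^ (L + 1) := Nat.lt_pow_succ_log_self (by norm_num) _
  set φ := Nat.log 2 L + 1 with hφ
  have hφ1 : L < 2 ^ φ := Nat.lt_pow_succ_log_self (by norm_num) _
  have hφ2 : 2 ^ φ ≤ 2 * L := by
    rw [hφ, pow_succ, mul_comm]
    exact Nat.mul_le_mul_left _ (Nat.pow_log_le_self 2 (by omega))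
  set κ := Nat.log 2 (20 * S) + 1 with hκ
  have hκ1 : 20 * S < 2 ^ κ := Nat.lt_pow_succ_log_self (by norm_num) _
  have hκ2 : 2 ^ κ ≤ 40 * S := by
    have : 2 ^ Nat.log 2 (20 * S) ≤ 20 * S := Nat.pow_log_le_self 2 (by omega)
    rw [hκ, pow_succ]
    omega
  have hN2 : 2 ^ 68 * (S * L ^ 10) ≤ N ^ 2 := by
    have h3 : (2 ^ 68 * (S * L ^ 10)) * N ^ 2 ≤ N ^ 2 * N ^ 2 := by
      calc (2 ^ 68 * (S * L ^ 10)) * N ^ 2 ≤ (2 ^ 68 * (S * L ^ 10)) * T :=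
            Nat.mul_le_mul_left _ hT
        _ = 2 ^ 68 * (T * S * L ^ 10) := by ring
        _ ≤ N ^ 4 := h2
        _ = N ^ 2 * N ^ 2 := by ring
    exact Nat.le_of_mul_le_mul_right h3 (by positivity)
  -- a lower bound for `ℓ`
  have hφL : φ + 3 + 6 ≤ L := by
    have h3 : Nat.log 2 L ≤ L - 10 := by
      have h4 : L < 2 ^ (L - 9) := by
        have h5 : ∀ j, 64 + j < 2 ^ (55 + j) := by
          intro j
          induction j with
          | zero => norm_num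
          | succ j ih =>
            rw [show 55 + (j + 1) = (55 + j) + 1 by ring, pow_succ]
            omega
        obtain ⟨j, hj⟩ := Nat.exists_eq_add_of_le hN
        rw [hj, show 64 + j - 9 = 55 + j by omega]
        exact h5 j
      have h5 := Nat.log_lt_of_lt_pow (by omega) h4
      omega
    omega
  obtain ⟨ℓ, hℓ⟩ : ∃ ℓ, L = ℓ + φ + 3 := ⟨L - φ - 3, by omega⟩
  have h1 : κ + 4 * φ + 20 ≤ 2 * ℓ := by
    have h3 : 2 ^ (κ + 4 * φ + 20) * 2 ^ (2 * φ + 8) ≤ 2 ^ (2 * ℓ) * 2 ^ (2 * φ + 8) := by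
      calc 2 ^ (κ + 4 * φ + 20) * 2 ^ (2 * φ + 8) = 2 ^ κ * (2 ^ φ) ^ 6 * 2 ^ 28 := by
            rw [← pow_mul, ← pow_add, ← pow_add, ← pow_add]; congr 1; ring
        _ ≤ (40 * S) * (2 * L) ^ 6 * 2 ^ 28 := by gcongr
        _ = (40 * 2 ^ 34) * (S * L ^ 6) := by ring
        _ ≤ 2 ^ 68 * (S * L ^ 10) := by
            apply Nat.mul_le_mul (by norm_num)
            apply Nat.mul_le_mul_left
            exact Nat.pow_le_pow_right (by omega) (by norm_num)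
        _ ≤ N ^ 2 := hN2
        _ ≤ (2 ^ (L + 1)) ^ 2 := Nat.pow_le_pow_left hNL'.le 2
        _ = 2 ^ (2 * ℓ) * 2 ^ (2 * φ + 8) := by
            rw [← pow_mul, ← pow_add, hℓ]; congr 1; ring
    have h4 := Nat.le_of_mul_le_mul_right h3 (by positivity)
    exact (Nat.pow_le_pow_iff_right (by norm_num : 1 < 2)).1 h4
  have hT' : T * 2 ^ (κ + 6 * φ + 35) ≤ 2 ^ (4 * ℓ) := by
    have h3 : T * 2 ^ (κ + 6 * φ + 35) * 2 ^ (4 * φ + 16) ≤ 2 ^ (4 * ℓ) * 2 ^ (4 * φ + 16) := by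
      calc T * 2 ^ (κ + 6 * φ + 35) * 2 ^ (4 * φ + 16)
          = T * 2 ^ κ * (2 ^ φ) ^ 10 * 2 ^ 51 := by
            rw [← pow_mul, mul_assoc, ← pow_add, mul_assoc (T * 2 ^ κ), ← pow_add,
              mul_assoc, ← pow_add]
            congr 2
            ring
        _ ≤ T * (40 * S) * (2 * L) ^ 10 * 2 ^ 51 := by gcongr
        _ = (40 * 2 ^ 61) * (T * S * L ^ 10) := by ring
        _ ≤ 2 ^ 68 * (T * S * L ^ 10) := Nat.mul_le_mul_right _ (by norm_num)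
        _ ≤ N ^ 4 := h2
        _ ≤ (2 ^ (L + 1)) ^ 4 := Nat.pow_le_pow_left hNL'.le 4
        _ = 2 ^ (4 * ℓ) * 2 ^ (4 * φ + 16) := by
            rw [← pow_mul, ← pow_add, hℓ]; congr 1; ring
    exact Nat.le_of_mul_le_mul_right h3 (by positivity)
  have hTN : T < N ^ 4 := by
    have h3 : 1 ≤ S * L ^ 10 :=
      Nat.mul_le_mul (show 1 ≤ S by omega) (Nat.one_le_pow _ _ (by omega))
    have h4 : 0 < T := lt_of_lt_of_le (by positivity) hT
    have h5 : T * 1 ≤ T * (S * L ^ 10) := Nat.mul_le_mul_left _ h3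
    have h6 : T * S * L ^ 10 = T * (S * L ^ 10) := by ring
    omega
  obtain ⟨c, m, K, e, he, h⟩ := apsp_aux (N := N) (S := S) (T := T) hNL hℓ (by omega) (by omega)
    hκ1.le (by omega) (by omega) h1 hT' hTN
  exact ⟨c, m, ℓ, K, e, he, h⟩

/-- The lower bound for randomised programs with a stack. -/
theorem apsp_main : ∃ c : ℕ, ∀ᶠ N : ℕ in Filter.atTop, ∀ (S T : ℕ)
    (R : Type) [Fintype R] (P : R → Prog (Fin N × Fin N) (Fin N × Fin N) ℕ∞),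
      (∀ r, Fintype.card (P r).State ≤ 2 ^ S) →
      (∀ w : Graph N, Simple w →
        Nat.card R < 2 * Nat.card {r : R // ∃ d, (P r).Computes w d T ∧ Near w d}) →
      N ^ 4 < c * (T * S * (Nat.log 2 N) ^ 10) := by
  classical
  refine ⟨2 ^ 68, ?_⟩
  filter_upwards [Filter.eventually_ge_atTop (2 ^ 64)] with N hN S T R _ P hσ hP
  by_contra hcon
  push Not at hcon
  have hlog : 64 ≤ Nat.log 2 N := Nat.le_log_of_pow_le (by norm_num) hN
  obtain ⟨r₀, d₀, hr₀⟩ : ∃ r d, (P r).Computes (fun _ => ⊤) d T := by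
    have h1 := hP (fun _ => ⊤) ⟨fun _ _ => Or.inr rfl, fun _ _ => rfl, fun _ => rfl,
      fun _ => false, fun _ _ h => absurd rfl h⟩
    have h2 : 0 < Nat.card {r : R // ∃ d, (P r).Computes (fun _ => ⊤) d T ∧
        Near (fun _ => ⊤) d} := by
      omega
    obtain ⟨⟨r, d, hr, -⟩⟩ := (Nat.card_pos_iff.1 h2).1
    exact ⟨r, d, hr⟩
  have hT : N ^ 2 ≤ T := by
    have h2 := hr₀.card_le'
    rwa [Fintype.card_prod, Fintype.card_fin, ← sq] at h2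
  have hS : Nat.log 2 N ≤ S := by
    have h2 := hr₀.card_le
    rw [Fintype.card_prod, Fintype.card_fin, ← sq] at h2
    have h3 : N ≤ 2 ^ S := by
      calc N = N ^ 1 := (pow_one N).symm
        _ ≤ N ^ 2 := Nat.pow_le_pow_right (by omega) (by norm_num)
        _ ≤ Fintype.card (P r₀).State := h2
        _ ≤ 2 ^ S := hσ r₀
    calc Nat.log 2 N ≤ Nat.log 2 (2 ^ S) := Nat.log_mono_right h3
      _ = S := Nat.log_pow (by norm_num) S
  obtain ⟨c, m, ℓ, K, e, he, hdet⟩ := apsp_det hlog hS hT hcon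
  set X := Jx c (2 ^ ℓ) → Fin (2 ^ m)
  have h1 : ∀ r : R, 2 * Nat.card {x : X // ∃ d, (P r).Computes (ug K e x) d T ∧
      Near (ug K e x) d} ≤ Nat.card X := fun r => hdet (P r) (hσ r)
  have h2 : ∀ x : X, Nat.card R < 2 * Nat.card {r : R // ∃ d, (P r).Computes (ug K e x) d T ∧
      Near (ug K e x) d} := fun x => hP _ (ug_simple K x he)
  have h3 : ∑ x : X, Nat.card {r : R // ∃ d, (P r).Computes (ug K e x) d T ∧
      Near (ug K e x) d} =
      ∑ r : R, Nat.card {x : X // ∃ d, (P r).Computes (ug K e x) d T ∧ Near (ug K e x) d} := by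
    simp only [Nat.card_eq_fintype_card, Fintype.card_subtype, Finset.card_filter]
    exact sum_comm
  have h4 : ∑ _x : X, Nat.card R <
      ∑ x : X, 2 * Nat.card {r : R // ∃ d, (P r).Computes (ug K e x) d T ∧
        Near (ug K e x) d} := by
    apply sum_lt_sum_of_nonempty
    · exact ⟨fun _ => ⟨0, by positivity⟩, mem_univ _⟩
    · intro x _
      exact h2 x
  have h5 : 2 * ∑ r : R, Nat.card {x : X // ∃ d, (P r).Computes (ug K e x) d T ∧
      Near (ug K e x) d} ≤ Nat.card R * Fintype.card X := by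
    rw [mul_sum]
    calc _ ≤ ∑ _r : R, Fintype.card X := by
          apply sum_le_sum
          intro r _
          have := h1 r
          rwa [Nat.card_eq_fintype_card (α := X)] at this
      _ = _ := by rw [sum_const, card_univ, smul_eq_mul, Nat.card_eq_fintype_card (α := R)]
  rw [← mul_sum, h3] at h4
  rw [sum_const, card_univ, smul_eq_mul] at h4
  rw [mul_comm] at h4
  omega

end Pool.Agent.R643.UG.St
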