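import Mathlib
import Pool.Agent.Y631.WcSum

set_option autoImplicit false

/-!
# Word circuits: three numbers of a sorted list with sum zero
-/

open Finset

namespace Pool.Agent.R643.WZ

open Pool.Agent.Y631.Wc

/-- `x` is an increasing list of `n` integers between `-n²` and `n²`. -/
def IsSorted {n : ℕ} (x : Fin n → ℤ) : Prop := StrictMono x ∧ ∀ i, |x i| ≤ (n : ℤ) ^ 2

/-- The integers at three different places have sum zero. -/
def HasZero {n : ℕ} (x : Fin n → ℤ) : Prop :=
  ∃ i j l, i ≠ j ∧ i ≠ l ∧ j ≠ l ∧ x i + x j + x l = 0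

/-- the letter with number `n` -/
def ext {k q : ℕ} (a : Fin k → Fin q) (n : ℕ) : ℕ := if h : n < k then (a ⟨n, h⟩).1 else 0

theorem ext_lt {k q : ℕ} (a : Fin k → Fin q) {n : ℕ} (h : n < k) : ext a n < q := by
  unfold ext
  rw [dif_pos h]
  exact (a ⟨n, h⟩).2

theorem ext_eq {k q : ℕ} (a : Fin k → Fin q) {n : ℕ} (h : n < k) : ext a n = (a ⟨n, h⟩).1 := by
  unfold ext
  rw [dif_pos h]

section rank

variable {m : ℕ}

/-- number of the elements of `A` before `i` -/
def rk (A : Finset (Fin m)) (i : Fin m) : ℕ := (A.filter (· < i)).card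

/-- number of the elements of `E` after `i` -/
def rk' (E : Finset (Fin m)) (i : Fin m) : ℕ := (E.filter (i < ·)).card

theorem rk_le (A : Finset (Fin m)) (i : Fin m) : rk A i ≤ A.card := card_filter_le _ _

theorem rk'_le (A : Finset (Fin m)) (i : Fin m) : rk' A i ≤ A.card := card_filter_le _ _

theorem rk_lt {A : Finset (Fin m)} {i : Fin m} (h : i ∈ A) : rk A i < A.card := by
  apply card_lt_card
  rw [ssubset_iff_of_subset (filter_subset _ _)]
  exact ⟨i, h, by simp⟩

theorem rk'_lt {A : Finset (Fin m)} {i : Fin m} (h : i ∈ A) : rk' A i < A.card := by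
  apply card_lt_card
  rw [ssubset_iff_of_subset (filter_subset _ _)]
  exact ⟨i, h, by simp⟩

theorem rk_mono (A : Finset (Fin m)) {i j : Fin m} (h : i < j) : rk A i ≤ rk A j := by
  apply card_le_card
  intro x hx
  rw [mem_filter] at hx ⊢
  exact ⟨hx.1, hx.2.trans h⟩

theorem rk'_mono (A : Finset (Fin m)) {i j : Fin m} (h : i < j) : rk' A j ≤ rk' A i := by
  apply card_le_card
  intro x hx
  rw [mem_filter] at hx ⊢
  exact ⟨hx.1, h.trans hx.2⟩

theorem rk_strict (A : Finset (Fin m)) {i j : Fin m} (h : i < j) (hi : i ∈ A) :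
    rk A i + 1 ≤ rk A j := by
  apply card_lt_card
  rw [ssubset_iff_of_subset]
  · exact ⟨i, by simp [hi, h], by simp⟩
  · intro x hx
    rw [mem_filter] at hx ⊢
    exact ⟨hx.1, hx.2.trans h⟩

theorem rk'_strict (A : Finset (Fin m)) {i j : Fin m} (h : i < j) (hj : j ∈ A) :
    rk' A j + 1 ≤ rk' A i := by
  apply card_lt_card
  rw [ssubset_iff_of_subset]
  · exact ⟨j, by simp [hj, h], by simp⟩
  · intro x hx
    rw [mem_filter] at hx ⊢
    exact ⟨hx.1, h.trans hx.2⟩

theorem rk_surj {A : Finset (Fin m)} {j : ℕ} (hj : j < A.card) : ∃ i ∈ A, rk A i = j := by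
  classical
  have hinj : Set.InjOn (rk A) (A : Set (Fin m)) := by
    intro x hx y hy h
    by_contra hne
    rcases lt_or_gt_of_ne hne with h1 | h1
    · have := rk_strict A h1 hx
      omega
    · have := rk_strict A h1 hy
      omega
  have him : A.image (rk A) = range A.card := by
    apply eq_of_subset_of_card_le
    · intro y hy
      obtain ⟨x, hx, rfl⟩ := mem_image.1 hy
      exact mem_range.2 (rk_lt hx)
    · rw [card_range, card_image_of_injOn hinj]
  have : j ∈ A.image (rk A) := by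
    rw [him]
    exact mem_range.2 hj
  obtain ⟨x, hx, h⟩ := mem_image.1 this
  exact ⟨x, hx, h⟩

theorem rk'_surj {A : Finset (Fin m)} {j : ℕ} (hj : j < A.card) : ∃ i ∈ A, rk' A i = j := by
  classical
  have hinj : Set.InjOn (rk' A) (A : Set (Fin m)) := by
    intro x hx y hy h
    by_contra hne
    rcases lt_or_gt_of_ne hne with h1 | h1
    · have := rk'_strict A h1 hy
      omega
    · have := rk'_strict A h1 hx
      omega
  have him : A.image (rk' A) = range A.card := by
    apply eq_of_subset_of_card_le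
    · intro y hy
      obtain ⟨x, hx, rfl⟩ := mem_image.1 hy
      exact mem_range.2 (rk'_lt hx)
    · rw [card_range, card_image_of_injOn hinj]
  have : j ∈ A.image (rk' A) := by
    rw [him]
    exact mem_range.2 hj
  obtain ⟨x, hx, h⟩ := mem_image.1 this
  exact ⟨x, hx, h⟩

end rank

section code

variable {m k q : ℕ}

/-- the code of a place in the upper half -/
def cA (A : Finset (Fin m)) (a : Fin k → Fin q) (i : Fin m) : ℕ :=
  (q + m + 1) * rk A i + (if i ∈ A then m + 1 + ext a (rk A i) else i.1 + 1)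

/-- the code of a place in the lower half -/
def cE (E : Finset (Fin m)) (b : Fin k → Fin q) (i : Fin m) : ℕ :=
  (q + m + 1) * rk' E i + (if i ∈ E then m + 1 + ext b (rk' E i) else m - i.1)

theorem cA_mono {A : Finset (Fin m)} (hA : A.card = k) (a : Fin k → Fin q) {i j : Fin m}
    (h : i < j) : cA A a i + 1 ≤ cA A a j := by
  have hi := i.2
  have hj := j.2
  have hij : i.1 < j.1 := h
  unfold cA
  by_cases h1 : i ∈ A
  · have h2 := Nat.mul_le_mul_left (q + m + 1) (rk_strict A h h1)
    rw [mul_add, mul_one] at h2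
    have h3 := ext_lt a (by rw [← hA]; exact rk_lt h1)
    rw [if_pos h1]
    by_cases h4 : j ∈ A
    · rw [if_pos h4]
      omega
    · rw [if_neg h4]
      omega
  · have h2 := Nat.mul_le_mul_left (q + m + 1) (rk_mono A h)
    rw [if_neg h1]
    by_cases h4 : j ∈ A
    · rw [if_pos h4]
      omega
    · rw [if_neg h4]
      omega

theorem cE_mono {E : Finset (Fin m)} (hE : E.card = k) (b : Fin k → Fin q) {i j : Fin m}
    (h : i < j) : cE E b j + 1 ≤ cE E b i := by
  have hi := i.2
  have hj := j.2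
  have hij : i.1 < j.1 := h
  unfold cE
  by_cases h1 : j ∈ E
  · have h2 := Nat.mul_le_mul_left (q + m + 1) (rk'_strict E h h1)
    rw [mul_add, mul_one] at h2
    have h3 := ext_lt b (by rw [← hE]; exact rk'_lt h1)
    rw [if_pos h1]
    by_cases h4 : i ∈ E
    · rw [if_pos h4]
      omega
    · rw [if_neg h4]
      omega
  · have h2 := Nat.mul_le_mul_left (q + m + 1) (rk'_mono E h)
    rw [if_neg h1]
    by_cases h4 : i ∈ E
    · rw [if_pos h4]
      omega
    · rw [if_neg h4]
      omega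

theorem cA_le {A : Finset (Fin m)} (hA : A.card = k) (a : Fin k → Fin q) (i : Fin m) :
    cA A a i ≤ (q + m + 1) * k + (q + m + 1) := by
  have hi := i.2
  unfold cA
  have h2 := Nat.mul_le_mul_left (q + m + 1) (rk_le A i)
  rw [hA] at h2
  by_cases h1 : i ∈ A
  · have h3 := ext_lt a (by rw [← hA]; exact rk_lt h1)
    rw [if_pos h1]
    omega
  · rw [if_neg h1]
    omega

theorem cE_le {A : Finset (Fin m)} (hA : A.card = k) (a : Fin k → Fin q) (i : Fin m) :
    cE A a i ≤ (q + m + 1) * k + (q + m + 1) := by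
  have hi := i.2
  unfold cE
  have h2 := Nat.mul_le_mul_left (q + m + 1) (rk'_le A i)
  rw [hA] at h2
  by_cases h1 : i ∈ A
  · have h3 := ext_lt a (by rw [← hA]; exact rk'_lt h1)
    rw [if_pos h1]
    omega
  · rw [if_neg h1]
    omega

theorem cA_pos {A : Finset (Fin m)} (a : Fin k → Fin q) (i : Fin m) : 1 ≤ cA A a i := by
  unfold cA
  split_ifs <;> omega

theorem key {A E : Finset (Fin m)} (hA : A.card = k) (hE : E.card = k) (a b : Fin k → Fin q)
    (hab : ∀ j, a j ≠ b j) {i j : Fin m} (hi : i ∈ A) (hj : j ∈ E) : cA A a i ≠ cE E b j := by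
  intro h
  unfold cA cE at h
  rw [if_pos hi, if_pos hj] at h
  have h1 : rk A i < k := by rw [← hA]; exact rk_lt hi
  have h2 : rk' E j < k := by rw [← hE]; exact rk'_lt hj
  have h3 := ext_lt a h1
  have h4 := ext_lt b h2
  have h5 : rk A i = rk' E j := by
    by_contra hne
    rcases lt_or_gt_of_ne hne with h6 | h6
    · have h7 := Nat.mul_le_mul_left (q + m + 1) (Nat.succ_le_of_lt h6)
      rw [Nat.succ_eq_add_one, mul_add, mul_one] at h7
      omega
    · have h7 := Nat.mul_le_mul_left (q + m + 1) (Nat.succ_le_of_lt h6)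
      rw [Nat.succ_eq_add_one, mul_add, mul_one] at h7
      omega
  rw [h5] at h h3 h1
  have h6 : ext a (rk' E j) = ext b (rk' E j) := by omega
  rw [ext_eq a h1, ext_eq b h2] at h6
  exact hab _ (Fin.ext h6)

end code

section inst

variable {m k q : ℕ}

/-- The list. -/
def val (A E : Finset (Fin m)) (s : Fin m) (a b : Fin k → Fin q) (i : Fin m) : ℤ :=
  if i.1 < m / 2 then
    -(11 * ((((q + m + 1) * rk A s + (s.1 + 1) : ℕ) : ℤ) + (cE E b i : ℤ))) +
      (if i ∈ E then -1 else 3)
  else 11 * (cA A a i : ℤ) + (if i ∈ A then 1 else if i = s then 0 else 3)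

theorem inst_zero (X1 X2 A E : Finset (Fin m)) (hX1 : ∀ i ∈ X1, m / 2 ≤ i.1)
    (hX2 : ∀ i ∈ X2, i.1 < m / 2) (hA : A ⊆ X1)
    (hE : E ⊆ X2) (hkA : k ≤ A.card) (hkE : k ≤ E.card) (hk : 2 * k ≤ X1.card) (hk1 : 1 ≤ k)
    (hn : 11 * (2 * ((q + m + 1) * k) + (q + m + 1) + m + 1) + 3 ≤ m ^ 2) :
    HasInst (fun x : Fin m → ℤ => ¬ HasZero x) IsSorted k q A E := by
  classical
  obtain ⟨A', hA', hA'c⟩ := Finset.exists_subset_card_eq hkA
  obtain ⟨E', hE', hE'c⟩ := Finset.exists_subset_card_eq hkE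
  obtain ⟨s, hs, hsA⟩ : ∃ s ∈ X1, s ∉ A' := by
    by_contra hcon
    push Not at hcon
    have := card_le_card (show X1 ⊆ A' from hcon)
    omega
  have hsh : m / 2 ≤ s.1 := hX1 s hs
  have hAh : ∀ i ∈ A', m / 2 ≤ i.1 := fun i hi => hX1 i (hA (hA' hi))
  have hEh : ∀ i ∈ E', i.1 < m / 2 := fun i hi => hX2 i (hE (hE' hi))
  obtain ⟨T, hT⟩ : ∃ T, T = (q + m + 1) * rk A' s + (s.1 + 1) := ⟨_, rfl⟩
  have hTs : ∀ a : Fin k → Fin q, cA A' a s = T := fun a => by
    unfold cA
    rw [if_neg hsA, hT]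
  have hTle : T ≤ (q + m + 1) * k + m := by
    have h2 := Nat.mul_le_mul_left (q + m + 1) (rk_le A' s)
    rw [hA'c] at h2
    have := s.2
    omega
  have hT1 : 1 ≤ T := by omega
  refine ⟨fun a b => val A' E' s a b, ?_, ?_, ?_, ?_⟩
  · intro a b b' i hi
    have hi' : i ∉ E' := fun h => hi (hE' h)
    simp only [val, cE, if_neg hi']
  · intro a a' b i hi
    have hi' : i ∉ A' := fun h => hi (hA' h)
    simp only [val, cA, if_neg hi']
  · intro a b
    refine ⟨fun i j hij => ?_, fun i => ?_⟩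
    · show val A' E' s a b i < val A' E' s a b j
      have hij' : i.1 < j.1 := hij
      unfold val
      rw [← hT]
      have h1 : ((if i ∈ E' then -1 else 3 : ℤ)) ≤ 3 := by split_ifs <;> norm_num
      have h2 : (-1 : ℤ) ≤ (if j ∈ E' then -1 else 3 : ℤ) := by split_ifs <;> norm_num
      have h3 : ((if i ∈ A' then 1 else if i = s then 0 else 3 : ℤ)) ≤ 3 := by
        split_ifs <;> norm_num
      have h4 : (0 : ℤ) ≤ (if j ∈ A' then 1 else if j = s then 0 else 3 : ℤ) := by
        split_ifs <;> norm_num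
      have h5 := cA_mono hA'c a hij
      have h6 := cE_mono hE'c b hij
      have h7 : (1 : ℤ) ≤ (T : ℤ) := by exact_mod_cast hT1
      by_cases hi : i.1 < m / 2
      · rw [if_pos hi]
        by_cases hj : j.1 < m / 2
        · rw [if_pos hj]
          have h8 : ((cE E' b j : ℕ) : ℤ) + 1 ≤ (cE E' b i : ℤ) := by exact_mod_cast h6
          linarith
        · rw [if_neg hj]
          have h8 : (0 : ℤ) ≤ (cE E' b i : ℤ) := by positivity
          have h9 : (0 : ℤ) ≤ (cA A' a j : ℤ) := by positivity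
          linarith
      · have hj : ¬ j.1 < m / 2 := by omega
        rw [if_neg hi, if_neg hj]
        have h8 : ((cA A' a i : ℕ) : ℤ) + 1 ≤ (cA A' a j : ℤ) := by exact_mod_cast h5
        linarith
    · show |val A' E' s a b i| ≤ (m : ℤ) ^ 2
      have hn' : (11 * (2 * ((q + m + 1) * k) + (q + m + 1) + m + 1) + 3 : ℤ) ≤ (m : ℤ) ^ 2 := by
        exact_mod_cast hn
      have hT' : (T : ℤ) ≤ ((q + m + 1) * k + m : ℤ) := by exact_mod_cast hTle
      have h1 : ((cA A' a i : ℕ) : ℤ) ≤ ((q + m + 1) * k + (q + m + 1) : ℤ) := by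
        exact_mod_cast cA_le hA'c a i
      have h2 : ((cE E' b i : ℕ) : ℤ) ≤ ((q + m + 1) * k + (q + m + 1) : ℤ) := by
        exact_mod_cast cE_le hE'c b i
      have h3 : (0 : ℤ) ≤ (cE E' b i : ℤ) := by positivity
      have h4 : (0 : ℤ) ≤ (cA A' a i : ℤ) := by positivity
      have h5 : (0 : ℤ) ≤ (T : ℤ) := by positivity
      have h6 : (0 : ℤ) ≤ ((q : ℤ) + m + 1) * k := by positivity
      have h7 : (0 : ℤ) ≤ (m : ℤ) := by positivity
      have h8 : (0 : ℤ) ≤ (q : ℤ) := by positivity
      unfold val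
      rw [← hT, abs_le]
      by_cases hi : i.1 < m / 2
      · rw [if_pos hi]
        by_cases hi2 : i ∈ E'
        · rw [if_pos hi2]
          constructor <;> linarith
        · rw [if_neg hi2]
          constructor <;> linarith
      · rw [if_neg hi]
        by_cases hi2 : i ∈ A'
        · rw [if_pos hi2]
          constructor <;> linarith
        · rw [if_neg hi2]
          by_cases hi3 : i = s
          · rw [if_pos hi3]
            constructor <;> linarith
          · rw [if_neg hi3]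
            constructor <;> linarith
  · intro a b
    have vA : ∀ i ∈ A', val A' E' s a b i = 11 * (cA A' a i : ℤ) + 1 := fun i hi => by
      have := hAh i hi
      unfold val
      rw [if_neg (by omega), if_pos hi]
    have vE : ∀ i ∈ E', val A' E' s a b i = -(11 * ((T : ℤ) + (cE E' b i : ℤ))) + (-1) :=
      fun i hi => by
        have := hEh i hi
        unfold val
        rw [if_pos this, if_pos hi, hT]
    have vs : val A' E' s a b s = 11 * (T : ℤ) := by
      unfold val
      rw [if_neg (by omega), if_neg hsA, if_pos rfl, hTs, add_zero]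
    have hcases : ∀ i, ∃ u r : ℤ, val A' E' s a b i = 11 * u + r ∧
        (r = 3 ∨ (i ∈ A' ∧ r = 1 ∧ u = (cA A' a i : ℤ)) ∨ (i = s ∧ r = 0 ∧ u = (T : ℤ)) ∨
          (i ∈ E' ∧ r = -1 ∧ u = -((T : ℤ) + (cE E' b i : ℤ)))) := by
      intro i
      by_cases h1 : i ∈ A'
      · exact ⟨_, _, vA i h1, Or.inr (Or.inl ⟨h1, rfl, rfl⟩)⟩
      by_cases h2 : i ∈ E'
      · refine ⟨-((T : ℤ) + (cE E' b i : ℤ)), -1, ?_, Or.inr (Or.inr (Or.inr ⟨h2, rfl, rfl⟩))⟩
        rw [vE i h2]
        ring
      by_cases h3 : i = s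
      · refine ⟨(T : ℤ), 0, ?_, Or.inr (Or.inr (Or.inl ⟨h3, rfl, rfl⟩))⟩
        rw [h3, vs, add_zero]
      · by_cases h4 : i.1 < m / 2
        · refine ⟨-((T : ℤ) + (cE E' b i : ℤ)), 3, ?_, Or.inl rfl⟩
          unfold val
          rw [if_pos h4, if_neg h2, hT]
          ring
        · refine ⟨(cA A' a i : ℤ), 3, ?_, Or.inl rfl⟩
          unfold val
          rw [if_neg h4, if_neg h1, if_neg h3]
    constructor
    · intro hF j hj
      apply hF
      obtain ⟨i0, h0, r0⟩ := rk_surj (A := A') (j := j.1) (by rw [hA'c]; exact j.2)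
      obtain ⟨i1, h1, r1⟩ := rk'_surj (A := E') (j := j.1) (by rw [hE'c]; exact j.2)
      have e0 := hAh i0 h0
      have e1 := hEh i1 h1
      refine ⟨i0, i1, s, ?_, ?_, ?_, ?_⟩
      · rintro rfl
        omega
      · rintro rfl
        exact hsA h0
      · rintro rfl
        omega
      · show val A' E' s a b i0 + val A' E' s a b i1 + val A' E' s a b s = 0
        rw [vA i0 h0, vE i1 h1, vs]
        have h2 : cA A' a i0 = cE E' b i1 := by
          unfold cA cE
          rw [if_pos h0, if_pos h1, r0, r1, ext_eq a j.2, ext_eq b j.2]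
          have : a ⟨j.1, j.2⟩ = b ⟨j.1, j.2⟩ := hj
          rw [this]
        rw [h2]
        ring
    · rintro hab ⟨i0, i1, i2, d1, d2, d3, h⟩
      have hkey : ∀ i ∈ A', ∀ j ∈ E', (cA A' a i : ℤ) ≠ (cE E' b j : ℤ) := by
        intro i hi j hj h'
        exact key hA'c hE'c a b hab hi hj (by exact_mod_cast h')
      have h' : val A' E' s a b i0 + val A' E' s a b i1 + val A' E' s a b i2 = 0 := h
      obtain ⟨u0, r0, e0, c0⟩ := hcases i0
      obtain ⟨u1, r1, e1, c1⟩ := hcases i1
      obtain ⟨u2, r2, e2, c2⟩ := hcases i2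
      rw [e0, e1, e2] at h'
      rcases c0 with c0 | ⟨f0, c0, g0⟩ | ⟨f0, c0, g0⟩ | ⟨f0, c0, g0⟩ <;>
        rcases c1 with c1 | ⟨f1, c1, g1⟩ | ⟨f1, c1, g1⟩ | ⟨f1, c1, g1⟩ <;>
        rcases c2 with c2 | ⟨f2, c2, g2⟩ | ⟨f2, c2, g2⟩ | ⟨f2, c2, g2⟩ <;>
        first
          | omega
          | exact d1 (f0.trans f1.symm)
          | exact hkey _ f0 _ f1 (by omega)
          | exact hkey _ f0 _ f2 (by omega)
          | exact hkey _ f1 _ f0 (by omega)
          | exact hkey _ f1 _ f2 (by omega)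
          | exact hkey _ f2 _ f0 (by omega)
          | exact hkey _ f2 _ f1 (by omega)

end inst

end Pool.Agent.R643.WZ
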