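import Mathlib
import Pool.Agent.R643.WZa

set_option autoImplicit false

/-!
# Word circuits: three numbers of a sorted list with sum zero, the bounds
-/

open Finset

namespace Pool.Agent.R643.WZ

open Pool.Agent.Y631.Wc

/-- **Sum zero in sorted lists.** -/
theorem zero_bounds {r κ θ m q L : ℕ} (hr : 1 ≤ r) (hq : 2 ≤ q) (hqL : q ≤ L) (hqm : q ≤ m)
    {Z : Type} [Fintype Z] (hZ : Fintype.card Z ≤ L)
    (C : WCirc (Fin m) ℤ Z) (hκ : C.FanIn κ) (hθ : C.TreewidthLE θ)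
    (hR : C.reads ≤ r * m) :
    ((∀ x, IsSorted x → (C.Accepts x ↔ ¬ HasZero x)) →
      2 ^ (m / 2 ^ (24 * r + 1)) ≤ L ^ (10000 * r ^ 2 * (κ + 1) * (θ + 1))) ∧
    (C.Unambiguous → (∀ x, IsSorted x → (C.Accepts x ↔ ¬ HasZero x)) →
      q ^ (m / 2 ^ (24 * r + 1)) ≤ L ^ (10000 * r ^ 2 * (κ + 1) * (θ + 1))) ∧
    (C.Unambiguous → (∀ x, IsSorted x → (C.Accepts x ↔ HasZero x)) →
      q ^ (m / 2 ^ (24 * r + 1)) ≤ L ^ (10000 * r ^ 2 * (κ + 1) * (θ + 1)) + 1) := by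
  classical
  obtain ⟨k, hk⟩ : ∃ k, k = m / 2 ^ (24 * r + 1) := ⟨_, rfl⟩
  rw [← hk]
  by_cases hk0 : k = 0
  · rw [hk0]
    have h1 : 1 ≤ L ^ (10000 * r ^ 2 * (κ + 1) * (θ + 1)) := Nat.one_le_pow _ _ (by omega)
    exact ⟨fun _ => by simpa using h1, fun _ _ => by simpa using h1,
      fun _ _ => by simp⟩
  obtain ⟨h1, h2, h3, h4⟩ := numbers hr hk hk0
  obtain ⟨X1, hX1d⟩ : ∃ X1 : Finset (Fin m), X1 = univ.filter (fun i => m - m / 2 ≤ i.1) :=
    ⟨_, rfl⟩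
  obtain ⟨X2, hX2d⟩ : ∃ X2 : Finset (Fin m), X2 = univ.filter (fun i => i.1 < m / 2) :=
    ⟨_, rfl⟩
  have hX2c : X2.card = m / 2 := by
    rw [hX2d, Fin.card_filter_val_lt]
    omega
  have hX1c : X1.card = m / 2 := by
    have e1 : (univ.filter (fun i : Fin m => i.1 < m - m / 2)).card = m - m / 2 := by
      rw [Fin.card_filter_val_lt]
      omega
    have e2 := Finset.card_filter_add_card_filter_not (s := (univ : Finset (Fin m)))
      (fun i => i.1 < m - m / 2)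
    rw [card_univ, Fintype.card_fin, e1] at e2
    have e3 : X1 = univ.filter (fun i : Fin m => ¬ i.1 < m - m / 2) := by
      rw [hX1d]
      apply Finset.filter_congr
      intro i _
      omega
    rw [e3]
    omega
  have hX1h : ∀ i ∈ X1, m / 2 ≤ i.1 := by
    intro i hi
    rw [hX1d, mem_filter] at hi
    omega
  have hX2h : ∀ i ∈ X2, i.1 < m / 2 := by
    intro i hi
    rw [hX2d, mem_filter] at hi
    exact hi.2
  have hX : Disjoint X1 X2 := by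
    rw [Finset.disjoint_left]
    intro i hi hi'
    have := hX1h i hi
    have := hX2h i hi'
    omega
  have hsize : 11 * (2 * ((q + m + 1) * k) + (q + m + 1) + m + 1) + 3 ≤ m ^ 2 := by
    have a1 : 4 ^ (12 * r) = 4 ^ 12 * 4 ^ (12 * (r - 1)) := by
      rw [← pow_add]
      congr 1
      omega
    have a2 : 1 ≤ 4 ^ (12 * (r - 1)) := Nat.one_le_pow _ _ (by norm_num)
    have a3 : 4 ^ 12 * k ≤ 4 ^ (12 * r) * k := by
      apply Nat.mul_le_mul_right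
      rw [a1]
      exact Nat.le_mul_of_pos_right _ (by omega)
    have a4 : 200 * k ≤ m := by
      have : (4 : ℕ) ^ 12 = 16777216 := by norm_num
      rw [this] at a3
      omega
    have a5 : 1 ≤ k := Nat.one_le_iff_ne_zero.2 hk0
    have a6 : (q + m + 1) * k ≤ (3 * m) * k := Nat.mul_le_mul_right _ (by omega)
    have a7 : m * 1 ≤ m * k := Nat.mul_le_mul_left _ a5
    have a8 : m * (200 * k) ≤ m * m := Nat.mul_le_mul_left _ a4
    have a9 : m ^ 2 = m * m := by ring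
    have a10 : m * (200 * k) = 200 * (m * k) := by ring
    have a11 : (3 * m) * k = 3 * (m * k) := by ring
    rw [a11] at a6
    rw [a9]
    omega
  have h5 := bounds C hr hκ hθ hR X1 X2 hX hX1c hX2c h1 h2 rfl h3 hq hqL hZ
    (fun x : Fin m → ℤ => ¬ HasZero x) IsSorted
    (fun A hA E hE hkA hkE => inst_zero X1 X2 A E hX1h hX2h hA hE hkA hkE (by omega) (by omega)
      hsize)
  refine ⟨h5.1, h5.2.1, fun hU hC => h5.2.2 hU (fun x hx => ?_)⟩
  rw [hC x hx, not_not]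

theorem zero_superlinear (c κ : ℕ) (ε : ℝ) (hε : 0 < ε) (hε1 : ε ≤ 1) : ∃ m₀ : ℕ,
    ∀ m ≥ m₀, ∀ (Z : Type) [Fintype Z], Fintype.card Z ≤ m ^ c →
      ∀ (C : WCirc (Fin m) ℤ Z) (θ : ℕ), C.FanIn κ → C.TreewidthLE θ →
        (θ : ℝ) ≤ (m : ℝ) ^ (1 - ε) → C.Unambiguous →
        ((∀ x, IsSorted x → (C.Accepts x ↔ HasZero x)) ∨
          (∀ x, IsSorted x → (C.Accepts x ↔ ¬ HasZero x))) →
        ε / 30 * (m * Real.logb 2 m) ≤ C.reads := by
  obtain ⟨m₀, h2, hm₀⟩ := superlinear c κ ε hε hε1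
  refine ⟨m₀, fun m hm Z _ hZ C θ hκ hθ hθm hU hC => hm₀ m hm _ θ hθm fun r hr hR => ?_⟩
  have hm1 : 1 ≤ m := by omega
  have hL : m ≤ m ^ (c + 1) := by
    calc m = m ^ 1 := (pow_one m).symm
      _ ≤ m ^ (c + 1) := Nat.pow_le_pow_right hm1 (by omega)
  have hZ2 : Fintype.card Z ≤ m ^ (c + 1) :=
    hZ.trans (Nat.pow_le_pow_right hm1 (by omega))
  have h3 := zero_bounds (q := m) (L := m ^ (c + 1)) hr (by omega) hL le_rfl hZ2 C hκ
    hθ hR
  rcases hC with hC | hC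
  · exact h3.2.2 hU hC
  · exact (h3.2.1 hU hC).trans (Nat.le_succ _)

/-- Random circuits that are always correct. -/
theorem zero_random (c κ : ℕ) (ε : ℝ) (hε : 0 < ε) (hε1 : ε ≤ 1) : ∃ m₀ : ℕ,
    ∀ m ≥ m₀, ∀ (Z : Type) [Fintype Z], Fintype.card Z ≤ m ^ c →
      ∀ (Ω : Type) [Fintype Ω] (p : Ω → ℝ), (∀ ω, 0 ≤ p ω) → ∑ ω, p ω = 1 →
      ∀ (C : Ω → WCirc (Fin m) ℤ Z) (θ : ℕ), (θ : ℝ) ≤ (m : ℝ) ^ (1 - ε) →
        (∀ ω, (C ω).FanIn κ ∧ (C ω).TreewidthLE θ ∧ (C ω).Unambiguous ∧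
          ((∀ x, IsSorted x → ((C ω).Accepts x ↔ HasZero x)) ∨
            (∀ x, IsSorted x → ((C ω).Accepts x ↔ ¬ HasZero x)))) →
        ε / 30 * (m * Real.logb 2 m) ≤ ∑ ω, p ω * (C ω).reads := by
  obtain ⟨m₀, hm₀⟩ := zero_superlinear c κ ε hε hε1
  refine ⟨m₀, fun m hm Z _ hZ Ω _ p hp hp1 C θ hθm h => ?_⟩
  calc ε / 30 * (m * Real.logb 2 m) = ∑ ω, p ω * (ε / 30 * (m * Real.logb 2 m)) := by
        rw [← Finset.sum_mul, hp1, one_mul]
    _ ≤ ∑ ω, p ω * (C ω).reads := by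
        apply Finset.sum_le_sum
        intro ω _
        apply mul_le_mul_of_nonneg_left _ (hp ω)
        obtain ⟨h1, h2, h3, h4⟩ := h ω
        exact hm₀ m hm Z hZ (C ω) θ h1 h2 hθm h3 h4

end Pool.Agent.R643.WZ
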