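import Pool.Agent.R643.Focal

set_option autoImplicit false

/-!
# Weighted word norms on a free group of infinite rank
-/

namespace Pool.Agent.R643

/-- weight of a word -/
def wt (w : ℤ → ℝ) (L : List (ℤ × Bool)) : ℝ := (L.map (fun p => w p.1)).sum

theorem wt_append (w : ℤ → ℝ) (L L' : List (ℤ × Bool)) : wt w (L ++ L') = wt w L + wt w L' := by
  unfold wt; rw [List.map_append, List.sum_append]

theorem wt_cons (w : ℤ → ℝ) (p : ℤ × Bool) (L : List (ℤ × Bool)) :
    wt w (p :: L) = w p.1 + wt w L := by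
  unfold wt; simp

theorem wt_nonneg {w : ℤ → ℝ} (hw : ∀ i, 0 < w i) (L : List (ℤ × Bool)) : 0 ≤ wt w L := by
  induction L with
  | nil => simp [wt]
  | cons p L ih => rw [wt_cons]; linarith [hw p.1]

theorem wt_sublist {w : ℤ → ℝ} (hw : ∀ i, 0 < w i) {L L' : List (ℤ × Bool)}
    (h : L.Sublist L') : wt w L ≤ wt w L' := by
  induction h with
  | slnil => exact le_rfl
  | cons p _ ih => rw [wt_cons]; linarith [hw p.1]
  | cons_cons p _ ih => rw [wt_cons, wt_cons]; linarith

theorem wt_reverse (w : ℤ → ℝ) (L : List (ℤ × Bool)) : wt w L.reverse = wt w L := by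
  unfold wt; rw [List.map_reverse, List.sum_reverse]

theorem le_wt {w : ℤ → ℝ} (hw : ∀ i, 0 < w i) {L : List (ℤ × Bool)} {p : ℤ × Bool} (h : p ∈ L) :
    w p.1 ≤ wt w L := by
  induction L with
  | nil => simp at h
  | cons q L ih =>
    rw [wt_cons]
    rcases List.mem_cons.1 h with rfl | h
    · linarith [wt_nonneg hw L]
    · linarith [ih h, hw q.1]

/-- the weighted word norm -/
def nrm (w : ℤ → ℝ) (g : FreeGroup ℤ) : ℝ := wt w g.toWord

theorem nrm_mk_le {w : ℤ → ℝ} (hw : ∀ i, 0 < w i) (L : List (ℤ × Bool)) :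
    nrm w (FreeGroup.mk L) ≤ wt w L := by
  unfold nrm
  rw [FreeGroup.toWord_mk]
  exact wt_sublist hw (FreeGroup.Red.sublist FreeGroup.reduce.red)

theorem nrm_one (w : ℤ → ℝ) : nrm w 1 = 0 := by unfold nrm wt; simp

theorem nrm_nonneg {w : ℤ → ℝ} (hw : ∀ i, 0 < w i) (g : FreeGroup ℤ) : 0 ≤ nrm w g :=
  wt_nonneg hw _

theorem nrm_pos {w : ℤ → ℝ} (hw : ∀ i, 0 < w i) {g : FreeGroup ℤ} (hg : g ≠ 1) : 0 < nrm w g := by
  unfold nrm
  have h : g.toWord ≠ [] := by
    intro h
    exact hg (FreeGroup.toWord_eq_nil_iff.1 h)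
  obtain ⟨p, L, hL⟩ := List.exists_cons_of_ne_nil h
  rw [hL, wt_cons]
  linarith [hw p.1, wt_nonneg hw L]

theorem nrm_mul {w : ℤ → ℝ} (hw : ∀ i, 0 < w i) (g h : FreeGroup ℤ) :
    nrm w (g * h) ≤ nrm w g + nrm w h := by
  have e : g * h = FreeGroup.mk (g.toWord ++ h.toWord) := by
    rw [← FreeGroup.mul_mk, FreeGroup.mk_toWord, FreeGroup.mk_toWord]
  rw [e]
  refine (nrm_mk_le hw _).trans ?_
  rw [wt_append]; rfl

theorem wt_invRev (w : ℤ → ℝ) (L : List (ℤ × Bool)) : wt w (FreeGroup.invRev L) = wt w L := by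
  unfold FreeGroup.invRev
  rw [wt_reverse]
  unfold wt
  rw [List.map_map]; rfl

theorem nrm_inv (w : ℤ → ℝ) (g : FreeGroup ℤ) : nrm w g⁻¹ = nrm w g := by
  unfold nrm
  rw [FreeGroup.toWord_inv, wt_invRev]

/-- translation of the generators -/
def shift (n : ℤ) : FreeGroup ℤ ≃* FreeGroup ℤ := FreeGroup.freeGroupCongr (Equiv.addRight n)

theorem shift_of (n i : ℤ) : shift n (FreeGroup.of i) = FreeGroup.of (i + n) := by
  unfold shift
  simp

theorem shift_add (m n : ℤ) (g : FreeGroup ℤ) : shift (m + n) g = shift m (shift n g) := by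
  have : (shift (m + n)).toMonoidHom = (shift m).toMonoidHom.comp (shift n).toMonoidHom := by
    apply FreeGroup.ext_hom
    intro i
    show shift (m + n) (FreeGroup.of i) = shift m (shift n (FreeGroup.of i))
    rw [shift_of, shift_of, shift_of]
    congr 1; ring
  exact DFunLike.congr_fun this g

theorem shift_zero (g : FreeGroup ℤ) : shift 0 g = g := by
  have : (shift 0).toMonoidHom = MonoidHom.id _ := by
    apply FreeGroup.ext_hom
    intro i
    show shift 0 (FreeGroup.of i) = FreeGroup.of i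
    rw [shift_of, add_zero]
  exact DFunLike.congr_fun this g

theorem shift_mk (n : ℤ) (L : List (ℤ × Bool)) :
    shift n (FreeGroup.mk L) = FreeGroup.mk (L.map (fun p => (p.1 + n, p.2))) := by
  unfold shift
  simp

theorem nrm_shift_le {w : ℤ → ℝ} (hw : ∀ i, 0 < w i) {n : ℤ} {c : ℝ}
    (hc : ∀ i, w (i + n) = c * w i) (g : FreeGroup ℤ) : nrm w (shift n g) ≤ c * nrm w g := by
  have e : shift n g = FreeGroup.mk (g.toWord.map (fun p => (p.1 + n, p.2))) := by
    rw [← shift_mk, FreeGroup.mk_toWord]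
  rw [e]
  refine (nrm_mk_le hw _).trans (le_of_eq ?_)
  unfold nrm
  generalize g.toWord = L
  induction L with
  | nil => simp [wt]
  | cons p L ih =>
    rw [List.map_cons, wt_cons, wt_cons, ih, mul_add, hc]

theorem nrm_shift {w : ℤ → ℝ} (hw : ∀ i, 0 < w i) {n : ℤ} {c : ℝ} (hc0 : 0 < c)
    (hc : ∀ i, w (i + n) = c * w i) (g : FreeGroup ℤ) : nrm w (shift n g) = c * nrm w g := by
  apply le_antisymm (nrm_shift_le hw hc g)
  have hc' : ∀ i, w (i + -n) = c⁻¹ * w i := by
    intro i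
    have := hc (i + -n)
    rw [neg_add_cancel_right] at this
    rw [this]; field_simp
  have h := nrm_shift_le hw hc' (shift n g)
  rw [← shift_add, neg_add_cancel, shift_zero] at h
  rw [mul_comm]
  calc nrm w g * c ≤ (c⁻¹ * nrm w (shift n g)) * c := mul_le_mul_of_nonneg_right h hc0.le
    _ = nrm w (shift n g) := by field_simp

/-- **Finiteness.** -/
theorem finite_nrm (C : ℝ) : {g : FreeGroup ℤ | nrm (fun i => (2 : ℝ) ^ (-i)) g ≤ C ∧
    nrm (fun i => (2 : ℝ) ^ i) g ≤ C}.Finite := by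
  classical
  obtain ⟨n, hn⟩ := NormData.exists_pow_ge C
  obtain ⟨m, hm⟩ := exists_nat_ge (2 * C)
  let S : Set (ℤ × Bool) := Set.Icc (-(n : ℤ)) n ×ˢ Set.univ
  have hS : S.Finite := (Set.finite_Icc _ _).prod Set.finite_univ
  have : Finite S := hS
  have hfin : {L : List (ℤ × Bool) | (∀ p ∈ L, p ∈ S) ∧ L.length ≤ m}.Finite := by
    refine ((List.finite_length_le S m).image (List.map Subtype.val)).subset ?_
    rintro L ⟨h1, h2⟩
    lift L to List S using h1
    exact ⟨L, by simpa using h2, rfl⟩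
  have hinj : Function.Injective (fun g : FreeGroup ℤ => g.toWord) := FreeGroup.toWord_injective
  refine Set.Finite.of_finite_image (f := fun g : FreeGroup ℤ => g.toWord) (hfin.subset ?_)
    hinj.injOn
  rintro _ ⟨g, ⟨h1, h2⟩, rfl⟩
  have hw1 : ∀ i : ℤ, (0 : ℝ) < 2 ^ (-i) := fun i => by positivity
  have hw2 : ∀ i : ℤ, (0 : ℝ) < 2 ^ i := fun i => by positivity
  refine ⟨?_, ?_⟩
  · intro p hp
    have a1 := (le_wt hw1 hp).trans (h1.trans hn)
    have a2 := (le_wt hw2 hp).trans (h2.trans hn)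
    rw [← zpow_natCast] at a1 a2
    have b1 := (zpow_le_zpow_iff_right₀ (by norm_num : (1 : ℝ) < 2)).1 a1
    have b2 := (zpow_le_zpow_iff_right₀ (by norm_num : (1 : ℝ) < 2)).1 a2
    exact ⟨⟨by linarith, b2⟩, trivial⟩
  · have hlen : (g.toWord.length : ℝ) ≤ wt (fun i => (2 : ℝ) ^ (-i)) g.toWord +
        wt (fun i => (2 : ℝ) ^ i) g.toWord := by
      generalize g.toWord = L
      induction L with
      | nil => simp [wt]
      | cons p L ih =>
        rw [wt_cons, wt_cons, List.length_cons]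
        push_cast
        have : (1 : ℝ) ≤ 2 ^ (-p.1) + 2 ^ p.1 := by
          rcases le_total 0 p.1 with h | h
          · have h3 : (1 : ℝ) ≤ 2 ^ p.1 := one_le_zpow₀ (by norm_num) h
            linarith [hw1 p.1]
          · have h3 : (1 : ℝ) ≤ 2 ^ (-p.1) := one_le_zpow₀ (by norm_num) (by linarith)
            linarith [hw2 p.1]
        linarith
    have h1' : wt (fun i => (2 : ℝ) ^ (-i)) g.toWord ≤ C := h1
    have h2' : wt (fun i => (2 : ℝ) ^ i) g.toWord ≤ C := h2
    have : (g.toWord.length : ℝ) ≤ m := by linarith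
    exact_mod_cast this

end Pool.Agent.R643
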